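import Pool.Agent.Univ.Defs

/-! UG-7b: the empty triangle above an edge of a maximal plane graph. -/

namespace Pool.Agent.Univ

/-- the point with parameter `t` on the line `uw` -/
def apL (t : ℝ) (u w : Pt) : Pt := ((1 - t) * u.1 + t * w.1, (1 - t) * u.2 + t * w.2)

theorem ap_or3 (a b u w : Pt) (t : ℝ) :
    orient a b (apL t u w) = (1 - t) * orient a b u + t * orient a b w := by
  simp only [orient, apL]; ring

theorem ap_rot (a b c : Pt) : orient a b c = orient b c a := by
  simp only [orient]; ring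

theorem ap_swap (a b c : Pt) : orient a b c = - orient b a c := by
  simp only [orient]; ring

theorem ap_aab (a b : Pt) : orient a b a = 0 := by simp only [orient]; ring
theorem ap_abb (a b : Pt) : orient a b b = 0 := by simp only [orient]; ring
theorem ap_aa (a b : Pt) : orient a a b = 0 := by simp only [orient]; ring

theorem ap_sum (a b p x : Pt) : orient p a x + orient a b x + orient b p x = orient a b p := by
  simp only [orient]; ring

/-- parameters of a proper crossing -/
theorem ap_params (a b u w : Pt) (h : Cross a b u w) :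
    ∃ μ ν : ℝ, 0 < μ ∧ μ < 1 ∧ 0 < ν ∧ ν < 1 ∧ apL μ a b = apL ν u w ∧
      μ = orient u w a / (orient u w a - orient u w b) := by
  obtain ⟨h1, h2⟩ := h
  set α := orient a b u with hα
  set β := orient a b w with hβ
  set γ := orient u w a with hγ
  set δ := orient u w b with hδ
  have e0 : (α - β) = (δ - γ) := by simp only [hα, hβ, hγ, hδ, orient]; ring
  have n1 : α - β ≠ 0 := by
    intro h; have : α = β := by linarith
    rw [this] at h1; nlinarith [mul_self_nonneg β]
  have n2 : γ - δ ≠ 0 := by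
    intro h; have : γ = δ := by linarith
    rw [this] at h2; nlinarith [mul_self_nonneg δ]
  refine ⟨γ / (γ - δ), α / (α - β), ?_, ?_, ?_, ?_, ?_, rfl⟩
  · rcases mul_neg_iff.1 h2 with ⟨p, q⟩ | ⟨p, q⟩
    · exact div_pos p (by linarith)
    · exact div_pos_of_neg_of_neg p (by linarith)
  · rcases mul_neg_iff.1 h2 with ⟨p, q⟩ | ⟨p, q⟩
    · rw [div_lt_one (by linarith)]; linarith
    · rw [div_lt_one_of_neg (by linarith)]; linarith
  · rcases mul_neg_iff.1 h1 with ⟨p, q⟩ | ⟨p, q⟩
    · exact div_pos p (by linarith)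
    · exact div_pos_of_neg_of_neg p (by linarith)
  · rcases mul_neg_iff.1 h1 with ⟨p, q⟩ | ⟨p, q⟩
    · rw [div_lt_one (by linarith)]; linarith
    · rw [div_lt_one_of_neg (by linarith)]; linarith
  · have e1 : (α - β) * (apL (γ / (γ - δ)) a b).1 = (α - β) * (apL (α / (α - β)) u w).1 := by
      simp only [apL]
      field_simp
      simp only [hα, hβ, hγ, hδ, orient]
      ring
    have e2 : (α - β) * (apL (γ / (γ - δ)) a b).2 = (α - β) * (apL (α / (α - β)) u w).2 := by
      simp only [apL]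
      field_simp
      simp only [hα, hβ, hγ, hδ, orient]
      ring
    exact Prod.ext (mul_left_cancel₀ n1 e1) (mul_left_cancel₀ n1 e2)

theorem ap_cross_swap {a b c d : Pt} (h : Cross a b c d) : Cross a b d c := by
  obtain ⟨h1, h2⟩ := h
  refine ⟨by linarith, ?_⟩
  rw [ap_swap d c a, ap_swap d c b]; linarith

theorem ap_cross_swap1 {a b c d : Pt} (h : Cross a b c d) : Cross b a c d := by
  obtain ⟨h1, h2⟩ := h
  refine ⟨?_, by linarith⟩
  rw [ap_swap b a c, ap_swap b a d]; linarith

theorem ap_cross_comm {a b c d : Pt} (h : Cross a b c d) : Cross c d a b := ⟨h.2, h.1⟩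

variable {V : Type*}

/-- A convex combination which is zero. -/
theorem ap_neg {x y t : ℝ} (ht0 : 0 < t) (ht1 : t < 1) (h : (1 - t) * x + t * y = 0)
    (hx : x ≠ 0) : x * y < 0 := by
  have h1 : t * (x * y) = -((1 - t) * (x * x)) := by linear_combination x * h
  have h2 : 0 < (1 - t) * (x * x) := mul_pos (by linarith) (mul_self_pos.2 hx)
  by_contra hc
  push Not at hc
  have := mul_nonneg ht0.le hc
  linarith

/-- An edge not incident with `a` has no interior point on `[a, b)`. -/
theorem ap_nomeet {pt : V → Pt} {A : V → V → Prop} (h : MaxPlane pt A) {a b u w : V}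
    (hab : A a b) (huw : A u w) (hua : u ≠ a) (hwa : w ≠ a) {μ ν : ℝ} (hμ0 : 0 ≤ μ) (hμ1 : μ < 1)
    (hν0 : 0 < ν) (hν1 : ν < 1) (he : apL μ (pt a) (pt b) = apL ν (pt u) (pt w)) : False := by
  have hne : a ≠ b := fun e => h.irrefl a (by rw [← e] at hab; exact hab)
  have hne2 : u ≠ w := fun e => h.irrefl u (by rw [← e] at huw; exact huw)
  have e1 : (1 - ν) * orient (pt a) (pt b) (pt u) + ν * orient (pt a) (pt b) (pt w) = 0 := by
    rw [← ap_or3, ← he, ap_or3, ap_aab, ap_abb]; ring
  have e2 : (1 - μ) * orient (pt u) (pt w) (pt a) + μ * orient (pt u) (pt w) (pt b) = 0 := by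
    rw [← ap_or3, he, ap_or3, ap_aab, ap_abb]; ring
  have hub : u ≠ b := by
    rintro rfl
    rw [ap_abb, mul_zero, zero_add] at e1
    have := (mul_eq_zero.1 e1).resolve_left hν0.ne'
    exact h.gen.not_col a u w hne hwa.symm hne2 this
  have hwb : w ≠ b := by
    rintro rfl
    rw [ap_abb, mul_zero, add_zero] at e1
    have := (mul_eq_zero.1 e1).resolve_left (by linarith)
    exact h.gen.not_col a w u hne hua.symm hne2.symm this
  have n1 : orient (pt a) (pt b) (pt u) ≠ 0 := h.gen.not_col a b u hne hua.symm hub.symm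
  have n2 : orient (pt u) (pt w) (pt a) ≠ 0 := h.gen.not_col u w a hne2 hua hwa
  have n3 : orient (pt u) (pt w) (pt b) ≠ 0 := h.gen.not_col u w b hne2 hub hwb
  have c1 := ap_neg hν0 hν1 e1 n1
  have hμ : 0 < μ := by
    rcases hμ0.eq_or_lt with h0 | h0
    · rw [← h0] at e2; simp at e2; exact absurd e2 n2
    · exact h0
  have c2 := ap_neg hμ hμ1 e2 n2
  exact h.nocross a b u w hab huw ⟨c1, c2⟩

theorem ap_comb (t ν : ℝ) (u w : Pt) : apL t (apL ν u w) u = apL ((1 - t) * ν) u w := by
  simp only [apL]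
  exact Prod.ext (by ring) (by ring)

/-- a point with `orient a b x = 0` lies on the line `ab` -/
theorem ap_on (a b p x : Pt) (hD : orient a b p ≠ 0) (h0 : orient a b x = 0) :
    x = apL (orient p a x / orient a b p) a b := by
  have e1 : (x.1 - a.1) * orient a b p = orient p a x * (b.1 - a.1) +
      orient a b x * (p.1 - a.1) := by simp only [orient]; ring
  have e2 : (x.2 - a.2) * orient a b p = orient p a x * (b.2 - a.2) +
      orient a b x * (p.2 - a.2) := by simp only [orient]; ring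
  rw [h0, zero_mul, add_zero] at e1 e2
  refine Prod.ext ?_ ?_
  · simp only [apL]
    field_simp
    linear_combination e1
  · simp only [apL]
    field_simp
    linear_combination e2

/-- exit lemma -/
theorem ap_exit {pt : V → Pt} {A : V → V → Prop} (h : MaxPlane pt A) {a b p u w : V}
    (hab : A a b) (hap : A a p) (hD : 0 < orient (pt a) (pt b) (pt p)) (huw : A u w)
    (hua : u ≠ a) {ν : ℝ} (hν0 : 0 < ν) (hν1 : ν < 1)
    (hB : 0 < orient (pt p) (pt a) (apL ν (pt u) (pt w)))
    (hG : 0 < orient (pt a) (pt b) (apL ν (pt u) (pt w)))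
    (hH : 0 ≤ orient (pt b) (pt p) (apL ν (pt u) (pt w)))
    (hHu : 0 < orient (pt b) (pt p) (pt u)) :
    0 ≤ orient (pt p) (pt a) (pt u) ∧ 0 ≤ orient (pt a) (pt b) (pt u) := by
  set c := apL ν (pt u) (pt w) with hc
  -- `w = a` is easy
  by_cases hwa : w = a
  · subst hwa
    rw [hc, ap_or3, ap_abb, mul_zero, add_zero] at hB
    rw [hc, ap_or3, ap_aab, mul_zero, add_zero] at hG
    exact ⟨((mul_pos_iff_of_pos_left (by linarith)).1 hB).le,
      ((mul_pos_iff_of_pos_left (by linarith)).1 hG).le⟩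
  -- no exit through `ab`
  have sideG : ∀ t : ℝ, 0 < t → t < 1 → orient (pt a) (pt b) (apL t c (pt u)) = 0 →
      0 ≤ orient (pt p) (pt a) (apL t c (pt u)) → False := by
    intro t ht0 ht1 h0 h1
    have h2 : 0 < orient (pt b) (pt p) (apL t c (pt u)) := by
      rw [ap_or3]
      have := mul_nonneg (by linarith : (0:ℝ) ≤ 1 - t) hH
      have := mul_pos ht0 hHu
      linarith
    have hs := ap_sum (pt a) (pt b) (pt p) (apL t c (pt u))
    have hon := ap_on (pt a) (pt b) (pt p) (apL t c (pt u)) hD.ne' h0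
    have hcm : apL t c (pt u) = apL ((1 - t) * ν) (pt u) (pt w) := by rw [hc, ap_comb]
    refine ap_nomeet h hab huw hua hwa (μ := orient (pt p) (pt a) (apL t c (pt u)) /
      orient (pt a) (pt b) (pt p)) (ν := (1 - t) * ν) (div_nonneg h1 hD.le) ?_ ?_ ?_ ?_
    · rw [div_lt_one hD]; linarith
    · exact mul_pos (by linarith) hν0
    · nlinarith
    · rw [← hon, hcm]
  have sideB : ∀ t : ℝ, 0 < t → t < 1 → orient (pt p) (pt a) (apL t c (pt u)) = 0 →
      0 ≤ orient (pt a) (pt b) (apL t c (pt u)) → False := by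
    intro t ht0 ht1 h0 h1
    have h2 : 0 < orient (pt b) (pt p) (apL t c (pt u)) := by
      rw [ap_or3]
      have := mul_nonneg (by linarith : (0:ℝ) ≤ 1 - t) hH
      have := mul_pos ht0 hHu
      linarith
    have hs := ap_sum (pt a) (pt b) (pt p) (apL t c (pt u))
    have hD' : orient (pt a) (pt p) (pt b) ≠ 0 := by
      intro h3
      have : orient (pt a) (pt b) (pt p) = - orient (pt a) (pt p) (pt b) := by
        simp only [orient]; ring
      linarith
    have h0' : orient (pt a) (pt p) (apL t c (pt u)) = 0 := by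
      rw [ap_swap, h0, neg_zero]
    have hon := ap_on (pt a) (pt p) (pt b) (apL t c (pt u)) hD' h0'
    have hcm : apL t c (pt u) = apL ((1 - t) * ν) (pt u) (pt w) := by rw [hc, ap_comb]
    have hrat : orient (pt b) (pt a) (apL t c (pt u)) / orient (pt a) (pt p) (pt b) =
        orient (pt a) (pt b) (apL t c (pt u)) / orient (pt a) (pt b) (pt p) := by
      have e1 : orient (pt a) (pt p) (pt b) = - orient (pt a) (pt b) (pt p) := by
        simp only [orient]; ring
      rw [e1, ap_swap (pt b) (pt a), neg_div_neg_eq]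
    rw [hrat] at hon
    refine ap_nomeet h hap huw hua hwa (μ := orient (pt a) (pt b) (apL t c (pt u)) /
      orient (pt a) (pt b) (pt p)) (ν := (1 - t) * ν) (div_nonneg h1 hD.le) ?_ ?_ ?_ ?_
    · rw [div_lt_one hD]; linarith
    · exact mul_pos (by linarith) hν0
    · nlinarith
    · rw [← hon, hcm]
  set Bc := orient (pt p) (pt a) c
  set Gc := orient (pt a) (pt b) c
  set Bu := orient (pt p) (pt a) (pt u) with hBu
  set Gu := orient (pt a) (pt b) (pt u) with hGu
  have key : ∀ x y : ℝ, 0 < x → y < 0 → 0 < x / (x - y) ∧ x / (x - y) < 1 ∧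
      (1 - x / (x - y)) * x + x / (x - y) * y = 0 := by
    intro x y hx hy
    have : 0 < x - y := by linarith
    refine ⟨div_pos hx this, ?_, ?_⟩
    · rw [div_lt_one this]; linarith
    · field_simp; ring
  by_contra hcon
  have hBneg : Bu < 0 → 0 ≤ (1 - Bc / (Bc - Bu)) * Gc + Bc / (Bc - Bu) * Gu → False := by
    intro h1 h2
    obtain ⟨k1, k2, k3⟩ := key Bc Bu hB h1
    exact sideB _ k1 k2 (by rw [ap_or3]; exact k3) (by rw [ap_or3]; exact h2)
  have hGneg : Gu < 0 → 0 ≤ (1 - Gc / (Gc - Gu)) * Bc + Gc / (Gc - Gu) * Bu → False := by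
    intro h1 h2
    obtain ⟨k1, k2, k3⟩ := key Gc Gu hG h1
    exact sideG _ k1 k2 (by rw [ap_or3]; exact k3) (by rw [ap_or3]; exact h2)
  rcases lt_or_ge Gu 0 with hg | hg
  · rcases lt_or_ge Bu 0 with hb | hb
    · -- compare the two exit times
      obtain ⟨k1, k2, k3⟩ := key Gc Gu hG hg
      obtain ⟨l1, l2, l3⟩ := key Bc Bu hB hb
      rcases le_total (Gc / (Gc - Gu)) (Bc / (Bc - Bu)) with hle | hle
      · apply hGneg hg
        nlinarith
      · apply hBneg hb
        nlinarith
    · apply hGneg hg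
      obtain ⟨k1, k2, k3⟩ := key Gc Gu hG hg
      have := mul_nonneg (by linarith : (0:ℝ) ≤ 1 - Gc / (Gc - Gu)) hB.le
      have := mul_nonneg k1.le hb
      linarith
  · rcases lt_or_ge Bu 0 with hb | hb
    · apply hBneg hb
      obtain ⟨k1, k2, k3⟩ := key Bc Bu hB hb
      have := mul_nonneg (by linarith : (0:ℝ) ≤ 1 - Bc / (Bc - Bu)) hG.le
      have := mul_nonneg k1.le hg
      linarith
    · exact hcon ⟨hb, hg⟩

/-- The closed triangle `a b p` is empty. -/
theorem ap_tri_empty [Fintype V] [DecidableEq V] {pt : V → Pt} {A : V → V → Prop}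
    (h : MaxPlane pt A) {a b p : V}
    (hab : A a b) (hap : A a p) (hD : 0 < orient (pt a) (pt b) (pt p))
    (hno : ∀ q, A a q → ¬ (0 < orient (pt a) (pt b) (pt q) ∧ 0 < orient (pt p) (pt a) (pt q)))
    (q : V) (hqa : q ≠ a) (hqb : q ≠ b) (hqp : q ≠ p) :
    ¬ (0 ≤ orient (pt a) (pt b) (pt q) ∧ 0 ≤ orient (pt b) (pt p) (pt q) ∧
      0 ≤ orient (pt p) (pt a) (pt q)) := by
  classical
  intro hq
  have hne_ab : a ≠ b := fun e => h.irrefl a (by rw [← e] at hab; exact hab)
  have hne_ap : a ≠ p := fun e => h.irrefl a (by rw [← e] at hap; exact hap)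
  have hne_bp : b ≠ p := by rintro rfl; rw [ap_abb] at hD; exact lt_irrefl _ hD
  let Q : Finset V := Finset.univ.filter fun q => q ≠ a ∧ q ≠ b ∧ q ≠ p ∧
    0 ≤ orient (pt a) (pt b) (pt q) ∧ 0 ≤ orient (pt b) (pt p) (pt q) ∧
      0 ≤ orient (pt p) (pt a) (pt q)
  obtain ⟨m, hm, hmax⟩ := Q.exists_max_image (fun q => orient (pt b) (pt p) (pt q))
    ⟨q, by simp only [Q, Finset.mem_filter, Finset.mem_univ, true_and]; exact ⟨hqa, hqb, hqp, hq⟩⟩
  simp only [Q, Finset.mem_filter, Finset.mem_univ, true_and] at hm hmax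
  obtain ⟨ma, mb, mp, mG, mH, mB⟩ := hm
  have mG' : 0 < orient (pt a) (pt b) (pt m) :=
    lt_of_le_of_ne mG (h.gen.not_col a b m hne_ab ma.symm mb.symm).symm
  have mH' : 0 < orient (pt b) (pt p) (pt m) :=
    lt_of_le_of_ne mH (h.gen.not_col b p m hne_bp mb.symm mp.symm).symm
  have mB' : 0 < orient (pt p) (pt a) (pt m) :=
    lt_of_le_of_ne mB (h.gen.not_col p a m hne_ap.symm mp.symm ma.symm).symm
  have hsum := ap_sum (pt a) (pt b) (pt p) (pt m)
  by_cases hA : A a m
  · exact hno m hA ⟨mG', mB'⟩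
  obtain ⟨u, w, huw, hcr⟩ := h.maximal a m ma.symm hA
  have hua : ∀ u w, Cross (pt a) (pt m) (pt u) (pt w) → u ≠ a := by
    rintro u w hcr rfl
    have := hcr.1
    rw [ap_aab, zero_mul] at this
    exact lt_irrefl _ this
  have main : ∀ u w, A u w → Cross (pt a) (pt m) (pt u) (pt w) → ∀ σ ν : ℝ, 0 < σ → σ < 1 →
      0 < ν → ν < 1 → apL σ (pt a) (pt m) = apL ν (pt u) (pt w) →
      orient (pt b) (pt p) (apL σ (pt a) (pt m)) ≤ orient (pt b) (pt p) (pt u) → False := by
    intro u w huw hcr σ ν h1 h2 h3 h4 h5 h6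
    have cB : 0 < orient (pt p) (pt a) (apL σ (pt a) (pt m)) := by
      rw [ap_or3, ap_abb, mul_zero, zero_add]; exact mul_pos h1 mB'
    have cG : 0 < orient (pt a) (pt b) (apL σ (pt a) (pt m)) := by
      rw [ap_or3, ap_aab, mul_zero, zero_add]; exact mul_pos h1 mG'
    have cH : orient (pt b) (pt p) (pt m) < orient (pt b) (pt p) (apL σ (pt a) (pt m)) := by
      rw [ap_or3, ← ap_rot (pt a) (pt b) (pt p)]
      nlinarith
    have hu := ap_exit h hab hap hD huw (hua u w hcr) h3 h4 (by rw [← h5]; exact cB)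
      (by rw [← h5]; exact cG) (by rw [← h5]; linarith) (by linarith)
    have hub : u ≠ b := by
      rintro rfl; rw [ap_aab] at h6; linarith
    have hup : u ≠ p := by
      rintro rfl; rw [ap_abb] at h6; linarith
    have := hmax u ⟨hua u w hcr, hub, hup, hu.2, by linarith, hu.1⟩
    linarith
  obtain ⟨σ, ν, h1, h2, h3, h4, h5, -⟩ := ap_params _ _ _ _ hcr
  have h6 : orient (pt b) (pt p) (apL σ (pt a) (pt m)) =
      (1 - ν) * orient (pt b) (pt p) (pt u) + ν * orient (pt b) (pt p) (pt w) := by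
    rw [h5, ap_or3]
  rcases le_total (orient (pt b) (pt p) (apL σ (pt a) (pt m))) (orient (pt b) (pt p) (pt u)) with
    hle | hle
  · exact main u w huw hcr σ ν h1 h2 h3 h4 h5 hle
  · refine main w u (h.symm _ _ huw) (ap_cross_swap hcr) σ (1 - ν) h1 h2 (by linarith)
      (by linarith) ?_ ?_
    · rw [h5]; simp only [apL]; exact Prod.ext (by ring) (by ring)
    · by_contra hcon
      push Not at hcon
      nlinarith

/-- the third side is an edge -/
theorem ap_tri_edge [Fintype V] [DecidableEq V] {pt : V → Pt} {A : V → V → Prop}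
    (h : MaxPlane pt A) {a b p : V}
    (hab : A a b) (hap : A a p) (hD : 0 < orient (pt a) (pt b) (pt p))
    (hno : ∀ q, A a q → ¬ (0 < orient (pt a) (pt b) (pt q) ∧ 0 < orient (pt p) (pt a) (pt q))) :
    A b p := by
  classical
  by_contra hA
  have hne_bp : b ≠ p := by rintro rfl; rw [ap_abb] at hD; exact lt_irrefl _ hD
  obtain ⟨u, w, huw, hcr⟩ := h.maximal b p hne_bp hA
  have main : ∀ u w, A u w → ∀ σ ν : ℝ, 0 < σ → σ < 1 →
      0 < ν → ν < 1 → apL σ (pt b) (pt p) = apL ν (pt u) (pt w) →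
      0 < orient (pt b) (pt p) (pt u) → False := by
    intro u w huw σ ν h1 h2 h3 h4 h5 h6
    have cB : 0 < orient (pt p) (pt a) (apL σ (pt b) (pt p)) := by
      rw [ap_or3, ap_aab, mul_zero, add_zero]
      have : orient (pt p) (pt a) (pt b) = orient (pt a) (pt b) (pt p) := ap_rot _ _ _
      rw [this]
      exact mul_pos (by linarith) hD
    have cG : 0 < orient (pt a) (pt b) (apL σ (pt b) (pt p)) := by
      rw [ap_or3, ap_abb, mul_zero, zero_add]
      exact mul_pos h1 hD
    have cH : orient (pt b) (pt p) (apL σ (pt b) (pt p)) = 0 := by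
      rw [ap_or3, ap_aab, ap_abb]; ring
    rw [h5] at cB cG cH
    have hub : u ≠ b := by rintro rfl; rw [ap_aab] at h6; exact lt_irrefl _ h6
    have hup : u ≠ p := by rintro rfl; rw [ap_abb] at h6; exact lt_irrefl _ h6
    by_cases hua : u = a
    · subst hua
      rw [ap_or3, ap_aab, mul_zero, zero_add] at cG
      rw [ap_or3, ap_abb, mul_zero, zero_add] at cB
      exact hno w huw ⟨(mul_pos_iff_of_pos_left h3).1 cG, (mul_pos_iff_of_pos_left h3).1 cB⟩
    · have hu := ap_exit h hab hap hD huw hua h3 h4 cB cG cH.ge h6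
      exact ap_tri_empty h hab hap hD hno u hua hub hup ⟨hu.2, h6.le, hu.1⟩
  obtain ⟨σ, ν, h1, h2, h3, h4, h5, -⟩ := ap_params _ _ _ _ hcr
  rcases mul_neg_iff.1 hcr.1 with ⟨p1, -⟩ | ⟨-, p2⟩
  · exact main u w huw σ ν h1 h2 h3 h4 h5 p1
  · refine main w u (h.symm _ _ huw) σ (1 - ν) h1 h2 (by linarith) (by linarith) ?_ p2
    rw [h5]; simp only [apL]; exact Prod.ext (by ring) (by ring)

/-- `a` has a neighbour on the upper side of `a b`. -/
theorem ap_nbr [Fintype V] [DecidableEq V] {pt : V → Pt} {A : V → V → Prop}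
    (h : MaxPlane pt A) {a b p : V} (hab : a ≠ b) (hp : 0 < orient (pt a) (pt b) (pt p)) :
    ∃ q, A a q ∧ 0 < orient (pt a) (pt b) (pt q) := by
  classical
  by_cases hA : A a p
  · exact ⟨p, hA, hp⟩
  have hap : a ≠ p := by rintro rfl; rw [ap_aab] at hp; exact lt_irrefl _ hp
  have inj : ∀ x y, x ≠ y → pt x ≠ pt y := fun x y hxy e => h.gen.x_ne x y hxy (by rw [e])
  -- the nearest crossing edge
  let E : Finset (V × V) := Finset.univ.filter fun e => A e.1 e.2 ∧
    Cross (pt a) (pt p) (pt e.1) (pt e.2)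
  obtain ⟨u0, w0, huw0, hcr0⟩ := h.maximal a p hap hA
  obtain ⟨⟨u1, w1⟩, he1, hmin⟩ := E.exists_min_image
    (fun e => orient (pt e.1) (pt e.2) (pt a) /
      (orient (pt e.1) (pt e.2) (pt a) - orient (pt e.1) (pt e.2) (pt p)))
    ⟨(u0, w0), by simp only [E, Finset.mem_filter, Finset.mem_univ, true_and]; exact ⟨huw0, hcr0⟩⟩
  simp only [E, Finset.mem_filter, Finset.mem_univ, true_and] at he1 hmin
  obtain ⟨huw1, hcr1⟩ := he1
  obtain ⟨τ, ν1, hτ0, hτ1, hν10, hν11, hc1, hτe⟩ := ap_params _ _ _ _ hcr1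
  rw [← hτe] at hmin
  -- choose the endpoint above `ab`
  obtain ⟨u, w, ν, huw, hν0, hν1, hc, hGu⟩ : ∃ u w : V, ∃ ν : ℝ, A u w ∧ 0 < ν ∧ ν < 1 ∧
      apL τ (pt a) (pt p) = apL ν (pt u) (pt w) ∧ 0 < orient (pt a) (pt b) (pt u) := by
    have e1 : 0 < (1 - ν1) * orient (pt a) (pt b) (pt u1) +
        ν1 * orient (pt a) (pt b) (pt w1) := by
      rw [← ap_or3, ← hc1, ap_or3, ap_aab, mul_zero, zero_add]
      exact mul_pos hτ0 hp
    rcases lt_or_ge 0 (orient (pt a) (pt b) (pt u1)) with h0 | h0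
    · exact ⟨u1, w1, ν1, huw1, hν10, hν11, hc1, h0⟩
    · refine ⟨w1, u1, 1 - ν1, h.symm _ _ huw1, by linarith, by linarith, ?_, ?_⟩
      · rw [hc1]; simp only [apL]; exact Prod.ext (by ring) (by ring)
      · by_contra hcon
        push Not at hcon
        have := mul_nonneg (by linarith : (0:ℝ) ≤ 1 - ν1) (neg_nonneg.2 h0)
        have := mul_nonneg hν10.le (neg_nonneg.2 hcon)
        linarith
  set c := apL τ (pt a) (pt p) with hcdef
  have hua : u ≠ a := by rintro rfl; rw [ap_aab] at hGu; exact lt_irrefl _ hGu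
  have hne_uw : u ≠ w := fun e => h.irrefl u (by rw [← e] at huw; exact huw)
  have hGc : 0 < orient (pt a) (pt b) c := by
    rw [hcdef, ap_or3, ap_aab, mul_zero, zero_add]; exact mul_pos hτ0 hp
  have hpu : u ≠ p := by
    rintro rfl
    -- then `c` is on two lines through `p`
    have e1 : orient (pt a) (pt u) c = 0 := by rw [hcdef, ap_or3, ap_aab, ap_abb]; ring
    rw [hc, ap_or3, ap_abb, mul_zero, zero_add] at e1
    have e2 := (mul_eq_zero.1 e1).resolve_left hν0.ne'
    have hwa : w ≠ a := by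
      rintro rfl
      exact hA (h.symm _ _ huw)
    exact h.gen.not_col a u w hap hwa.symm hne_uw e2
  set δ := orient (pt a) c (pt u) with hδ
  have hδ1 : δ = τ * orient (pt a) (pt p) (pt u) := by
    rw [hδ, hcdef]; simp only [orient, apL]; ring
  have hδ0 : δ ≠ 0 := by
    rw [hδ1]
    exact mul_ne_zero hτ0.ne' (h.gen.not_col a p u hap hua.symm hpu.symm)
  have hδδ : 0 < δ * δ := mul_self_pos.2 hδ0
  -- side functions
  set F1 : Pt → ℝ := fun x => δ * orient (pt a) c x with hF1
  set F2 : Pt → ℝ := fun x => δ * orient c (pt u) x with hF2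
  set F3 : Pt → ℝ := fun x => δ * orient (pt u) (pt a) x with hF3
  have hFs : ∀ x, F1 x + F2 x + F3 x = δ * δ := by
    intro x
    simp only [hF1, hF2, hF3]
    rw [← mul_add, ← mul_add]
    congr 1
    rw [hδ]; simp only [orient]; ring
  have hL1 : ∀ t x y, F1 (apL t x y) = (1 - t) * F1 x + t * F1 y := by
    intro t x y; simp only [hF1, ap_or3]; ring
  have hL2 : ∀ t x y, F2 (apL t x y) = (1 - t) * F2 x + t * F2 y := by
    intro t x y; simp only [hF2, ap_or3]; ring
  have hL3 : ∀ t x y, F3 (apL t x y) = (1 - t) * F3 x + t * F3 y := by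
    intro t x y; simp only [hF3, ap_or3]; ring
  have hF1a : F1 (pt a) = 0 := by simp only [hF1, ap_aab, mul_zero]
  have hF2a : F2 (pt a) = δ * δ := by
    have := hFs (pt a)
    have h3 : F3 (pt a) = 0 := by simp only [hF3, ap_abb, mul_zero]
    linarith
  have hF3a : F3 (pt a) = 0 := by simp only [hF3, ap_abb, mul_zero]
  have hF1u : F1 (pt u) = δ * δ := by simp only [hF1, hδ]
  have hF2u : F2 (pt u) = 0 := by simp only [hF2, ap_abb, mul_zero]
  have hF3u : F3 (pt u) = 0 := by simp only [hF3, ap_aab, mul_zero]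
  -- coordinates: `δδ * orient a b x = F3 x * orient a b c + F1 x * orient a b u`
  have hcoord : ∀ x y : Pt, (δ * δ) * orient (pt a) y x =
      F3 x * orient (pt a) y c + F1 x * orient (pt a) y (pt u) := by
    intro x y
    simp only [hF1, hF3, hδ, orient]
    ring
  let Q : Finset V := Finset.univ.filter fun q => q ≠ a ∧ 0 ≤ F1 (pt q) ∧ 0 ≤ F2 (pt q) ∧
    0 ≤ F3 (pt q)
  have hsum_pos : ∀ q, q ≠ a → 0 ≤ F1 (pt q) → 0 ≤ F3 (pt q) → 0 < F1 (pt q) + F3 (pt q) := by
    intro q hqa h1 h3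
    by_contra hcon
    have z1 : F1 (pt q) = 0 := by linarith
    have z3 : F3 (pt q) = 0 := by linarith
    have e1 : (δ * δ) * ((pt q).1 - (pt a).1) = F3 (pt q) * (c.1 - (pt a).1) +
        F1 (pt q) * ((pt u).1 - (pt a).1) := by
      simp only [hF1, hF3, hδ, orient]; ring
    rw [z1, z3, zero_mul, zero_mul, add_zero] at e1
    have := (mul_eq_zero.1 e1).resolve_left hδδ.ne'
    exact h.gen.x_ne q a hqa (by linarith)
  obtain ⟨q, hq, hqmin⟩ := Q.exists_min_image (fun q => F1 (pt q) / (F1 (pt q) + F3 (pt q)))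
    ⟨u, by
      simp only [Q, Finset.mem_filter, Finset.mem_univ, true_and]
      exact ⟨hua, by rw [hF1u]; exact hδδ.le, by rw [hF2u], by rw [hF3u]⟩⟩
  simp only [Q, Finset.mem_filter, Finset.mem_univ, true_and] at hq hqmin
  obtain ⟨hqa, hq1, hq2, hq3⟩ := hq
  have hqs := hsum_pos q hqa hq1 hq3
  have hGq : 0 < orient (pt a) (pt b) (pt q) := by
    have := hcoord (pt q) (pt b)
    have h1 : 0 < F3 (pt q) * orient (pt a) (pt b) c + F1 (pt q) * orient (pt a) (pt b) (pt u) := by
      rcases hq1.eq_or_lt with h0 | h0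
      · rw [← h0, zero_mul, add_zero]
        exact mul_pos (by linarith) hGc
      · have := mul_pos h0 hGu
        have := mul_nonneg hq3 hGc.le
        linarith
    rw [← this] at h1
    exact (mul_pos_iff_of_pos_left hδδ).1 h1
  refine ⟨q, ?_, hGq⟩
  by_contra hAq
  obtain ⟨f0, g0, hfg0, hcrq⟩ := h.maximal a q hqa.symm hAq
  -- `q` is not on the ray `ac`
  have hq1' : 0 < F1 (pt q) := by
    rcases hq1.eq_or_lt with h0 | h0
    · exfalso
      have e1 : orient (pt a) c (pt q) = 0 := by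
        have : δ * orient (pt a) c (pt q) = 0 := h0.symm
        exact (mul_eq_zero.1 this).resolve_left hδ0
      have e2 : orient (pt a) c (pt q) = τ * orient (pt a) (pt p) (pt q) := by
        rw [hcdef]; simp only [orient, apL]; ring
      rw [e2] at e1
      have e3 := (mul_eq_zero.1 e1).resolve_left hτ0.ne'
      by_cases hqp : q = p
      · subst hqp
        have e4 : F2 c = 0 := by simp only [hF2]; simp only [orient]; ring
        rw [hcdef, hL2, hF2a] at e4
        have := mul_pos (by linarith : (0:ℝ) < 1 - τ) hδδ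
        have := mul_nonneg hτ0.le hq2
        linarith
      · exact h.gen.not_col a p q hap hqa.symm (Ne.symm hqp) e3
    · exact h0
  -- choose the endpoint on the side of `c`
  obtain ⟨f, g, σ, ρ, hfg, hσ0, hσ1, hρ0, hρ1, hd, hf, hg⟩ : ∃ f g : V, ∃ σ ρ : ℝ, A f g ∧
      0 < σ ∧ σ < 1 ∧ 0 < ρ ∧ ρ < 1 ∧ apL σ (pt a) (pt q) = apL ρ (pt f) (pt g) ∧
      δ * orient (pt a) (pt q) (pt f) < 0 ∧ 0 < δ * orient (pt a) (pt q) (pt g) := by
    obtain ⟨σ, ρ, s1, s2, s3, s4, s5, -⟩ := ap_params _ _ _ _ hcrq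
    have hprod : (δ * orient (pt a) (pt q) (pt f0)) * (δ * orient (pt a) (pt q) (pt g0)) < 0 := by
      have : (δ * orient (pt a) (pt q) (pt f0)) * (δ * orient (pt a) (pt q) (pt g0)) =
        (δ * δ) * (orient (pt a) (pt q) (pt f0) * orient (pt a) (pt q) (pt g0)) := by ring
      rw [this]
      exact mul_neg_of_pos_of_neg hδδ hcrq.1
    rcases mul_neg_iff.1 hprod with ⟨p1, p2⟩ | ⟨p1, p2⟩
    · refine ⟨g0, f0, σ, 1 - ρ, h.symm _ _ hfg0, s1, s2, by linarith, by linarith, ?_, p2, p1⟩
      rw [s5]; simp only [apL]; exact Prod.ext (by ring) (by ring)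
    · exact ⟨f0, g0, σ, ρ, hfg0, s1, s2, s3, s4, s5, p1, p2⟩
  have hfa : f ≠ a := by rintro rfl; rw [ap_aab, mul_zero] at hf; exact lt_irrefl _ hf
  have hga : g ≠ a := by rintro rfl; rw [ap_aab, mul_zero] at hg; exact lt_irrefl _ hg
  -- side of the line `aq` in coordinates
  have hside' : ∀ x, (δ * δ) * (δ * orient (pt a) (pt q) x) =
      F3 (pt q) * F1 x - F1 (pt q) * F3 x := by
    intro x
    have e1 := hcoord x (pt q)
    have e2 : δ * orient (pt a) (pt q) c = - F1 (pt q) := by
      simp only [hF1]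
      rw [← mul_neg]
      congr 1
      simp only [orient]; ring
    have e3 : δ * orient (pt a) (pt q) (pt u) = F3 (pt q) := by
      simp only [hF3]
      congr 1
      simp only [orient]; ring
    calc (δ * δ) * (δ * orient (pt a) (pt q) x) = δ * ((δ * δ) * orient (pt a) (pt q) x) := by ring
      _ = F3 x * (δ * orient (pt a) (pt q) c) + F1 x * (δ * orient (pt a) (pt q) (pt u)) := by
        rw [e1]; ring
      _ = _ := by rw [e2, e3]; ring
  set d := apL σ (pt a) (pt q) with hddef
  have hd1 : 0 < F1 d := by rw [hddef, hL1, hF1a, mul_zero, zero_add]; exact mul_pos hσ0 hq1'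
  have hd2 : 0 < F2 d := by
    rw [hddef, hL2, hF2a]
    have := mul_pos (by linarith : (0:ℝ) < 1 - σ) hδδ
    have := mul_nonneg hσ0.le hq2
    linarith
  have hdG : δ * orient (pt a) (pt q) d = 0 := by rw [hddef, ap_or3, ap_aab, ap_abb]; ring
  -- points between `d` and `f`
  have hbetween : ∀ t : ℝ, 0 < t → t ≤ 1 → 0 ≤ F1 (apL t d (pt f)) → 0 < F3 (apL t d (pt f)) := by
    intro t ht0 ht1 h1
    have e1 : δ * orient (pt a) (pt q) (apL t d (pt f)) < 0 := by
      have : δ * orient (pt a) (pt q) (apL t d (pt f)) =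
          (1 - t) * (δ * orient (pt a) (pt q) d) + t * (δ * orient (pt a) (pt q) (pt f)) := by
        rw [ap_or3]; ring
      rw [this, hdG, mul_zero, zero_add]
      exact mul_neg_of_pos_of_neg ht0 hf
    replace e1 := mul_neg_of_pos_of_neg hδδ e1
    rw [hside'] at e1
    have e2 := mul_nonneg hq3 h1
    have e3 : 0 < F1 (pt q) * F3 (apL t d (pt f)) := by linarith
    exact (mul_pos_iff_of_pos_left hq1').1 e3
  have hcm : ∀ t : ℝ, apL t d (pt f) = apL ((1 - t) * ρ) (pt f) (pt g) := by
    intro t; rw [hd, ap_comb]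
  have hcu : ∀ r : ℝ, apL r c (pt u) = apL ((1 - r) * ν) (pt u) (pt w) := by
    intro r; rw [hc, ap_comb]
  -- no exit through `cu`
  have exit2 : ∀ t : ℝ, 0 < t → t < 1 → F2 (apL t d (pt f)) = 0 → 0 ≤ F1 (apL t d (pt f)) →
      False := by
    intro t ht0 ht1 h2 h1
    have h3 := hbetween t ht0 ht1.le h1
    have hs := hFs (apL t d (pt f))
    have hF2f : F2 (pt f) < 0 := by
      rw [hL2] at h2
      by_contra hcon
      push Not at hcon
      have := mul_pos (by linarith : (0:ℝ) < 1 - t) hd2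
      have := mul_nonneg ht0.le hcon
      linarith
    have hF2g : 0 < F2 (pt g) := by
      have e1 : F2 d = (1 - ρ) * F2 (pt f) + ρ * F2 (pt g) := by rw [hd, hL2]
      by_contra hcon
      push Not at hcon
      have := mul_neg_of_pos_of_neg (by linarith : (0:ℝ) < 1 - ρ) hF2f
      have := mul_nonneg hρ0.le (neg_nonneg.2 hcon)
      linarith
    have hfu : f ≠ u := by rintro rfl; rw [hF2u] at hF2f; exact lt_irrefl _ hF2f
    have hgu : g ≠ u := by rintro rfl; rw [hF2u] at hF2g; exact lt_irrefl _ hF2g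
    -- the point is on the segment `c u`
    set x := apL t d (pt f) with hx
    have hxr : x = apL (F1 x / (δ * δ)) c (pt u) := by
      have e1 : (δ * δ) * (x.1 - (pt a).1) = F3 x * (c.1 - (pt a).1) +
          F1 x * ((pt u).1 - (pt a).1) := by
        simp only [hF1, hF3, hδ, orient]; ring
      have e2 : (δ * δ) * (x.2 - (pt a).2) = F3 x * (c.2 - (pt a).2) +
          F1 x * ((pt u).2 - (pt a).2) := by
        simp only [hF1, hF3, hδ, orient]; ring
      have e3 : F3 x = δ * δ - F1 x := by linarith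
      rw [e3] at e1 e2
      refine Prod.ext ?_ ?_
      · simp only [apL]
        field_simp
        linear_combination e1
      · simp only [apL]
        field_simp
        linear_combination e2
    have hr0 : 0 ≤ F1 x / (δ * δ) := div_nonneg h1 hδδ.le
    have hr1 : F1 x / (δ * δ) < 1 := by rw [div_lt_one hδδ]; linarith
    rw [hcu] at hxr
    refine ap_nomeet h huw hfg hfu hgu (μ := (1 - F1 x / (δ * δ)) * ν) (ν := (1 - t) * ρ)
      ?_ ?_ ?_ ?_ ?_
    · exact mul_nonneg (by linarith) hν0.le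
    · nlinarith
    · exact mul_pos (by linarith) hρ0
    · nlinarith
    · rw [← hxr, hx, hcm]
  -- no exit through `ac`
  have exit1 : ∀ t : ℝ, 0 < t → t < 1 → F1 (apL t d (pt f)) = 0 → 0 < F2 (apL t d (pt f)) →
      False := by
    intro t ht0 ht1 h1 h2
    have h3 := hbetween t ht0 ht1.le h1.ge
    have hs := hFs (apL t d (pt f))
    have hF1f : F1 (pt f) < 0 := by
      rw [hL1] at h1
      by_contra hcon
      push Not at hcon
      have := mul_pos (by linarith : (0:ℝ) < 1 - t) hd1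
      have := mul_nonneg ht0.le hcon
      linarith
    have hF1g : 0 < F1 (pt g) := by
      have e1 : F1 d = (1 - ρ) * F1 (pt f) + ρ * F1 (pt g) := by rw [hd, hL1]
      by_contra hcon
      push Not at hcon
      have := mul_neg_of_pos_of_neg (by linarith : (0:ℝ) < 1 - ρ) hF1f
      have := mul_nonneg hρ0.le (neg_nonneg.2 hcon)
      linarith
    set x := apL t d (pt f) with hx
    set β := F3 x / (δ * δ) with hβ
    have hβ0 : 0 < β := div_pos h3 hδδ
    have hβ1 : β < 1 := by rw [hβ, div_lt_one hδδ]; linarith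
    have hxr : x = apL (β * τ) (pt a) (pt p) := by
      have e1 : (δ * δ) * (x.1 - (pt a).1) = F3 x * (c.1 - (pt a).1) +
          F1 x * ((pt u).1 - (pt a).1) := by
        simp only [hF1, hF3, hδ, orient]; ring
      have e2 : (δ * δ) * (x.2 - (pt a).2) = F3 x * (c.2 - (pt a).2) +
          F1 x * ((pt u).2 - (pt a).2) := by
        simp only [hF1, hF3, hδ, orient]; ring
      have c1 : c.1 - (pt a).1 = τ * ((pt p).1 - (pt a).1) := by
        rw [hcdef]; simp only [apL]; ring
      have c2 : c.2 - (pt a).2 = τ * ((pt p).2 - (pt a).2) := by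
        rw [hcdef]; simp only [apL]; ring
      have e3 : F3 x = β * (δ * δ) := by rw [hβ, div_mul_cancel₀ _ hδδ.ne']
      rw [h1, e3, c1, zero_mul, add_zero] at e1
      rw [h1, e3, c2, zero_mul, add_zero] at e2
      have f1 : (δ * δ) * (x.1 - (pt a).1) = (δ * δ) * (β * (τ * ((pt p).1 - (pt a).1))) := by
        rw [e1]; ring
      have f2 : (δ * δ) * (x.2 - (pt a).2) = (δ * δ) * (β * (τ * ((pt p).2 - (pt a).2))) := by
        rw [e2]; ring
      have g1 := mul_left_cancel₀ hδδ.ne' f1
      have g2 := mul_left_cancel₀ hδδ.ne' f2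
      refine Prod.ext ?_ ?_
      · simp only [apL]; linear_combination g1
      · simp only [apL]; linear_combination g2
    have hxfg : x = apL ((1 - t) * ρ) (pt f) (pt g) := by rw [hx, hcm]
    have hne_fg : f ≠ g := fun e => h.irrefl f (by rw [← e] at hfg; exact hfg)
    have hso : (1 - β * τ) * orient (pt f) (pt g) (pt a) + β * τ * orient (pt f) (pt g) (pt p) = 0 := by
      rw [← ap_or3, ← hxr, hxfg, ap_or3, ap_aab, ap_abb]; ring
    have hβτ0 : 0 < β * τ := mul_pos hβ0 hτ0
    have hβτ1 : β * τ < τ := by nlinarith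
    have hsa : orient (pt f) (pt g) (pt a) ≠ 0 := h.gen.not_col f g a hne_fg hfa hga
    have hneg := ap_neg hβτ0 (by linarith) hso hsa
    have hcross : Cross (pt a) (pt p) (pt f) (pt g) := by
      refine ⟨?_, hneg⟩
      have e1 : F1 (pt f) = δ * τ * orient (pt a) (pt p) (pt f) := by
        simp only [hF1, hcdef, orient, apL]; ring
      have e2 : F1 (pt g) = δ * τ * orient (pt a) (pt p) (pt g) := by
        simp only [hF1, hcdef, orient, apL]; ring
      have e3 : F1 (pt f) * F1 (pt g) < 0 := mul_neg_of_neg_of_pos hF1f hF1g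
      rw [e1, e2] at e3
      by_contra hcon
      push Not at hcon
      have : 0 ≤ (δ * δ) * (τ * τ) *
          (orient (pt a) (pt p) (pt f) * orient (pt a) (pt p) (pt g)) := by positivity
      nlinarith
    have hle := hmin (f, g) ⟨hfg, hcross⟩
    simp only at hle
    have hne : orient (pt f) (pt g) (pt a) - orient (pt f) (pt g) (pt p) ≠ 0 := by
      intro h0
      have : orient (pt f) (pt g) (pt a) = orient (pt f) (pt g) (pt p) := by linarith
      rw [← this] at hneg
      nlinarith [mul_self_nonneg (orient (pt f) (pt g) (pt a))]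
    have heq : orient (pt f) (pt g) (pt a) /
        (orient (pt f) (pt g) (pt a) - orient (pt f) (pt g) (pt p)) = β * τ := by
      rw [div_eq_iff hne]
      linear_combination hso
    rw [heq] at hle
    linarith
  -- `f` is in the closed triangle
  have hfin : 0 ≤ F1 (pt f) ∧ 0 ≤ F2 (pt f) := by
    have key : ∀ x y : ℝ, 0 < x → y < 0 → 0 < x / (x - y) ∧ x / (x - y) < 1 ∧
        (1 - x / (x - y)) * x + x / (x - y) * y = 0 := by
      intro x y hx hy
      have : 0 < x - y := by linarith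
      refine ⟨div_pos hx this, ?_, ?_⟩
      · rw [div_lt_one this]; linarith
      · field_simp; ring
    by_contra hcon
    rcases lt_or_ge (F2 (pt f)) 0 with h2 | h2
    · obtain ⟨k1, k2, k3⟩ := key _ _ hd2 h2
      rcases le_or_gt 0 (F1 (apL (F2 d / (F2 d - F2 (pt f))) d (pt f))) with h1 | h1
      · exact exit2 _ k1 k2 (by rw [hL2]; exact k3) h1
      · -- `F1` vanished before
        have h1f : F1 (pt f) < 0 := by
          rw [hL1] at h1
          by_contra hc
          push Not at hc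
          have := mul_pos (by linarith : (0:ℝ) < 1 - F2 d / (F2 d - F2 (pt f))) hd1
          have := mul_nonneg k1.le hc
          linarith
        obtain ⟨l1, l2, l3⟩ := key _ _ hd1 h1f
        apply exit1 _ l1 l2 (by rw [hL1]; exact l3)
        rw [hL1] at h1
        rw [hL2]
        have hlt : F1 d / (F1 d - F1 (pt f)) < F2 d / (F2 d - F2 (pt f)) := by
          by_contra hc
          push Not at hc
          nlinarith
        nlinarith
    · rcases lt_or_ge (F1 (pt f)) 0 with h1 | h1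
      · obtain ⟨l1, l2, l3⟩ := key _ _ hd1 h1
        apply exit1 _ l1 l2 (by rw [hL1]; exact l3)
        rw [hL2]
        have := mul_pos (by linarith : (0:ℝ) < 1 - F1 d / (F1 d - F1 (pt f))) hd2
        have := mul_nonneg l1.le h2
        linarith
      · exact hcon ⟨h1, h2⟩
  have hf3 : 0 < F3 (pt f) := by
    have e0 : apL 1 d (pt f) = pt f := by
      simp only [apL]; exact Prod.ext (by ring) (by ring)
    have := hbetween 1 one_pos le_rfl (by rw [e0]; exact hfin.1)
    rwa [e0] at this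
  have hle := hqmin f ⟨hfa, hfin.1, hfin.2, hf3.le⟩
  have hfs := hsum_pos f hfa hfin.1 hf3.le
  rw [div_le_div_iff₀ hqs hfs] at hle
  replace hf := mul_neg_of_pos_of_neg hδδ hf
  rw [hside'] at hf
  nlinarith

/-- The triangle above an edge of a maximal plane graph. -/
theorem apex {V : Type*} [Fintype V] [DecidableEq V] (pt : V → Pt) (A : V → V → Prop)
    (h : MaxPlane pt A) (a b : V) (hab : A a b) (hx : (pt a).1 < (pt b).1)
    (hw : ∃ w, 0 < orient (pt a) (pt b) (pt w)) :
    ∃ z, 0 < orient (pt a) (pt b) (pt z) ∧ A a z ∧ A b z ∧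
      ∀ w, w ≠ a → w ≠ b → w ≠ z → ¬ (0 ≤ orient (pt a) (pt b) (pt w) ∧
        0 ≤ orient (pt b) (pt z) (pt w) ∧ 0 ≤ orient (pt z) (pt a) (pt w)) := by
  classical
  obtain ⟨w, hw⟩ := hw
  have hne : a ≠ b := fun e => h.irrefl a (by rw [← e] at hab; exact hab)
  obtain ⟨q0, hq0, hG0⟩ := ap_nbr h hne hw
  let N : Finset V := Finset.univ.filter fun q => A a q ∧ 0 < orient (pt a) (pt b) (pt q)
  let ξ : V → ℝ := fun q => ((pt q).1 - (pt a).1) * ((pt b).1 - (pt a).1) +
    ((pt q).2 - (pt a).2) * ((pt b).2 - (pt a).2)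
  obtain ⟨z, hz, hmax⟩ := N.exists_max_image (fun q => ξ q / orient (pt a) (pt b) (pt q))
    ⟨q0, by simp only [N, Finset.mem_filter, Finset.mem_univ, true_and]; exact ⟨hq0, hG0⟩⟩
  simp only [N, Finset.mem_filter, Finset.mem_univ, true_and] at hz hmax
  obtain ⟨hAz, hGz⟩ := hz
  have hno : ∀ q, A a q → ¬ (0 < orient (pt a) (pt b) (pt q) ∧
      0 < orient (pt z) (pt a) (pt q)) := by
    rintro q hq ⟨h1, h2⟩
    have h3 := hmax q ⟨hq, h1⟩
    rw [div_le_div_iff₀ h1 hGz] at h3
    have h4 : (((pt b).1 - (pt a).1) ^ 2 + ((pt b).2 - (pt a).2) ^ 2) *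
        orient (pt z) (pt a) (pt q) =
        ξ q * orient (pt a) (pt b) (pt z) - ξ z * orient (pt a) (pt b) (pt q) := by
      simp only [ξ, orient]; ring
    have h5 : 0 < ((pt b).1 - (pt a).1) ^ 2 + ((pt b).2 - (pt a).2) ^ 2 := by
      have : 0 < (pt b).1 - (pt a).1 := by linarith
      positivity
    have h6 := mul_pos h5 h2
    linarith
  refine ⟨z, hGz, hAz, ap_tri_edge h hab hAz hGz hno, fun w h1 h2 h3 => ?_⟩
  exact ap_tri_empty h hab hAz hGz hno w h1 h2 h3

/-- Extension to a maximal plane graph. -/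
theorem exists_maxPlane {V : Type*} [Fintype V] [DecidableEq V] (pt : V → Pt) (hg : GenPos pt)
    (A : V → V → Prop) (hs : ∀ a b, A a b → A b a) (hi : ∀ a, ¬ A a a)
    (hc : ∀ a b c d, A a b → A c d → ¬ Cross (pt a) (pt b) (pt c) (pt d)) :
    ∃ A' : V → V → Prop, MaxPlane pt A' ∧ ∀ a b, A a b → A' a b := by
  classical
  let S : Set (V → V → Prop) := {A' | (∀ a b, A' a b → A' b a) ∧ (∀ a, ¬ A' a a) ∧
    (∀ a b c d, A' a b → A' c d → ¬ Cross (pt a) (pt b) (pt c) (pt d)) ∧ A ≤ A'}
  have hS : S.Finite := Set.toFinite S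
  obtain ⟨M, hM⟩ := hS.exists_maximal ⟨A, hs, hi, hc, le_rfl⟩
  obtain ⟨⟨m1, m2, m3, m4⟩, m5⟩ := hM
  refine ⟨M, ⟨hg, m1, m2, m3, ?_⟩, m4⟩
  intro a b hab hn
  by_contra hcon
  push Not at hcon
  let M' : V → V → Prop := fun s t => M s t ∨ edgeRel a b s t
  have hM' : M' ∈ S := by
    refine ⟨?_, ?_, ?_, ?_⟩
    · rintro s t (h | ⟨h1, h2⟩ | ⟨h1, h2⟩)
      · exact Or.inl (m1 _ _ h)
      · exact Or.inr (Or.inr ⟨h2, h1⟩)
      · exact Or.inr (Or.inl ⟨h2, h1⟩)
    · rintro s (h | ⟨h1, h2⟩ | ⟨h1, h2⟩)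
      · exact m2 _ h
      · exact hab (h1.symm.trans h2)
      · exact hab (h2.symm.trans h1)
    · have key : ∀ c d, M c d → ¬ Cross (pt a) (pt b) (pt c) (pt d) := hcon
      have self : ∀ x y : Pt, ¬ Cross x y x y := by
        intro x y hxy
        have := hxy.1
        rw [ap_aab, zero_mul] at this
        exact lt_irrefl _ this
      rintro s t c d (h | ⟨rfl, rfl⟩ | ⟨rfl, rfl⟩) (h' | ⟨rfl, rfl⟩ | ⟨rfl, rfl⟩) hx
      · exact m3 _ _ _ _ h h' hx
      · exact key _ _ h (ap_cross_comm hx)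
      · exact key _ _ h (ap_cross_swap1 (ap_cross_comm hx))
      · exact key _ _ h' hx
      · exact self _ _ hx
      · exact self _ _ (ap_cross_swap hx)
      · exact key _ _ h' (ap_cross_swap1 hx)
      · exact self _ _ (ap_cross_swap1 hx)
      · exact self _ _ hx
    · exact le_trans m4 fun s t h => Or.inl h
  have := m5 hM' (fun s t h => Or.inl h) a b (Or.inr (Or.inl ⟨rfl, rfl⟩))
  exact hn this

end Pool.Agent.Univ
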