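import Pool.Agent.Univ.Defs

/-!
# UG-4: a canonical sequence gives a Schnyder set system
-/

set_option linter.unusedSectionVars false
set_option linter.unusedVariables false

namespace Pool.Agent.Univ.UG4
open Pool.Agent.Univ

variable {V : Type*} [DecidableEq V]

/-- the data maintained along a canonical sequence -/
structure Dat (V : Type*) where
  pos : V → ℚ
  top : V → V
  F : Finset (V × V)
  lab : V → V × V → Fin 3
  pr : V → Option (V × V)

def Dat.Sub (D : Dat V) (i : Fin 3) (u z : V) : Prop := ∀ f ∈ D.F, D.lab u f = i → D.lab z f = i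

def Dat.S0 (D : Dat V) (u z : V) : Prop :=
  D.Sub 0 u z ∧ D.pos (D.top z) ≤ D.pos (D.top u) ∧
  (∀ f, D.pr z = some f → D.lab u f ≠ 0) ∧
  (D.pr z = none → D.pos (D.top z) < D.pos (D.top u))

def Dat.S1 (D : Dat V) (γ : List V) (u z : V) : Prop :=
  D.Sub 1 u z ∧ D.pos (D.top u) ≤ D.pos (D.top z) ∧
  ((∃ f ∈ D.F, D.lab z f = 1 ∧ D.lab u f ≠ 1) ∨ (z ∈ γ ∧ D.pos (D.top u) < D.pos z))

def Dat.S2 (D : Dat V) (u z : V) : Prop :=
  D.Sub 2 u z ∧ ∃ f ∈ D.F, D.lab z f = 2 ∧ D.lab u f ≠ 2

def Dat.Ty (D : Dat V) (u v : V) : Prop :=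
  (D.Sub 0 u v ∧ D.Sub 1 v u ∧ D.Sub 2 v u ∧ D.pos (D.top v) ≤ D.pos (D.top u)) ∨
  (D.Sub 1 u v ∧ D.Sub 0 v u ∧ D.Sub 2 v u ∧ D.pos (D.top u) ≤ D.pos (D.top v)) ∨
  (D.Sub 2 u v ∧ D.Sub 0 v u ∧ D.Sub 1 v u ∧ D.top u = D.top v)

structure Inv (r1 r2 : V) (A : V → V → Prop) (K : Finset V) (γ : List V) (D : Dat V) : Prop where
  pw : γ.Pairwise (fun a b => D.pos a < D.pos b)
  sub : ∀ w ∈ γ, w ∈ K
  adjK : ∀ u v, A u v → u ∈ K ∧ v ∈ K ∧ u ≠ v
  symm : ∀ u v, A u v → A v u
  topg : ∀ z ∈ K, D.top z ∈ γ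
  topw : ∀ w ∈ γ, D.top w = w
  FK : ∀ f ∈ D.F, f.1 ∈ K ∧ f.2 ∈ K
  i2a : ∀ z ∈ K, D.Sub 0 (D.top z) z
  i2b : ∀ z ∈ K, D.Sub 1 (D.top z) z
  i3a : ∀ w ∈ γ, ∀ w' ∈ γ, D.pos w ≤ D.pos w' → D.Sub 0 w' w
  i3b : ∀ w ∈ γ, ∀ w' ∈ γ, D.pos w ≤ D.pos w' → D.Sub 1 w w'
  prn : ∀ z ∈ K, D.pr z = none → z ∈ γ
  prs : ∀ z ∈ K, ∀ f, D.pr z = some f → f ∈ D.F ∧ f.2 = z ∧ D.lab z f = 0 ∧
    ∀ w ∈ γ, D.pos (D.top z) ≤ D.pos w → w ≠ z → D.lab w f ≠ 0
  cov : ∀ z ∈ K, z ∉ γ → ∀ w ∈ γ, D.pos w ≤ D.pos (D.top z) →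
    ∃ f ∈ D.F, D.lab z f = 1 ∧ D.lab w f ≠ 1
  p3 : ∀ u v, A u v → ∀ z ∈ K, z ≠ u → z ≠ v →
    (D.S0 u z ∧ D.S0 v z) ∨ (D.S1 γ u z ∧ D.S1 γ v z) ∨ (D.S2 u z ∧ D.S2 v z)
  typ : ∀ u v, A u v → D.Ty u v ∨ D.Ty v u
  nb : ∀ u ∈ K, u ≠ r1 → u ≠ r2 → ∃ a b, a ≠ b ∧ A u a ∧ A u b
  card : D.F.card + γ.length + 2 = 2 * K.card

theorem inv_base (r1 r2 : V) (h : r1 ≠ r2) :
    ∃ D : Dat V, Inv r1 r2 (edgeRel r1 r2) {r1, r2} [r1, r2] D := by
  refine ⟨⟨fun z => if z = r1 then 0 else 1, id, ∅, fun _ _ => 0, fun _ => none⟩, ?_⟩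
  constructor
  · simp [h.symm]
  · simp
  · rintro u v (⟨rfl, rfl⟩ | ⟨rfl, rfl⟩)
    · simp [h]
    · simp [h.symm]
  · rintro u v (⟨rfl, rfl⟩ | ⟨rfl, rfl⟩)
    · right; exact ⟨rfl, rfl⟩
    · left; exact ⟨rfl, rfl⟩
  · simp
  · simp
  · simp
  · intro z _ f hf; simp at hf
  · intro z _ f hf; simp at hf
  · intro w _ w' _ _ f hf; simp at hf
  · intro w _ w' _ _ f hf; simp at hf
  · simp
  · simp
  · intro z hz hz'; simp at hz hz'; tauto
  · rintro u v (⟨rfl, rfl⟩ | ⟨rfl, rfl⟩) z hz h1 h2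
    · simp at hz; tauto
    · simp at hz; tauto
  · rintro u v (⟨rfl, rfl⟩ | ⟨rfl, rfl⟩)
    · right; left
      refine ⟨fun f hf => by simp at hf, fun f hf => by simp at hf, fun f hf => by simp at hf, ?_⟩
      simp [h.symm]
    · left; left
      refine ⟨fun f hf => by simp at hf, fun f hf => by simp at hf, fun f hf => by simp at hf, ?_⟩
      simp [h.symm]
  · intro u hu h1 h2; simp at hu; tauto
  · simp [Finset.card_pair h]


/-- the new data after inserting `v` over the part `x :: m ++ [y]` of the contour -/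
def Dat.next (D : Dat V) (x y v : V) (m : List V) : Dat V where
  pos := Function.update D.pos v ((D.pos x + D.pos y) / 2)
  top := fun z => if z = v then v else
    if D.pos x < D.pos (D.top z) ∧ D.pos (D.top z) < D.pos y then v else D.top z
  F := D.F ∪ (x :: m).toFinset.image (fun w => (v, w))
  lab := fun z f => if f.1 = v then
      (if z = v then 2 else if D.pos (D.top z) ≤ D.pos f.2 then 0 else 1)
    else (if z = v then (if D.lab x f = 1 then 1 else if D.lab y f = 0 then 0 else 2)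
      else D.lab z f)
  pr := fun z => if z = v then none else
    if D.pr z = none ∧ z ∈ x :: m then some (v, z) else D.pr z

section step
variable {r1 r2 : V} {A : V → V → Prop} {K : Finset V} {l m r : List V} {x y v : V} {D : Dat V}

structure Facts (D : Dat V) (K : Finset V) (γ γ' : List V) (x y v : V) (m : List V) : Prop where
  hv : v ∉ K
  hx : x ∈ γ
  hy : y ∈ γ
  hxy : D.pos x < D.pos y
  tri : ∀ w ∈ γ, (D.pos w ≤ D.pos x ∧ w ∉ m ∧ w ∈ γ') ∨
    (w ∈ m ∧ D.pos x < D.pos w ∧ D.pos w < D.pos y) ∨ (D.pos y ≤ D.pos w ∧ w ∉ m ∧ w ∈ γ')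
  mem' : ∀ w ∈ γ', w = v ∨ (w ∈ γ ∧ w ∉ m)
  vmem : v ∈ γ'
  mγ : ∀ w ∈ m, w ∈ γ
  inj : ∀ w ∈ γ, ∀ w' ∈ γ, D.pos w = D.pos w' → w = w'
  pred : ∀ w, w ∈ m ∨ w = y → ∃ w0 ∈ x :: m, D.pos x ≤ D.pos w0 ∧ D.pos w0 < D.pos w ∧
    ∀ w' ∈ γ, D.pos w' < D.pos w → D.pos w' ≤ D.pos w0

theorem facts_of (hI : Inv r1 r2 A K (l ++ x :: (m ++ y :: r)) D) (hv : v ∉ K) :
    Facts D K (l ++ x :: (m ++ y :: r)) (l ++ x :: v :: y :: r) x y v m := by
  have hpw := hI.pw
  rw [List.pairwise_append] at hpw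
  obtain ⟨-, hpw2, hlx⟩ := hpw
  rw [List.pairwise_cons] at hpw2
  obtain ⟨hx2, hpw3⟩ := hpw2
  rw [List.pairwise_append] at hpw3
  obtain ⟨-, hpw4, hmy⟩ := hpw3
  rw [List.pairwise_cons] at hpw4
  obtain ⟨hyr, -⟩ := hpw4
  have e1 : ∀ w ∈ l, D.pos w < D.pos x := fun w hw => hlx w hw x (by simp)
  have e2 : ∀ w ∈ m, D.pos x < D.pos w ∧ D.pos w < D.pos y := fun w hw =>
    ⟨hx2 w (by simp [hw]), hmy w hw y (by simp)⟩
  have e3 : D.pos x < D.pos y := hx2 y (by simp)
  have e4 : ∀ w ∈ r, D.pos y < D.pos w := fun w hw => hyr w hw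
  have ht : ∀ w ∈ l ++ x :: (m ++ y :: r), (D.pos w ≤ D.pos x ∧ w ∉ m ∧ w ∈ l ++ x :: v :: y :: r) ∨
    (w ∈ m ∧ D.pos x < D.pos w ∧ D.pos w < D.pos y) ∨
    (D.pos y ≤ D.pos w ∧ w ∉ m ∧ w ∈ l ++ x :: v :: y :: r) := by
    intro w hw
    simp only [List.mem_append, List.mem_cons] at hw ⊢
    rcases hw with hw | rfl | hw | rfl | hw
    · exact Or.inl ⟨(e1 w hw).le, fun h => by have := (e2 w h).1; have := e1 w hw; linarith,
        Or.inl hw⟩
    · exact Or.inl ⟨le_rfl, fun h => by have := (e2 w h).1; linarith, by tauto⟩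
    · exact Or.inr (Or.inl ⟨hw, e2 w hw⟩)
    · exact Or.inr (Or.inr ⟨le_rfl, fun h => by have := (e2 w h).2; linarith, by tauto⟩)
    · exact Or.inr (Or.inr ⟨(e4 w hw).le, fun h => by have := (e2 w h).2; have := e4 w hw; linarith,
        by tauto⟩)
  refine ⟨hv, by simp, by simp, e3, ht, ?_, by simp, ?_, ?_, ?_⟩
  · intro w hw
    simp only [List.mem_append, List.mem_cons] at hw ⊢
    rcases hw with hw | rfl | rfl | rfl | hw
    · exact Or.inr ⟨by tauto, fun h => by have := (e2 w h).1; have := e1 w hw; linarith⟩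
    · exact Or.inr ⟨by tauto, fun h => by have := (e2 w h).1; linarith⟩
    · exact Or.inl rfl
    · exact Or.inr ⟨by tauto, fun h => by have := (e2 w h).2; linarith⟩
    · exact Or.inr ⟨by tauto, fun h => by have := (e2 w h).2; have := e4 w hw; linarith⟩
  · intro w hw
    simp [hw]
  · intro w hw w' hw' h
    have hnd : ((l ++ x :: (m ++ y :: r)).map D.pos).Nodup :=
      List.pairwise_map.2 (hI.pw.imp (fun h => h.ne))
    exact List.inj_on_of_nodup_map hnd hw hw' h
  · intro w hw
    have hw1 : D.pos x < D.pos w := by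
      rcases hw with hw | rfl
      · exact (e2 w hw).1
      · exact e3
    obtain ⟨w0, hw0, hmax⟩ := Finset.exists_max_image
      ((x :: m).toFinset.filter (fun w' => D.pos w' < D.pos w)) D.pos
      ⟨x, by simp [hw1]⟩
    simp only [Finset.mem_filter, List.mem_toFinset] at hw0 hmax
    refine ⟨w0, hw0.1, hmax x ⟨by simp, hw1⟩, hw0.2, ?_⟩
    intro w' hw' hlt
    rcases ht w' hw' with h | h | h
    · exact h.1.trans (hmax x ⟨by simp, hw1⟩)
    · exact hmax w' ⟨by simp [h.1], hlt⟩
    · exfalso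
      rcases hw with hw | rfl
      · have := (e2 w hw).2; linarith
      · linarith

end step

section step2
variable {r1 r2 : V} {A : V → V → Prop} {K : Finset V} {γ γ' m : List V} {x y v : V} {D : Dat V}
  (hI : Inv r1 r2 A K γ D) (hF : Facts D K γ γ' x y v m)
include hI hF

theorem ne_v {z : V} (hz : z ∈ K) : z ≠ v := fun h => hF.hv (h ▸ hz)

theorem pos_K {z : V} (hz : z ∈ K) : (D.next x y v m).pos z = D.pos z := by
  simp [Dat.next, Function.update_of_ne (ne_v hI hF hz)]

theorem pos_v : (D.next x y v m).pos v = (D.pos x + D.pos y) / 2 := by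
  simp [Dat.next]

theorem top_v : (D.next x y v m).top v = v := by
  simp [Dat.next]

theorem top_in {z : V} (hz : z ∈ K) (h : D.pos x < D.pos (D.top z))
    (h' : D.pos (D.top z) < D.pos y) : (D.next x y v m).top z = v := by
  simp [Dat.next, h, h']

theorem top_out {z : V} (hz : z ∈ K)
    (h : D.pos (D.top z) ≤ D.pos x ∨ D.pos y ≤ D.pos (D.top z)) :
    (D.next x y v m).top z = D.top z := by
  have : ¬ (D.pos x < D.pos (D.top z) ∧ D.pos (D.top z) < D.pos y) := by
    rintro ⟨h1, h2⟩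
    rcases h with h | h <;> linarith
  simp [Dat.next, ne_v hI hF hz, this]

theorem topK {z : V} (hz : z ∈ K) : D.top z ∈ K := hI.sub _ (hI.topg z hz)

/-- position of the new top, as a function of the old one -/
theorem pos_top {z : V} (hz : z ∈ K) : (D.next x y v m).pos ((D.next x y v m).top z) =
    if D.pos x < D.pos (D.top z) ∧ D.pos (D.top z) < D.pos y then (D.pos x + D.pos y) / 2
    else D.pos (D.top z) := by
  split_ifs with h
  · rw [top_in hI hF hz h.1 h.2, pos_v hI hF]
  · rw [top_out hI hF hz, pos_K hI hF (topK hI hF hz)]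
    by_contra hc
    push Not at hc
    exact h hc

theorem top_mono {u z : V} (hu : u ∈ K) (hz : z ∈ K) (h : D.pos (D.top u) ≤ D.pos (D.top z)) :
    (D.next x y v m).pos ((D.next x y v m).top u) ≤
      (D.next x y v m).pos ((D.next x y v m).top z) := by
  have := hF.hxy
  rw [pos_top hI hF hu, pos_top hI hF hz]
  split_ifs with h1 h2 h2
  · exact le_rfl
  · have : D.pos y ≤ D.pos (D.top z) := by
      by_contra hc
      push Not at hc
      exact h2 ⟨by linarith, hc⟩
    linarith
  · have : D.pos (D.top u) ≤ D.pos x := by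
      by_contra hc
      push Not at hc
      exact h1 ⟨hc, by linarith⟩
    linarith
  · exact h

theorem lab_old {z : V} (hz : z ∈ K) {f : V × V} (hf : f ∈ D.F) :
    (D.next x y v m).lab z f = D.lab z f := by
  simp [Dat.next, ne_v hI hF hz, ne_v hI hF (hI.FK f hf).1]

theorem lab_new {z : V} (hz : z ∈ K) (w : V) :
    (D.next x y v m).lab z (v, w) = if D.pos (D.top z) ≤ D.pos w then 0 else 1 := by
  simp [Dat.next, ne_v hI hF hz]

theorem lab_vv (w : V) : (D.next x y v m).lab v (v, w) = 2 := by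
  simp [Dat.next]

theorem lab_v {f : V × V} (hf : f ∈ D.F) : (D.next x y v m).lab v f =
    if D.lab x f = 1 then 1 else if D.lab y f = 0 then 0 else 2 := by
  simp [Dat.next, ne_v hI hF (hI.FK f hf).1]

theorem mem_F {f : V × V} : f ∈ (D.next x y v m).F ↔ f ∈ D.F ∨ ∃ w ∈ x :: m, f = (v, w) := by
  simp only [Dat.next, Finset.mem_union, Finset.mem_image, List.mem_toFinset]
  constructor
  · rintro (h | ⟨w, hw, rfl⟩)
    · exact Or.inl h
    · exact Or.inr ⟨w, hw, rfl⟩
  · rintro (h | ⟨w, hw, rfl⟩)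
    · exact Or.inl h
    · exact Or.inr ⟨w, hw, rfl⟩

theorem lab_v0 {f : V × V} (hf : f ∈ D.F) (h : (D.next x y v m).lab v f = 0) :
    D.lab y f = 0 := by
  rw [lab_v hI hF hf] at h
  split_ifs at h with h1 h2
  all_goals first | exact h2 | exact absurd h (by decide)

theorem lab_v0' {f : V × V} (hf : f ∈ D.F) (h : D.lab y f = 0) :
    (D.next x y v m).lab v f = 0 := by
  have h1 : D.lab x f = 0 := hI.i3a x hF.hx y hF.hy hF.hxy.le f hf h
  rw [lab_v hI hF hf]
  simp [h1, h]

theorem lab_v1 {f : V × V} (hf : f ∈ D.F) : (D.next x y v m).lab v f = 1 ↔ D.lab x f = 1 := by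
  rw [lab_v hI hF hf]
  constructor
  · intro h
    split_ifs at h with h1 h2
    · exact h1
    · exact absurd h (by decide)
    · exact absurd h (by decide)
  · intro h
    simp [h]

theorem lab_v2 {f : V × V} (hf : f ∈ D.F) (h1 : D.lab x f ≠ 1) (h2 : D.lab y f ≠ 0) :
    (D.next x y v m).lab v f = 2 := by
  rw [lab_v hI hF hf]
  simp [h1, h2]

/-- elements of `x :: m` -/
theorem xm_facts {w : V} (hw : w ∈ x :: m) : w ∈ γ ∧ w ∈ K ∧ D.pos x ≤ D.pos w ∧
    D.pos w < D.pos y ∧ D.top w = w := by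
  rcases List.mem_cons.1 hw with rfl | hw
  · exact ⟨hF.hx, hI.sub _ hF.hx, le_rfl, hF.hxy, hI.topw _ hF.hx⟩
  · have hg := hF.mγ w hw
    rcases hF.tri w hg with h | h | h
    · exact absurd hw h.2.1
    · exact ⟨hg, hI.sub _ hg, h.2.1.le, h.2.2, hI.topw _ hg⟩
    · exact absurd hw h.2.1

/-- elements of the interval -/
theorem int_facts {w : V} (hw : w ∈ x :: (m ++ [y])) : w ∈ γ ∧ w ∈ K ∧ D.pos x ≤ D.pos w ∧
    D.pos w ≤ D.pos y ∧ D.top w = w := by
  have : w ∈ x :: m ∨ w = y := by
    simp only [List.mem_cons, List.mem_append, List.not_mem_nil, or_false] at hw ⊢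
    tauto
  rcases this with h | rfl
  · obtain ⟨a, b, c, d, e⟩ := xm_facts hI hF h
    exact ⟨a, b, c, d.le, e⟩
  · exact ⟨hF.hy, hI.sub _ hF.hy, hF.hxy.le, le_rfl, hI.topw _ hF.hy⟩

/-- tops are outside or in `m` -/
theorem top_cases {z : V} (hz : z ∈ K) :
    (D.pos (D.top z) ≤ D.pos x ∧ D.top z ∉ m ∧ D.top z ∈ γ') ∨
    (D.top z ∈ m ∧ D.pos x < D.pos (D.top z) ∧ D.pos (D.top z) < D.pos y) ∨
    (D.pos y ≤ D.pos (D.top z) ∧ D.top z ∉ m ∧ D.top z ∈ γ') :=
  hF.tri _ (hI.topg z hz)

/-- `Sub` for old vertices survives -/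
theorem sub_old0 {u z : V} (hu : u ∈ K) (hz : z ∈ K) (h : D.Sub 0 u z)
    (hp : D.pos (D.top z) ≤ D.pos (D.top u)) : (D.next x y v m).Sub 0 u z := by
  intro f hf hl
  rcases (mem_F hI hF).1 hf with h1 | ⟨w, hw, rfl⟩
  · rw [lab_old hI hF hu h1] at hl
    rw [lab_old hI hF hz h1]
    exact h f h1 hl
  · rw [lab_new hI hF hu] at hl
    rw [lab_new hI hF hz]
    split_ifs at hl with h2
    · rw [if_pos (hp.trans h2)]
    · exact absurd hl (by decide)

theorem sub_old1 {u z : V} (hu : u ∈ K) (hz : z ∈ K) (h : D.Sub 1 u z)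
    (hp : D.pos (D.top u) ≤ D.pos (D.top z)) : (D.next x y v m).Sub 1 u z := by
  intro f hf hl
  rcases (mem_F hI hF).1 hf with h1 | ⟨w, hw, rfl⟩
  · rw [lab_old hI hF hu h1] at hl
    rw [lab_old hI hF hz h1]
    exact h f h1 hl
  · rw [lab_new hI hF hu] at hl
    rw [lab_new hI hF hz]
    split_ifs at hl with h2
    · exact absurd hl (by decide)
    · rw [if_neg (fun h3 => h2 (hp.trans h3))]

theorem sub_old2 {u z : V} (hu : u ∈ K) (hz : z ∈ K) (h : D.Sub 2 u z) :
    (D.next x y v m).Sub 2 u z := by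
  intro f hf hl
  rcases (mem_F hI hF).1 hf with h1 | ⟨w, hw, rfl⟩
  · rw [lab_old hI hF hu h1] at hl
    rw [lab_old hI hF hz h1]
    exact h f h1 hl
  · rw [lab_new hI hF hu] at hl
    split_ifs at hl
    · exact absurd hl (by decide)
    · exact absurd hl (by decide)

theorem pr_old {z : V} (hz : z ∈ K) : (D.next x y v m).pr z =
    if D.pr z = none ∧ z ∈ x :: m then some (v, z) else D.pr z := by
  simp [Dat.next, ne_v hI hF hz]

theorem pr_v : (D.next x y v m).pr v = none := by
  simp [Dat.next]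

theorem s0_old {u z : V} (hu : u ∈ K) (hz : z ∈ K) (h : D.S0 u z) :
    (D.next x y v m).S0 u z := by
  obtain ⟨h1, h2, h3, h4⟩ := h
  refine ⟨sub_old0 hI hF hu hz h1 h2, top_mono hI hF hz hu h2, ?_, ?_⟩
  · intro f hf
    rw [pr_old hI hF hz] at hf
    split_ifs at hf with hc
    · obtain rfl := Option.some.inj hf
      have h5 := h4 hc.1
      rw [(xm_facts hI hF hc.2).2.2.2.2] at h5
      rw [lab_new hI hF hu, if_neg (by linarith)]
      decide
    · have h5 := (hI.prs z hz f hf).1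
      rw [lab_old hI hF hu h5]
      exact h3 f hf
  · intro hn
    rw [pr_old hI hF hz] at hn
    split_ifs at hn with hc
    have h5 := h4 hn
    have hzg := hI.prn z hz hn
    have htz := hI.topw z hzg
    have hzm : z ∉ x :: m := fun hh => hc ⟨hn, hh⟩
    have hxy := hF.hxy
    rw [pos_top hI hF hz, pos_top hI hF hu]
    rw [htz] at h5 ⊢
    rcases hF.tri z hzg with h6 | h6 | h6
    · have hne : D.pos z ≠ D.pos x := fun hh =>
        hzm (by rw [hF.inj z hzg x hF.hx hh]; simp)
      have hlt : D.pos z < D.pos x := lt_of_le_of_ne h6.1 hne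
      rw [if_neg (by rintro ⟨a, b⟩; linarith)]
      split_ifs
      · linarith
      · exact h5
    · exact absurd (List.mem_cons_of_mem x h6.1) hzm
    · rw [if_neg (by rintro ⟨a, b⟩; linarith), if_neg (by rintro ⟨a, b⟩; linarith)]
      exact h5

theorem s1_old {u z : V} (hu : u ∈ K) (hz : z ∈ K) (h : D.S1 γ u z) :
    (D.next x y v m).S1 γ' u z := by
  obtain ⟨h1, h2, h3⟩ := h
  refine ⟨sub_old1 hI hF hu hz h1 h2, top_mono hI hF hu hz h2, ?_⟩
  rcases h3 with ⟨f, hf, h3, h4⟩ | ⟨hzg, h3⟩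
  · left
    exact ⟨f, (mem_F hI hF).2 (Or.inl hf), by rw [lab_old hI hF hz hf]; exact h3,
      by rw [lab_old hI hF hu hf]; exact h4⟩
  · have hxy := hF.hxy
    have htz := hI.topw z hzg
    by_cases hzm : z ∈ m ∨ z = y
    · left
      obtain ⟨w0, hw0, a1, a2, a3⟩ := hF.pred z hzm
      refine ⟨(v, w0), (mem_F hI hF).2 (Or.inr ⟨w0, hw0, rfl⟩), ?_, ?_⟩
      · rw [lab_new hI hF hz, htz, if_neg (by linarith)]
      · rw [lab_new hI hF hu, if_pos (a3 _ (hI.topg u hu) h3)]
        decide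
    · right
      push Not at hzm
      rcases hF.tri z hzg with h6 | h6 | h6
      · refine ⟨h6.2.2, ?_⟩
        rw [pos_top hI hF hu, pos_K hI hF hz, if_neg (by rintro ⟨a, b⟩; linarith)]
        exact h3
      · exact absurd h6.1 hzm.1
      · refine ⟨h6.2.2, ?_⟩
        have hne : D.pos z ≠ D.pos y := fun hh => hzm.2 (hF.inj z hzg y hF.hy hh)
        have hlt : D.pos y < D.pos z := lt_of_le_of_ne h6.1 hne.symm
        rw [pos_top hI hF hu, pos_K hI hF hz]
        split_ifs
        · linarith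
        · exact h3

theorem s2_old {u z : V} (hu : u ∈ K) (hz : z ∈ K) (h : D.S2 u z) :
    (D.next x y v m).S2 u z := by
  obtain ⟨h1, f, hf, h3, h4⟩ := h
  exact ⟨sub_old2 hI hF hu hz h1, f, (mem_F hI hF).2 (Or.inl hf),
    by rw [lab_old hI hF hz hf]; exact h3, by rw [lab_old hI hF hu hf]; exact h4⟩

theorem ty_old {u z : V} (hu : u ∈ K) (hz : z ∈ K) (h : D.Ty u z) :
    (D.next x y v m).Ty u z := by
  rcases h with ⟨a, b, c, d⟩ | ⟨a, b, c, d⟩ | ⟨a, b, c, d⟩
  · left
    exact ⟨sub_old0 hI hF hu hz a d, sub_old1 hI hF hz hu b d, sub_old2 hI hF hz hu c,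
      top_mono hI hF hz hu d⟩
  · right; left
    exact ⟨sub_old1 hI hF hu hz a d, sub_old0 hI hF hz hu b d, sub_old2 hI hF hz hu c,
      top_mono hI hF hu hz d⟩
  · right; right
    refine ⟨sub_old2 hI hF hu hz a, sub_old0 hI hF hz hu b (by rw [d]),
      sub_old1 hI hF hz hu c (by rw [d]), ?_⟩
    simp [Dat.next, ne_v hI hF hu, ne_v hI hF hz, d]

/-! ### relations with the new vertex -/

/-- `x` and the new vertex: type 0 -/
theorem ty_x : (D.next x y v m).Ty v x := by
  have hxK := hI.sub _ hF.hx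
  have hxy := hF.hxy
  left
  refine ⟨?_, ?_, ?_, ?_⟩
  · intro f hf hl
    rcases (mem_F hI hF).1 hf with h1 | ⟨w, hw, rfl⟩
    · rw [lab_old hI hF hxK h1]
      exact hI.i3a x hF.hx y hF.hy hF.hxy.le f h1 (lab_v0 hI hF h1 hl)
    · rw [lab_vv hI hF] at hl
      exact absurd hl (by decide)
  · intro f hf hl
    rcases (mem_F hI hF).1 hf with h1 | ⟨w, hw, rfl⟩
    · rw [lab_old hI hF hxK h1] at hl
      exact (lab_v1 hI hF h1).2 hl
    · rw [lab_new hI hF hxK, hI.topw _ hF.hx, if_pos (xm_facts hI hF hw).2.2.1] at hl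
      exact absurd hl (by decide)
  · intro f hf hl
    rcases (mem_F hI hF).1 hf with h1 | ⟨w, hw, rfl⟩
    · rw [lab_old hI hF hxK h1] at hl
      refine lab_v2 hI hF h1 (by rw [hl]; decide) (fun h => ?_)
      have := hI.i3a x hF.hx y hF.hy hF.hxy.le f h1 h
      rw [this] at hl
      exact absurd hl (by decide)
    · exact lab_vv hI hF w
  · rw [pos_top hI hF hxK, hI.topw _ hF.hx, top_v hI hF, pos_v hI hF,
      if_neg (by rintro ⟨a, b⟩; linarith)]
    linarith

theorem ty_y : (D.next x y v m).Ty v y := by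
  have hyK := hI.sub _ hF.hy
  have hxy := hF.hxy
  right; left
  refine ⟨?_, ?_, ?_, ?_⟩
  · intro f hf hl
    rcases (mem_F hI hF).1 hf with h1 | ⟨w, hw, rfl⟩
    · rw [lab_old hI hF hyK h1]
      exact hI.i3b x hF.hx y hF.hy hF.hxy.le f h1 ((lab_v1 hI hF h1).1 hl)
    · rw [lab_vv hI hF] at hl
      exact absurd hl (by decide)
  · intro f hf hl
    rcases (mem_F hI hF).1 hf with h1 | ⟨w, hw, rfl⟩
    · rw [lab_old hI hF hyK h1] at hl
      exact lab_v0' hI hF h1 hl
    · have := (xm_facts hI hF hw).2.2.2.1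
      rw [lab_new hI hF hyK, hI.topw _ hF.hy, if_neg (by linarith)] at hl
      exact absurd hl (by decide)
  · intro f hf hl
    rcases (mem_F hI hF).1 hf with h1 | ⟨w, hw, rfl⟩
    · rw [lab_old hI hF hyK h1] at hl
      refine lab_v2 hI hF h1 (fun h => ?_) (by rw [hl]; decide)
      have := hI.i3b x hF.hx y hF.hy hF.hxy.le f h1 h
      rw [this] at hl
      exact absurd hl (by decide)
    · exact lab_vv hI hF w
  · rw [pos_top hI hF hyK, hI.topw _ hF.hy, top_v hI hF, pos_v hI hF,
      if_neg (by rintro ⟨a, b⟩; linarith)]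
    linarith

theorem ty_m {w : V} (hw : w ∈ m) : (D.next x y v m).Ty w v := by
  obtain ⟨hg, hK, h1, h2, ht⟩ := xm_facts hI hF (List.mem_cons_of_mem x hw)
  have h1' : D.pos x < D.pos w := by
    rcases hF.tri w hg with h | h | h
    · exact absurd hw h.2.1
    · exact h.2.1
    · exact absurd hw h.2.1
  right; right
  refine ⟨?_, ?_, ?_, ?_⟩
  · intro f hf hl
    rcases (mem_F hI hF).1 hf with h3 | ⟨w', hw', rfl⟩
    · rw [lab_old hI hF hK h3] at hl
      refine lab_v2 hI hF h3 (fun h => ?_) (fun h => ?_)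
      · have := hI.i3b x hF.hx w hg h1 f h3 h
        rw [this] at hl
        exact absurd hl (by decide)
      · have := hI.i3a w hg y hF.hy h2.le f h3 h
        rw [this] at hl
        exact absurd hl (by decide)
    · exact lab_vv hI hF w'
  · intro f hf hl
    rcases (mem_F hI hF).1 hf with h3 | ⟨w', hw', rfl⟩
    · rw [lab_old hI hF hK h3]
      exact hI.i3a w hg y hF.hy h2.le f h3 (lab_v0 hI hF h3 hl)
    · rw [lab_vv hI hF] at hl
      exact absurd hl (by decide)
  · intro f hf hl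
    rcases (mem_F hI hF).1 hf with h3 | ⟨w', hw', rfl⟩
    · rw [lab_old hI hF hK h3]
      exact hI.i3b x hF.hx w hg h1 f h3 ((lab_v1 hI hF h3).1 hl)
    · rw [lab_vv hI hF] at hl
      exact absurd hl (by decide)
  · rw [top_v hI hF]
    exact top_in hI hF hK (by rw [ht]; exact h1') (by rw [ht]; exact h2)

/-- edges at the new vertex: P3 for old `z` -/
theorem p3_newedge {w z : V} (hw : w ∈ x :: (m ++ [y])) (hz : z ∈ K) (hzw : z ≠ w) :
    ((D.next x y v m).S0 w z ∧ (D.next x y v m).S0 v z) ∨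
    ((D.next x y v m).S1 γ' w z ∧ (D.next x y v m).S1 γ' v z) := by
  obtain ⟨hg, hK, h1, h2, ht⟩ := int_facts hI hF hw
  have hxy := hF.hxy
  have hyK := hI.sub _ hF.hy
  have hxK := hI.sub _ hF.hx
  have htz := hI.topg z hz
  by_cases hc : D.pos (D.top z) ≤ D.pos w ∧ D.pos (D.top z) < D.pos y
  · left
    obtain ⟨hc1, hc2⟩ := hc
    have sub0 : D.Sub 0 w z := fun f hf hl =>
      hI.i2a z hz f hf (hI.i3a _ htz w hg hc1 f hf hl)
    have key : ∀ f, D.pr z = some f → D.lab w f ≠ 0 ∧ f ∈ D.F := fun f hf =>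
      ⟨(hI.prs z hz f hf).2.2.2 w hg hc1 hzw.symm, (hI.prs z hz f hf).1⟩
    have hzpos : D.pr z = none → z ∈ γ ∧ D.top z = z ∧ D.pos z < D.pos w := by
      intro hn
      have hzg := hI.prn z hz hn
      have htop := hI.topw z hzg
      refine ⟨hzg, htop, lt_of_le_of_ne (by rw [← htop]; exact hc1) ?_⟩
      intro hh
      exact hzw (hF.inj z hzg w hg hh)
    have subv : (D.next x y v m).Sub 0 v z := by
      intro f hf hl
      rcases (mem_F hI hF).1 hf with h3 | ⟨w', hw', rfl⟩
      · rw [lab_old hI hF hz h3]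
        exact sub0 f h3 (hI.i3a w hg y hF.hy h2 f h3 (lab_v0 hI hF h3 hl))
      · rw [lab_vv hI hF] at hl
        exact absurd hl (by decide)
    refine ⟨⟨sub_old0 hI hF hK hz sub0 (by rw [ht]; exact hc1),
      top_mono hI hF hz hK (by rw [ht]; exact hc1), ?_, ?_⟩, ⟨subv, ?_, ?_, ?_⟩⟩
    · intro f hf
      rw [pr_old hI hF hz] at hf
      split_ifs at hf with hcc
      · obtain rfl := Option.some.inj hf
        obtain ⟨a, b, c⟩ := hzpos hcc.1
        rw [lab_new hI hF hK, ht, if_neg (by linarith)]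
        decide
      · rw [lab_old hI hF hK (key f hf).2]
        exact (key f hf).1
    · intro hn
      rw [pr_old hI hF hz] at hn
      split_ifs at hn with hcc
      obtain ⟨a, b, c⟩ := hzpos hn
      have hzm : z ∉ x :: m := fun hh => hcc ⟨hn, hh⟩
      have hzx : D.pos z < D.pos x := by
        rcases hF.tri z a with h6 | h6 | h6
        · refine lt_of_le_of_ne h6.1 (fun hh => hzm ?_)
          rw [hF.inj z a x hF.hx hh]
          simp
        · exact absurd (List.mem_cons_of_mem x h6.1) hzm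
        · linarith
      rw [pos_top hI hF hz, pos_top hI hF hK, b, ht, if_neg (by rintro ⟨p, q⟩; linarith)]
      split_ifs
      · linarith
      · exact c
    · rw [pos_top hI hF hz, top_v hI hF, pos_v hI hF]
      split_ifs with h6
      · exact le_rfl
      · have : D.pos (D.top z) ≤ D.pos x := by
          by_contra hcc
          push Not at hcc
          exact h6 ⟨hcc, hc2⟩
        linarith
    · intro f hf
      rw [pr_old hI hF hz] at hf
      split_ifs at hf with hcc
      · obtain rfl := Option.some.inj hf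
        rw [lab_vv hI hF]
        decide
      · intro hl
        exact (key f hf).1 (hI.i3a w hg y hF.hy h2 f (key f hf).2 (lab_v0 hI hF (key f hf).2 hl))
    · intro hn
      rw [pr_old hI hF hz] at hn
      split_ifs at hn with hcc
      obtain ⟨a, b, c⟩ := hzpos hn
      have hzm : z ∉ x :: m := fun hh => hcc ⟨hn, hh⟩
      have hzx : D.pos z < D.pos x := by
        rcases hF.tri z a with h6 | h6 | h6
        · refine lt_of_le_of_ne h6.1 (fun hh => hzm ?_)
          rw [hF.inj z a x hF.hx hh]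
          simp
        · exact absurd (List.mem_cons_of_mem x h6.1) hzm
        · linarith
      rw [pos_top hI hF hz, top_v hI hF, pos_v hI hF, b, if_neg (by rintro ⟨p, q⟩; linarith)]
      linarith
  · right
    have hc1 : D.pos w ≤ D.pos (D.top z) := by
      by_contra hcc
      push Not at hcc
      exact hc ⟨hcc.le, by linarith⟩
    have hc2 : D.pos x < D.pos (D.top z) := by
      by_contra hcc
      push Not at hcc
      exact hc ⟨by linarith, by linarith⟩
    have sub1 : D.Sub 1 w z := fun f hf hl =>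
      hI.i2b z hz f hf (hI.i3b w hg _ htz hc1 f hf hl)
    have subv : (D.next x y v m).Sub 1 v z := by
      intro f hf hl
      rcases (mem_F hI hF).1 hf with h3 | ⟨w', hw', rfl⟩
      · rw [lab_old hI hF hz h3]
        exact sub1 f h3 (hI.i3b x hF.hx w hg h1 f h3 ((lab_v1 hI hF h3).1 hl))
      · rw [lab_vv hI hF] at hl
        exact absurd hl (by decide)
    have hold : (∃ f ∈ D.F, D.lab z f = 1 ∧ D.lab w f ≠ 1) ∨
        (z ∈ γ ∧ D.pos (D.top w) < D.pos z) := by
      by_cases hzg : z ∈ γ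
      · right
        refine ⟨hzg, ?_⟩
        rw [ht]
        have htop := hI.topw z hzg
        rw [htop] at hc1
        exact lt_of_le_of_ne hc1 (fun hh => hzw (hF.inj z hzg w hg hh.symm))
      · left
        exact hI.cov z hz hzg w hg hc1
    have hS1 : D.S1 γ w z := ⟨sub1, by rw [ht]; exact hc1, hold⟩
    refine ⟨s1_old hI hF hK hz hS1, subv, ?_, ?_⟩
    · rw [top_v hI hF, pos_v hI hF, pos_top hI hF hz]
      split_ifs with h6
      · exact le_rfl
      · have : D.pos y ≤ D.pos (D.top z) := by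
          by_contra hcc
          push Not at hcc
          exact h6 ⟨hc2, hcc⟩
        linarith
    · rcases hold with ⟨f, hf, h3, h4⟩ | ⟨hzg, h3⟩
      · left
        refine ⟨f, (mem_F hI hF).2 (Or.inl hf), by rw [lab_old hI hF hz hf]; exact h3, ?_⟩
        intro h5
        exact h4 (hI.i3b x hF.hx w hg h1 f hf ((lab_v1 hI hF hf).1 h5))
      · have htop := hI.topw z hzg
        by_cases hzm : z ∈ m ∨ z = y
        · left
          obtain ⟨w0, hw0, a1, a2, a3⟩ := hF.pred z hzm
          refine ⟨(v, w0), (mem_F hI hF).2 (Or.inr ⟨w0, hw0, rfl⟩), ?_, ?_⟩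
          · rw [lab_new hI hF hz, htop, if_neg (by linarith)]
          · rw [lab_vv hI hF]
            decide
        · right
          push Not at hzm
          rw [htop] at hc2
          rcases hF.tri z hzg with h6 | h6 | h6
          · linarith
          · exact absurd h6.1 hzm.1
          · refine ⟨h6.2.2, ?_⟩
            rw [top_v hI hF, pos_v hI hF, pos_K hI hF hz]
            linarith

/-! ### P3 for the new vertex and old edges -/

/-- left type relative to a contour vertex -/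
def LT (D : Dat V) (x u : V) : Prop := D.Sub 1 u x ∧ D.pos (D.top u) ≤ D.pos x
def NL (D : Dat V) (x u : V) : Prop := ∀ f ∈ D.F, D.lab u f = 2 → D.lab x f ≠ 1
def RT (D : Dat V) (y u : V) : Prop := D.Sub 0 u y ∧ D.pos y ≤ D.pos (D.top u)
def NR (D : Dat V) (y u : V) : Prop := ∀ f ∈ D.F, D.lab u f = 2 → D.lab y f ≠ 0

omit hF in
theorem nl_self (x : V) : NL D x x := fun f _ h h' => by
  rw [h] at h'
  exact absurd h' (by decide)

omit hF in
theorem nr_self (x : V) : NR D x x := fun f _ h h' => by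
  rw [h] at h'
  exact absurd h' (by decide)

/-- one endpoint of an edge being the contour vertex `x` -/
theorem left_self {x u : V} (hx : x ∈ γ) (hu : u ∈ K) (h : D.Ty x u ∨ D.Ty u x) :
    LT D x u ∨ NL D x u := by
  have htx := hI.topw x hx
  rcases h with h | h
  · rcases h with ⟨a, b, c, d⟩ | ⟨a, b, c, d⟩ | ⟨a, b, c, d⟩
    · exact Or.inr (fun f hf h1 h2 => by rw [c f hf h1] at h2; exact absurd h2 (by decide))
    · exact Or.inr (fun f hf h1 h2 => by rw [c f hf h1] at h2; exact absurd h2 (by decide))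
    · right
      intro f hf h1 h2
      rw [htx] at d
      have := hI.i2b u hu f hf (by rw [← d]; exact h2)
      rw [this] at h1
      exact absurd h1 (by decide)
  · rcases h with ⟨a, b, c, d⟩ | ⟨a, b, c, d⟩ | ⟨a, b, c, d⟩
    · right
      intro f hf h1 h2
      have := b f hf h2
      rw [this] at h1
      exact absurd h1 (by decide)
    · left
      exact ⟨a, by rw [htx] at d; exact d⟩
    · exact Or.inr (fun f hf h1 h2 => by rw [a f hf h1] at h2; exact absurd h2 (by decide))

theorem right_self {y u : V} (hy : y ∈ γ) (hu : u ∈ K) (h : D.Ty y u ∨ D.Ty u y) :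
    RT D y u ∨ NR D y u := by
  have hty := hI.topw y hy
  rcases h with h | h
  · rcases h with ⟨a, b, c, d⟩ | ⟨a, b, c, d⟩ | ⟨a, b, c, d⟩
    · exact Or.inr (fun f hf h1 h2 => by rw [c f hf h1] at h2; exact absurd h2 (by decide))
    · exact Or.inr (fun f hf h1 h2 => by rw [c f hf h1] at h2; exact absurd h2 (by decide))
    · right
      intro f hf h1 h2
      rw [hty] at d
      have := hI.i2a u hu f hf (by rw [← d]; exact h2)
      rw [this] at h1
      exact absurd h1 (by decide)
  · rcases h with ⟨a, b, c, d⟩ | ⟨a, b, c, d⟩ | ⟨a, b, c, d⟩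
    · left
      exact ⟨a, by rw [hty] at d; exact d⟩
    · right
      intro f hf h1 h2
      have := b f hf h2
      rw [this] at h1
      exact absurd h1 (by decide)
    · exact Or.inr (fun f hf h1 h2 => by rw [a f hf h1] at h2; exact absurd h2 (by decide))

theorem lt_self {x : V} (hx : x ∈ γ) : LT D x x :=
  ⟨fun _ _ h => h, by rw [hI.topw x hx]⟩

theorem rt_self {x : V} (hx : x ∈ γ) : RT D x x :=
  ⟨fun _ _ h => h, by rw [hI.topw x hx]⟩

theorem left_alt {u w x : V} (hA : A u w) (hx : x ∈ γ) :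
    (LT D x u ∧ LT D x w) ∨ (NL D x u ∧ NL D x w) := by
  obtain ⟨huK, hwK, huw⟩ := hI.adjK u w hA
  have htx := hI.topw x hx
  by_cases h1 : x = u
  · subst h1
    rcases left_self hI hF hx hwK (hI.typ _ _ hA) with h | h
    · exact Or.inl ⟨lt_self hI hF hx, h⟩
    · exact Or.inr ⟨nl_self hI x, h⟩
  by_cases h2 : x = w
  · subst h2
    rcases left_self hI hF hx huK (hI.typ _ _ (hI.symm _ _ hA)) with h | h
    · exact Or.inl ⟨h, lt_self hI hF hx⟩
    · exact Or.inr ⟨h, nl_self hI x⟩
  have key0 : ∀ z, z ∈ K → D.S0 z x → NL D x z := by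
    intro z hz h f hf h3 h4
    have h5 := hI.i3b x hx _ (hI.topg z hz) (by rw [← htx]; exact h.2.1) f hf h4
    have := hI.i2b z hz f hf h5
    rw [this] at h3
    exact absurd h3 (by decide)
  have key2 : ∀ z, D.S2 z x → NL D x z := by
    intro z h f hf h3 h4
    rw [h.1 f hf h3] at h4
    exact absurd h4 (by decide)
  rcases hI.p3 u w hA x (hI.sub _ hx) h1 h2 with h | h | h
  · exact Or.inr ⟨key0 u huK h.1, key0 w hwK h.2⟩
  · refine Or.inl ⟨⟨h.1.1, ?_⟩, ⟨h.2.1, ?_⟩⟩
    · have := h.1.2.1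
      rwa [htx] at this
    · have := h.2.2.1
      rwa [htx] at this
  · exact Or.inr ⟨key2 u h.1, key2 w h.2⟩

theorem right_alt {u w y : V} (hA : A u w) (hy : y ∈ γ) :
    (RT D y u ∧ RT D y w) ∨ (NR D y u ∧ NR D y w) := by
  obtain ⟨huK, hwK, huw⟩ := hI.adjK u w hA
  have hty := hI.topw y hy
  by_cases h1 : y = u
  · subst h1
    rcases right_self hI hF hy hwK (hI.typ _ _ hA) with h | h
    · exact Or.inl ⟨rt_self hI hF hy, h⟩
    · exact Or.inr ⟨nr_self hI y, h⟩
  by_cases h2 : y = w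
  · subst h2
    rcases right_self hI hF hy huK (hI.typ _ _ (hI.symm _ _ hA)) with h | h
    · exact Or.inl ⟨h, rt_self hI hF hy⟩
    · exact Or.inr ⟨h, nr_self hI y⟩
  have key1 : ∀ z, z ∈ K → D.S1 γ z y → NR D y z := by
    intro z hz h f hf h3 h4
    have h5 := hI.i3a _ (hI.topg z hz) y hy (by have := h.2.1; rwa [hty] at this) f hf h4
    have := hI.i2a z hz f hf h5
    rw [this] at h3
    exact absurd h3 (by decide)
  have key2 : ∀ z, D.S2 z y → NR D y z := by
    intro z h f hf h3 h4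
    rw [h.1 f hf h3] at h4
    exact absurd h4 (by decide)
  rcases hI.p3 u w hA y (hI.sub _ hy) h1 h2 with h | h | h
  · refine Or.inl ⟨⟨h.1.1, ?_⟩, ⟨h.2.1, ?_⟩⟩
    · have := h.1.2.1
      rwa [hty] at this
    · have := h.2.2.1
      rwa [hty] at this
  · exact Or.inr ⟨key1 u huK h.1, key1 w hwK h.2⟩
  · exact Or.inr ⟨key2 u h.1, key2 w h.2⟩

theorem s1_of_lt {u : V} (hu : u ∈ K) (h : LT D x u) : (D.next x y v m).S1 γ' u v := by
  obtain ⟨h1, h2⟩ := h
  have hxy := hF.hxy
  refine ⟨?_, ?_, Or.inr ⟨hF.vmem, ?_⟩⟩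
  · intro f hf hl
    rcases (mem_F hI hF).1 hf with h3 | ⟨w', hw', rfl⟩
    · rw [lab_old hI hF hu h3] at hl
      exact (lab_v1 hI hF h3).2 (h1 f h3 hl)
    · rw [lab_new hI hF hu, if_pos (h2.trans (xm_facts hI hF hw').2.2.1)] at hl
      exact absurd hl (by decide)
  · rw [pos_top hI hF hu, top_v hI hF, pos_v hI hF, if_neg (by rintro ⟨a, b⟩; linarith)]
    linarith
  · rw [pos_top hI hF hu, pos_v hI hF, if_neg (by rintro ⟨a, b⟩; linarith)]
    linarith

theorem s0_of_rt {u : V} (hu : u ∈ K) (h : RT D y u) : (D.next x y v m).S0 u v := by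
  obtain ⟨h1, h2⟩ := h
  have hxy := hF.hxy
  refine ⟨?_, ?_, ?_, ?_⟩
  · intro f hf hl
    rcases (mem_F hI hF).1 hf with h3 | ⟨w', hw', rfl⟩
    · rw [lab_old hI hF hu h3] at hl
      exact lab_v0' hI hF h3 (h1 f h3 hl)
    · have := (xm_facts hI hF hw').2.2.2.1
      rw [lab_new hI hF hu, if_neg (by linarith)] at hl
      exact absurd hl (by decide)
  · rw [pos_top hI hF hu, top_v hI hF, pos_v hI hF, if_neg (by rintro ⟨a, b⟩; linarith)]
    linarith
  · intro f hf
    rw [pr_v hI hF] at hf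
    exact absurd hf (by simp)
  · intro _
    rw [pos_top hI hF hu, top_v hI hF, pos_v hI hF, if_neg (by rintro ⟨a, b⟩; linarith)]
    linarith

theorem s2_of_n {u : V} (hu : u ∈ K) (h : NL D x u) (h' : NR D y u) :
    (D.next x y v m).S2 u v := by
  refine ⟨?_, (v, x), (mem_F hI hF).2 (Or.inr ⟨x, by simp, rfl⟩), lab_vv hI hF x, ?_⟩
  · intro f hf hl
    rcases (mem_F hI hF).1 hf with h3 | ⟨w', hw', rfl⟩
    · rw [lab_old hI hF hu h3] at hl
      exact lab_v2 hI hF h3 (h f h3 hl) (h' f h3 hl)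
    · exact lab_vv hI hF w'
  · rw [lab_new hI hF hu]
    split_ifs <;> decide

theorem p3_newvertex {u w : V} (hA : A u w) :
    ((D.next x y v m).S0 u v ∧ (D.next x y v m).S0 w v) ∨
    ((D.next x y v m).S1 γ' u v ∧ (D.next x y v m).S1 γ' w v) ∨
    ((D.next x y v m).S2 u v ∧ (D.next x y v m).S2 w v) := by
  obtain ⟨huK, hwK, huw⟩ := hI.adjK u w hA
  rcases left_alt hI hF hA hF.hx with h | h
  · exact Or.inr (Or.inl ⟨s1_of_lt hI hF huK h.1, s1_of_lt hI hF hwK h.2⟩)
  · rcases right_alt hI hF hA hF.hy with h' | h'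
    · exact Or.inl ⟨s0_of_rt hI hF huK h'.1, s0_of_rt hI hF hwK h'.2⟩
    · exact Or.inr (Or.inr ⟨s2_of_n hI hF huK h.1 h'.1, s2_of_n hI hF hwK h.2 h'.2⟩)

/-! ### the other invariants -/

theorem next_topg {z : V} (hz : z ∈ insert v K) : (D.next x y v m).top z ∈ γ' := by
  rcases Finset.mem_insert.1 hz with rfl | hz
  · rw [top_v hI hF]; exact hF.vmem
  · rcases top_cases hI hF hz with h | h | h
    · rw [top_out hI hF hz (Or.inl h.1)]; exact h.2.2
    · rw [top_in hI hF hz h.2.1 h.2.2]; exact hF.vmem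
    · rw [top_out hI hF hz (Or.inr h.1)]; exact h.2.2

theorem next_out {w : V} (hw : w ∈ γ') (hne : w ≠ v) : w ∈ γ ∧ w ∈ K ∧ w ∉ m ∧ D.top w = w ∧
    (D.pos w ≤ D.pos x ∨ D.pos y ≤ D.pos w) ∧ (D.next x y v m).top w = w := by
  rcases hF.mem' w hw with h | ⟨h1, h2⟩
  · exact absurd h hne
  · have ht := hI.topw w h1
    have hK := hI.sub _ h1
    have h3 : D.pos w ≤ D.pos x ∨ D.pos y ≤ D.pos w := by
      rcases hF.tri w h1 with h | h | h
      · exact Or.inl h.1
      · exact absurd h.1 h2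
      · exact Or.inr h.1
    refine ⟨h1, hK, h2, ht, h3, ?_⟩
    rw [top_out hI hF hK (by rw [ht]; exact h3), ht]

theorem next_i2a {z : V} (hz : z ∈ insert v K) :
    (D.next x y v m).Sub 0 ((D.next x y v m).top z) z := by
  rcases Finset.mem_insert.1 hz with rfl | hz
  · rw [top_v hI hF]; exact fun _ _ h => h
  intro f hf hl
  rcases (mem_F hI hF).1 hf with h1 | ⟨w, hw, rfl⟩
  · rw [lab_old hI hF hz h1]
    rcases top_cases hI hF hz with h | h | h
    · rw [top_out hI hF hz (Or.inl h.1), lab_old hI hF (topK hI hF hz) h1] at hl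
      exact hI.i2a z hz f h1 hl
    · rw [top_in hI hF hz h.2.1 h.2.2] at hl
      exact hI.i2a z hz f h1 (hI.i3a _ (hI.topg z hz) y hF.hy h.2.2.le f h1 (lab_v0 hI hF h1 hl))
    · rw [top_out hI hF hz (Or.inr h.1), lab_old hI hF (topK hI hF hz) h1] at hl
      exact hI.i2a z hz f h1 hl
  · rcases top_cases hI hF hz with h | h | h
    · rw [top_out hI hF hz (Or.inl h.1), lab_new hI hF (topK hI hF hz),
        hI.topw _ (hI.topg z hz)] at hl
      rw [lab_new hI hF hz]; exact hl
    · rw [top_in hI hF hz h.2.1 h.2.2, lab_vv hI hF] at hl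
      exact absurd hl (by decide)
    · rw [top_out hI hF hz (Or.inr h.1), lab_new hI hF (topK hI hF hz),
        hI.topw _ (hI.topg z hz)] at hl
      rw [lab_new hI hF hz]; exact hl

theorem next_i2b {z : V} (hz : z ∈ insert v K) :
    (D.next x y v m).Sub 1 ((D.next x y v m).top z) z := by
  rcases Finset.mem_insert.1 hz with rfl | hz
  · rw [top_v hI hF]; exact fun _ _ h => h
  intro f hf hl
  rcases (mem_F hI hF).1 hf with h1 | ⟨w, hw, rfl⟩
  · rw [lab_old hI hF hz h1]
    rcases top_cases hI hF hz with h | h | h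
    · rw [top_out hI hF hz (Or.inl h.1), lab_old hI hF (topK hI hF hz) h1] at hl
      exact hI.i2b z hz f h1 hl
    · rw [top_in hI hF hz h.2.1 h.2.2] at hl
      exact hI.i2b z hz f h1 (hI.i3b x hF.hx _ (hI.topg z hz) h.2.1.le f h1
        ((lab_v1 hI hF h1).1 hl))
    · rw [top_out hI hF hz (Or.inr h.1), lab_old hI hF (topK hI hF hz) h1] at hl
      exact hI.i2b z hz f h1 hl
  · rcases top_cases hI hF hz with h | h | h
    · rw [top_out hI hF hz (Or.inl h.1), lab_new hI hF (topK hI hF hz),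
        hI.topw _ (hI.topg z hz)] at hl
      rw [lab_new hI hF hz]; exact hl
    · rw [top_in hI hF hz h.2.1 h.2.2, lab_vv hI hF] at hl
      exact absurd hl (by decide)
    · rw [top_out hI hF hz (Or.inr h.1), lab_new hI hF (topK hI hF hz),
        hI.topw _ (hI.topg z hz)] at hl
      rw [lab_new hI hF hz]; exact hl

theorem next_i3a {w w' : V} (hw : w ∈ γ') (hw' : w' ∈ γ')
    (hp : (D.next x y v m).pos w ≤ (D.next x y v m).pos w') : (D.next x y v m).Sub 0 w' w := by
  have hxy := hF.hxy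
  by_cases e1 : w = v
  · by_cases e2 : w' = v
    · rw [e1, e2]; exact fun _ _ h => h
    · obtain ⟨a, b, c, d, e, g⟩ := next_out hI hF hw' e2
      subst e1
      rw [pos_v hI hF, pos_K hI hF b] at hp
      have e' : D.pos y ≤ D.pos w' := by
        rcases e with e | e
        · linarith
        · exact e
      intro f hf hl
      rcases (mem_F hI hF).1 hf with h1 | ⟨w0, hw0, rfl⟩
      · rw [lab_old hI hF b h1] at hl
        exact lab_v0' hI hF h1 (hI.i3a y hF.hy w' a e' f h1 hl)
      · have := (xm_facts hI hF hw0).2.2.2.1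
        rw [lab_new hI hF b, d, if_neg (by linarith)] at hl
        exact absurd hl (by decide)
  · obtain ⟨a, b, c, d, e, g⟩ := next_out hI hF hw e1
    by_cases e2 : w' = v
    · subst e2
      rw [pos_v hI hF, pos_K hI hF b] at hp
      have e' : D.pos w ≤ D.pos x := by
        rcases e with e | e
        · exact e
        · linarith
      intro f hf hl
      rcases (mem_F hI hF).1 hf with h1 | ⟨w0, hw0, rfl⟩
      · rw [lab_old hI hF b h1]
        exact hI.i3a w a y hF.hy (by linarith) f h1 (lab_v0 hI hF h1 hl)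
      · rw [lab_vv hI hF] at hl
        exact absurd hl (by decide)
    · obtain ⟨a', b', c', d', e', g'⟩ := next_out hI hF hw' e2
      rw [pos_K hI hF b, pos_K hI hF b'] at hp
      exact sub_old0 hI hF b' b (hI.i3a w a w' a' hp) (by rw [d, d']; exact hp)

theorem next_i3b {w w' : V} (hw : w ∈ γ') (hw' : w' ∈ γ')
    (hp : (D.next x y v m).pos w ≤ (D.next x y v m).pos w') : (D.next x y v m).Sub 1 w w' := by
  have hxy := hF.hxy
  by_cases e1 : w = v
  · by_cases e2 : w' = v
    · rw [e1, e2]; exact fun _ _ h => h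
    · obtain ⟨a, b, c, d, e, g⟩ := next_out hI hF hw' e2
      subst e1
      rw [pos_v hI hF, pos_K hI hF b] at hp
      have e' : D.pos y ≤ D.pos w' := by
        rcases e with e | e
        · linarith
        · exact e
      intro f hf hl
      rcases (mem_F hI hF).1 hf with h1 | ⟨w0, hw0, rfl⟩
      · rw [lab_old hI hF b h1]
        exact hI.i3b x hF.hx w' a (by linarith) f h1 ((lab_v1 hI hF h1).1 hl)
      · rw [lab_vv hI hF] at hl
        exact absurd hl (by decide)
  · obtain ⟨a, b, c, d, e, g⟩ := next_out hI hF hw e1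
    by_cases e2 : w' = v
    · subst e2
      rw [pos_v hI hF, pos_K hI hF b] at hp
      have e' : D.pos w ≤ D.pos x := by
        rcases e with e | e
        · exact e
        · linarith
      intro f hf hl
      rcases (mem_F hI hF).1 hf with h1 | ⟨w0, hw0, rfl⟩
      · rw [lab_old hI hF b h1] at hl
        exact (lab_v1 hI hF h1).2 (hI.i3b w a x hF.hx e' f h1 hl)
      · have := (xm_facts hI hF hw0).2.2.1
        rw [lab_new hI hF b, d, if_pos (by linarith)] at hl
        exact absurd hl (by decide)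
    · obtain ⟨a', b', c', d', e', g'⟩ := next_out hI hF hw' e2
      rw [pos_K hI hF b, pos_K hI hF b'] at hp
      exact sub_old1 hI hF b b' (hI.i3b w a w' a' hp) (by rw [d, d']; exact hp)

theorem next_prn {z : V} (hz : z ∈ insert v K) (h : (D.next x y v m).pr z = none) : z ∈ γ' := by
  rcases Finset.mem_insert.1 hz with rfl | hz
  · exact hF.vmem
  · rw [pr_old hI hF hz] at h
    split_ifs at h with hc
    have hg := hI.prn z hz h
    have hzm : z ∉ x :: m := fun hh => hc ⟨h, hh⟩
    rcases hF.tri z hg with h6 | h6 | h6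
    · exact h6.2.2
    · exact absurd (List.mem_cons_of_mem x h6.1) hzm
    · exact h6.2.2

theorem next_prs {z : V} (hz : z ∈ insert v K) {f : V × V} (h : (D.next x y v m).pr z = some f) :
    f ∈ (D.next x y v m).F ∧ f.2 = z ∧ (D.next x y v m).lab z f = 0 ∧
    ∀ w ∈ γ', (D.next x y v m).pos ((D.next x y v m).top z) ≤ (D.next x y v m).pos w → w ≠ z →
      (D.next x y v m).lab w f ≠ 0 := by
  have hxy := hF.hxy
  rcases Finset.mem_insert.1 hz with hzv | hz
  · rw [hzv, pr_v hI hF] at h; exact absurd h (by simp)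
  · rw [pr_old hI hF hz] at h
    split_ifs at h with hc
    · obtain rfl := Option.some.inj h
      obtain ⟨a, b, c, d, e⟩ := xm_facts hI hF hc.2
      refine ⟨(mem_F hI hF).2 (Or.inr ⟨z, hc.2, rfl⟩), rfl, ?_, ?_⟩
      · rw [lab_new hI hF hz, e, if_pos le_rfl]
      · intro w hw hp hne
        by_cases e1 : w = v
        · rw [e1, lab_vv hI hF]; decide
        · obtain ⟨a', b', c', d', e', g'⟩ := next_out hI hF hw e1
          rw [pos_top hI hF hz, pos_K hI hF b', e] at hp
          rw [lab_new hI hF b', d', if_neg]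
          · decide
          · intro hcc
            split_ifs at hp with h5
            · rcases e' with e' | e'
              · linarith
              · linarith
            · exact hne (hF.inj w a' z a (by linarith))
    · obtain ⟨a, b, c, d⟩ := hI.prs z hz f h
      refine ⟨(mem_F hI hF).2 (Or.inl a), b, by rw [lab_old hI hF hz a]; exact c, ?_⟩
      intro w hw hp hne
      by_cases e1 : w = v
      · rw [e1] at hp ⊢
        intro hl
        rw [pos_top hI hF hz, pos_v hI hF] at hp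
        have h7 : D.pos (D.top z) < D.pos y := by
          split_ifs at hp with h5
          · exact h5.2
          · linarith
        refine d y hF.hy h7.le ?_ (lab_v0 hI hF a hl)
        rintro rfl
        rw [hI.topw _ hF.hy] at h7
        linarith
      · obtain ⟨a', b', c', d', e', g'⟩ := next_out hI hF hw e1
        rw [lab_old hI hF b' a]
        refine d w a' ?_ hne
        rw [pos_top hI hF hz, pos_K hI hF b'] at hp
        split_ifs at hp with h5
        · rcases e' with e' | e'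
          · linarith
          · linarith
        · exact hp

theorem next_cov {z : V} (hz : z ∈ insert v K) (hzg : z ∉ γ') {w : V} (hw : w ∈ γ')
    (hp : (D.next x y v m).pos w ≤ (D.next x y v m).pos ((D.next x y v m).top z)) :
    ∃ f ∈ (D.next x y v m).F, (D.next x y v m).lab z f = 1 ∧ (D.next x y v m).lab w f ≠ 1 := by
  have hxy := hF.hxy
  rcases Finset.mem_insert.1 hz with hzv | hz
  · exact absurd (hzv ▸ hF.vmem) hzg
  rw [pos_top hI hF hz] at hp
  by_cases hg : z ∈ γ
  · -- newly covered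
    have hzm : z ∈ m := by
      rcases hF.tri z hg with h6 | h6 | h6
      · exact absurd h6.2.2 hzg
      · exact h6.1
      · exact absurd h6.2.2 hzg
    have ht := hI.topw z hg
    obtain ⟨w0, hw0, a1, a2, a3⟩ := hF.pred z (Or.inl hzm)
    refine ⟨(v, w0), (mem_F hI hF).2 (Or.inr ⟨w0, hw0, rfl⟩), ?_, ?_⟩
    · rw [lab_new hI hF hz, ht, if_neg (by linarith)]
    · by_cases e1 : w = v
      · rw [e1, lab_vv hI hF]; decide
      · obtain ⟨a', b', c', d', e', g'⟩ := next_out hI hF hw e1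
        rw [pos_K hI hF b', ht] at hp
        have h5 : D.pos x < D.pos z ∧ D.pos z < D.pos y := by
          rcases hF.tri z hg with h6 | h6 | h6
          · exact absurd hzm h6.2.1
          · exact h6.2
          · exact absurd hzm h6.2.1
        rw [if_pos h5] at hp
        have h6 : D.pos w ≤ D.pos x := by
          rcases e' with e' | e'
          · exact e'
          · linarith
        rw [lab_new hI hF b', d', if_pos (h6.trans a1)]
        decide
  · by_cases e1 : w = v
    · rw [e1] at hp ⊢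
      rw [pos_v hI hF] at hp
      have h5 : D.pos x ≤ D.pos (D.top z) := by
        split_ifs at hp with h6
        · exact h6.1.le
        · linarith
      obtain ⟨f, hf, h7, h8⟩ := hI.cov z hz hg x hF.hx h5
      refine ⟨f, (mem_F hI hF).2 (Or.inl hf), by rw [lab_old hI hF hz hf]; exact h7, ?_⟩
      intro h9
      exact h8 ((lab_v1 hI hF hf).1 h9)
    · obtain ⟨a', b', c', d', e', g'⟩ := next_out hI hF hw e1
      rw [pos_K hI hF b'] at hp
      have h5 : D.pos w ≤ D.pos (D.top z) := by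
        split_ifs at hp with h6
        · rcases e' with e' | e'
          · linarith
          · linarith
        · exact hp
      obtain ⟨f, hf, h7, h8⟩ := hI.cov z hz hg w a' h5
      exact ⟨f, (mem_F hI hF).2 (Or.inl hf), by rw [lab_old hI hF hz hf]; exact h7,
        by rw [lab_old hI hF b' hf]; exact h8⟩

end step2

section assemble
variable {r1 r2 : V} {A : V → V → Prop} {K : Finset V} {l m r : List V} {x y v : V} {D : Dat V}

theorem inv_step (hI : Inv r1 r2 A K (l ++ x :: (m ++ y :: r)) D) (hv : v ∉ K) :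
    Inv r1 r2 (fun s t => A s t ∨ (s = v ∧ t ∈ x :: (m ++ [y])) ∨ (t = v ∧ s ∈ x :: (m ++ [y])))
      (insert v K) (l ++ x :: v :: y :: r) (D.next x y v m) := by
  have hF := facts_of hI hv
  have hxy := hF.hxy
  have hpos : ∀ w ∈ l ++ x :: (m ++ y :: r), (D.next x y v m).pos w = D.pos w :=
    fun w hw => pos_K hI hF (hI.sub w hw)
  have hpv := pos_v hI hF
  have hpw := hI.pw
  have hnd : (x :: m).Nodup := by
    have h1 : (l ++ x :: (m ++ y :: r)).Nodup := by
      have hnd : ((l ++ x :: (m ++ y :: r)).map D.pos).Nodup :=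
        List.pairwise_map.2 (hI.pw.imp (fun h => h.ne))
      exact hnd.of_map
    refine h1.sublist ?_
    refine List.Sublist.trans ?_ (List.sublist_append_right l _)
    exact List.Sublist.cons_cons x (List.sublist_append_left m _)
  rw [List.pairwise_append] at hpw
  obtain ⟨hpl, hpw2, hlx⟩ := hpw
  rw [List.pairwise_cons] at hpw2
  obtain ⟨hx2, hpw3⟩ := hpw2
  rw [List.pairwise_append] at hpw3
  obtain ⟨-, hpw4, hmy⟩ := hpw3
  rw [List.pairwise_cons] at hpw4
  obtain ⟨hyr, hpr⟩ := hpw4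
  constructor
  · refine List.pairwise_append.2 ⟨?_, List.pairwise_cons.2 ⟨?_, List.pairwise_cons.2 ⟨?_,
      List.pairwise_cons.2 ⟨?_, ?_⟩⟩⟩, ?_⟩
    · refine hpl.imp_of_mem (fun {a b} ha hb h => ?_)
      rw [hpos a (by simp [ha]), hpos b (by simp [hb])]
      exact h
    · intro w hw
      rw [hpos x (by simp)]
      simp only [List.mem_cons] at hw
      rcases hw with rfl | rfl | hw
      · rw [hpv]; linarith
      · rw [hpos w (by simp)]; exact hxy
      · rw [hpos w (by simp [hw])]; exact hx2 w (by simp [hw])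
    · intro w hw
      rw [hpv]
      simp only [List.mem_cons] at hw
      rcases hw with rfl | hw
      · rw [hpos w (by simp)]; linarith
      · rw [hpos w (by simp [hw])]
        have := hyr w hw
        linarith
    · intro w hw
      rw [hpos y (by simp), hpos w (by simp [hw])]
      exact hyr w hw
    · refine hpr.imp_of_mem (fun {a b} ha hb h => ?_)
      rw [hpos a (by simp [ha]), hpos b (by simp [hb])]
      exact h
    · intro a ha b hb
      rw [hpos a (by simp [ha])]
      have hax := hlx a ha x (by simp)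
      simp only [List.mem_cons] at hb
      rcases hb with rfl | rfl | rfl | hb
      · rw [hpos b (by simp)]; exact hax
      · rw [hpv]; linarith
      · rw [hpos b (by simp)]; linarith
      · rw [hpos b (by simp [hb])]
        exact hlx a ha b (by simp [hb])
  · intro w hw
    by_cases e : w = v
    · rw [e]; exact Finset.mem_insert_self _ _
    · exact Finset.mem_insert_of_mem (next_out hI hF hw e).2.1
  · rintro u w (h | ⟨rfl, h⟩ | ⟨rfl, h⟩)
    · obtain ⟨a, b, c⟩ := hI.adjK u w h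
      exact ⟨Finset.mem_insert_of_mem a, Finset.mem_insert_of_mem b, c⟩
    · have hK := (int_facts hI hF h).2.1
      exact ⟨Finset.mem_insert_self _ _, Finset.mem_insert_of_mem hK, (ne_v hI hF hK).symm⟩
    · have hK := (int_facts hI hF h).2.1
      exact ⟨Finset.mem_insert_of_mem hK, Finset.mem_insert_self _ _, ne_v hI hF hK⟩
  · rintro u w (h | h | h)
    · exact Or.inl (hI.symm u w h)
    · exact Or.inr (Or.inr h)
    · exact Or.inr (Or.inl h)
  · exact fun z hz => next_topg hI hF hz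
  · intro w hw
    by_cases e : w = v
    · rw [e]; exact top_v hI hF
    · exact (next_out hI hF hw e).2.2.2.2.2
  · intro f hf
    rcases (mem_F hI hF).1 hf with h | ⟨w, hw, rfl⟩
    · exact ⟨Finset.mem_insert_of_mem (hI.FK f h).1, Finset.mem_insert_of_mem (hI.FK f h).2⟩
    · exact ⟨Finset.mem_insert_self _ _, Finset.mem_insert_of_mem (xm_facts hI hF hw).2.1⟩
  · exact fun z hz => next_i2a hI hF hz
  · exact fun z hz => next_i2b hI hF hz
  · exact fun w hw w' hw' hp => next_i3a hI hF hw hw' hp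
  · exact fun w hw w' hw' hp => next_i3b hI hF hw hw' hp
  · exact fun z hz h => next_prn hI hF hz h
  · exact fun z hz f h => next_prs hI hF hz h
  · exact fun z hz hzg w hw hp => next_cov hI hF hz hzg hw hp
  · rintro u w h z hz hzu hzw
    rcases Finset.mem_insert.1 hz with hzv | hzK
    · subst hzv
      rcases h with h | ⟨h, h'⟩ | ⟨h, h'⟩
      · exact p3_newvertex hI hF h
      · exact absurd h.symm hzu
      · exact absurd h.symm hzw
    · rcases h with h | ⟨rfl, h'⟩ | ⟨rfl, h'⟩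
      · obtain ⟨a, b, c⟩ := hI.adjK u w h
        rcases hI.p3 u w h z hzK hzu hzw with h1 | h1 | h1
        · exact Or.inl ⟨s0_old hI hF a hzK h1.1, s0_old hI hF b hzK h1.2⟩
        · exact Or.inr (Or.inl ⟨s1_old hI hF a hzK h1.1, s1_old hI hF b hzK h1.2⟩)
        · exact Or.inr (Or.inr ⟨s2_old hI hF a hzK h1.1, s2_old hI hF b hzK h1.2⟩)
      · rcases p3_newedge hI hF h' hzK hzw with h1 | h1
        · exact Or.inl ⟨h1.2, h1.1⟩
        · exact Or.inr (Or.inl ⟨h1.2, h1.1⟩)
      · rcases p3_newedge hI hF h' hzK hzu with h1 | h1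
        · exact Or.inl ⟨h1.1, h1.2⟩
        · exact Or.inr (Or.inl ⟨h1.1, h1.2⟩)
  · have key : ∀ w, w ∈ x :: (m ++ [y]) → (D.next x y v m).Ty w v ∨ (D.next x y v m).Ty v w := by
      intro w hw
      simp only [List.mem_cons, List.mem_append, List.not_mem_nil, or_false] at hw
      rcases hw with rfl | hw | rfl
      · exact Or.inr (ty_x hI hF)
      · exact Or.inl (ty_m hI hF hw)
      · exact Or.inr (ty_y hI hF)
    rintro u w (h | ⟨rfl, h⟩ | ⟨rfl, h⟩)
    · obtain ⟨a, b, c⟩ := hI.adjK u w h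
      rcases hI.typ u w h with h1 | h1
      · exact Or.inl (ty_old hI hF a b h1)
      · exact Or.inr (ty_old hI hF b a h1)
    · exact (key w h).symm
    · exact key u h
  · intro u hu h1 h2
    rcases Finset.mem_insert.1 hu with rfl | hK
    · refine ⟨x, y, fun h => ?_, Or.inr (Or.inl ⟨rfl, by simp⟩), Or.inr (Or.inl ⟨rfl, by simp⟩)⟩
      rw [h] at hxy
      exact lt_irrefl _ hxy
    · obtain ⟨a, b, h3, h4, h5⟩ := hI.nb u hK h1 h2
      exact ⟨a, b, h3, Or.inl h4, Or.inl h5⟩
  · have hc := hI.card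
    have h1 : (D.next x y v m).F.card = D.F.card + (m.length + 1) := by
      have hdis : Disjoint D.F ((x :: m).toFinset.image (fun w => (v, w))) := by
        rw [Finset.disjoint_left]
        intro f hf hf'
        simp only [Finset.mem_image] at hf'
        obtain ⟨w, hw, rfl⟩ := hf'
        exact hv (hI.FK _ hf).1
      have : (D.next x y v m).F = D.F ∪ (x :: m).toFinset.image (fun w => (v, w)) := rfl
      rw [this, Finset.card_union_of_disjoint hdis, Finset.card_image_of_injective _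
        (fun a b h => (Prod.mk.inj h).2), List.toFinset_card_of_nodup hnd, List.length_cons]
    rw [h1, Finset.card_insert_of_notMem hv]
    simp only [List.length_append, List.length_cons] at hc ⊢
    omega

theorem exists_inv {γ : List V} (hC : Canon r1 r2 A K γ) : ∃ D : Dat V, Inv r1 r2 A K γ D := by
  induction hC with
  | base h => exact inv_base r1 r2 h
  | step A K l m r x y v h hv ih =>
    obtain ⟨D, hD⟩ := ih
    exact ⟨_, inv_step hD hv⟩

end assemble

/-- **UG-4**: a canonical sequence gives a Schnyder set system. -/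
theorem ssys_of_canon {V : Type} [Fintype V] [DecidableEq V] (H : SimpleGraph V)
    (A : V ⊕ Fin 3 → V ⊕ Fin 3 → Prop)
    (hC : Canon (Sum.inr 0 : V ⊕ Fin 3) (Sum.inr 1) A Finset.univ
      [Sum.inr 0, Sum.inr 2, Sum.inr 1])
    (hA : ∀ u v, H.Adj u v → A (Sum.inl u) (Sum.inl v)) :
    ∃ (F : Type) (_ : Fintype F) (_ : DecidableEq F), Fintype.card F ≤ 2 * Fintype.card V + 1 ∧
      Nonempty (SSys H F) := by
  obtain ⟨D, hI⟩ := exists_inv hC
  have hng : ∀ u : V, (Sum.inl u : V ⊕ Fin 3) ∉ [Sum.inr 0, Sum.inr 2, Sum.inr 1] := by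
    intro u; simp
  have hpr : ∀ u : V, ∃ f, D.pr (Sum.inl u) = some f := by
    intro u
    rcases h : D.pr (Sum.inl u) with _ | f
    · exact absurd (hI.prn _ (Finset.mem_univ _) h) (hng u)
    · exact ⟨f, rfl⟩
  choose pf hpf using hpr
  have hps := fun u => hI.prs (Sum.inl u) (Finset.mem_univ _) (pf u) (hpf u)
  have key : ∀ i : Fin 3, i = 0 ∨ i = 1 ∨ i = 2 := by decide
  let lt : Fin 3 → V → V → Prop := fun i u z =>
    (i = 0 ∧ D.S0 (Sum.inl u) (Sum.inl z)) ∨
    (i = 1 ∧ D.S1 [Sum.inr 0, Sum.inr 2, Sum.inr 1] (Sum.inl u) (Sum.inl z)) ∨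
    (i = 2 ∧ D.S2 (Sum.inl u) (Sum.inl z))
  refine ⟨{f // f ∈ D.F}, inferInstance, inferInstance, ?_, ⟨?_⟩⟩
  · have := hI.card
    simp only [Fintype.card_coe]
    simp only [List.length_cons, List.length_nil, Finset.card_univ, Fintype.card_sum,
      Fintype.card_fin] at this
    omega
  · exact
    { lab := fun u f => D.lab (Sum.inl u) f.1
      priv := fun u => ⟨pf u, (hps u).1⟩
      priv_inj := by
        intro u w h
        have h1 := (hps u).2.1
        have h2 := (hps w).2.1
        have h3 : pf u = pf w := congrArg Subtype.val h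
        rw [h3, h2] at h1
        exact (Sum.inl.inj h1).symm
      priv_lab := fun u => (hps u).2.2.1
      lt := lt
      lt_sub := by
        rintro i u z (⟨rfl, h⟩ | ⟨rfl, h⟩ | ⟨rfl, h⟩) f hf
        · exact h.1 f.1 f.2 hf
        · exact h.1 f.1 f.2 hf
        · exact h.1 f.1 f.2 hf
      lt_priv := by
        rintro u z (⟨_, h⟩ | ⟨h, _⟩ | ⟨h, _⟩)
        · exact h.2.2.1 _ (hpf z)
        · exact absurd h (by decide)
        · exact absurd h (by decide)
      lt_strict := by
        rintro i u z (⟨rfl, h⟩ | ⟨rfl, h⟩ | ⟨rfl, h⟩)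
        · exact ⟨⟨pf z, (hps z).1⟩, (hps z).2.2.1, h.2.2.1 _ (hpf z)⟩
        · rcases h.2.2 with ⟨f, hf, h1, h2⟩ | ⟨h1, _⟩
          · exact ⟨⟨f, hf⟩, h1, h2⟩
          · exact absurd h1 (hng z)
        · obtain ⟨f, hf, h1, h2⟩ := h.2
          exact ⟨⟨f, hf⟩, h1, h2⟩
      comp := by
        intro u z huz
        obtain ⟨a, b, hab, ha, hb⟩ := hI.nb (Sum.inl u) (Finset.mem_univ _) (by simp) (by simp)
        have hne : (Sum.inl z : V ⊕ Fin 3) ≠ Sum.inl u := fun h => huz (Sum.inl.inj h).symm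
        have main : ∀ c, A (Sum.inl u) c → (Sum.inl z : V ⊕ Fin 3) ≠ c → ∃ i, lt i u z := by
          intro c hc hzc
          rcases hI.p3 _ _ hc _ (Finset.mem_univ _) hne hzc with h | h | h
          · exact ⟨0, Or.inl ⟨rfl, h.1⟩⟩
          · exact ⟨1, Or.inr (Or.inl ⟨rfl, h.1⟩)⟩
          · exact ⟨2, Or.inr (Or.inr ⟨rfl, h.1⟩)⟩
        by_cases h : (Sum.inl z : V ⊕ Fin 3) = a
        · exact main b hb (fun h' => hab (h.symm.trans h'))
        · exact main a ha h
      p3 := by
        intro u w huw z hzu hzw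
        rcases hI.p3 _ _ (hA u w huw) (Sum.inl z) (Finset.mem_univ _)
          (fun h => hzu (Sum.inl.inj h)) (fun h => hzw (Sum.inl.inj h)) with h | h | h
        · exact ⟨0, Or.inl ⟨rfl, h.1⟩, Or.inl ⟨rfl, h.2⟩⟩
        · exact ⟨1, Or.inr (Or.inl ⟨rfl, h.1⟩), Or.inr (Or.inl ⟨rfl, h.2⟩)⟩
        · exact ⟨2, Or.inr (Or.inr ⟨rfl, h.1⟩), Or.inr (Or.inr ⟨rfl, h.2⟩)⟩
      typ := by
        have main : ∀ u w : V, D.Ty (Sum.inl u) (Sum.inl w) → ∃ i : Fin 3,
            (∀ f : {f // f ∈ D.F}, D.lab (Sum.inl u) f.1 = i → D.lab (Sum.inl w) f.1 = i) ∧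
            ∀ j, j ≠ i → ∀ f : {f // f ∈ D.F}, D.lab (Sum.inl w) f.1 = j →
              D.lab (Sum.inl u) f.1 = j := by
          rintro u w (⟨a, b, c, -⟩ | ⟨a, b, c, -⟩ | ⟨a, b, c, -⟩)
          · refine ⟨0, fun f hf => a f.1 f.2 hf, ?_⟩
            intro j hj f hf
            rcases key j with rfl | rfl | rfl
            · exact absurd rfl hj
            · exact b f.1 f.2 hf
            · exact c f.1 f.2 hf
          · refine ⟨1, fun f hf => a f.1 f.2 hf, ?_⟩
            intro j hj f hf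
            rcases key j with rfl | rfl | rfl
            · exact b f.1 f.2 hf
            · exact absurd rfl hj
            · exact c f.1 f.2 hf
          · refine ⟨2, fun f hf => a f.1 f.2 hf, ?_⟩
            intro j hj f hf
            rcases key j with rfl | rfl | rfl
            · exact b f.1 f.2 hf
            · exact c f.1 f.2 hf
            · exact absurd rfl hj
        intro u w huw
        rcases hI.typ _ _ (hA u w huw) with h | h
        · obtain ⟨i, h1, h2⟩ := main u w h
          exact ⟨i, Or.inl ⟨h1, h2⟩⟩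
        · obtain ⟨i, h1, h2⟩ := main w u h
          exact ⟨i, Or.inr ⟨h1, h2⟩⟩ }

end Pool.Agent.Univ.UG4

namespace Pool.Agent.Univ

theorem ssys_of_canon {V : Type} [Fintype V] [DecidableEq V] (H : SimpleGraph V)
    (A : V ⊕ Fin 3 → V ⊕ Fin 3 → Prop)
    (hC : Canon (Sum.inr 0 : V ⊕ Fin 3) (Sum.inr 1) A Finset.univ
      [Sum.inr 0, Sum.inr 2, Sum.inr 1])
    (hA : ∀ u v, H.Adj u v → A (Sum.inl u) (Sum.inl v)) :
    ∃ (F : Type) (_ : Fintype F) (_ : DecidableEq F), Fintype.card F ≤ 2 * Fintype.card V + 1 ∧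
      Nonempty (SSys H F) := UG4.ssys_of_canon H A hC hA

end Pool.Agent.Univ
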