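import Pool.Agent.Univ.Defs

/-!
# Counting host pairs (project UG, module UG-3)
-/

namespace Pool.Agent.Univ

namespace Count

open Finset

lemma card_mult {m l : ℕ} (X : Finset ℕ) (hX : ∀ x ∈ X, m ∣ x)
    (hd : ∀ x ∈ X, ∀ y ∈ X, x ≤ y + l) : X.card ≤ l / m + 1 := by
  rcases X.eq_empty_or_nonempty with h | h
  · simp [h]
  · set a := X.min' h with ha
    have hamem : a ∈ X := X.min'_mem h
    have hsub : X ⊆ (range (l / m + 1)).image (fun i => a + m * i) := by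
      intro x hx
      rw [mem_image]
      have h1 : a ≤ x := X.min'_le x hx
      have h2 : m ∣ x - a := Nat.dvd_sub (hX x hx) (hX a hamem)
      have h3 : x - a ≤ l := by
        have := hd x hx a hamem
        omega
      refine ⟨(x - a) / m, ?_, ?_⟩
      · rw [mem_range]
        exact Nat.lt_succ_of_le (Nat.div_le_div_right h3)
      · have := Nat.mul_div_cancel' h2
        omega
    calc X.card ≤ ((range (l / m + 1)).image (fun i => a + m * i)).card := card_le_card hsub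
      _ ≤ (range (l / m + 1)).card := card_image_le
      _ = l / m + 1 := card_range _

open Classical in
/-- possible values of the coordinate `P'` -/
noncomputable def Y (W j j' t d c e : ℕ) (i : Bool) : Finset ℕ :=
  (range (W + 1)).filter fun x => 2 ^ j' ∣ x ∧ ∃ r r' α : ℕ, r < 2 ^ j ∧ r' < 2 ^ j' ∧
    α * d ≤ t ∧ x + r' + e + (if i then α else 0) = c + r + (if i then 0 else α)

lemma mem_Y {W j j' t d c e : ℕ} {i : Bool} {x : ℕ} : x ∈ Y W j j' t d c e i ↔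
    x < W + 1 ∧ 2 ^ j' ∣ x ∧ ∃ r r' α : ℕ, r < 2 ^ j ∧ r' < 2 ^ j' ∧
    α * d ≤ t ∧ x + r' + e + (if i then α else 0) = c + r + (if i then 0 else α) := by
  simp only [Y, mem_filter, mem_range]

lemma card_Y (W j j' t d c e : ℕ) (i : Bool) (hd : 1 ≤ d) :
    (Y W j j' t d c e i).card ≤ (2 ^ j + 2 ^ j' + t / d) / 2 ^ j' + 1 := by
  apply card_mult
  · intro x hx
    exact (mem_Y.1 hx).2.1
  · intro x hx y hy
    rw [mem_Y] at hx hy
    obtain ⟨-, -, r, r', α, h1, h2, h3, h4⟩ := hx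
    obtain ⟨-, -, s, s', β, g1, g2, g3, g4⟩ := hy
    have h5 : α ≤ t / d := (Nat.le_div_iff_mul_le hd).2 h3
    have g5 : β ≤ t / d := (Nat.le_div_iff_mul_le hd).2 g3
    cases i
    · simp only [Bool.false_eq_true, if_false] at h4 g4
      omega
    · simp only [if_true] at h4 g4
      omega

/-- real bound -/
noncomputable def B (N j j' d : ℕ) : ℝ := 2 ^ j / 2 ^ j' + 2 + 128 * N * 2 ^ j / (2 ^ j' * d)

lemma card_Y_real (W N j j' d c e : ℕ) (i : Bool) (hd : 1 ≤ d) :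
    ((Y W j j' (2 * (64 * N * 2 ^ j)) d c e i).card : ℝ) ≤ B N j j' d := by
  have h1 := card_Y W j j' (2 * (64 * N * 2 ^ j)) d c e i hd
  have h2 : ((Y W j j' (2 * (64 * N * 2 ^ j)) d c e i).card : ℝ) ≤
      (((2 ^ j + 2 ^ j' + (2 * (64 * N * 2 ^ j)) / d) / 2 ^ j' + 1 : ℕ) : ℝ) := by
    exact_mod_cast h1
  refine le_trans h2 ?_
  have hd0 : (0 : ℝ) < d := by exact_mod_cast hd
  have h3 : (((2 ^ j + 2 ^ j' + (2 * (64 * N * 2 ^ j)) / d) / 2 ^ j' : ℕ) : ℝ) ≤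
      ((2 ^ j + 2 ^ j' + (2 * (64 * N * 2 ^ j)) / d : ℕ) : ℝ) / ((2 ^ j' : ℕ) : ℝ) :=
    Nat.cast_div_le
  have h4 : (((2 * (64 * N * 2 ^ j)) / d : ℕ) : ℝ) ≤ ((2 * (64 * N * 2 ^ j) : ℕ) : ℝ) / d :=
    Nat.cast_div_le
  push_cast at h3 h4 ⊢
  have h5 : ((2 : ℝ) ^ j + 2 ^ j' + (((2 * (64 * N * 2 ^ j)) / d : ℕ) : ℝ)) / 2 ^ j' ≤
      (2 ^ j + 2 ^ j' + 2 * (64 * N * 2 ^ j) / d) / 2 ^ j' := by
    apply div_le_div_of_nonneg_right _ (by positivity)
    linarith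
  have h6 : ((2 : ℝ) ^ j + 2 ^ j' + 2 * (64 * N * 2 ^ j) / d) / 2 ^ j' + 1 = B N j j' d := by
    rw [B]
    field_simp
    ring
  linarith

/-- the pairs with given `j, j', P, Q, d` -/
noncomputable def F (N W : ℕ) (a : ℕ × ℕ) (b : ℕ × ℕ × ℕ) : Finset ((ℕ × ℕ) × (ℕ × ℕ)) :=
  ((Y W a.1 a.2 (2 * (64 * N * 2 ^ a.1)) b.2.2 b.1 b.2.2 true).image
      (fun x => ((b.1, b.2.1), (x, b.2.1 + b.2.2))) ∪
    (Y W a.1 a.2 (2 * (64 * N * 2 ^ a.1)) b.2.2 b.1 0 false).image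
      (fun x => ((b.1, b.2.1), (x, b.2.1 + b.2.2)))) ∪
  ((Y W a.1 a.2 (2 * (64 * N * 2 ^ a.1)) b.2.2 b.1 0 false).image
      (fun x => ((b.1, b.2.1), (x, b.2.1 - b.2.2))) ∪
    (Y W a.1 a.2 (2 * (64 * N * 2 ^ a.1)) b.2.2 (b.1 + b.2.2) 0 true).image
      (fun x => ((b.1, b.2.1), (x, b.2.1 - b.2.2))))

lemma card_F (N W : ℕ) (a : ℕ × ℕ) (b : ℕ × ℕ × ℕ) (hb : 1 ≤ b.2.2) :
    ((F N W a b).card : ℝ) ≤ 4 * B N a.1 a.2 b.2.2 := by
  have h1 : ∀ s t : Finset ((ℕ × ℕ) × (ℕ × ℕ)), ((s ∪ t).card : ℝ) ≤ s.card + t.card := by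
    intro s t
    exact_mod_cast card_union_le s t
  have h2 : ∀ (s : Finset ℕ) (f : ℕ → ((ℕ × ℕ) × (ℕ × ℕ))),
      ((s.image f).card : ℝ) ≤ s.card := by
    intro s f
    exact_mod_cast card_image_le
  have k1 := card_Y_real W N a.1 a.2 b.2.2 b.1 b.2.2 true hb
  have k2 := card_Y_real W N a.1 a.2 b.2.2 b.1 0 false hb
  have k3 := card_Y_real W N a.1 a.2 b.2.2 (b.1 + b.2.2) 0 true hb
  rw [F]
  refine (h1 _ _).trans ?_
  have e1 := (h1 _ _).trans (add_le_add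
    (h2 (Y W a.1 a.2 (2 * (64 * N * 2 ^ a.1)) b.2.2 b.1 b.2.2 true)
      (fun x => ((b.1, b.2.1), (x, b.2.1 + b.2.2))))
    (h2 (Y W a.1 a.2 (2 * (64 * N * 2 ^ a.1)) b.2.2 b.1 0 false)
      (fun x => ((b.1, b.2.1), (x, b.2.1 + b.2.2)))))
  have e2 := (h1 _ _).trans (add_le_add
    (h2 (Y W a.1 a.2 (2 * (64 * N * 2 ^ a.1)) b.2.2 b.1 0 false)
      (fun x => ((b.1, b.2.1), (x, b.2.1 - b.2.2))))
    (h2 (Y W a.1 a.2 (2 * (64 * N * 2 ^ a.1)) b.2.2 (b.1 + b.2.2) 0 true)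
      (fun x => ((b.1, b.2.1), (x, b.2.1 - b.2.2)))))
  linarith

/-- multiples of `2 ^ j` up to `W` -/
def M (W j : ℕ) : Finset ℕ := (range (W + 1)).filter fun x => 2 ^ j ∣ x

lemma card_M (W j : ℕ) : (M W j).card ≤ W / 2 ^ j + 1 := by
  apply card_mult
  · intro x hx
    exact (mem_filter.1 hx).2
  · intro x hx y hy
    have h1 := mem_range.1 (mem_filter.1 hx).1
    omega

lemma card_M_real (W j : ℕ) (hW : 1 ≤ W) (hj : 2 ^ j ≤ 2 * W + 2) :
    ((M W j).card : ℝ) ≤ 5 * W / 2 ^ j := by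
  have h1 : ((M W j).card : ℝ) ≤ ((W / 2 ^ j + 1 : ℕ) : ℝ) := by exact_mod_cast card_M W j
  have h2 : ((W / 2 ^ j : ℕ) : ℝ) ≤ (W : ℝ) / ((2 ^ j : ℕ) : ℝ) := Nat.cast_div_le
  have h3 : (2 : ℝ) ^ j ≤ 2 * W + 2 := by exact_mod_cast hj
  have h4 : (1 : ℝ) ≤ W := by exact_mod_cast hW
  push_cast at h1 h2
  have h5 : (1 : ℝ) ≤ 4 * W / 2 ^ j := by
    rw [le_div_iff₀ (by positivity)]
    linarith
  have h6 : (5 : ℝ) * W / 2 ^ j = W / 2 ^ j + 4 * W / 2 ^ j := by ring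
  linarith

/-- the index set for `(P, Q, d)` -/
def I (W j : ℕ) : Finset (ℕ × ℕ × ℕ) := M W j ×ˢ range (W + 1) ×ˢ Icc 1 W

noncomputable def J (W : ℕ) : ℕ := Nat.log 2 (2 * W + 2) + 1

lemma mem_J {W j : ℕ} : j < J W ↔ 2 ^ j ≤ 2 * W + 2 := by
  rw [J, Nat.lt_succ_iff]
  exact Nat.le_log_iff_pow_le (by norm_num) (by omega)

/-- the host set -/
noncomputable def S (N : ℕ) : Finset ((ℕ × ℕ) × (ℕ × ℕ)) :=
  ((range (2 * N + 1) ×ˢ range (2 * N + 1) ×ˢ range (2 * N + 1)).image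
      (fun b : ℕ × ℕ × ℕ => ((b.1, b.2.1), (b.2.2, b.2.1)))) ∪
  (range (J (2 * N)) ×ˢ range (J (2 * N))).biUnion
    (fun a => (I (2 * N) a.1).biUnion (F N (2 * N) a))

lemma mem_S (N : ℕ) (q q' : ℕ × ℕ) (h : HostPair 64 N (2 * N) q q') : (q, q') ∈ S N := by
  obtain ⟨P, Q⟩ := q
  obtain ⟨P', Q'⟩ := q'
  obtain ⟨h1, h2, h3, h4, j, j', r, r', α, β, a1, a2, a3, a4, a5, a6, a7, a8⟩ := h
  simp only at h1 h2 h3 h4 a1 a2 a8
  rw [S, mem_union]
  rcases eq_or_ne Q Q' with hQ | hQ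
  · left
    subst hQ
    simp only [mem_image, mem_product, mem_range]
    exact ⟨(P, Q, P'), ⟨Nat.lt_succ_of_le h1, Nat.lt_succ_of_le h2, Nat.lt_succ_of_le h3⟩, rfl⟩
  · right
    simp only [mem_biUnion, mem_product, mem_range]
    refine ⟨(j, j'), ⟨mem_J.2 a5, mem_J.2 a6⟩, ?_⟩
    have hT : α * β ≤ 2 * (64 * N * 2 ^ j) := by omega
    rcases a8 with ⟨b1, b2⟩ | ⟨b1, b2⟩ | ⟨b1, b2⟩
    · refine ⟨(P, Q, β), ?_, ?_⟩
      · simp only [I, M, mem_product, mem_filter, mem_range, mem_Icc]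
        exact ⟨⟨by omega, a1⟩, by omega, by omega, by omega⟩
      · simp only [F, mem_union, mem_image]
        left; left
        refine ⟨P', mem_Y.2 ⟨by omega, a2, r, r', α, a3, a4, hT, ?_⟩, ?_⟩
        · simp only [if_true]
          omega
        · rw [b2]
    · refine ⟨(P, Q, β), ?_, ?_⟩
      · simp only [I, M, mem_product, mem_filter, mem_range, mem_Icc]
        exact ⟨⟨by omega, a1⟩, by omega, by omega, by omega⟩
      · simp only [F, mem_union, mem_image]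
        left; right
        refine ⟨P', mem_Y.2 ⟨by omega, a2, r, r', α, a3, a4, hT, ?_⟩, ?_⟩
        · simp only [Bool.false_eq_true, if_false]
          omega
        · rw [b2]
    · refine ⟨(P, Q, α + β), ?_, ?_⟩
      · simp only [I, M, mem_product, mem_filter, mem_range, mem_Icc]
        exact ⟨⟨by omega, a1⟩, by omega, by omega, by omega⟩
      · simp only [F, mem_union, mem_image]
        right
        have hQ' : Q - (α + β) = Q' := by omega
        rcases le_total α β with hab | hab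
        · left
          refine ⟨P', mem_Y.2 ⟨by omega, a2, r, r', α, a3, a4, ?_, ?_⟩, ?_⟩
          · have : α * α ≤ α * β := Nat.mul_le_mul_left α hab
            rw [mul_add]
            omega
          · simp only [Bool.false_eq_true, if_false]
            omega
          · rw [hQ']
        · right
          refine ⟨P', mem_Y.2 ⟨by omega, a2, r, r', β, a3, a4, ?_, ?_⟩, ?_⟩
          · have : β * β ≤ α * β := Nat.mul_le_mul_right β hab
            have h5 : β * (α + β) = α * β + β * β := by ring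
            rw [h5]
            omega
          · simp only [if_true]
            omega
          · rw [hQ']

lemma sum_geom (n : ℕ) : ∑ j ∈ range n, (1 : ℝ) / 2 ^ j ≤ 2 := by
  have h : ∀ n : ℕ, ∑ j ∈ range n, (1 : ℝ) / 2 ^ j = 2 - 2 / 2 ^ n := by
    intro n
    induction n with
    | zero => simp
    | succ n ih =>
      rw [sum_range_succ, ih]
      field_simp
      ring
  rw [h]
  have : (0 : ℝ) ≤ 2 / 2 ^ n := by positivity
  linarith

lemma harm (W : ℕ) : ∑ d ∈ Icc 1 W, (1 : ℝ) / d ≤ 1 + Real.log W := by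
  have h1 := harmonic_le_one_add_log W
  have h2 : ((harmonic W : ℚ) : ℝ) = ∑ d ∈ Icc 1 W, (1 : ℝ) / d := by
    rw [harmonic_eq_sum_Icc]
    push_cast
    refine sum_congr rfl fun d _ => ?_
    rw [one_div]
  rw [← h2]
  exact h1

lemma J_le (N : ℕ) (hN : 1 ≤ N) : (J (2 * N) : ℝ) ≤ 4 * (Real.log N + 1) := by
  have hN0 : (1 : ℝ) ≤ N := by exact_mod_cast hN
  have hlog : 0 ≤ Real.log N := Real.log_nonneg hN0
  have h1 : (2 : ℝ) ^ (Nat.log 2 (2 * (2 * N) + 2)) ≤ 6 * N := by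
    have h2 : 2 ^ (Nat.log 2 (2 * (2 * N) + 2)) ≤ 6 * N :=
      le_trans (Nat.pow_log_le_self 2 (by omega)) (by omega)
    exact_mod_cast h2
  have h3 := Real.log_le_log (by positivity) h1
  rw [Real.log_pow, Real.log_mul (by norm_num) (by positivity)] at h3
  have h4 : Real.log 6 ≤ 3 * Real.log 2 := by
    rw [show (3 : ℝ) * Real.log 2 = Real.log (2 ^ 3) by rw [Real.log_pow]; push_cast; ring]
    exact Real.log_le_log (by norm_num) (by norm_num)
  have h5 := Real.log_two_gt_d9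
  rw [J]
  push_cast
  have h6 : (Nat.log 2 (2 * (2 * N) + 2) : ℝ) * 0.69 ≤ 0.69 * 3 + Real.log N := by
    have h7 : ((Nat.log 2 (2 * (2 * N) + 2) : ℝ) - 3) * Real.log 2 ≤ Real.log N := by linarith
    by_cases h8 : (Nat.log 2 (2 * (2 * N) + 2) : ℝ) ≤ 3
    · nlinarith
    · push Not at h8
      nlinarith
  nlinarith

lemma card_S (N : ℕ) (hN : 1 ≤ N) :
    ((S N).card : ℝ) ≤ 300000 * (N : ℝ) ^ 3 * (Real.log N + 1) ^ 2 := by
  have hN0 : (1 : ℝ) ≤ N := by exact_mod_cast hN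
  have hlog : 0 ≤ Real.log N := Real.log_nonneg hN0
  set W := 2 * N with hW
  have hW1 : 1 ≤ W := by omega
  have hWr : (W : ℝ) = 2 * N := by rw [hW]; push_cast; ring
  set Hm := ∑ d ∈ Icc 1 W, (1 : ℝ) / d with hHm
  have hHm1 : Hm ≤ 2 * (Real.log N + 1) := by
    have h1 := harm W
    rw [hWr, Real.log_mul (by norm_num) (by positivity)] at h1
    have h2 := Real.log_two_lt_d9
    linarith
  have hHm0 : 0 ≤ Hm := sum_nonneg fun d _ => by positivity
  -- one block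
  have hblock : ∀ a ∈ range (J W) ×ˢ range (J W),
      (((I W a.1).biUnion (F N W a)).card : ℝ) ≤
        20 * W * (W + 1) * (W * (1 / 2 ^ a.2) + 2 * W * (1 / 2 ^ a.1) +
          128 * N * Hm * (1 / 2 ^ a.2)) := by
    intro a ha
    rw [mem_product, mem_range, mem_range] at ha
    have hj := mem_J.1 ha.1
    have h1 : (((I W a.1).biUnion (F N W a)).card : ℝ) ≤
        ∑ b ∈ I W a.1, ((F N W a b).card : ℝ) := by exact_mod_cast card_biUnion_le
    have h2 : ∑ b ∈ I W a.1, ((F N W a b).card : ℝ) ≤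
        ∑ b ∈ I W a.1, 4 * B N a.1 a.2 b.2.2 := by
      refine sum_le_sum fun b hb => card_F N W a b ?_
      simp only [I, mem_product, mem_Icc] at hb
      exact hb.2.2.1
    have h3 : ∑ b ∈ I W a.1, 4 * B N a.1 a.2 b.2.2 =
        (M W a.1).card * ((W + 1) * ∑ d ∈ Icc 1 W, 4 * B N a.1 a.2 d) := by
      rw [I, sum_product]
      simp only
      rw [sum_const, sum_product]
      simp only
      rw [sum_const, card_range, nsmul_eq_mul, nsmul_eq_mul]
      push_cast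
      ring
    have h4 : ∑ d ∈ Icc 1 W, 4 * B N a.1 a.2 d =
        4 * (W * (2 ^ a.1 / 2 ^ a.2 + 2) + 128 * N * 2 ^ a.1 / 2 ^ a.2 * Hm) := by
      rw [← mul_sum]
      congr 1
      have h5 : ∀ d ∈ Icc 1 W, B N a.1 a.2 d = (2 ^ a.1 / 2 ^ a.2 + 2) +
          128 * N * 2 ^ a.1 / 2 ^ a.2 * (1 / d) := by
        intro d hd
        rw [mem_Icc] at hd
        have : (0 : ℝ) < d := by exact_mod_cast hd.1
        rw [B]
        field_simp
      rw [sum_congr rfl h5, sum_add_distrib, sum_const, Nat.card_Icc, ← mul_sum, nsmul_eq_mul,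
        Nat.add_sub_cancel]
    have h6 := card_M_real W a.1 hW1 hj
    rw [h3, h4] at h2
    refine (h1.trans h2).trans ?_
    have h7 : (0 : ℝ) ≤ ((W : ℝ) + 1) *
        (4 * (W * (2 ^ a.1 / 2 ^ a.2 + 2) + 128 * N * 2 ^ a.1 / 2 ^ a.2 * Hm)) := by positivity
    refine (mul_le_mul_of_nonneg_right h6 h7).trans (le_of_eq ?_)
    field_simp
    ring
  have hZ : (((range (2 * N + 1) ×ˢ range (2 * N + 1) ×ˢ range (2 * N + 1)).image
      (fun b : ℕ × ℕ × ℕ => ((b.1, b.2.1), (b.2.2, b.2.1)))).card : ℝ) ≤ (2 * N + 1) ^ 3 := by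
    have h1 := card_image_le (s := range (2 * N + 1) ×ˢ range (2 * N + 1) ×ˢ range (2 * N + 1))
      (f := fun b : ℕ × ℕ × ℕ => ((b.1, b.2.1), (b.2.2, b.2.1)))
    rw [card_product, card_product, card_range] at h1
    have h2 : (((range (2 * N + 1) ×ˢ range (2 * N + 1) ×ˢ range (2 * N + 1)).image
      (fun b : ℕ × ℕ × ℕ => ((b.1, b.2.1), (b.2.2, b.2.1)))).card : ℝ) ≤
      (((2 * N + 1) * ((2 * N + 1) * (2 * N + 1)) : ℕ) : ℝ) := by exact_mod_cast h1
    refine h2.trans (le_of_eq ?_)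
    push_cast
    ring
  have hU : (((range (J W) ×ˢ range (J W)).biUnion
      (fun a => (I W a.1).biUnion (F N W a))).card : ℝ) ≤
      20 * W * (W + 1) * (J W * (6 * W + 256 * N * Hm)) := by
    have h1 : (((range (J W) ×ˢ range (J W)).biUnion
      (fun a => (I W a.1).biUnion (F N W a))).card : ℝ) ≤
      ∑ a ∈ range (J W) ×ˢ range (J W), (((I W a.1).biUnion (F N W a)).card : ℝ) := by
      exact_mod_cast card_biUnion_le
    refine h1.trans ((sum_le_sum hblock).trans ?_)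
    rw [← mul_sum]
    apply mul_le_mul_of_nonneg_left _ (by positivity)
    have h2 := sum_geom (J W)
    have h3 : ∑ a ∈ range (J W) ×ˢ range (J W), (W * ((1 : ℝ) / 2 ^ a.2) +
        2 * W * (1 / 2 ^ a.1) + 128 * N * Hm * (1 / 2 ^ a.2)) =
        J W * ((W + 128 * N * Hm) * ∑ j ∈ range (J W), (1 : ℝ) / 2 ^ j) +
        J W * (2 * W * ∑ j ∈ range (J W), (1 : ℝ) / 2 ^ j) := by
      rw [sum_add_distrib, sum_add_distrib]
      have e1 : ∀ c : ℝ, ∑ a ∈ range (J W) ×ˢ range (J W), c * ((1 : ℝ) / 2 ^ a.2) =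
          J W * (c * ∑ j ∈ range (J W), (1 : ℝ) / 2 ^ j) := by
        intro c
        rw [sum_product]
        simp only
        rw [sum_const, card_range, nsmul_eq_mul, ← mul_sum]
      have e2 : ∀ c : ℝ, ∑ a ∈ range (J W) ×ˢ range (J W), c * ((1 : ℝ) / 2 ^ a.1) =
          J W * (c * ∑ j ∈ range (J W), (1 : ℝ) / 2 ^ j) := by
        intro c
        rw [sum_product_right]
        simp only
        rw [sum_const, card_range, nsmul_eq_mul, ← mul_sum]
      rw [e1, e1, e2]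
      ring
    rw [h3]
    have h4 : (W + 128 * N * Hm) * ∑ j ∈ range (J W), (1 : ℝ) / 2 ^ j ≤
        (W + 128 * N * Hm) * 2 := mul_le_mul_of_nonneg_left h2 (by positivity)
    have h5 : 2 * W * ∑ j ∈ range (J W), (1 : ℝ) / 2 ^ j ≤ 2 * W * 2 :=
      mul_le_mul_of_nonneg_left h2 (by positivity)
    have h6 : (0 : ℝ) ≤ J W := Nat.cast_nonneg _
    have h7 := mul_le_mul_of_nonneg_left h4 h6
    have h8 := mul_le_mul_of_nonneg_left h5 h6
    linarith
  have hS : ((S N).card : ℝ) ≤ (2 * N + 1) ^ 3 +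
      20 * W * (W + 1) * (J W * (6 * W + 256 * N * Hm)) := by
    rw [S]
    refine le_trans ?_ (add_le_add hZ hU)
    exact_mod_cast card_union_le _ _
  refine hS.trans ?_
  have hJ := J_le N hN
  rw [← hW] at hJ
  set ℓ := Real.log N + 1 with hℓ
  have hℓ1 : 1 ≤ ℓ := by linarith
  have k1 : ((2 : ℝ) * N + 1) ^ 3 ≤ 27 * N ^ 3 := by
    have : ((2 : ℝ) * N + 1) ^ 3 ≤ (3 * N) ^ 3 := pow_le_pow_left₀ (by positivity) (by linarith) 3
    refine this.trans (le_of_eq ?_)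
    ring
  have k2 : 6 * (W : ℝ) + 256 * N * Hm ≤ 524 * N * ℓ := by
    rw [hWr]
    have h1 : 256 * N * Hm ≤ 256 * N * (2 * ℓ) := mul_le_mul_of_nonneg_left hHm1 (by positivity)
    have h2 : (N : ℝ) * 1 ≤ N * ℓ := mul_le_mul_of_nonneg_left hℓ1 (by positivity)
    linarith
  have k3 : J W * (6 * (W : ℝ) + 256 * N * Hm) ≤ (4 * ℓ) * (524 * N * ℓ) :=
    mul_le_mul hJ k2 (by positivity) (by positivity)
  have k4 : 20 * (W : ℝ) * (W + 1) ≤ 120 * N ^ 2 := by
    rw [hWr]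
    nlinarith
  have k5 : 20 * (W : ℝ) * (W + 1) * (J W * (6 * (W : ℝ) + 256 * N * Hm)) ≤
      120 * N ^ 2 * ((4 * ℓ) * (524 * N * ℓ)) := mul_le_mul k4 k3 (by positivity) (by positivity)
  have k6 : (N : ℝ) ^ 3 * 1 ≤ N ^ 3 * ℓ ^ 2 :=
    mul_le_mul_of_nonneg_left (by nlinarith) (by positivity)
  nlinarith

end Count

/-- UG-3: the number of host pairs. -/
theorem host_count : ∃ C : ℝ, ∀ N : ℕ, 1 ≤ N → ∃ S : Finset ((ℕ × ℕ) × (ℕ × ℕ)),
    (∀ q q', HostPair 64 N (2 * N) q q' → (q, q') ∈ S) ∧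
    (S.card : ℝ) ≤ C * (N : ℝ) ^ 3 * (Real.log N + 1) ^ 2 :=
  ⟨300000, fun N hN => ⟨Count.S N, Count.mem_S N, Count.card_S N hN⟩⟩

end Pool.Agent.Univ
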