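import Pool.Agent.Univ.Defs

/-!
# General position with three outer points (module UG-7a)

A crossing-free straight-line drawing can be perturbed to general position and surrounded by a
large triangle.
-/

namespace Pool.Agent.Univ

namespace GP

open Filter Topology

/-! ### crossing segments are not separated -/

theorem cross_sep {a b c d : Pt} (h : Cross a b c d) (f : Pt → ℝ) (α β γ : ℝ)
    (hf : ∀ p : Pt, f p = β * p.1 + γ * p.2) (ha : f a < α) (hb : f b < α) (hc : α < f c)
    (hd : α < f d) : False := by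
  obtain ⟨h1, h2⟩ := h
  have e1 : orient c d b = orient c d a - ((b.1 - a.1) * (d.2 - c.2) - (b.2 - a.2) * (d.1 - c.1)) := by
    unfold orient; ring
  have e2 : orient a b d = orient a b c + ((b.1 - a.1) * (d.2 - c.2) - (b.2 - a.2) * (d.1 - c.1)) := by
    unfold orient; ring
  have e3 : ((b.1 - a.1) * (d.2 - c.2) - (b.2 - a.2) * (d.1 - c.1)) * f a +
      orient c d a * (f b - f a) =
      ((b.1 - a.1) * (d.2 - c.2) - (b.2 - a.2) * (d.1 - c.1)) * f c -
      orient a b c * (f d - f c) := by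
    rw [hf, hf, hf, hf]
    unfold orient
    ring
  rw [e1] at h2
  rw [e2] at h1
  generalize (b.1 - a.1) * (d.2 - c.2) - (b.2 - a.2) * (d.1 - c.1) = D at *
  generalize orient a b c = o2 at *
  generalize orient c d a = o1 at *
  rcases lt_trichotomy D 0 with hD | hD | hD
  · have k1 : o1 < 0 := by
      by_contra hcon
      push Not at hcon
      nlinarith
    have k2 : D < o1 := by
      by_contra hcon
      push Not at hcon
      nlinarith
    have k3 : 0 < o2 := by
      by_contra hcon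
      push Not at hcon
      nlinarith
    have k4 : o2 < -D := by
      by_contra hcon
      push Not at hcon
      nlinarith
    have m1 := mul_pos (sub_pos.2 k2) (sub_pos.2 ha)
    have m2 := mul_pos (neg_pos.2 k1) (sub_pos.2 hb)
    have m3 := mul_pos (sub_pos.2 k4) (sub_pos.2 hc)
    have m4 := mul_pos k3 (sub_pos.2 hd)
    nlinarith
  · rw [hD] at h1
    nlinarith [sq_nonneg o2]
  · have k1 : 0 < o1 := by
      by_contra hcon
      push Not at hcon
      nlinarith
    have k2 : o1 < D := by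
      by_contra hcon
      push Not at hcon
      nlinarith
    have k3 : o2 < 0 := by
      by_contra hcon
      push Not at hcon
      nlinarith
    have k4 : -D < o2 := by
      by_contra hcon
      push Not at hcon
      nlinarith
    have m1 := mul_pos (sub_pos.2 k2) (sub_pos.2 ha)
    have m2 := mul_pos k1 (sub_pos.2 hb)
    have m3 := mul_pos (sub_pos.2 k4) (sub_pos.2 hc)
    have m4 := mul_pos (neg_pos.2 k3) (sub_pos.2 hd)
    nlinarith

/-- disjoint segments are strictly separated by a line -/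
theorem exists_sep {a b c d : Pt} (h : ∀ x, x ∈ segment ℝ a b → x ∉ segment ℝ c d) :
    ∃ α β γ : ℝ, β * a.1 + γ * a.2 < α ∧ β * b.1 + γ * b.2 < α ∧ α < β * c.1 + γ * c.2 ∧
      α < β * d.1 + γ * d.2 := by
  have hd : Disjoint (segment ℝ a b) (segment ℝ c d) := Set.disjoint_left.2 h
  have hcomp : ∀ x y : Pt, IsCompact (segment ℝ x y) := by
    intro x y
    rw [segment_eq_image]
    exact isCompact_Icc.image (by fun_prop)
  obtain ⟨f, u, v, h1, h2, h3⟩ := geometric_hahn_banach_compact_closed (convex_segment a b)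
    (hcomp a b) (convex_segment c d) (hcomp c d).isClosed hd
  have hf : ∀ p : Pt, f p = f (1, 0) * p.1 + f (0, 1) * p.2 := by
    intro p
    have : p = p.1 • ((1 : ℝ), (0 : ℝ)) + p.2 • ((0 : ℝ), (1 : ℝ)) := by
      ext <;> simp
    conv_lhs => rw [this]
    rw [map_add, map_smul, map_smul]
    simp only [smul_eq_mul]
    ring
  refine ⟨u, f (1, 0), f (0, 1), ?_, ?_, ?_, ?_⟩
  · rw [← hf]; exact h1 _ (left_mem_segment ℝ a b)
  · rw [← hf]; exact h1 _ (right_mem_segment ℝ a b)
  · rw [← hf]; exact h2.trans (h3 _ (left_mem_segment ℝ c d))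
  · rw [← hf]; exact h2.trans (h3 _ (right_mem_segment ℝ c d))

/-! ### the perturbation -/

/-- perturbed points -/
def pp {W : Type*} (f : W → Pt) (τ : W → ℝ) (ε : ℝ) (w : W) : Pt :=
  ((f w).1 + ε * τ w, (f w).2 + ε * (τ w) ^ 2)

theorem pp_zero {W : Type*} (f : W → Pt) (τ : W → ℝ) (w : W) : pp f τ 0 w = f w := by
  unfold pp
  ext <;> simp

theorem cont1 {W : Type*} (f : W → Pt) (τ : W → ℝ) (w : W) :
    Continuous fun ε => (pp f τ ε w).1 := by
  unfold pp
  fun_prop

theorem cont2 {W : Type*} (f : W → Pt) (τ : W → ℝ) (w : W) :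
    Continuous fun ε => (pp f τ ε w).2 := by
  unfold pp
  fun_prop

theorem cont_orient {W : Type*} (f : W → Pt) (τ : W → ℝ) (a b c : W) :
    Continuous fun ε => orient (pp f τ ε a) (pp f τ ε b) (pp f τ ε c) := by
  unfold orient pp
  fun_prop

theorem quad_finite (A B C : ℝ) (hC : C ≠ 0) : {x : ℝ | A + B * x + C * x ^ 2 = 0}.Finite := by
  have hp : (Polynomial.C A + Polynomial.C B * Polynomial.X +
      Polynomial.C C * Polynomial.X ^ 2 : Polynomial ℝ) ≠ 0 := by
    intro h
    have := congrArg (fun p => Polynomial.coeff p 2) h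
    simp at this
    exact hC this
  refine (Polynomial.finite_setOfPred_isRoot hp).subset ?_
  intro x hx
  simp only [Set.mem_ofPred_eq] at hx ⊢
  simp only [Polynomial.IsRoot, Polynomial.eval_add, Polynomial.eval_mul, Polynomial.eval_pow,
    Polynomial.eval_C, Polynomial.eval_X]
  exact hx

theorem bad_finite {W : Type*} [Finite W] (f : W → Pt) (τ : W → ℝ) (hτ : Function.Injective τ) :
    {ε : ℝ | ¬ GenPos (pp f τ ε)}.Finite := by
  have h1 : ∀ a b, a ≠ b → {ε : ℝ | (pp f τ ε a).1 = (pp f τ ε b).1}.Finite := by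
    intro a b hab
    refine (Set.finite_singleton (-((f a).1 - (f b).1) / (τ a - τ b))).subset ?_
    intro ε hε
    simp only [pp, Set.mem_ofPred_eq] at hε
    rw [Set.mem_singleton_iff, eq_div_iff (sub_ne_zero.2 (hτ.ne hab))]
    linarith
  have h2 : ∀ a b c, a ≠ b → a ≠ c → b ≠ c →
      {ε : ℝ | orient (pp f τ ε a) (pp f τ ε b) (pp f τ ε c) = 0}.Finite := by
    intro a b c hab hac hbc
    have hC : (τ b - τ a) * (τ c - τ a) * (τ c - τ b) ≠ 0 :=
      mul_ne_zero (mul_ne_zero (sub_ne_zero.2 (hτ.ne hab.symm)) (sub_ne_zero.2 (hτ.ne hac.symm)))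
        (sub_ne_zero.2 (hτ.ne hbc.symm))
    refine (quad_finite (orient (f a) (f b) (f c))
      (((f b).1 - (f a).1) * (τ c ^ 2 - τ a ^ 2) + (τ b - τ a) * ((f c).2 - (f a).2) -
        ((f b).2 - (f a).2) * (τ c - τ a) - (τ b ^ 2 - τ a ^ 2) * ((f c).1 - (f a).1)) _ hC).subset ?_
    intro ε hε
    simp only [Set.mem_ofPred_eq] at hε ⊢
    rw [← hε]
    unfold orient pp
    ring
  have hfin : ((⋃ a, ⋃ b, {ε : ℝ | a ≠ b ∧ (pp f τ ε a).1 = (pp f τ ε b).1}) ∪
      (⋃ a, ⋃ b, ⋃ c, {ε : ℝ | (a ≠ b ∧ a ≠ c ∧ b ≠ c) ∧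
        orient (pp f τ ε a) (pp f τ ε b) (pp f τ ε c) = 0})).Finite := by
    apply Set.Finite.union
    · refine Set.finite_iUnion (fun a => Set.finite_iUnion (fun b => ?_))
      by_cases hab : a = b
      · simp [hab]
      · exact (h1 a b hab).subset (fun ε h => h.2)
    · refine Set.finite_iUnion (fun a => Set.finite_iUnion (fun b => Set.finite_iUnion
        (fun c => ?_)))
      by_cases habc : a ≠ b ∧ a ≠ c ∧ b ≠ c
      · exact (h2 a b c habc.1 habc.2.1 habc.2.2).subset (fun ε h => h.2)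
      · refine Set.finite_empty.subset (fun ε h => habc h.1)
  refine hfin.subset ?_
  intro ε hε
  by_contra hcon
  apply hε
  rw [Set.mem_union, not_or] at hcon
  simp only [Set.mem_iUnion, Set.mem_ofPred_eq, not_exists, not_and] at hcon
  exact ⟨fun a b hab => hcon.1 a b hab, fun a b c hab hac hbc => hcon.2 a b c ⟨hab, hac, hbc⟩⟩

/-- strict inequalities persist -/
theorem ev_lt {W : Type*} [Finite W] (p : W → Prop) (F G : W → ℝ → ℝ)
    (hF : ∀ w, Continuous (F w)) (hG : ∀ w, Continuous (G w)) (h : ∀ w, p w → F w 0 < G w 0) :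
    ∀ᶠ ε in 𝓝 (0 : ℝ), ∀ w, p w → F w ε < G w ε := by
  rw [Filter.eventually_all]
  intro w
  by_cases hw : p w
  · exact ((hF w).continuousAt.eventually_lt (hG w).continuousAt (h w hw)).mono (fun _ h _ => h)
  · exact Filter.Eventually.of_forall (fun _ h => absurd h hw)

/-! ### three outer points -/

/-- the drawing with three far points -/
def ext {V : Type*} (φ : V → Pt) (M : ℝ) : V ⊕ Fin 3 → Pt
  | Sum.inl v => φ v
  | Sum.inr i => ![((-4 * M : ℝ), (-2 * M : ℝ)), (4 * M, -2 * M), (0, 6 * M)] i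

theorem inTri_ext {V : Type*} (φ : V → Pt) (M : ℝ) (hM : 1 ≤ M)
    (h1 : ∀ v, |(φ v).1| ≤ M) (h2 : ∀ v, |(φ v).2| ≤ M) :
    InTri (ext φ M) (Sum.inr 0) (Sum.inr 1) (Sum.inr 2) := by
  have h1' : ∀ v, -M ≤ (φ v).1 ∧ (φ v).1 ≤ M := fun v => abs_le.1 (h1 v)
  have h2' : ∀ v, -M ≤ (φ v).2 ∧ (φ v).2 ≤ M := fun v => abs_le.1 (h2 v)
  have e0 : ext φ M (Sum.inr 0) = (-4 * M, -2 * M) := rfl
  have e1 : ext φ M (Sum.inr 1) = (4 * M, -2 * M) := rfl
  have e2 : ext φ M (Sum.inr 2) = (0, 6 * M) := rfl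
  have ev : ∀ v, ext φ M (Sum.inl v) = φ v := fun _ => rfl
  refine ⟨by simp, by simp, by simp, ?_, ?_, ?_, ?_, ?_⟩
  · rintro (v | i) hw
    · rw [e0, ev]
      have := h1' v
      show -4 * M < (φ v).1
      linarith
    · fin_cases i
      · exact absurd rfl hw
      · show -4 * M < 4 * M
        linarith
      · show -4 * M < 0
        linarith
  · rintro (v | i) hw
    · rw [e1, ev]
      have := h1' v
      show (φ v).1 < 4 * M
      linarith
    · fin_cases i
      · show -4 * M < 4 * M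
        linarith
      · exact absurd rfl hw
      · show 0 < 4 * M
        linarith
  · rintro (v | i) hw hw'
    · rw [e0, e1, ev]
      have := h2' v
      unfold orient
      simp only
      nlinarith
    · fin_cases i
      · exact absurd rfl hw
      · exact absurd rfl hw'
      · change 0 < orient (ext φ M (Sum.inr 0)) (ext φ M (Sum.inr 1)) (ext φ M (Sum.inr 2))
        rw [e0, e1, e2]
        unfold orient
        simp only
        nlinarith
  · rintro (v | i) hw hw'
    · rw [e1, e2, ev]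
      have := h2' v
      have := h1' v
      unfold orient
      simp only
      nlinarith
    · fin_cases i
      · change 0 < orient (ext φ M (Sum.inr 1)) (ext φ M (Sum.inr 2)) (ext φ M (Sum.inr 0))
        rw [e0, e1, e2]
        unfold orient
        simp only
        nlinarith
      · exact absurd rfl hw
      · exact absurd rfl hw'
  · rintro (v | i) hw hw'
    · rw [e0, e2, ev]
      have := h2' v
      have := h1' v
      unfold orient
      simp only
      nlinarith
    · fin_cases i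
      · exact absurd rfl hw'
      · change 0 < orient (ext φ M (Sum.inr 2)) (ext φ M (Sum.inr 0)) (ext φ M (Sum.inr 1))
        rw [e0, e1, e2]
        unfold orient
        simp only
        nlinarith
      · exact absurd rfl hw

theorem inTri_ev {W : Type*} [Finite W] (f : W → Pt) (τ : W → ℝ) (r1 r2 r3 : W)
    (h : InTri f r1 r2 r3) : ∀ᶠ ε in 𝓝 (0 : ℝ), InTri (pp f τ ε) r1 r2 r3 := by
  have a1 := ev_lt (fun w => w ≠ r1) (fun _ ε => (pp f τ ε r1).1) (fun w ε => (pp f τ ε w).1)
    (fun _ => cont1 f τ r1) (fun w => cont1 f τ w) (by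
      intro w hw; simp only [pp_zero]; exact h.left w hw)
  have a2 := ev_lt (fun w => w ≠ r2) (fun w ε => (pp f τ ε w).1) (fun _ ε => (pp f τ ε r2).1)
    (fun w => cont1 f τ w) (fun _ => cont1 f τ r2) (by
      intro w hw; simp only [pp_zero]; exact h.right w hw)
  have a3 := ev_lt (fun w => w ≠ r1 ∧ w ≠ r2) (fun _ _ => 0)
    (fun w ε => orient (pp f τ ε r1) (pp f τ ε r2) (pp f τ ε w))
    (fun _ => continuous_const) (fun w => cont_orient f τ r1 r2 w) (by
      intro w hw; simp only [pp_zero]; exact h.base w hw.1 hw.2)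
  have a4 := ev_lt (fun w => w ≠ r2 ∧ w ≠ r3) (fun _ _ => 0)
    (fun w ε => orient (pp f τ ε r2) (pp f τ ε r3) (pp f τ ε w))
    (fun _ => continuous_const) (fun w => cont_orient f τ r2 r3 w) (by
      intro w hw; simp only [pp_zero]; exact h.side2 w hw.1 hw.2)
  have a5 := ev_lt (fun w => w ≠ r3 ∧ w ≠ r1) (fun _ _ => 0)
    (fun w ε => orient (pp f τ ε r3) (pp f τ ε r1) (pp f τ ε w))
    (fun _ => continuous_const) (fun w => cont_orient f τ r3 r1 w) (by
      intro w hw; simp only [pp_zero]; exact h.side3 w hw.1 hw.2)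
  filter_upwards [a1, a2, a3, a4, a5] with ε b1 b2 b3 b4 b5
  exact ⟨h.h12, h.h13, h.h23, b1, b2, fun w h1 h2 => b3 w ⟨h1, h2⟩, fun w h1 h2 => b4 w ⟨h1, h2⟩,
    fun w h1 h2 => b5 w ⟨h1, h2⟩⟩

theorem orient_self1 (a b : Pt) : orient a b a = 0 := by unfold orient; ring
theorem orient_self2 (a b : Pt) : orient a b b = 0 := by unfold orient; ring

theorem not_cross_of_shared {a b c d : Pt} (h : a = c ∨ a = d ∨ b = c ∨ b = d) :
    ¬ Cross a b c d := by
  rintro ⟨h1, _⟩
  rcases h with rfl | rfl | rfl | rfl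
  · rw [orient_self1, zero_mul] at h1; exact lt_irrefl _ h1
  · rw [orient_self1, mul_zero] at h1; exact lt_irrefl _ h1
  · rw [orient_self2, zero_mul] at h1; exact lt_irrefl _ h1
  · rw [orient_self2, mul_zero] at h1; exact lt_irrefl _ h1

theorem nocross_ev {V : Type*} {W : Type*} (H : SimpleGraph V) (G : GeomGraph) (φ : V → Pt)
    (hφ : IsEmbedding H G φ) (f : W → Pt) (τ : W → ℝ) (ι : V → W) (hf : ∀ v, f (ι v) = φ v)
    (u v u' v' : V) (h : H.Adj u v) (h' : H.Adj u' v') : ∀ᶠ ε in 𝓝 (0 : ℝ),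
      ¬ Cross (pp f τ ε (ι u)) (pp f τ ε (ι v)) (pp f τ ε (ι u')) (pp f τ ε (ι v')) := by
  by_cases hs : u = u' ∨ u = v' ∨ v = u' ∨ v = v'
  · refine Filter.Eventually.of_forall (fun ε => not_cross_of_shared ?_)
    rcases hs with rfl | rfl | rfl | rfl
    · exact Or.inl rfl
    · exact Or.inr (Or.inl rfl)
    · exact Or.inr (Or.inr (Or.inl rfl))
    · exact Or.inr (Or.inr (Or.inr rfl))
  · push Not at hs
    obtain ⟨α, β, γ, s1, s2, s3, s4⟩ := exists_sep (a := φ u) (b := φ v) (c := φ u') (d := φ v') (by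
      intro x hx hx'
      obtain ⟨w, w1, w2, _⟩ := hφ.cross u v u' v' h h' (by
        intro he
        rw [Sym2.eq_iff] at he
        rcases he with ⟨h, _⟩ | ⟨h, _⟩
        · exact hs.1 h
        · exact hs.2.1 h) x hx hx'
      rw [Sym2.mem_iff] at w1 w2
      rcases w1 with rfl | rfl <;> rcases w2 with rfl | rfl
      · exact hs.1 rfl
      · exact hs.2.1 rfl
      · exact hs.2.2.1 rfl
      · exact hs.2.2.2 rfl)
    have hcont : ∀ w, Continuous fun ε => β * (pp f τ ε w).1 + γ * (pp f τ ε w).2 := fun w =>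
      ((cont1 f τ w).const_mul β |>.add ((cont2 f τ w).const_mul γ))
    have l1 := (hcont (ι u)).continuousAt.eventually_lt (x₀ := (0 : ℝ)) (g := fun _ => α)
      continuousAt_const (by simp only [pp_zero, hf]; exact s1)
    have l2 := (hcont (ι v)).continuousAt.eventually_lt (x₀ := (0 : ℝ)) (g := fun _ => α)
      continuousAt_const (by simp only [pp_zero, hf]; exact s2)
    have l3 := ContinuousAt.eventually_lt (f := fun _ => α) (x₀ := (0 : ℝ)) continuousAt_const
      (hcont (ι u')).continuousAt (by simp only [pp_zero, hf]; exact s3)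
    have l4 := ContinuousAt.eventually_lt (f := fun _ => α) (x₀ := (0 : ℝ)) continuousAt_const
      (hcont (ι v')).continuousAt (by simp only [pp_zero, hf]; exact s4)
    filter_upwards [l1, l2, l3, l4] with ε b1 b2 b3 b4 hcr
    exact cross_sep hcr (fun p => β * p.1 + γ * p.2) α β γ (fun _ => rfl) b1 b2 b3 b4

end GP

open GP Filter Topology in
theorem gen_position {V : Type*} [Fintype V] [DecidableEq V] (H : SimpleGraph V)
    (hH : Planar H) :
    ∃ pt : V ⊕ Fin 3 → Pt, GenPos pt ∧ InTri pt (Sum.inr 0) (Sum.inr 1) (Sum.inr 2) ∧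
      ∀ u v u' v', H.Adj u v → H.Adj u' v' →
        ¬ Cross (pt (Sum.inl u)) (pt (Sum.inl v)) (pt (Sum.inl u')) (pt (Sum.inl v')) := by
  obtain ⟨G, φ, hφ⟩ := hH
  -- a bound for the coordinates
  set M : ℝ := 1 + ∑ v, (|(φ v).1| + |(φ v).2|) with hMdef
  have hsum : ∀ v, |(φ v).1| + |(φ v).2| ≤ ∑ v, (|(φ v).1| + |(φ v).2|) := fun v =>
    Finset.single_le_sum (f := fun v => |(φ v).1| + |(φ v).2|)
      (fun i _ => add_nonneg (abs_nonneg _) (abs_nonneg _)) (Finset.mem_univ v)
  have hM : 1 ≤ M := by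
    have : 0 ≤ ∑ v, (|(φ v).1| + |(φ v).2|) :=
      Finset.sum_nonneg (fun i _ => add_nonneg (abs_nonneg _) (abs_nonneg _))
    linarith
  have h1 : ∀ v, |(φ v).1| ≤ M := fun v => by
    have := hsum v
    have := abs_nonneg (φ v).2
    linarith
  have h2 : ∀ v, |(φ v).2| ≤ M := fun v => by
    have := hsum v
    have := abs_nonneg (φ v).1
    linarith
  have hT := inTri_ext φ M hM h1 h2
  -- distinct parameters
  let τ : V ⊕ Fin 3 → ℝ := fun w => ((Fintype.equivFin (V ⊕ Fin 3) w : ℕ) : ℝ)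
  have hτ : Function.Injective τ := by
    intro a b hab
    have : ((Fintype.equivFin (V ⊕ Fin 3) a : ℕ)) = (Fintype.equivFin (V ⊕ Fin 3) b : ℕ) :=
      Nat.cast_injective hab
    exact (Fintype.equivFin _).injective (Fin.ext this)
  have e1 := inTri_ev (ext φ M) τ _ _ _ hT
  have e2 : ∀ᶠ ε in 𝓝 (0 : ℝ), ∀ u v u' v', H.Adj u v → H.Adj u' v' →
      ¬ Cross (pp (ext φ M) τ ε (Sum.inl u)) (pp (ext φ M) τ ε (Sum.inl v))
        (pp (ext φ M) τ ε (Sum.inl u')) (pp (ext φ M) τ ε (Sum.inl v')) := by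
    simp only [Filter.eventually_all]
    intro u v u' v' h h'
    exact nocross_ev H G φ hφ (ext φ M) τ Sum.inl (fun _ => rfl) u v u' v' h h'
  obtain ⟨δ, hδ, hδ'⟩ := Metric.eventually_nhds_iff.1 (e1.and e2)
  obtain ⟨ε, hε, hbad⟩ := (Set.Ioo_infinite hδ).exists_notMem_finite (bad_finite (ext φ M) τ hτ)
  simp only [Set.mem_ofPred_eq, not_not] at hbad
  have := hδ' (y := ε) (by
    rw [Real.dist_eq, sub_zero, abs_of_pos hε.1]
    exact hε.2)
  exact ⟨pp (ext φ M) τ ε, hbad, this.1, this.2⟩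

end Pool.Agent.Univ
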