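import Pool.Agent.Univ.Defs

/-!
# Canonical orderings of abstract triangulations (module UG-5)

Every abstract plane triangulation has a canonical sequence: starting from the edge `r1 r2`, add at
each step a vertex above the contour whose contour neighbours have minimal span.
-/

namespace Pool.Agent.Univ

namespace Greedy

set_option linter.unusedSectionVars false

variable {V : Type*} [Fintype V] [DecidableEq V]

theorem exists_face {T : Tri V} {a b : V} (h : T.A a b) : ∃ f ∈ T.Φ, a ∈ f ∧ b ∈ f := by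
  obtain ⟨f, hf, f', _, _, h1, h2, _⟩ := T.two a b h
  exact ⟨f, hf, h1, h2⟩

theorem ne_of_adj {T : Tri V} {a b : V} (h : T.A a b) : a ≠ b := by
  rintro rfl
  exact T.irrefl _ h

theorem two' {T : Tri V} {a b : V} (h : T.A a b) {f f' g : Finset V} (hf : f ∈ T.Φ)
    (hf' : f' ∈ T.Φ) (hne : f ≠ f') (ha : a ∈ f) (hb : b ∈ f) (ha' : a ∈ f') (hb' : b ∈ f')
    (hg : g ∈ T.Φ) (hag : a ∈ g) (hbg : b ∈ g) : g = f ∨ g = f' := by
  obtain ⟨f1, _, f2, _, _, _, _, _, _, h2⟩ := T.two a b h
  rcases h2 f hf ha hb with rfl | rfl <;> rcases h2 f' hf' ha' hb' with rfl | rfl <;>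
    rcases h2 g hg hag hbg with rfl | rfl <;> tauto

/-! ### cochains of paths -/

def dl (x y s t : V) : ZMod 2 :=
  (if s = x ∧ t = y then 1 else 0) + (if s = y ∧ t = x then 1 else 0)

theorem dl_symm (x y s t : V) : dl x y s t = dl x y t s := by
  unfold dl
  rw [add_comm]
  congr 1 <;> (congr 1; rw [and_comm])

theorem dl_sum (x y s : V) :
    ∑ t, dl x y s t = (if s = x then 1 else 0) + (if s = y then 1 else 0) := by
  unfold dl
  rw [Finset.sum_add_distrib]
  congr 1
  · by_cases h : s = x <;> simp [h]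
  · by_cases h : s = y <;> simp [h]

theorem dl_ne {x y s t : V} (h : dl x y s t ≠ 0) : (s = x ∧ t = y) ∨ (s = y ∧ t = x) := by
  by_contra hc
  push Not at hc
  apply h
  unfold dl
  rw [if_neg (fun h => hc.1 h.1 h.2), if_neg (fun h => hc.2 h.1 h.2), add_zero]

/-- the cochain of the closed walk `v, c a, c (a+1), ..., c b, v` -/
def cyc (c : ℕ → V) (a b : ℕ) (v s t : V) : ZMod 2 :=
  (∑ j ∈ Finset.Ico a b, dl (c j) (c (j + 1)) s t) + dl v (c a) s t + dl v (c b) s t

theorem cyc_symm (c : ℕ → V) (a b : ℕ) (v s t : V) : cyc c a b v s t = cyc c a b v t s := by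
  unfold cyc
  rw [dl_symm v (c a), dl_symm v (c b)]
  congr 2
  exact Finset.sum_congr rfl (fun j _ => dl_symm _ _ _ _)

theorem path_sum (c : ℕ → V) (a b : ℕ) (hab : a ≤ b) (s : V) :
    ∑ t, ∑ j ∈ Finset.Ico a b, dl (c j) (c (j + 1)) s t =
      (if s = c a then 1 else 0) + (if s = c b then 1 else 0) := by
  induction b, hab using Nat.le_induction with
  | base => simp [CharTwo.add_self_eq_zero]
  | succ b hab ih =>
    simp only [Finset.sum_Ico_succ_top hab]
    rw [Finset.sum_add_distrib, ih, dl_sum]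
    have : ∀ x y z : ZMod 2, x + y + (y + z) = x + z := by decide
    exact this _ _ _

theorem cyc_sum (c : ℕ → V) (a b : ℕ) (hab : a ≤ b) (v s : V) : ∑ t, cyc c a b v s t = 0 := by
  unfold cyc
  rw [Finset.sum_add_distrib, Finset.sum_add_distrib, path_sum c a b hab, dl_sum, dl_sum]
  have : ∀ x y z : ZMod 2, x + y + (z + x) + (z + y) = 0 := by decide
  exact this _ _ _

theorem cyc_ne {c : ℕ → V} {a b : ℕ} {v s t : V} (h : cyc c a b v s t ≠ 0) :
    (∃ j, a ≤ j ∧ j < b ∧ ((s = c j ∧ t = c (j + 1)) ∨ (s = c (j + 1) ∧ t = c j))) ∨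
    (s = v ∧ (t = c a ∨ t = c b)) ∨ (t = v ∧ (s = c a ∨ s = c b)) := by
  by_contra hc
  apply h
  unfold cyc
  have h1 : ∀ j ∈ Finset.Ico a b, dl (c j) (c (j + 1)) s t = 0 := by
    intro j hj
    rw [Finset.mem_Ico] at hj
    by_contra hne
    exact hc (Or.inl ⟨j, hj.1, hj.2, dl_ne hne⟩)
  have h2 : dl v (c a) s t = 0 := by
    by_contra hne
    rcases dl_ne hne with h | h
    · exact hc (Or.inr (Or.inl ⟨h.1, Or.inl h.2⟩))
    · exact hc (Or.inr (Or.inr ⟨h.2, Or.inl h.1⟩))
  have h3 : dl v (c b) s t = 0 := by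
    by_contra hne
    rcases dl_ne hne with h | h
    · exact hc (Or.inr (Or.inl ⟨h.1, Or.inr h.2⟩))
    · exact hc (Or.inr (Or.inr ⟨h.2, Or.inr h.1⟩))
  rw [Finset.sum_eq_zero h1, h2, h3]
  rfl

/-! ### the state of the greedy procedure -/

/-- the outer face -/
def out (T : Tri V) : Finset V := {T.r1, T.r2, T.r3}

structure St (T : Tri V) (A : V → V → Prop) (K : Finset V) (B : Finset (Finset V)) (c : ℕ → V)
    (t : ℕ) : Prop where
  canon : Canon T.r1 T.r2 A K ((List.range (t + 1)).map c)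
  tpos : 1 ≤ t
  c0 : c 0 = T.r1
  ct : c t = T.r2
  inj : ∀ i j, i ≤ t → j ≤ t → c i = c j → i = j
  memK : ∀ i, i ≤ t → c i ∈ K
  r3 : T.r3 ∉ K
  BΦ : B ⊆ T.Φ
  outB : out T ∈ B
  sub : ∀ f ∈ B, f ≠ out T → f ⊆ K
  isin : ∀ i, i < t → ∃ f ∈ B, c i ∈ f ∧ c (i + 1) ∈ f
  isout : ∀ i, i < t → ∃ f ∈ T.Φ, f ∉ B ∧ c i ∈ f ∧ c (i + 1) ∈ f
  adj : ∀ a ∈ K, ∀ b ∈ K, T.A a b → A a b ∧
    ((∃ i, i < t ∧ ((a = c i ∧ b = c (i + 1)) ∨ (a = c (i + 1) ∧ b = c i))) ∨
      ∀ f ∈ T.Φ, a ∈ f → b ∈ f → f ∈ B)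
  cov : ∀ b ∈ K, (∀ i, i ≤ t → b ≠ c i) → ∀ f ∈ T.Φ, b ∈ f → f ∈ B
  con : ∀ s : Finset V → ZMod 2,
    (∀ f ∈ B, ∀ f' ∈ B, f ≠ f' → ∀ a b, a ≠ b → a ∈ f → b ∈ f → a ∈ f' → b ∈ f' →
      s f = s f') → ∀ f ∈ B, s f = s (out T)

variable {T : Tri V} {A : V → V → Prop} {K : Finset V} {B : Finset (Finset V)} {c : ℕ → V}
  {t : ℕ}

theorem mem_out {x : V} : x ∈ out T ↔ x = T.r1 ∨ x = T.r2 ∨ x = T.r3 := by
  simp [out]

theorem St.r1K (S : St T A K B c t) : T.r1 ∈ K := S.c0 ▸ S.memK 0 (Nat.zero_le _)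

theorem St.r2K (S : St T A K B c t) : T.r2 ∈ K := S.ct ▸ S.memK t le_rfl

theorem St.cne (S : St T A K B c t) {i : ℕ} (hi : i < t) : c i ≠ c (i + 1) := by
  intro h
  have := S.inj i (i + 1) (by omega) (by omega) h
  omega

theorem St.cadj (S : St T A K B c t) {i : ℕ} (hi : i < t) : T.A (c i) (c (i + 1)) := by
  obtain ⟨f, hf, h1, h2⟩ := S.isin i hi
  exact T.face_adj f (S.BΦ hf) _ h1 _ h2 (S.cne hi)

/-- faces in `B` containing a vertex outside `K` are the outer face -/
theorem St.eq_out (S : St T A K B c t) {f : Finset V} (hf : f ∈ B) {x : V} (hx : x ∈ f)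
    (hK : x ∉ K) : f = out T := by
  by_contra h
  exact hK (S.sub f hf h hx)

/-- the apex of the face above the `i`-th contour edge -/
theorem St.apex (S : St T A K B c t) {i : ℕ} (hi : i < t) :
    ∃ z, z ∉ K ∧ ({c i, c (i + 1), z} : Finset V) ∈ T.Φ ∧ ({c i, c (i + 1), z} : Finset V) ∉ B := by
  obtain ⟨f, hf, hfB, h1, h2⟩ := S.isout i hi
  have h3 := T.face_card f hf
  have h4 : ((f.erase (c i)).erase (c (i + 1))).card = 1 := by
    rw [Finset.card_erase_of_mem, Finset.card_erase_of_mem h1, h3]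
    exact Finset.mem_erase.2 ⟨(S.cne hi).symm, h2⟩
  obtain ⟨z, hz⟩ := Finset.card_eq_one.1 h4
  have hzf : z ∈ (f.erase (c i)).erase (c (i + 1)) := by rw [hz]; simp
  rw [Finset.mem_erase, Finset.mem_erase] at hzf
  have hfe : f = {c i, c (i + 1), z} := by
    have e1 : insert (c (i + 1)) ((f.erase (c i)).erase (c (i + 1))) = f.erase (c i) :=
      Finset.insert_erase (Finset.mem_erase.2 ⟨(S.cne hi).symm, h2⟩)
    have e2 : insert (c i) (f.erase (c i)) = f := Finset.insert_erase h1
    rw [← e2, ← e1, hz]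
  refine ⟨z, ?_, hfe ▸ hf, hfe ▸ hfB⟩
  intro hzK
  have a1 : T.A z (c i) := T.face_adj f hf _ hzf.2.2 _ h1 hzf.2.1
  have a2 : T.A z (c (i + 1)) := T.face_adj f hf _ hzf.2.2 _ h2 hzf.1
  rcases (S.adj z hzK (c i) (S.memK i hi.le) a1).2 with ⟨j, hj, hj'⟩ | h
  · rcases (S.adj z hzK (c (i + 1)) (S.memK _ hi) a2).2 with ⟨k, hk, hk'⟩ | h
    · rcases hj' with ⟨e1, e2⟩ | ⟨e1, e2⟩
      · have := S.inj i (j + 1) hi.le hj e2
        rcases hk' with ⟨e3, e4⟩ | ⟨e3, e4⟩
        · have := S.inj j k (by omega) (by omega) (e1.symm.trans e3)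
          have := S.inj (i + 1) (k + 1) (by omega) (by omega) e4
          omega
        · have := S.inj j (k + 1) (by omega) (by omega) (e1.symm.trans e3)
          have := S.inj (i + 1) k (by omega) (by omega) e4
          omega
      · have := S.inj i j hi.le hj.le e2
        rw [← this] at e1
        exact hzf.1 e1
    · exact hfB (h f hf hzf.2.2 h2)
  · exact hfB (h f hf hzf.2.2 h1)

/-- the no-crossing lemma -/
theorem St.nc (S : St T A K B c t) {v : V} (hv : v ∉ K) {a b i d : ℕ} (hb : b ≤ t)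
    (hva : T.A v (c a)) (hvb : T.A v (c b)) (hai : a ≤ i) (hib : i < b) {z : V} (hz : z ∉ K)
    (hzv : z ≠ v) (hF : ({c i, c (i + 1), z} : Finset V) ∈ T.Φ)
    (hFB : ({c i, c (i + 1), z} : Finset V) ∉ B) (hd : d ≤ t) (hzd : T.A z (c d))
    (hdd : d < a ∨ b < d) : False := by
  obtain ⟨σ, hσ⟩ := T.jordan (cyc c a b v) (cyc_symm c a b v)
    (by
      intro x y hxy
      rcases cyc_ne hxy with ⟨j, h1, h2, h3 | h3⟩ | ⟨h1, h2 | h2⟩ | ⟨h1, h2 | h2⟩
      · rw [h3.1, h3.2]; exact S.cadj (by omega)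
      · rw [h3.1, h3.2]; exact T.symm _ _ (S.cadj (by omega))
      · rw [h1, h2]; exact hva
      · rw [h1, h2]; exact hvb
      · rw [h1, h2]; exact T.symm _ _ hva
      · rw [h1, h2]; exact T.symm _ _ hvb)
    (fun s => cyc_sum c a b (by omega) v s)
  -- the cochain vanishes at z and at c d
  have hcz : ∀ w, cyc c a b v z w = 0 := by
    intro w
    by_contra hne
    rcases cyc_ne hne with ⟨j, h1, h2, h3 | h3⟩ | ⟨h1, _⟩ | ⟨_, h2 | h2⟩
    · exact hz (h3.1 ▸ S.memK j (by omega))
    · exact hz (h3.1 ▸ S.memK (j + 1) (by omega))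
    · exact hzv h1
    · exact hz (h2 ▸ S.memK a (by omega))
    · exact hz (h2 ▸ S.memK b (by omega))
  have hcd : ∀ w, cyc c a b v (c d) w = 0 := by
    intro w
    by_contra hne
    rcases cyc_ne hne with ⟨j, h1, h2, h3 | h3⟩ | ⟨h1, _⟩ | ⟨_, h2 | h2⟩
    · have := S.inj d j hd (by omega) h3.1
      omega
    · have := S.inj d (j + 1) hd (by omega) h3.1
      omega
    · exact hv (h1 ▸ S.memK d hd)
    · have := S.inj d a hd (by omega) h2
      omega
    · have := S.inj d b hd (by omega) h2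
      omega
  have heq : ∀ x y : ZMod 2, x + y = 0 → x = y := by decide
  -- σ is constant around a vertex where the cochain vanishes
  have hstar : ∀ u, (∀ w, cyc c a b v u w = 0) → ∀ f ∈ T.Φ, ∀ f' ∈ T.Φ, u ∈ f → u ∈ f' →
      σ f = σ f' := by
    intro u hu f hf f' hf' h1 h2
    have := T.star u (fun g => σ g = σ f') (by
      intro w g hg g' hg' hwu h3 h4 h5 h6
      by_cases hgg : g = g'
      · rw [hgg]
      · have e := hσ u w g hg g' hg' hgg hwu.symm h3 h4 h5 h6
        rw [hu w] at e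
        rw [heq _ _ e]) f hf f' hf' h1 h2
    exact this.2 rfl
  -- σ is constant on B
  have hB := S.con σ (by
    intro f hf f' hf' hne x y hxy h1 h2 h3 h4
    apply heq
    rw [hσ x y f (S.BΦ hf) f' (S.BΦ hf') hne hxy h1 h2 h3 h4]
    by_contra hcne
    have hvout : ∀ w, w ∈ f → w ∈ f' → w ∉ K → False := fun w h5 h6 h7 =>
      hne ((S.eq_out hf h5 h7).trans (S.eq_out hf' h6 h7).symm)
    rcases cyc_ne hcne with ⟨j, j1, j2, j3⟩ | ⟨j1, _⟩ | ⟨j1, _⟩
    · obtain ⟨g, hg, hgB, g1, g2⟩ := S.isout j (by omega)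
      have hxg : x ∈ g ∧ y ∈ g := by
        rcases j3 with ⟨rfl, rfl⟩ | ⟨rfl, rfl⟩
        · exact ⟨g1, g2⟩
        · exact ⟨g2, g1⟩
      have hadj : T.A x y := T.face_adj g hg _ hxg.1 _ hxg.2 hxy
      rcases two' hadj (S.BΦ hf) (S.BΦ hf') hne h1 h2 h3 h4 hg hxg.1 hxg.2 with e | e
      · exact hgB (e ▸ hf)
      · exact hgB (e ▸ hf')
    · exact hvout x h1 h3 (j1 ▸ hv)
    · exact hvout y h2 h4 (j1 ▸ hv))
  -- the face below the edge
  obtain ⟨g, hg, g1, g2⟩ := S.isin i (by omega)
  have hci : cyc c a b v (c i) (c (i + 1)) = 1 := by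
    unfold cyc
    have e1 : dl v (c a) (c i) (c (i + 1)) = 0 := by
      by_contra hne
      rcases dl_ne hne with h | h
      · exact hv (h.1 ▸ S.memK i (by omega))
      · exact hv (h.2 ▸ S.memK (i + 1) (by omega))
    have e2 : dl v (c b) (c i) (c (i + 1)) = 0 := by
      by_contra hne
      rcases dl_ne hne with h | h
      · exact hv (h.1 ▸ S.memK i (by omega))
      · exact hv (h.2 ▸ S.memK (i + 1) (by omega))
    rw [e1, e2, add_zero, add_zero, Finset.sum_eq_single i]
    · unfold dl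
      rw [if_pos ⟨rfl, rfl⟩, if_neg, add_zero]
      rintro ⟨h, _⟩
      exact S.cne (by omega) h
    · intro j hj hji
      rw [Finset.mem_Ico] at hj
      by_contra hne
      rcases dl_ne hne with h | h
      · exact hji (S.inj i j (by omega) (by omega) h.1).symm
      · have := S.inj i (j + 1) (by omega) (by omega) h.1
        have := S.inj (i + 1) j (by omega) (by omega) h.2
        omega
    · intro h
      exact absurd (Finset.mem_Ico.2 ⟨hai, hib⟩) h
  have hgF : g ≠ {c i, c (i + 1), z} := fun h => hFB (h ▸ hg)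
  have k1 := hσ (c i) (c (i + 1)) g (S.BΦ hg) _ hF hgF (S.cne (by omega)) g1 g2 (by simp) (by simp)
  rw [hci] at k1
  have k2 : σ g = σ (out T) := hB g hg
  -- face in B at c d
  obtain ⟨h, hh, hdh⟩ : ∃ h ∈ B, c d ∈ h := by
    rcases Nat.lt_or_ge d t with h | h
    · obtain ⟨g, hg, g1, _⟩ := S.isin d h
      exact ⟨g, hg, g1⟩
    · obtain ⟨g, hg, _, g1⟩ := S.isin (d - 1) (by have := S.tpos; omega)
      have : d - 1 + 1 = d := by have := S.tpos; omega
      rw [this] at g1
      exact ⟨g, hg, g1⟩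
  obtain ⟨k, hk, hzk, hdk⟩ := exists_face hzd
  have k3 : σ h = σ (out T) := hB h hh
  have k4 : σ k = σ h := hstar (c d) hcd k hk h (S.BΦ hh) hdk hdh
  have k5 : σ k = σ {c i, c (i + 1), z} := hstar z hcz k hk _ hF hzk (by simp)
  rw [k2, ← k5, k4, k3] at k1
  revert k1
  generalize σ (out T) = x
  revert x
  decide


/-! ### adding a vertex -/

/-- the new faces when `v` is put over the contour interval `[p, q]` -/
def nf (c : ℕ → V) (p q : ℕ) (v : V) : Finset (Finset V) :=
  (Finset.Ico p q).image (fun i => {c i, c (i + 1), v})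

omit [Fintype V] in
theorem mem_nf {c : ℕ → V} {p q : ℕ} {v : V} {f : Finset V} :
    f ∈ nf c p q v ↔ ∃ i, p ≤ i ∧ i < q ∧ f = {c i, c (i + 1), v} := by
  unfold nf
  rw [Finset.mem_image]
  constructor
  · rintro ⟨i, hi, rfl⟩
    rw [Finset.mem_Ico] at hi
    exact ⟨i, hi.1, hi.2, rfl⟩
  · rintro ⟨i, h1, h2, rfl⟩
    exact ⟨i, Finset.mem_Ico.2 ⟨h1, h2⟩, rfl⟩

structure Stp (T : Tri V) (A : V → V → Prop) (K : Finset V) (B : Finset (Finset V)) (c : ℕ → V)
    (t p q : ℕ) (v : V) : Prop where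
  st : St T A K B c t
  pq : p < q
  qt : q ≤ t
  vK : v ∉ K
  face : ∀ i, p ≤ i → i < q → ({c i, c (i + 1), v} : Finset V) ∈ T.Φ
  nB : ∀ i, p ≤ i → i < q → ({c i, c (i + 1), v} : Finset V) ∉ B
  nb : ∀ j, j ≤ t → T.A v (c j) → p ≤ j ∧ j ≤ q

variable {p q : ℕ} {v : V}

theorem Stp.vc (S : Stp T A K B c t p q v) {j : ℕ} (hj : j ≤ t) : v ≠ c j := by
  rintro rfl
  exact S.vK (S.st.memK j hj)

theorem Stp.vadj (S : Stp T A K B c t p q v) {j : ℕ} (h1 : p ≤ j) (h2 : j ≤ q) :
    T.A v (c j) := by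
  have hpq := S.pq
  have hqt := S.qt
  rcases Nat.lt_or_ge j q with h | h
  · exact T.face_adj _ (S.face j h1 h) _ (by simp) _ (by simp) (S.vc (by omega))
  · have := S.face (j - 1) (by omega) (by omega)
    rw [show j - 1 + 1 = j by omega] at this
    exact T.face_adj _ this _ (by simp) _ (by simp) (S.vc (by omega))

theorem Stp.L1 (S : Stp T A K B c t p q v) {i : ℕ} (h1 : p ≤ i) (h2 : i < q) {f : Finset V}
    (hf : f ∈ T.Φ) (ha : c i ∈ f) (hb : c (i + 1) ∈ f) : f ∈ B ∪ nf c p q v := by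
  have hqt := S.qt
  obtain ⟨g, hg, g1, g2⟩ := S.st.isin i (by omega)
  have hne : g ≠ {c i, c (i + 1), v} := fun h => S.nB i h1 h2 (h ▸ hg)
  rcases two' (S.st.cadj (by omega)) (S.st.BΦ hg) (S.face i h1 h2) hne g1 g2 (by simp) (by simp)
    hf ha hb with e | e
  · exact Finset.mem_union_left _ (e ▸ hg)
  · exact Finset.mem_union_right _ (mem_nf.2 ⟨i, h1, h2, e⟩)

theorem Stp.L2 (S : Stp T A K B c t p q v) {j : ℕ} (h1 : p < j) (h2 : j < q) {f : Finset V}
    (hf : f ∈ T.Φ) (ha : v ∈ f) (hb : c j ∈ f) : f ∈ B ∪ nf c p q v := by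
  have hqt := S.qt
  have e1 : j - 1 + 1 = j := by omega
  have hne : ({c (j - 1), c (j - 1 + 1), v} : Finset V) ≠ {c j, c (j + 1), v} := by
    intro h
    have : c (j - 1) ∈ ({c j, c (j + 1), v} : Finset V) := by rw [← h]; simp
    simp only [Finset.mem_insert, Finset.mem_singleton] at this
    rcases this with h | h | h
    · have := S.st.inj _ _ (by omega) (by omega) h
      omega
    · have := S.st.inj _ _ (by omega) (by omega) h
      omega
    · exact S.vc (j := j - 1) (by omega) h.symm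
  have hj : c j ∈ ({c (j - 1), c (j - 1 + 1), v} : Finset V) := by rw [e1]; simp
  rcases two' (S.vadj h1.le h2.le) (S.face (j - 1) (by omega) (by omega)) (S.face j (by omega) h2)
    hne (by simp) hj (by simp) (by simp) hf ha hb with e | e
  · exact Finset.mem_union_right _ (mem_nf.2 ⟨j - 1, by omega, by omega, e⟩)
  · exact Finset.mem_union_right _ (mem_nf.2 ⟨j, by omega, by omega, e⟩)

theorem Stp.L3 (S : Stp T A K B c t p q v) {a : V} (ha : a ∈ K) (hva : T.A v a) :
    ∃ j, p ≤ j ∧ j ≤ q ∧ a = c j := by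
  by_cases h : ∃ j, j ≤ t ∧ a = c j
  · obtain ⟨j, hj, rfl⟩ := h
    obtain ⟨h1, h2⟩ := S.nb j hj hva
    exact ⟨j, h1, h2, rfl⟩
  · exfalso
    push Not at h
    obtain ⟨f, hf, h1, h2⟩ := exists_face hva
    have hfB := S.st.cov a ha h f hf h2
    have := S.st.eq_out hfB h1 S.vK
    rw [this, mem_out] at h2
    rcases h2 with e | e | e
    · exact h 0 (Nat.zero_le _) (e.trans S.st.c0.symm)
    · exact h t le_rfl (e.trans S.st.ct.symm)
    · exact S.st.r3 (e ▸ ha)

theorem Stp.nfΦ (S : Stp T A K B c t p q v) : B ∪ nf c p q v ⊆ T.Φ := by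
  intro f hf
  rcases Finset.mem_union.1 hf with h | h
  · exact S.st.BΦ h
  · obtain ⟨i, h1, h2, rfl⟩ := mem_nf.1 h
    exact S.face i h1 h2

theorem Stp.nfK (S : Stp T A K B c t p q v) {f : Finset V} (hf : f ∈ nf c p q v) :
    f ⊆ insert v K := by
  have hqt := S.qt
  obtain ⟨i, h1, h2, rfl⟩ := mem_nf.1 hf
  intro x hx
  simp only [Finset.mem_insert, Finset.mem_singleton] at hx
  rcases hx with rfl | rfl | rfl
  · exact Finset.mem_insert_of_mem (S.st.memK _ (by omega))
  · exact Finset.mem_insert_of_mem (S.st.memK _ (by omega))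
  · exact Finset.mem_insert_self _ _

/-- contour vertices contained in new faces -/
theorem Stp.nfc (S : Stp T A K B c t p q v) {i j : ℕ} (_h1 : p ≤ i) (h2 : i < q) (hj : j ≤ t)
    (h : c j ∈ ({c i, c (i + 1), v} : Finset V)) : j = i ∨ j = i + 1 := by
  have hqt := S.qt
  simp only [Finset.mem_insert, Finset.mem_singleton] at h
  rcases h with h | h | h
  · exact Or.inl (S.st.inj _ _ hj (by omega) h)
  · exact Or.inr (S.st.inj _ _ hj (by omega) h)
  · exact absurd h.symm (S.vc hj)

/-! ### lists -/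

theorem map_range_split {α : Type*} (c : ℕ → α) (a b : ℕ) : (List.range (a + 1 + b)).map c =
    (List.range a).map c ++ c a :: (List.range b).map (fun i => c (a + 1 + i)) := by
  rw [List.range_add, List.map_append, List.range_succ, List.map_append, List.map_map]
  simp [Function.comp_def]

theorem list_split {α : Type*} (c : ℕ → α) {t p q : ℕ} (hpq : p < q) (hqt : q ≤ t) :
    (List.range (t + 1)).map c = (List.range p).map c ++ c p ::
      ((List.range (q - p - 1)).map (fun i => c (p + 1 + i)) ++ c q ::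
        (List.range (t - q)).map (fun i => c (q + 1 + i))) := by
  have e1 : t + 1 = p + 1 + (q - p - 1 + 1 + (t - q)) := by omega
  rw [e1, map_range_split, map_range_split]
  congr 5
  · omega
  · funext i
    congr 1
    omega

/-- the new contour -/
def nc' (c : ℕ → V) (p q : ℕ) (v : V) (i : ℕ) : V :=
  if i ≤ p then c i else if i = p + 1 then v else c (i - (p + 2) + q)

omit [Fintype V] [DecidableEq V] in
theorem nc'_le {c : ℕ → V} {p q : ℕ} {v : V} {i : ℕ} (h : i ≤ p) : nc' c p q v i = c i := by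
  unfold nc'
  rw [if_pos h]

omit [Fintype V] [DecidableEq V] in
theorem nc'_mid {c : ℕ → V} {p q : ℕ} {v : V} {i : ℕ} (h : i = p + 1) : nc' c p q v i = v := by
  unfold nc'
  rw [if_neg (by omega), if_pos h]

omit [Fintype V] [DecidableEq V] in
theorem nc'_ge {c : ℕ → V} {p q : ℕ} {v : V} {i j : ℕ} (h : p + 2 ≤ i) (hj : j + (p + 2) = i + q) :
    nc' c p q v i = c j := by
  unfold nc'
  rw [if_neg (by omega), if_neg (by omega)]
  congr 1
  omega

omit [Fintype V] [DecidableEq V] in
theorem list_new (c : ℕ → V) {t p q : ℕ} (v : V) (_hqt : q ≤ t) :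
    (List.range (p + 2 + (t - q) + 1)).map (nc' c p q v) = (List.range p).map c ++ c p :: v ::
      c q :: (List.range (t - q)).map (fun i => c (q + 1 + i)) := by
  have e1 : p + 2 + (t - q) + 1 = p + 1 + (0 + 1 + (0 + 1 + (t - q))) := by omega
  rw [e1, map_range_split, map_range_split, map_range_split]
  simp only [List.range_zero, List.map_nil, List.nil_append]
  rw [nc'_le le_rfl, nc'_mid (by omega), nc'_ge (j := q) (by omega) (by omega)]
  congr 1
  · apply List.map_congr_left
    intro i hi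
    rw [List.mem_range] at hi
    exact nc'_le hi.le
  · congr 3
    apply List.map_congr_left
    intro i _
    exact nc'_ge (by omega) (by omega)

/-- the adjacency relation after the step -/
def nA (A : V → V → Prop) (c : ℕ → V) (p q : ℕ) (v : V) : V → V → Prop := fun s u =>
  A s u ∨ (s = v ∧ u ∈ c p :: ((List.range (q - p - 1)).map (fun i => c (p + 1 + i)) ++ [c q])) ∨
    (u = v ∧ s ∈ c p :: ((List.range (q - p - 1)).map (fun i => c (p + 1 + i)) ++ [c q]))

omit [Fintype V] [DecidableEq V] in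
theorem mem_mid {c : ℕ → V} {p q j : ℕ} (h1 : p ≤ j) (h2 : j ≤ q) :
    c j ∈ c p :: ((List.range (q - p - 1)).map (fun i => c (p + 1 + i)) ++ [c q]) := by
  rw [List.mem_cons, List.mem_append, List.mem_map, List.mem_singleton]
  rcases Nat.eq_or_lt_of_le h1 with h | h
  · exact Or.inl (by rw [h])
  · rcases Nat.eq_or_lt_of_le h2 with h' | h'
    · exact Or.inr (Or.inr (by rw [h']))
    · exact Or.inr (Or.inl ⟨j - (p + 1), List.mem_range.2 (by omega), by congr 1; omega⟩)

theorem Stp.canon (S : Stp T A K B c t p q v) :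
    Canon T.r1 T.r2 (nA A c p q v) (insert v K) ((List.range (p + 2 + (t - q) + 1)).map
      (nc' c p q v)) := by
  have h := S.st.canon
  rw [list_split c S.pq S.qt] at h
  have := Canon.step A K _ _ _ (c p) (c q) v h S.vK
  rw [list_new c v S.qt]
  exact this

theorem Stp.nadj (S : Stp T A K B c t p q v) : ∀ a ∈ insert v K, ∀ b ∈ insert v K, T.A a b →
    nA A c p q v a b ∧
    ((∃ i, i < p + 2 + (t - q) ∧ ((a = nc' c p q v i ∧ b = nc' c p q v (i + 1)) ∨
      (a = nc' c p q v (i + 1) ∧ b = nc' c p q v i))) ∨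
      ∀ f ∈ T.Φ, a ∈ f → b ∈ f → f ∈ B ∪ nf c p q v) := by
  have hpq := S.pq
  have hqt := S.qt
  intro a ha b hb hab
  rcases Finset.mem_insert.1 ha with rfl | haK
  · rcases Finset.mem_insert.1 hb with rfl | hbK
    · exact absurd hab (T.irrefl _)
    · obtain ⟨j, h1, h2, rfl⟩ := S.L3 hbK hab
      refine ⟨Or.inr (Or.inl ⟨rfl, mem_mid h1 h2⟩), ?_⟩
      rcases Nat.eq_or_lt_of_le h1 with h | h
      · refine Or.inl ⟨p, by omega, Or.inr ⟨(nc'_mid rfl).symm, ?_⟩⟩
        rw [nc'_le le_rfl, h]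
      · rcases Nat.eq_or_lt_of_le h2 with h' | h'
        · refine Or.inl ⟨p + 1, by omega, Or.inl ⟨(nc'_mid rfl).symm, ?_⟩⟩
          rw [nc'_ge (j := j) (by omega) (by omega)]
        · exact Or.inr (fun f hf h3 h4 => S.L2 h h' hf h3 h4)
  · rcases Finset.mem_insert.1 hb with rfl | hbK
    · obtain ⟨j, h1, h2, rfl⟩ := S.L3 haK (T.symm _ _ hab)
      refine ⟨Or.inr (Or.inr ⟨rfl, mem_mid h1 h2⟩), ?_⟩
      rcases Nat.eq_or_lt_of_le h1 with h | h
      · refine Or.inl ⟨p, by omega, Or.inl ⟨?_, (nc'_mid rfl).symm⟩⟩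
        rw [nc'_le le_rfl, h]
      · rcases Nat.eq_or_lt_of_le h2 with h' | h'
        · refine Or.inl ⟨p + 1, by omega, Or.inr ⟨?_, (nc'_mid rfl).symm⟩⟩
          rw [nc'_ge (j := j) (by omega) (by omega)]
        · exact Or.inr (fun f hf h3 h4 => S.L2 h h' hf h4 h3)
    · obtain ⟨h1, h2⟩ := S.st.adj a haK b hbK hab
      refine ⟨Or.inl h1, ?_⟩
      rcases h2 with ⟨i, hi, h3⟩ | h2
      · rcases Nat.lt_or_ge i p with h | h
        · refine Or.inl ⟨i, by omega, ?_⟩
          rw [nc'_le h.le, nc'_le h]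
          exact h3
        · rcases Nat.lt_or_ge i q with h' | h'
          · refine Or.inr (fun f hf h4 h5 => ?_)
            rcases h3 with ⟨rfl, rfl⟩ | ⟨rfl, rfl⟩
            · exact S.L1 h h' hf h4 h5
            · exact S.L1 h h' hf h5 h4
          · refine Or.inl ⟨i - q + (p + 2), by omega, ?_⟩
            rw [nc'_ge (j := i) (by omega) (by omega), nc'_ge (j := i + 1) (by omega) (by omega)]
            exact h3
      · exact Or.inr (fun f hf h4 h5 => Finset.mem_union_left _ (h2 f hf h4 h5))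

/-- the step for a vertex different from `r3` -/
theorem Stp.next (S : Stp T A K B c t p q v) (hv : v ≠ T.r3) :
    St T (nA A c p q v) (insert v K) (B ∪ nf c p q v) (nc' c p q v) (p + 2 + (t - q)) := by
  have hpq := S.pq
  have hqt := S.qt
  have hvout : v ∉ out T := by
    intro h
    rcases mem_out.1 h with h | h | h
    · exact S.vK (h ▸ S.st.r1K)
    · exact S.vK (h ▸ S.st.r2K)
    · exact hv h
  -- faces through v and c p (or c q)
  have hside : ∀ j k, (j = p ∧ k = p ∨ j = q ∧ k + 1 = q) →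
      ∃ f ∈ T.Φ, f ∉ B ∪ nf c p q v ∧ v ∈ f ∧ c j ∈ f := by
    intro j k hjk
    have hk1 : p ≤ k := by omega
    have hk2 : k < q := by omega
    have hmem : c j ∈ ({c k, c (k + 1), v} : Finset V) := by
      rcases hjk with ⟨h1, h2⟩ | ⟨h1, h2⟩
      · rw [h1, h2]; simp
      · rw [h1, ← h2]; simp
    obtain ⟨f, hf, f', hf', hne, f1, f2, f3, f4, _⟩ := T.two v (c j) (S.vadj (by omega) (by omega))
    obtain ⟨g, hg, hgne, g1, g2⟩ : ∃ g ∈ T.Φ, g ≠ {c k, c (k + 1), v} ∧ v ∈ g ∧ c j ∈ g := by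
      by_cases h : f = {c k, c (k + 1), v}
      · exact ⟨f', hf', fun h' => hne (h.trans h'.symm), f3, f4⟩
      · exact ⟨f, hf, h, f1, f2⟩
    refine ⟨g, hg, ?_, g1, g2⟩
    intro hgB
    rcases Finset.mem_union.1 hgB with h | h
    · exact hvout (S.st.eq_out h g1 S.vK ▸ g1)
    · obtain ⟨i, h1, h2, rfl⟩ := mem_nf.1 h
      have := S.nfc h1 h2 (j := j) (by omega) g2
      have hik : i = k := by omega
      exact hgne (by rw [hik])
  have hadj := S.nadj
  refine ⟨S.canon, by omega, ?_, ?_, ?_, ?_, ?_, S.nfΦ, Finset.mem_union_left _ S.st.outB, ?_, ?_,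
    ?_, hadj, ?_, ?_⟩
  · rw [nc'_le (Nat.zero_le _)]
    exact S.st.c0
  · rw [nc'_ge (j := t) (by omega) (by omega)]
    exact S.st.ct
  · -- injectivity
    have key : ∀ i, i ≤ p + 2 + (t - q) → (i ≤ p ∧ nc' c p q v i = c i) ∨
        (i = p + 1 ∧ nc' c p q v i = v) ∨
        (p + 2 ≤ i ∧ nc' c p q v i = c (i - (p + 2) + q) ∧ i - (p + 2) + q ≤ t) := by
      intro i hi
      rcases Nat.lt_or_ge p i with h | h
      · by_cases h' : i = p + 1
        · exact Or.inr (Or.inl ⟨h', nc'_mid h'⟩)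
        · exact Or.inr (Or.inr ⟨by omega, nc'_ge (by omega) (by omega), by omega⟩)
      · exact Or.inl ⟨h, nc'_le h⟩
    intro i j hi hj hij
    rcases key i hi with ⟨h1, h2⟩ | ⟨h1, h2⟩ | ⟨h1, h2, h2'⟩ <;>
      rcases key j hj with ⟨h3, h4⟩ | ⟨h3, h4⟩ | ⟨h3, h4, h4'⟩ <;> rw [h2, h4] at hij
    · exact S.st.inj _ _ (by omega) (by omega) hij
    · exact absurd hij.symm (S.vc (by omega))
    · have := S.st.inj _ _ (by omega) (by omega) hij
      omega
    · exact absurd hij (S.vc (by omega))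
    · omega
    · exact absurd hij (S.vc (by omega))
    · have := S.st.inj _ _ (by omega) (by omega) hij
      omega
    · exact absurd hij.symm (S.vc (by omega))
    · have := S.st.inj _ _ (by omega) (by omega) hij
      omega
  · intro i hi
    rcases Nat.lt_or_ge p i with h | h
    · by_cases h' : i = p + 1
      · rw [nc'_mid h']; exact Finset.mem_insert_self _ _
      · rw [nc'_ge (j := i - (p + 2) + q) (by omega) (by omega)]
        exact Finset.mem_insert_of_mem (S.st.memK _ (by omega))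
    · rw [nc'_le h]; exact Finset.mem_insert_of_mem (S.st.memK _ (by omega))
  · rw [Finset.mem_insert]
    rintro (h | h)
    · exact hv h.symm
    · exact S.st.r3 h
  · intro f hf hne
    rcases Finset.mem_union.1 hf with h | h
    · exact (S.st.sub f h hne).trans (Finset.subset_insert _ _)
    · exact S.nfK h
  · -- isin
    intro i hi
    rcases Nat.lt_or_ge i p with h | h
    · obtain ⟨g, hg, g1, g2⟩ := S.st.isin i (by omega)
      exact ⟨g, Finset.mem_union_left _ hg, by rw [nc'_le h.le]; exact g1,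
        by rw [nc'_le h]; exact g2⟩
    · by_cases h' : i = p
      · refine ⟨_, Finset.mem_union_right _ (mem_nf.2 ⟨p, le_rfl, hpq, rfl⟩), ?_, ?_⟩
        · rw [h', nc'_le le_rfl]; simp
        · rw [nc'_mid (by omega)]; simp
      · by_cases h'' : i = p + 1
        · refine ⟨_, Finset.mem_union_right _ (mem_nf.2 ⟨q - 1, by omega, by omega, rfl⟩), ?_, ?_⟩
          · rw [nc'_mid h'']; simp
          · rw [nc'_ge (j := q - 1 + 1) (by omega) (by omega)]; simp
        · obtain ⟨g, hg, g1, g2⟩ := S.st.isin (i - (p + 2) + q) (by omega)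
          refine ⟨g, Finset.mem_union_left _ hg, ?_, ?_⟩
          · rw [nc'_ge (j := i - (p + 2) + q) (by omega) (by omega)]; exact g1
          · rw [nc'_ge (j := i - (p + 2) + q + 1) (by omega) (by omega)]; exact g2
  · -- isout
    intro i hi
    rcases Nat.lt_or_ge i p with h | h
    · obtain ⟨g, hg, hgB, g1, g2⟩ := S.st.isout i (by omega)
      refine ⟨g, hg, ?_, by rw [nc'_le h.le]; exact g1, by rw [nc'_le h]; exact g2⟩
      intro hgB'
      rcases Finset.mem_union.1 hgB' with h' | h'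
      · exact hgB h'
      · obtain ⟨k, h1, h2, rfl⟩ := mem_nf.1 h'
        have := S.nfc h1 h2 (j := i) (by omega) g1
        omega
    · by_cases h' : i = p
      · obtain ⟨f, hf, hfB, f1, f2⟩ := hside p p (Or.inl ⟨rfl, rfl⟩)
        refine ⟨f, hf, hfB, ?_, ?_⟩
        · rw [h', nc'_le le_rfl]; exact f2
        · rw [nc'_mid (by omega)]; exact f1
      · by_cases h'' : i = p + 1
        · obtain ⟨f, hf, hfB, f1, f2⟩ := hside q (q - 1) (Or.inr ⟨rfl, by omega⟩)
          refine ⟨f, hf, hfB, ?_, ?_⟩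
          · rw [nc'_mid h'']; exact f1
          · rw [nc'_ge (j := q) (by omega) (by omega)]; exact f2
        · obtain ⟨g, hg, hgB, g1, g2⟩ := S.st.isout (i - (p + 2) + q) (by omega)
          refine ⟨g, hg, ?_, ?_, ?_⟩
          · intro hgB'
            rcases Finset.mem_union.1 hgB' with h1 | h1
            · exact hgB h1
            · obtain ⟨k, h3, h2, rfl⟩ := mem_nf.1 h1
              have := S.nfc h3 h2 (j := i - (p + 2) + q + 1) (by omega) g2
              omega
          · rw [nc'_ge (j := i - (p + 2) + q) (by omega) (by omega)]; exact g1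
          · rw [nc'_ge (j := i - (p + 2) + q + 1) (by omega) (by omega)]; exact g2
  · -- covered vertices
    intro b hb hbc
    have hbv : b ≠ v := by
      have := hbc (p + 1) (by omega)
      rwa [nc'_mid rfl] at this
    have hbK : b ∈ K := by
      rcases Finset.mem_insert.1 hb with h | h
      · exact absurd h hbv
      · exact h
    by_cases hex : ∃ j, j ≤ t ∧ b = c j
    · obtain ⟨j, hj, rfl⟩ := hex
      have h1 : p < j := by
        by_contra h
        have := hbc j (by omega)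
        rw [nc'_le (by omega)] at this
        exact this rfl
      have h2 : j < q := by
        by_contra h
        have := hbc (j - q + (p + 2)) (by omega)
        rw [nc'_ge (j := j) (by omega) (by omega)] at this
        exact this rfl
      have hstar := T.star (c j) (fun f => f ∈ B ∪ nf c p q v) (by
        intro w f hf f' hf' hw f1 f2 f3 f4
        have hadjw : T.A (c j) w := T.face_adj f hf _ f1 _ f2 hw.symm
        by_cases hwK : w ∈ insert v K
        · rcases (hadj _ hb _ hwK hadjw).2 with ⟨i, hi, h3⟩ | h3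
          · exfalso
            rcases h3 with h3 | h3
            · exact hbc i (by omega) h3.1
            · exact hbc (i + 1) (by omega) h3.1
          · exact ⟨fun _ => h3 f' hf' f3 f4, fun _ => h3 f hf f1 f2⟩
        · have hno : ∀ g, g ∈ B ∪ nf c p q v → c j ∈ g → w ∈ g → False := by
            intro g hg g1 g2
            rcases Finset.mem_union.1 hg with h | h
            · have := S.st.eq_out h g2 (fun h => hwK (Finset.mem_insert_of_mem h))
              rw [this, mem_out] at g1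
              rcases g1 with e | e | e
              · have := S.st.inj j 0 (by omega) (by omega) (e.trans S.st.c0.symm)
                omega
              · have := S.st.inj j t (by omega) (by omega) (e.trans S.st.ct.symm)
                omega
              · exact S.st.r3 (e ▸ hbK)
            · exact hwK (S.nfK h g2)
          exact ⟨fun h => (hno f h f1 f2).elim, fun h => (hno f' h f3 f4).elim⟩)
      intro f hf hfb
      exact (hstar _ (S.face j h1.le h2) f hf (by simp) hfb).1
        (Finset.mem_union_right _ (mem_nf.2 ⟨j, h1.le, h2, rfl⟩))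
    · push Not at hex
      intro f hf hfb
      exact Finset.mem_union_left _ (S.st.cov b hbK hex f hf hfb)
  · -- connectivity
    intro s hs f hf
    have hold := S.st.con s (fun f hf f' hf' => hs f (Finset.mem_union_left _ hf) f'
      (Finset.mem_union_left _ hf'))
    rcases Finset.mem_union.1 hf with h | h
    · exact hold f h
    · obtain ⟨i, h1, h2, rfl⟩ := mem_nf.1 h
      obtain ⟨g, hg, g1, g2⟩ := S.st.isin i (by omega)
      have hne : ({c i, c (i + 1), v} : Finset V) ≠ g := fun h => S.nB i h1 h2 (h ▸ hg)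
      rw [hs _ hf g (Finset.mem_union_left _ hg) hne (c i) (c (i + 1)) (S.st.cne (by omega))
        (by simp) (by simp) g1 g2]
      exact hold g hg

/-- the last step -/
theorem Stp.last (S : Stp T A K B c t p q v) (hv : v = T.r3) :
    ∃ A' : V → V → Prop, Canon T.r1 T.r2 A' Finset.univ [T.r1, T.r3, T.r2] ∧
      ∀ a b, T.A a b → A' a b := by
  have hpq := S.pq
  have hqt := S.qt
  subst hv
  have hp : p = 0 := by
    have := (S.nb 0 (Nat.zero_le _) (by
      rw [S.st.c0]
      exact T.face_adj _ T.outer _ (by simp) _ (by simp) T.h13.symm)).1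
    omega
  have hq : q = t := by
    have := (S.nb t le_rfl (by
      rw [S.st.ct]
      exact T.face_adj _ T.outer _ (by simp) _ (by simp) T.h23.symm)).2
    omega
  have hadj := S.nadj
  -- all faces at r3 and a contour vertex are in B'
  have hr3 : ∀ j, j ≤ t → ∀ f ∈ T.Φ, T.r3 ∈ f → c j ∈ f → f ∈ B ∪ nf c p q T.r3 := by
    intro j hj f hf f1 f2
    by_cases h1 : j = 0
    · have hne : out T ≠ {c 0, c (0 + 1), T.r3} := fun h =>
        S.nB 0 (by omega) (by omega) (h ▸ S.st.outB)
      rw [h1] at f2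
      rcases two' (S.vadj (j := 0) (by omega) (by omega)) (S.st.BΦ S.st.outB)
        (S.face 0 (by omega) (by omega)) hne (by simp [out])
        (by rw [S.st.c0]; simp [out]) (by simp) (by simp) hf f1 f2 with e | e
      · exact Finset.mem_union_left _ (e ▸ S.st.outB)
      · exact Finset.mem_union_right _ (mem_nf.2 ⟨0, by omega, by omega, e⟩)
    · by_cases h2 : j = t
      · have hne : out T ≠ {c (t - 1), c (t - 1 + 1), T.r3} := fun h =>
          S.nB (t - 1) (by omega) (by omega) (h ▸ S.st.outB)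
        have ht : t - 1 + 1 = t := by omega
        rw [h2] at f2
        rcases two' (S.vadj (j := t) (by omega) (by omega)) (S.st.BΦ S.st.outB)
          (S.face (t - 1) (by omega) (by omega)) hne (by simp [out])
          (by rw [S.st.ct]; simp [out]) (by simp) (by rw [ht]; simp) hf f1 f2 with e | e
        · exact Finset.mem_union_left _ (e ▸ S.st.outB)
        · exact Finset.mem_union_right _ (mem_nf.2 ⟨t - 1, by omega, by omega, e⟩)
      · exact S.L2 (j := j) (by omega) (by omega) hf f1 f2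
  -- edges inside K'
  have hin : ∀ a ∈ insert T.r3 K, ∀ b ∈ insert T.r3 K, T.A a b → ∀ f ∈ T.Φ, a ∈ f → b ∈ f →
      f ∈ B ∪ nf c p q T.r3 := by
    intro a ha b hb hab f hf f1 f2
    rcases Finset.mem_insert.1 ha with rfl | haK
    · rcases Finset.mem_insert.1 hb with rfl | hbK
      · exact absurd hab (T.irrefl _)
      · obtain ⟨j, _, h2, rfl⟩ := S.L3 hbK hab
        exact hr3 j (by omega) f hf f1 f2
    · rcases Finset.mem_insert.1 hb with rfl | hbK
      · obtain ⟨j, _, h2, rfl⟩ := S.L3 haK (T.symm _ _ hab)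
        exact hr3 j (by omega) f hf f2 f1
      · rcases (S.st.adj a haK b hbK hab).2 with ⟨i, hi, h3⟩ | h3
        · rcases h3 with ⟨rfl, rfl⟩ | ⟨rfl, rfl⟩
          · exact S.L1 (by omega) (by omega) hf f1 f2
          · exact S.L1 (by omega) (by omega) hf f2 f1
        · exact Finset.mem_union_left _ (h3 f hf f1 f2)
  have hsub : ∀ f ∈ B ∪ nf c p q T.r3, f ⊆ insert T.r3 K := by
    intro f hf
    rcases Finset.mem_union.1 hf with h | h
    · by_cases ho : f = out T
      · rw [ho]
        intro x hx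
        rcases mem_out.1 hx with rfl | rfl | rfl
        · exact Finset.mem_insert_of_mem S.st.r1K
        · exact Finset.mem_insert_of_mem S.st.r2K
        · exact Finset.mem_insert_self _ _
      · exact (S.st.sub f h ho).trans (Finset.subset_insert _ _)
    · exact S.nfK h
  have hstar : ∀ a ∈ insert T.r3 K, ∀ g ∈ B ∪ nf c p q T.r3, a ∈ g → ∀ f ∈ T.Φ, a ∈ f →
      f ∈ B ∪ nf c p q T.r3 := by
    intro a ha g hg hag f hf haf
    refine (T.star a (fun f => f ∈ B ∪ nf c p q T.r3) ?_ g (S.nfΦ hg) f hf hag haf).1 hg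
    intro w f hf f' hf' hw f1 f2 f3 f4
    have hadjw : T.A a w := T.face_adj f hf _ f1 _ f2 hw.symm
    by_cases hwK : w ∈ insert T.r3 K
    · exact ⟨fun _ => hin a ha w hwK hadjw f' hf' f3 f4, fun _ => hin a ha w hwK hadjw f hf f1 f2⟩
    · exact ⟨fun h => absurd (hsub f h f2) hwK, fun h => absurd (hsub f' h f4) hwK⟩
  have huniv : insert T.r3 K = Finset.univ := by
    apply T.conn _ ⟨_, Finset.mem_insert_self _ _⟩
    intro a ha b hab
    obtain ⟨f, hf, f1, f2⟩ := exists_face hab
    -- some face at a in B'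
    have hall : f ∈ B ∪ nf c p q T.r3 := by
      rcases Finset.mem_insert.1 ha with rfl | haK
      · exact hstar _ ha (out T) (Finset.mem_union_left _ S.st.outB) (by simp [out]) f hf f1
      · by_cases hex : ∃ j, j ≤ t ∧ a = c j
        · obtain ⟨j, hj, rfl⟩ := hex
          rcases Nat.lt_or_ge j t with h | h
          · obtain ⟨g, hg, g1, _⟩ := S.st.isin j h
            exact hstar _ ha g (Finset.mem_union_left _ hg) g1 f hf f1
          · obtain ⟨g, hg, _, g1⟩ := S.st.isin (t - 1) (by omega)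
            rw [show t - 1 + 1 = j by omega] at g1
            exact hstar _ ha g (Finset.mem_union_left _ hg) g1 f hf f1
        · push Not at hex
          exact Finset.mem_union_left _ (S.st.cov a haK hex f hf f1)
    exact hsub f hall f2
  have hcan := S.canon
  rw [list_new c _ S.qt, huniv, hp, hq] at hcan
  rw [S.st.c0, S.st.ct] at hcan
  refine ⟨nA A c 0 t T.r3, by simpa using hcan, ?_⟩
  intro a b hab
  have := (hadj a (huniv ▸ Finset.mem_univ _) b (huniv ▸ Finset.mem_univ _) hab).1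
  rw [hp, hq] at this
  exact this

/-! ### the start -/

theorem start (T : Tri V) : St T (edgeRel T.r1 T.r2) {T.r1, T.r2} {out T}
    (fun i => if i = 0 then T.r1 else T.r2) 1 := by
  have hadj : T.A T.r1 T.r2 := T.face_adj _ T.outer _ (by simp) _ (by simp) T.h12
  refine ⟨Canon.base T.h12, le_rfl, rfl, rfl, ?_, ?_, ?_, ?_, Finset.mem_singleton_self _, ?_, ?_,
    ?_, ?_, ?_, ?_⟩
  · intro i j hi hj hij
    have h1 : i = 0 ∨ i = 1 := by omega
    have h2 : j = 0 ∨ j = 1 := by omega
    rcases h1 with rfl | rfl <;> rcases h2 with rfl | rfl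
    · rfl
    · exact absurd hij T.h12
    · exact absurd hij.symm T.h12
    · rfl
  · intro i _
    by_cases h : i = 0
    · simp [h]
    · simp [h]
  · rw [Finset.mem_insert, Finset.mem_singleton]
    rintro (h | h)
    · exact T.h13 h.symm
    · exact T.h23 h.symm
  · intro f hf
    rw [Finset.mem_singleton.1 hf]
    exact T.outer
  · intro f hf hne
    exact absurd (Finset.mem_singleton.1 hf) hne
  · intro i hi
    have : i = 0 := by omega
    subst this
    exact ⟨out T, Finset.mem_singleton_self _, by simp [out], by simp [out]⟩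
  · intro i hi
    have : i = 0 := by omega
    subst this
    obtain ⟨f, hf, f', hf', hne, f1, f2, f3, f4, _⟩ := T.two _ _ hadj
    by_cases h : f = out T
    · exact ⟨f', hf', fun h' => hne (h.trans (Finset.mem_singleton.1 h').symm), f3, f4⟩
    · exact ⟨f, hf, fun h' => h (Finset.mem_singleton.1 h'), f1, f2⟩
  · intro a ha b hb hab
    rw [Finset.mem_insert, Finset.mem_singleton] at ha hb
    rcases ha with rfl | rfl <;> rcases hb with rfl | rfl
    · exact absurd hab (T.irrefl _)
    · exact ⟨Or.inl ⟨rfl, rfl⟩, Or.inl ⟨0, by omega, Or.inl ⟨rfl, rfl⟩⟩⟩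
    · exact ⟨Or.inr ⟨rfl, rfl⟩, Or.inl ⟨0, by omega, Or.inr ⟨rfl, rfl⟩⟩⟩
    · exact absurd hab (T.irrefl _)
  · intro b hb hbc
    exfalso
    rw [Finset.mem_insert, Finset.mem_singleton] at hb
    rcases hb with rfl | rfl
    · exact hbc 0 (Nat.zero_le _) rfl
    · exact hbc 1 le_rfl rfl
  · intro s _ f hf
    rw [Finset.mem_singleton.1 hf]

/-! ### the choice of the next vertex -/

theorem St.exists_range (S : St T A K B c t) {i : ℕ} (hi : i < t) :
    ∃ z p q, z ∉ K ∧ ({c i, c (i + 1), z} : Finset V) ∈ T.Φ ∧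
      ({c i, c (i + 1), z} : Finset V) ∉ B ∧ p ≤ i ∧ i < q ∧ q ≤ t ∧ T.A z (c p) ∧ T.A z (c q) ∧
      ∀ j, j ≤ t → T.A z (c j) → p ≤ j ∧ j ≤ q := by
  classical
  obtain ⟨z, hz, hF, hFB⟩ := S.apex hi
  have z1 : T.A z (c i) := T.face_adj _ hF _ (by simp) _ (by simp) (by
    rintro rfl
    exact hz (S.memK i hi.le))
  have z2 : T.A z (c (i + 1)) := T.face_adj _ hF _ (by simp) _ (by simp) (by
    rintro rfl
    exact hz (S.memK _ hi))
  let N : Finset ℕ := (Finset.range (t + 1)).filter (fun j => T.A z (c j))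
  have hN : ∀ j, j ∈ N ↔ j ≤ t ∧ T.A z (c j) := by
    intro j
    simp only [N, Finset.mem_filter, Finset.mem_range, Nat.lt_succ_iff]
  have h1 : i ∈ N := (hN i).2 ⟨hi.le, z1⟩
  have h2 : i + 1 ∈ N := (hN _).2 ⟨hi, z2⟩
  obtain ⟨p, hp, hp'⟩ := Finset.exists_min_image N id ⟨i, h1⟩
  obtain ⟨q, hq, hq'⟩ := Finset.exists_max_image N id ⟨i, h1⟩
  simp only [id] at hp' hq'
  exact ⟨z, p, q, hz, hF, hFB, hp' i h1, hq' _ h2, ((hN q).1 hq).1, ((hN p).1 hp).2,
    ((hN q).1 hq).2, fun j hj hzj => ⟨hp' j ((hN j).2 ⟨hj, hzj⟩), hq' j ((hN j).2 ⟨hj, hzj⟩)⟩⟩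

theorem St.exists_step (S : St T A K B c t) : ∃ p q v, Stp T A K B c t p q v := by
  classical
  have hex : ∀ i, ∃ z p q, i < t → (z ∉ K ∧ ({c i, c (i + 1), z} : Finset V) ∈ T.Φ ∧
      ({c i, c (i + 1), z} : Finset V) ∉ B ∧ p ≤ i ∧ i < q ∧ q ≤ t ∧ T.A z (c p) ∧ T.A z (c q) ∧
      ∀ j, j ≤ t → T.A z (c j) → p ≤ j ∧ j ≤ q) := by
    intro i
    by_cases hi : i < t
    · obtain ⟨z, p, q, h⟩ := S.exists_range hi
      exact ⟨z, p, q, fun _ => h⟩
    · exact ⟨T.r1, 0, 0, fun h => absurd h hi⟩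
  choose z P Q hz using hex
  obtain ⟨i0, hi0, hmin⟩ := Finset.exists_min_image (Finset.range t) (fun i => Q i - P i)
    ⟨0, Finset.mem_range.2 S.tpos⟩
  rw [Finset.mem_range] at hi0
  obtain ⟨v1, v2, v3, v4, v5, v6, v7, v8, v9⟩ := hz i0 hi0
  have hall : ∀ i, P i0 ≤ i → i < Q i0 → z i = z i0 := by
    intro i hi1 hi2
    by_contra hne
    have hit : i < t := by omega
    obtain ⟨w1, w2, w3, w4, w5, w6, w7, w8, w9⟩ := hz i hit
    -- the last neighbour of v at or before i
    obtain ⟨a, ha, ha'⟩ := Finset.exists_max_image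
      ((Finset.range (i + 1)).filter (fun j => T.A (z i0) (c j))) id
      ⟨P i0, Finset.mem_filter.2 ⟨Finset.mem_range.2 (by omega), v7⟩⟩
    rw [Finset.mem_filter, Finset.mem_range] at ha
    simp only [id, Finset.mem_filter, Finset.mem_range] at ha'
    obtain ⟨b, hb, hb'⟩ := Finset.exists_min_image
      ((Finset.Ico (i + 1) (Q i0 + 1)).filter (fun j => T.A (z i0) (c j))) id
      ⟨Q i0, Finset.mem_filter.2 ⟨Finset.mem_Ico.2 ⟨by omega, by omega⟩, v8⟩⟩
    rw [Finset.mem_filter, Finset.mem_Ico] at hb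
    simp only [id, Finset.mem_filter, Finset.mem_Ico] at hb'
    have hnc : ∀ d, d ≤ t → T.A (z i) (c d) → a ≤ d ∧ d ≤ b := by
      intro d hd hzd
      by_contra hcon
      exact S.nc v1 (a := a) (b := b) (i := i) (d := d) (by omega) ha.2 hb.2 (by omega) (by omega)
        w1 hne w2 w3 hd hzd (by omega)
    have n1 := hnc (P i) (by omega) w7
    have n2 := hnc (Q i) (by omega) w8
    have n3 := hmin i (Finset.mem_range.2 hit)
    have n4 := v9 a (by omega) ha.2
    have n5 := v9 b (by omega) hb.2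
    have ea : a = P i0 := by omega
    have eb : b = Q i0 := by omega
    -- z i0 is adjacent to c i0 and c (i0 + 1)
    have c1 : T.A (z i0) (c i0) := T.face_adj _ v2 _ (by simp) _ (by simp) (by
      intro h
      exact v1 (h ▸ S.memK i0 hi0.le))
    have c2 : T.A (z i0) (c (i0 + 1)) := T.face_adj _ v2 _ (by simp) _ (by simp) (by
      intro h
      exact v1 (h ▸ S.memK _ hi0))
    rcases Nat.lt_or_ge i i0 with h | h
    · have := hb' i0 ⟨⟨by omega, by omega⟩, c1⟩
      omega
    · have m1 := ha' i0 ⟨by omega, c1⟩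
      rcases Nat.lt_or_ge i (i0 + 1) with h' | h'
      · exact hne (by rw [show i = i0 by omega])
      · have := ha' (i0 + 1) ⟨by omega, c2⟩
        omega
  refine ⟨P i0, Q i0, z i0, S, by omega, v6, v1, ?_, ?_, v9⟩
  · intro i h1 h2
    rw [← hall i h1 h2]
    exact (hz i (by omega)).2.1
  · intro i h1 h2
    rw [← hall i h1 h2]
    exact (hz i (by omega)).2.2.1

theorem run : ∀ (n : ℕ) (A : V → V → Prop) (K : Finset V) (B : Finset (Finset V)) (c : ℕ → V)
    (t : ℕ), St T A K B c t → Fintype.card V ≤ K.card + n →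
    ∃ A' : V → V → Prop, Canon T.r1 T.r2 A' Finset.univ [T.r1, T.r3, T.r2] ∧
      ∀ a b, T.A a b → A' a b := by
  intro n
  induction n with
  | zero =>
    intro A K B c t S hK
    exact absurd (Finset.eq_univ_of_card K (le_antisymm (Finset.card_le_univ K) hK) ▸
      Finset.mem_univ T.r3) S.r3
  | succ n ih =>
    intro A K B c t S hK
    obtain ⟨p, q, v, hS⟩ := S.exists_step
    by_cases hv : v = T.r3
    · exact hS.last hv
    · refine ih _ _ _ _ _ (hS.next hv) ?_
      rw [Finset.card_insert_of_notMem hS.vK]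
      omega

end Greedy

theorem canon_of_tri {V : Type*} [Fintype V] [DecidableEq V] (T : Tri V) :
    ∃ A : V → V → Prop, Canon T.r1 T.r2 A Finset.univ [T.r1, T.r3, T.r2] ∧
      ∀ a b, T.A a b → A a b :=
  Greedy.run (Fintype.card V) _ _ _ _ _ (Greedy.start T) (by omega)

end Pool.Agent.Univ
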