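import Pool.Agent.Univ.Defs

/-!
# UG-6: a shelling sequence gives an abstract triangulation
-/

namespace Pool.Agent.Univ.UG6
open Pool.Agent.Univ

variable {V : Type*}

/-- consecutive elements of a list, unordered -/
def Cn : List V → V → V → Prop
  | a :: b :: l, s, t => edgeRel a b s t ∨ Cn (b :: l) s t
  | [], _, _ => False
  | [_], _, _ => False

theorem edgeRel_symm {a b s t : V} (h : edgeRel a b s t) : edgeRel a b t s := by
  rcases h with ⟨h1, h2⟩ | ⟨h1, h2⟩
  · exact Or.inr ⟨h2, h1⟩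
  · exact Or.inl ⟨h2, h1⟩

theorem cn_symm : ∀ (l : List V) (s t : V), Cn l s t → Cn l t s
  | a :: b :: l, s, t, h => by
    rcases h with h | h
    · exact Or.inl (edgeRel_symm h)
    · exact Or.inr (cn_symm (b :: l) s t h)
  | [], _, _, h => h
  | [_], _, _, h => h

theorem cn_mem : ∀ (l : List V) (s t : V), Cn l s t → s ∈ l ∧ t ∈ l
  | a :: b :: l, s, t, h => by
    rcases h with (⟨h1, h2⟩ | ⟨h1, h2⟩) | h
    · subst h1; subst h2; simp
    · subst h1; subst h2; simp
    · have := cn_mem (b :: l) s t h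
      exact ⟨List.mem_cons_of_mem a this.1, List.mem_cons_of_mem a this.2⟩
  | [], _, _, h => h.elim
  | [_], _, _, h => h.elim

theorem cn_append (a : V) (r : List V) (s t : V) : ∀ l : List V,
    Cn (l ++ a :: r) s t ↔ Cn (l ++ [a]) s t ∨ Cn (a :: r) s t
  | [] => by simp [Cn]
  | [x] => by
    cases r <;> simp [Cn]
  | x :: y :: l => by
    have := cn_append a r s t (y :: l)
    simp only [List.cons_append] at this
    simp only [List.cons_append, Cn]
    rw [this]
    tauto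

theorem cn_op1 {l r : List V} {a b z s t : V} (hnd : (l ++ a :: b :: r).Nodup) :
    Cn (l ++ a :: z :: b :: r) s t ↔
      (Cn (l ++ a :: b :: r) s t ∧ ¬ edgeRel a b s t) ∨ edgeRel a z s t ∨ edgeRel z b s t := by
  rw [cn_append a (z :: b :: r), cn_append a (b :: r)]
  simp only [Cn]
  have h1 : b ∉ l ++ [a] := by
    intro h
    rw [show l ++ a :: b :: r = (l ++ [a]) ++ b :: r by simp] at hnd
    exact (List.nodup_append.1 hnd).2.2 b h b (by simp) rfl
  have h2 : a ∉ b :: r := by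
    have := (List.nodup_append.1 hnd).2.1
    exact (List.nodup_cons.1 this).1
  have h3 : Cn (l ++ [a]) s t → ¬ edgeRel a b s t := by
    rintro h (⟨rfl, rfl⟩ | ⟨rfl, rfl⟩)
    · exact h1 (cn_mem _ _ _ h).2
    · exact h1 (cn_mem _ _ _ h).1
  have h4 : Cn (b :: r) s t → ¬ edgeRel a b s t := by
    rintro h (⟨rfl, rfl⟩ | ⟨rfl, rfl⟩)
    · exact h2 (cn_mem _ _ _ h).1
    · exact h2 (cn_mem _ _ _ h).2
  tauto

theorem cn_op2 {l r : List V} {a b c s t : V} (hnd : (l ++ a :: b :: c :: r).Nodup) :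
    Cn (l ++ a :: c :: r) s t ↔
      (Cn (l ++ a :: b :: c :: r) s t ∧ ¬ edgeRel a b s t ∧ ¬ edgeRel b c s t) ∨
        edgeRel a c s t := by
  rw [cn_append a (c :: r), cn_append a (b :: c :: r)]
  simp only [Cn]
  have h1 : b ∉ l ++ [a] := by
    intro h
    rw [show l ++ a :: b :: c :: r = (l ++ [a]) ++ b :: c :: r by simp] at hnd
    exact (List.nodup_append.1 hnd).2.2 b h b (by simp) rfl
  have h2 : b ∉ c :: r := by
    have := (List.nodup_append.1 hnd).2.1
    exact (List.nodup_cons.1 (List.nodup_cons.1 this).2).1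
  have h3 : Cn (l ++ [a]) s t → ¬ edgeRel a b s t ∧ ¬ edgeRel b c s t := by
    intro h
    have := cn_mem _ _ _ h
    refine ⟨?_, ?_⟩
    · rintro (⟨rfl, rfl⟩ | ⟨rfl, rfl⟩)
      · exact h1 this.2
      · exact h1 this.1
    · rintro (⟨rfl, rfl⟩ | ⟨rfl, rfl⟩)
      · exact h1 this.1
      · exact h1 this.2
  have h4 : Cn (c :: r) s t → ¬ edgeRel a b s t ∧ ¬ edgeRel b c s t := by
    intro h
    have := cn_mem _ _ _ h
    refine ⟨?_, ?_⟩
    · rintro (⟨rfl, rfl⟩ | ⟨rfl, rfl⟩)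
      · exact h2 this.2
      · exact h2 this.1
    · rintro (⟨rfl, rfl⟩ | ⟨rfl, rfl⟩)
      · exact h2 this.1
      · exact h2 this.2
  tauto

set_option linter.unusedSectionVars false
set_option linter.unreachableTactic false
set_option linter.unusedTactic false
variable [DecidableEq V]

/-- star connectivity -/
def Star (Φ : Finset (Finset V)) : Prop := ∀ (u : V) (P : Finset V → Prop),
    (∀ w, ∀ f ∈ Φ, ∀ f' ∈ Φ, w ≠ u → u ∈ f → w ∈ f → u ∈ f' → w ∈ f' → (P f ↔ P f')) →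
    ∀ f ∈ Φ, ∀ f' ∈ Φ, u ∈ f → u ∈ f' → (P f ↔ P f')

theorem star_insert {Φ : Finset (Finset V)} (h : Star Φ) (f0 : Finset V)
    (h0 : ∀ u ∈ f0, (∃ f ∈ Φ, u ∈ f) → ∃ w ∈ f0, w ≠ u ∧ ∃ g ∈ Φ, u ∈ g ∧ w ∈ g) :
    Star (insert f0 Φ) := by
  intro u P hP
  have h1 := h u P (fun w f hf f' hf' => hP w f (Finset.mem_insert_of_mem hf) f'
    (Finset.mem_insert_of_mem hf'))
  have key : ∀ f ∈ Φ, u ∈ f → u ∈ f0 → (P f ↔ P f0) := by
    intro f hf hu hu0
    obtain ⟨w, hw, hwu, g, hg, hug, hwg⟩ := h0 u hu0 ⟨f, hf, hu⟩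
    rw [h1 f hf g hg hu hug]
    exact hP w g (Finset.mem_insert_of_mem hg) f0 (Finset.mem_insert_self _ _) hwu hug hwg hu0 hw
  intro f hf f' hf' hu hu'
  rcases Finset.mem_insert.1 hf with e | e
  · rcases Finset.mem_insert.1 hf' with e' | e'
    · rw [e, e']
    · rw [e] at hu ⊢
      exact (key f' e' hu' hu).symm
  · rcases Finset.mem_insert.1 hf' with e' | e'
    · rw [e'] at hu' ⊢
      exact key f e hu hu'
    · exact h1 f e f' e' hu hu'

/-- cycles are boundaries -/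
def Jord [Fintype V] (A : V → V → Prop) (Φ : Finset (Finset V)) : Prop :=
  ∀ c : V → V → ZMod 2, (∀ a b, c a b = c b a) → (∀ a b, c a b ≠ 0 → A a b) →
    (∀ a, ∑ b, c a b = 0) →
    ∃ σ : Finset V → ZMod 2, ∀ a b, a ≠ b → ∑ f ∈ Φ with (a ∈ f ∧ b ∈ f), σ f = c a b

theorem two_eq (e : ZMod 2) : e + e = 0 := by
  revert e; decide

theorem jord_insert [Fintype V] {A A' : V → V → Prop} {Φ : Finset (Finset V)} (h : Jord A Φ)
    (f0 : Finset V) (h0 : f0 ∉ Φ) (h3 : f0.card = 3) (hirr : ∀ a, ¬ A' a a)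
    (hf0 : ∀ a ∈ f0, ∀ b ∈ f0, a ≠ b → A' a b)
    (he : ∀ c : V → V → ZMod 2, (∀ a b, c a b = c b a) → (∀ a b, c a b ≠ 0 → A' a b) →
      (∀ a, ∑ b, c a b = 0) → ∃ e : ZMod 2, ∀ a b, A' a b → ¬ A a b →
        a ∈ f0 ∧ b ∈ f0 ∧ c a b = e) : Jord A' (insert f0 Φ) := by
  intro c hs hA hr
  obtain ⟨e, he⟩ := he c hs hA hr
  have g1 : ∀ a b, (c a b + if a ∈ f0 ∧ b ∈ f0 ∧ a ≠ b then e else 0) =
      c b a + if b ∈ f0 ∧ a ∈ f0 ∧ b ≠ a then e else 0 := by
    intro a b
    have h7 : (a ∈ f0 ∧ b ∈ f0 ∧ a ≠ b) ↔ (b ∈ f0 ∧ a ∈ f0 ∧ b ≠ a) := by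
      constructor
      · rintro ⟨p, q, r⟩; exact ⟨q, p, r.symm⟩
      · rintro ⟨p, q, r⟩; exact ⟨q, p, r.symm⟩
    rw [hs a b]
    by_cases h8 : a ∈ f0 ∧ b ∈ f0 ∧ a ≠ b
    · rw [if_pos h8, if_pos (h7.1 h8)]
    · rw [if_neg h8, if_neg (fun h9 => h8 (h7.2 h9))]
  have g2 : ∀ a b, (c a b + if a ∈ f0 ∧ b ∈ f0 ∧ a ≠ b then e else 0) ≠ 0 → A a b := by
    intro a b hc
    by_contra hnA
    by_cases hA' : A' a b
    · obtain ⟨p, q, r⟩ := he a b hA' hnA
      apply hc
      have hne : a ≠ b := by rintro rfl; exact hirr a hA'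
      rw [if_pos ⟨p, q, hne⟩, r, two_eq]
    · have h1 : c a b = 0 := by
        by_contra hh
        exact hA' (hA a b hh)
      apply hc
      rw [h1, if_neg, add_zero]
      rintro ⟨p, q, r⟩
      exact hA' (hf0 a p b q r)
  have g3 : ∀ a, ∑ b, (c a b + if a ∈ f0 ∧ b ∈ f0 ∧ a ≠ b then e else 0) = 0 := by
    intro a
    rw [Finset.sum_add_distrib, hr a, zero_add]
    by_cases ha : a ∈ f0
    · have : ∑ b, (if a ∈ f0 ∧ b ∈ f0 ∧ a ≠ b then e else 0) = ∑ b ∈ f0.erase a, e := by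
        rw [← Finset.sum_filter]
        refine Finset.sum_congr ?_ (fun _ _ => rfl)
        ext b
        simp only [Finset.mem_filter, Finset.mem_univ, true_and, Finset.mem_erase]
        constructor
        · rintro ⟨p, q, r⟩; exact ⟨r.symm, q⟩
        · rintro ⟨p, q⟩; exact ⟨ha, q, Ne.symm p⟩
      rw [this, Finset.sum_const, Finset.card_erase_of_mem ha, h3]
      show (2 : ℕ) • e = 0
      rw [two_nsmul, two_eq]
    · refine Finset.sum_eq_zero (fun b _ => ?_)
      rw [if_neg (fun hh => ha hh.1)]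
  obtain ⟨σ, hσ⟩ := h (fun a b => c a b + if a ∈ f0 ∧ b ∈ f0 ∧ a ≠ b then e else 0) g1 g2 g3
  refine ⟨Function.update σ f0 e, ?_⟩
  intro a b hab
  have h1 : ∑ f ∈ Φ with (a ∈ f ∧ b ∈ f), Function.update σ f0 e f =
      ∑ f ∈ Φ with (a ∈ f ∧ b ∈ f), σ f := by
    refine Finset.sum_congr rfl (fun f hf => ?_)
    rw [Function.update_of_ne]
    rintro rfl
    exact h0 (Finset.mem_filter.1 hf).1
  rw [Finset.filter_insert]
  split_ifs with h2
  · rw [Finset.sum_insert (fun hh => h0 (Finset.mem_filter.1 hh).1), h1, hσ a b hab,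
      Function.update_self, if_pos ⟨h2.1, h2.2, hab⟩]
    rw [add_comm (c a b), ← add_assoc, two_eq, zero_add]
  · rw [h1, hσ a b hab, if_neg (fun hh => h2 ⟨hh.1, hh.2.1⟩), add_zero]

open Classical in
/-- the invariants -/
structure SInv [Fintype V] (r1 r2 : V) (A : V → V → Prop) (Φ : Finset (Finset V)) (U : Finset V)
    (C : V → V → Prop) : Prop where
  symm : ∀ a b, A a b → A b a
  irr : ∀ a, ¬ A a a
  AU : ∀ a b, A a b → a ∈ U ∧ b ∈ U
  base : A r1 r2
  CA : ∀ a b, C a b → A a b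
  fc : ∀ f ∈ Φ, f.card = 3
  fa : ∀ f ∈ Φ, ∀ a ∈ f, ∀ b ∈ f, a ≠ b → A a b
  fU : ∀ f ∈ Φ, f ⊆ U
  cnt : ∀ a b, A a b → (Φ.filter (fun f => a ∈ f ∧ b ∈ f)).card + (if C a b then 1 else 0) +
    (if edgeRel r1 r2 a b then 1 else 0) = 2
  cb : C r1 r2 → Φ = ∅ ∧ ∀ s t, C s t → edgeRel r1 r2 s t
  star : Star Φ
  jord : Jord A Φ
  conn : ∀ X : Finset V, (∃ x ∈ X, x ∈ U) → (∀ a ∈ X, ∀ b, A a b → b ∈ X) → U ⊆ X

theorem card_insert_filter (Φ : Finset (Finset V)) (f0 : Finset V) (h0 : f0 ∉ Φ) (a b : V) :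
    ((insert f0 Φ).filter (fun f => a ∈ f ∧ b ∈ f)).card =
      (Φ.filter (fun f => a ∈ f ∧ b ∈ f)).card + (if a ∈ f0 ∧ b ∈ f0 then 1 else 0) := by
  rw [Finset.filter_insert]
  split_ifs with h
  · rw [Finset.card_insert_of_notMem (fun hh => h0 (Finset.mem_filter.1 hh).1)]
  · simp

theorem mem_tri {a b z s t : V} (hst : s ≠ t) :
    (s ∈ ({a, b, z} : Finset V) ∧ t ∈ ({a, b, z} : Finset V)) ↔
      (edgeRel a b s t ∨ edgeRel a z s t ∨ edgeRel z b s t) := by
  simp only [Finset.mem_insert, Finset.mem_singleton, edgeRel]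
  constructor
  · rintro ⟨rfl | rfl | rfl, rfl | rfl | rfl⟩ <;> first | exact absurd rfl hst | tauto
  · rintro ((⟨rfl, rfl⟩ | ⟨rfl, rfl⟩) | (⟨rfl, rfl⟩ | ⟨rfl, rfl⟩) | (⟨rfl, rfl⟩ | ⟨rfl, rfl⟩)) <;>
      tauto

/-- the face below a chain edge -/
theorem face_below [Fintype V] {r1 r2 : V} {A : V → V → Prop} {Φ : Finset (Finset V)} {U : Finset V}
    {C : V → V → Prop} (hI : SInv r1 r2 A Φ U C) {a b : V} (hC : C a b) (hΦ : Φ.Nonempty)
    (hCs : ∀ s t, C s t → C t s) :
    ∃ g ∈ Φ, a ∈ g ∧ b ∈ g := by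
  have hne : ¬ edgeRel r1 r2 a b := by
    intro h
    have : C r1 r2 := by
      rcases h with ⟨rfl, rfl⟩ | ⟨rfl, rfl⟩
      · exact hC
      · exact hCs _ _ hC
    exact hΦ.ne_empty (hI.cb this).1
  have h := hI.cnt a b (hI.CA a b hC)
  rw [if_pos hC, if_neg hne] at h
  have h1 : 0 < (Φ.filter (fun f => a ∈ f ∧ b ∈ f)).card := by omega
  obtain ⟨g, hg⟩ := Finset.card_pos.1 h1
  rw [Finset.mem_filter] at hg
  exact ⟨g, hg.1, hg.2.1, hg.2.2⟩

theorem sinv_base [Fintype V] (r1 r2 : V) (h : r1 ≠ r2) :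
    SInv r1 r2 (edgeRel r1 r2) ∅ {r1, r2} (Cn [r1, r2]) := by
  constructor
  · exact fun a b => edgeRel_symm
  · rintro a (⟨rfl, h'⟩ | ⟨rfl, h'⟩)
    · exact h h'
    · exact h h'.symm
  · rintro a b (⟨rfl, rfl⟩ | ⟨rfl, rfl⟩) <;> simp
  · exact Or.inl ⟨rfl, rfl⟩
  · intro a b hh
    simpa [Cn] using hh
  · simp
  · simp
  · simp
  · intro a b hh
    have : Cn [r1, r2] a b := by simpa [Cn] using hh
    rw [if_pos hh, if_pos this]
    simp
  · intro _
    refine ⟨rfl, fun s t hh => ?_⟩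
    simpa [Cn] using hh
  · intro u P _ f hf
    simp at hf
  · intro c hs hA hr
    refine ⟨fun _ => 0, ?_⟩
    have h1 : c r1 r2 = 0 := by
      rw [← hr r1]
      symm
      apply Finset.sum_eq_single
      · intro b _ hb
        by_contra hc
        rcases hA r1 b hc with ⟨_, h'⟩ | ⟨h', _⟩
        · exact hb h'
        · exact h h'
      · simp
    intro a b _
    simp only [Finset.sum_const_zero]
    by_contra hc
    have hc' : c a b ≠ 0 := fun h' => hc h'.symm
    rcases hA a b hc' with ⟨rfl, rfl⟩ | ⟨rfl, rfl⟩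
    · exact hc' h1
    · exact hc' ((hs _ _).trans h1)
  · intro X hx hX
    have h1 : r1 ∈ X → r2 ∈ X := fun h' => hX r1 h' r2 (Or.inl ⟨rfl, rfl⟩)
    have h2 : r2 ∈ X → r1 ∈ X := fun h' => hX r2 h' r1 (Or.inr ⟨rfl, rfl⟩)
    obtain ⟨x, hx, hx'⟩ := hx
    intro w hw
    simp only [Finset.mem_insert, Finset.mem_singleton] at hx' hw
    rcases hx' with rfl | rfl <;> rcases hw with rfl | rfl
    · exact hx
    · exact h1 hx
    · exact h2 hx
    · exact hx

theorem edgeRel_comm {a b s t : V} (h : edgeRel a b s t) : edgeRel s t a b := by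
  rcases h with ⟨rfl, rfl⟩ | ⟨rfl, rfl⟩
  · exact Or.inl ⟨rfl, rfl⟩
  · exact Or.inr ⟨rfl, rfl⟩

theorem sinv_op1 [Fintype V] {r1 r2 : V} {A : V → V → Prop} {Φ : Finset (Finset V)} {U : Finset V}
    {C C' : V → V → Prop} (hI : SInv r1 r2 A Φ U C) (hCs : ∀ s t, C s t → C t s) {a b z : V}
    (hab : C a b) (hz : z ∉ U)
    (hC' : ∀ s t, C' s t ↔ (C s t ∧ ¬ edgeRel a b s t) ∨ edgeRel a z s t ∨ edgeRel z b s t) :
    SInv r1 r2 (fun s t => A s t ∨ edgeRel a z s t ∨ edgeRel z b s t)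
      (insert {a, b, z} Φ) (insert z U) C' := by
  have hA := hI.CA a b hab
  obtain ⟨haU, hbU⟩ := hI.AU a b hA
  obtain ⟨hr1, hr2⟩ := hI.AU r1 r2 hI.base
  have hne : a ≠ b := by rintro rfl; exact hI.irr _ hA
  have haz : a ≠ z := by rintro rfl; exact hz haU
  have hbz : b ≠ z := by rintro rfl; exact hz hbU
  have h0 : ({a, b, z} : Finset V) ∉ Φ := fun h => hz (hI.fU _ h (by simp))
  have h3 : ({a, b, z} : Finset V).card = 3 := Finset.card_eq_three.2 ⟨a, b, z, hne, haz, hbz, rfl⟩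
  have hirr : ∀ s, ¬ (A s s ∨ edgeRel a z s s ∨ edgeRel z b s s) := by
    rintro s (h | (⟨h, h'⟩ | ⟨h, h'⟩) | (⟨h, h'⟩ | ⟨h, h'⟩))
    · exact hI.irr s h
    · exact haz (h.symm.trans h')
    · exact haz (h'.symm.trans h)
    · exact hbz (h'.symm.trans h)
    · exact hbz (h.symm.trans h')
  have hedge : ∀ s t, edgeRel a b s t → C s t := by
    rintro s t (⟨rfl, rfl⟩ | ⟨rfl, rfl⟩)
    · exact hab
    · exact hCs _ _ hab
  have hnew : ∀ s t, edgeRel a z s t ∨ edgeRel z b s t → s = z ∨ t = z := by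
    rintro s t ((⟨rfl, rfl⟩ | ⟨rfl, rfl⟩) | (⟨rfl, rfl⟩ | ⟨rfl, rfl⟩)) <;> simp
  have hfa : ∀ s ∈ ({a, b, z} : Finset V), ∀ t ∈ ({a, b, z} : Finset V), s ≠ t →
      (A s t ∨ edgeRel a z s t ∨ edgeRel z b s t) := by
    intro s hs t ht hst
    rcases (mem_tri hst).1 ⟨hs, ht⟩ with h | h | h
    · exact Or.inl (hI.CA _ _ (hedge s t h))
    · exact Or.inr (Or.inl h)
    · exact Or.inr (Or.inr h)
  constructor
  · rintro s t (h | h | h)
    · exact Or.inl (hI.symm s t h)
    · exact Or.inr (Or.inl (edgeRel_symm h))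
    · exact Or.inr (Or.inr (edgeRel_symm h))
  · exact hirr
  · rintro s t (h | (⟨rfl, rfl⟩ | ⟨rfl, rfl⟩) | (⟨rfl, rfl⟩ | ⟨rfl, rfl⟩))
    · obtain ⟨p, q⟩ := hI.AU s t h
      exact ⟨Finset.mem_insert_of_mem p, Finset.mem_insert_of_mem q⟩
    · exact ⟨Finset.mem_insert_of_mem haU, Finset.mem_insert_self _ _⟩
    · exact ⟨Finset.mem_insert_self _ _, Finset.mem_insert_of_mem haU⟩
    · exact ⟨Finset.mem_insert_self _ _, Finset.mem_insert_of_mem hbU⟩
    · exact ⟨Finset.mem_insert_of_mem hbU, Finset.mem_insert_self _ _⟩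
  · exact Or.inl hI.base
  · intro s t h
    rcases (hC' s t).1 h with h | h
    · exact Or.inl (hI.CA s t h.1)
    · exact Or.inr h
  · intro f hf
    rcases Finset.mem_insert.1 hf with rfl | hf
    · exact h3
    · exact hI.fc f hf
  · intro f hf s hs t ht hst
    rcases Finset.mem_insert.1 hf with rfl | hf
    · exact hfa s hs t ht hst
    · exact Or.inl (hI.fa f hf s hs t ht hst)
  · intro f hf
    rcases Finset.mem_insert.1 hf with rfl | hf
    · intro w hw
      simp only [Finset.mem_insert, Finset.mem_singleton] at hw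
      rcases hw with rfl | rfl | rfl
      · exact Finset.mem_insert_of_mem haU
      · exact Finset.mem_insert_of_mem hbU
      · exact Finset.mem_insert_self _ _
    · exact (hI.fU f hf).trans (Finset.subset_insert _ _)
  · intro s t hst
    have hstne : s ≠ t := by rintro rfl; exact hirr s hst
    rw [card_insert_filter _ _ h0]
    have hzs : s = z ∨ t = z → (Φ.filter (fun f => s ∈ f ∧ t ∈ f)).card = 0 := by
      intro h
      rw [Finset.card_eq_zero, Finset.filter_eq_empty_iff]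
      rintro f hf ⟨h1, h2⟩
      rcases h with rfl | rfl
      · exact hz (hI.fU f hf h1)
      · exact hz (hI.fU f hf h2)
    have hzU : s = z ∨ t = z → ¬ A s t := by
      rintro (rfl | rfl) h
      · exact hz (hI.AU _ _ h).1
      · exact hz (hI.AU _ _ h).2
    by_cases e1 : edgeRel a b s t
    · have hC := hedge s t e1
      have h1 := hI.cnt s t (hI.CA _ _ hC)
      rw [if_pos hC] at h1
      have h2 : ¬ C' s t := by
        intro h
        rcases (hC' s t).1 h with h | h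
        · exact h.2 e1
        · exact hzU (hnew s t h) (hI.CA _ _ hC)
      rw [if_pos ((mem_tri hstne).2 (Or.inl e1)), if_neg h2]
      omega
    · by_cases e2 : edgeRel a z s t ∨ edgeRel z b s t
      · have h2 : ¬ edgeRel r1 r2 s t := by
          intro h
          rcases h with ⟨rfl, rfl⟩ | ⟨rfl, rfl⟩
          · exact hzU (hnew _ _ e2) hI.base
          · exact hzU (hnew _ _ e2) (hI.symm _ _ hI.base)
        rw [hzs (hnew s t e2), if_pos ((mem_tri hstne).2 (Or.inr e2)),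
          if_pos ((hC' s t).2 (Or.inr e2)), if_neg h2]
      · have h1 := hI.cnt s t (hst.resolve_right e2)
        rw [if_neg (fun h => (not_or.2 ⟨e1, e2⟩) ((mem_tri hstne).1 h))]
        have h2 : C' s t ↔ C s t := by
          rw [hC' s t]
          tauto
        by_cases h9 : C s t
        · rw [if_pos h9] at h1
          rw [if_pos (h2.2 h9)]
          omega
        · rw [if_neg h9] at h1
          rw [if_neg (fun h => h9 (h2.1 h))]
          omega
  · intro h
    exfalso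
    rcases (hC' r1 r2).1 h with h | h
    · exact h.2 (edgeRel_comm ((hI.cb h.1).2 a b hab))
    · rcases hnew _ _ h with h | h
      · exact hz (h ▸ hr1)
      · exact hz (h ▸ hr2)
  · refine star_insert hI.star _ ?_
    rintro u hu ⟨f, hf, huf⟩
    obtain ⟨g, hg, hga, hgb⟩ := face_below hI hab ⟨f, hf⟩ hCs
    simp only [Finset.mem_insert, Finset.mem_singleton] at hu
    rcases hu with rfl | rfl | rfl
    · exact ⟨b, by simp, hne.symm, g, hg, hga, hgb⟩
    · exact ⟨a, by simp, hne, g, hg, hgb, hga⟩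
    · exact absurd (hI.fU f hf huf) hz
  · refine jord_insert hI.jord _ h0 h3 hirr hfa ?_
    intro c hs hA' hr
    have h4 : c z a + c z b = 0 := by
      rw [← hr z]
      symm
      apply Finset.sum_eq_add a b hne
      · rintro w - ⟨hwa, hwb⟩
        by_contra hc
        rcases hA' z w hc with h | (⟨h, h'⟩ | ⟨h, h'⟩) | (⟨h, h'⟩ | ⟨h, h'⟩)
        · exact hz (hI.AU _ _ h).1
        · exact haz h.symm
        · exact hwa h'
        · exact hwb h'
        · exact hbz h.symm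
      · simp
      · simp
    have h5 : c z b = c z a := by
      have h6 := two_eq (c z a)
      rw [← h4] at h6
      exact (add_left_cancel h6).symm
    refine ⟨c z a, ?_⟩
    intro s t h hn
    have h' := h.resolve_left hn
    have hstne : s ≠ t := by rintro rfl; exact hirr s h
    have h7 := (mem_tri (b := b) hstne).2 (Or.inr h')
    refine ⟨h7.1, h7.2, ?_⟩
    rcases h' with (⟨rfl, rfl⟩ | ⟨rfl, rfl⟩) | (⟨rfl, rfl⟩ | ⟨rfl, rfl⟩)
    · exact hs _ _
    · rfl
    · exact h5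
    · exact (hs _ _).trans h5
  · rintro X ⟨x, hx, hxU⟩ hX
    have hX' : ∀ p ∈ X, ∀ q, A p q → q ∈ X := fun p hp q h => hX p hp q (Or.inl h)
    have hU : U ⊆ X := by
      rcases Finset.mem_insert.1 hxU with e | e
      · have ha : a ∈ X := hX z (e ▸ hx) a (Or.inr (Or.inl (Or.inr ⟨rfl, rfl⟩)))
        exact hI.conn X ⟨a, ha, haU⟩ hX'
      · exact hI.conn X ⟨x, hx, e⟩ hX'
    intro w hw
    rcases Finset.mem_insert.1 hw with rfl | e
    · exact hX a (hU haU) w (Or.inr (Or.inl (Or.inl ⟨rfl, rfl⟩)))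
    · exact hU e

theorem sinv_op2 [Fintype V] {r1 r2 : V} {A : V → V → Prop} {Φ : Finset (Finset V)} {U : Finset V}
    {C C' : V → V → Prop} (hI : SInv r1 r2 A Φ U C) (hCs : ∀ s t, C s t → C t s) {a b c : V}
    (hab : C a b) (hbc : C b c) (hac : ¬ A a c) (hacne : a ≠ c)
    (hC' : ∀ s t, C' s t ↔ (C s t ∧ ¬ edgeRel a b s t ∧ ¬ edgeRel b c s t) ∨ edgeRel a c s t) :
    SInv r1 r2 (fun s t => A s t ∨ edgeRel a c s t)
      (insert {a, b, c} Φ) U C' := by
  have hA := hI.CA a b hab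
  have hA2 := hI.CA b c hbc
  obtain ⟨haU, hbU⟩ := hI.AU a b hA
  have hcU := (hI.AU b c hA2).2
  obtain ⟨hr1, hr2⟩ := hI.AU r1 r2 hI.base
  have hne : a ≠ b := by rintro rfl; exact hI.irr _ hA
  have hbcne : b ≠ c := by rintro rfl; exact hI.irr _ hA2
  have h0 : ({a, b, c} : Finset V) ∉ Φ := fun h => hac (hI.fa _ h a (by simp) c (by simp) hacne)
  have h3 : ({a, b, c} : Finset V).card = 3 :=
    Finset.card_eq_three.2 ⟨a, b, c, hne, hacne, hbcne, rfl⟩
  have hirr : ∀ s, ¬ (A s s ∨ edgeRel a c s s) := by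
    rintro s (h | (⟨h, h'⟩ | ⟨h, h'⟩))
    · exact hI.irr s h
    · exact hacne (h.symm.trans h')
    · exact hacne (h'.symm.trans h)
  have hedge : ∀ s t, edgeRel a b s t → C s t := by
    rintro s t (⟨rfl, rfl⟩ | ⟨rfl, rfl⟩)
    · exact hab
    · exact hCs _ _ hab
  have hedge2 : ∀ s t, edgeRel c b s t → C s t := by
    rintro s t (⟨rfl, rfl⟩ | ⟨rfl, rfl⟩)
    · exact hCs _ _ hbc
    · exact hbc
  have hnew : ∀ s t, edgeRel a c s t → ¬ A s t := by
    rintro s t (⟨rfl, rfl⟩ | ⟨rfl, rfl⟩)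
    · exact hac
    · exact fun h => hac (hI.symm _ _ h)
  have hsw : ∀ s t, edgeRel b c s t ↔ edgeRel c b s t := by
    intro s t
    simp only [edgeRel]
    tauto
  have hfa : ∀ s ∈ ({a, b, c} : Finset V), ∀ t ∈ ({a, b, c} : Finset V), s ≠ t →
      (A s t ∨ edgeRel a c s t) := by
    intro s hs t ht hst
    rcases (mem_tri hst).1 ⟨hs, ht⟩ with h | h | h
    · exact Or.inl (hI.CA _ _ (hedge s t h))
    · exact Or.inr h
    · exact Or.inl (hI.CA _ _ (hedge2 s t h))
  constructor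
  · rintro s t (h | h)
    · exact Or.inl (hI.symm s t h)
    · exact Or.inr (edgeRel_symm h)
  · exact hirr
  · rintro s t (h | (⟨rfl, rfl⟩ | ⟨rfl, rfl⟩))
    · exact hI.AU s t h
    · exact ⟨haU, hcU⟩
    · exact ⟨hcU, haU⟩
  · exact Or.inl hI.base
  · intro s t h
    rcases (hC' s t).1 h with h | h
    · exact Or.inl (hI.CA s t h.1)
    · exact Or.inr h
  · intro f hf
    rcases Finset.mem_insert.1 hf with rfl | hf
    · exact h3
    · exact hI.fc f hf
  · intro f hf s hs t ht hst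
    rcases Finset.mem_insert.1 hf with rfl | hf
    · exact hfa s hs t ht hst
    · exact Or.inl (hI.fa f hf s hs t ht hst)
  · intro f hf
    rcases Finset.mem_insert.1 hf with rfl | hf
    · intro w hw
      simp only [Finset.mem_insert, Finset.mem_singleton] at hw
      rcases hw with rfl | rfl | rfl
      · exact haU
      · exact hbU
      · exact hcU
    · exact hI.fU f hf
  · intro s t hst
    have hstne : s ≠ t := by rintro rfl; exact hirr s hst
    rw [card_insert_filter _ _ h0]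
    by_cases e1 : edgeRel a b s t ∨ edgeRel c b s t
    · have hC : C s t := by
        rcases e1 with e | e
        · exact hedge s t e
        · exact hedge2 s t e
      have h1 := hI.cnt s t (hI.CA _ _ hC)
      rw [if_pos hC] at h1
      have h2 : ¬ C' s t := by
        intro h
        rcases (hC' s t).1 h with h | h
        · rcases e1 with e | e
          · exact h.2.1 e
          · exact h.2.2 ((hsw s t).2 e)
        · exact hnew s t h (hI.CA _ _ hC)
      rw [if_pos ((mem_tri hstne).2 (by tauto)), if_neg h2]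
      omega
    · by_cases e2 : edgeRel a c s t
      · have h2 : ¬ edgeRel r1 r2 s t := by
          intro h
          rcases h with ⟨rfl, rfl⟩ | ⟨rfl, rfl⟩
          · exact hnew _ _ e2 hI.base
          · exact hnew _ _ e2 (hI.symm _ _ hI.base)
        have h5 : (Φ.filter (fun f => s ∈ f ∧ t ∈ f)).card = 0 := by
          rw [Finset.card_eq_zero, Finset.filter_eq_empty_iff]
          rintro f hf ⟨h1, h2⟩
          exact hnew s t e2 (hI.fa f hf s h1 t h2 hstne)
        rw [h5, if_pos ((mem_tri hstne).2 (Or.inr (Or.inl e2))),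
          if_pos ((hC' s t).2 (Or.inr e2)), if_neg h2]
      · have h1 := hI.cnt s t (hst.resolve_right e2)
        rw [if_neg (fun h => by have := (mem_tri hstne).1 h; tauto)]
        have h2 : C' s t ↔ C s t := by
          rw [hC' s t, hsw s t]
          tauto
        by_cases h9 : C s t
        · rw [if_pos h9] at h1
          rw [if_pos (h2.2 h9)]
          omega
        · rw [if_neg h9] at h1
          rw [if_neg (fun h => h9 (h2.1 h))]
          omega
  · intro h
    exfalso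
    rcases (hC' r1 r2).1 h with h | h
    · exact h.2.1 (edgeRel_comm ((hI.cb h.1).2 a b hab))
    · exact hnew _ _ h hI.base
  · refine star_insert hI.star _ ?_
    rintro u hu ⟨f, hf, huf⟩
    obtain ⟨g, hg, hga, hgb⟩ := face_below hI hab ⟨f, hf⟩ hCs
    obtain ⟨g', hg', hgb', hgc'⟩ := face_below hI hbc ⟨f, hf⟩ hCs
    simp only [Finset.mem_insert, Finset.mem_singleton] at hu
    rcases hu with rfl | rfl | rfl
    · exact ⟨b, by simp, hne.symm, g, hg, hga, hgb⟩
    · exact ⟨a, by simp, hne, g, hg, hgb, hga⟩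
    · exact ⟨b, by simp, hbcne, g', hg', hgc', hgb'⟩
  · refine jord_insert hI.jord _ h0 h3 hirr hfa ?_
    intro d hs hA' hr
    refine ⟨d a c, ?_⟩
    intro s t h hn
    have h' := h.resolve_left hn
    have hstne : s ≠ t := by rintro rfl; exact hirr s h
    have h7 := (mem_tri (b := b) hstne).2 (Or.inr (Or.inl h'))
    refine ⟨h7.1, h7.2, ?_⟩
    rcases h' with (⟨rfl, rfl⟩ | ⟨rfl, rfl⟩)
    · rfl
    · exact hs _ _
  · rintro X hx hX
    exact hI.conn X hx (fun p hp q h => hX p hp q (Or.inl h))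

theorem sinv_of_shell [Fintype V] {r1 r2 : V} {A : V → V → Prop} {Φ : Finset (Finset V)}
    {U : Finset V} {γ : List V} (h : Shell r1 r2 A Φ U γ) :
    SInv r1 r2 A Φ U (Cn γ) ∧ γ.Nodup ∧ ∀ w ∈ γ, w ∈ U := by
  induction h with
  | base h => exact ⟨sinv_base r1 r2 h, by simp [h], by simp⟩
  | op1 A Φ U l r a b z h hz ih =>
    obtain ⟨hI, hnd, hU⟩ := ih
    have hab : Cn (l ++ a :: b :: r) a b := by
      rw [cn_append]
      exact Or.inr (Or.inl (Or.inl ⟨rfl, rfl⟩))
    have hzl : z ∉ l ++ a :: b :: r := fun h => hz (hU z h)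
    refine ⟨sinv_op1 hI (cn_symm _) hab hz (fun s t => cn_op1 hnd), ?_, ?_⟩
    · have hp : List.Perm (l ++ a :: z :: b :: r) (z :: (l ++ a :: b :: r)) := by
        have h1 : List.Perm (l ++ a :: z :: b :: r) (l ++ z :: a :: b :: r) :=
          List.Perm.append_left l (List.Perm.swap z a (b :: r))
        exact h1.trans List.perm_middle
      rw [hp.nodup_iff, List.nodup_cons]
      exact ⟨hzl, hnd⟩
    · intro w hw
      simp only [List.mem_append, List.mem_cons] at hw
      by_cases e : w = z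
      · rw [e]; exact Finset.mem_insert_self _ _
      · refine Finset.mem_insert_of_mem (hU w ?_)
        simp only [List.mem_append, List.mem_cons]
        tauto
  | op2 A Φ U l r a b c h hac ih =>
    obtain ⟨hI, hnd, hU⟩ := ih
    have hab : Cn (l ++ a :: b :: c :: r) a b := by
      rw [cn_append]
      exact Or.inr (Or.inl (Or.inl ⟨rfl, rfl⟩))
    have hbc : Cn (l ++ a :: b :: c :: r) b c := by
      rw [cn_append]
      exact Or.inr (Or.inr (Or.inl (Or.inl ⟨rfl, rfl⟩)))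
    have hacne : a ≠ c := by
      rintro rfl
      have h1 := (List.nodup_append.1 hnd).2.1
      exact (List.nodup_cons.1 h1).1 (by simp)
    refine ⟨sinv_op2 hI (cn_symm _) hab hbc hac hacne (fun s t => cn_op2 hnd), ?_, ?_⟩
    · refine hnd.sublist ?_
      exact List.Sublist.append_left (List.Sublist.cons_cons a (List.sublist_cons_self b (c :: r))) l
    · intro w hw
      refine hU w ?_
      simp only [List.mem_append, List.mem_cons] at hw ⊢
      tauto

end Pool.Agent.Univ.UG6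

namespace Pool.Agent.Univ
open UG6

/-- **UG-6**: shelling sequences give abstract triangulations. -/
theorem tri_of_shell {V : Type*} [Fintype V] [DecidableEq V] (r1 r2 r3 : V)
    (A : V → V → Prop) (Φ : Finset (Finset V))
    (h : Shell r1 r2 A Φ Finset.univ [r1, r3, r2]) (ho : ({r1, r2, r3} : Finset V) ∉ Φ) :
    ∃ T : Tri V, T.A = A ∧ T.Φ = insert {r1, r2, r3} Φ ∧ T.r1 = r1 ∧ T.r2 = r2 ∧ T.r3 = r3 := by
  classical
  obtain ⟨hI, hnd, -⟩ := sinv_of_shell h
  have h13 : r1 ≠ r3 := by rintro rfl; simp at hnd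
  have h12 : r1 ≠ r2 := by rintro rfl; simp at hnd
  have h23 : r3 ≠ r2 := by rintro rfl; simp at hnd
  have hcs : ∀ s t, Cn [r1, r3, r2] s t ↔ edgeRel r1 r3 s t ∨ edgeRel r3 r2 s t := by
    intro s t
    simp [Cn]
  have hC1 : Cn [r1, r3, r2] r1 r3 := (hcs _ _).2 (Or.inl (Or.inl ⟨rfl, rfl⟩))
  have hC2 : Cn [r1, r3, r2] r3 r2 := (hcs _ _).2 (Or.inr (Or.inl ⟨rfl, rfl⟩))
  have hcard : ∀ a b, A a b →
      ((insert {r1, r2, r3} Φ).filter (fun f => a ∈ f ∧ b ∈ f)).card = 2 := by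
    intro s t hst
    have hstne : s ≠ t := by rintro rfl; exact hI.irr s hst
    have h1 := hI.cnt s t hst
    rw [card_insert_filter _ _ ho]
    have h2 := mem_tri (a := r1) (b := r2) (z := r3) hstne
    have h3 : ¬ (Cn [r1, r3, r2] s t ∧ edgeRel r1 r2 s t) := by
      rw [hcs]
      rintro ⟨(⟨rfl, rfl⟩ | ⟨rfl, rfl⟩) | (⟨rfl, rfl⟩ | ⟨rfl, rfl⟩), (⟨h5, h6⟩ | ⟨h5, h6⟩)⟩ <;>
        first | exact h13 h5 | exact h13 h6 | exact h23 h5 | exact h23 h6 | exact h13 h5.symm | exact h13 h6.symm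
    have h4 : (s ∈ ({r1, r2, r3} : Finset V) ∧ t ∈ ({r1, r2, r3} : Finset V)) ↔
        (edgeRel r1 r2 s t ∨ Cn [r1, r3, r2] s t) := by
      rw [h2, hcs]
    by_cases e1 : Cn [r1, r3, r2] s t
    · have e2 : ¬ edgeRel r1 r2 s t := fun h => h3 ⟨e1, h⟩
      rw [if_pos e1, if_neg e2] at h1
      rw [if_pos (h4.2 (Or.inr e1))]
      omega
    · by_cases e2 : edgeRel r1 r2 s t
      · rw [if_neg e1, if_pos e2] at h1
        rw [if_pos (h4.2 (Or.inl e2))]
        omega
      · rw [if_neg e1, if_neg e2] at h1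
        rw [if_neg (fun h => (not_or.2 ⟨e2, e1⟩) (h4.1 h))]
        omega
  refine ⟨{ A := A, Φ := insert {r1, r2, r3} Φ, r1 := r1, r2 := r2, r3 := r3, symm := hI.symm,
            irrefl := hI.irr, h12 := h12, h13 := h13, h23 := h23.symm,
            outer := Finset.mem_insert_self _ _, face_card := ?_, face_adj := ?_, two := ?_,
            star := ?_, jordan := ?_, conn := ?_ }, rfl, rfl, rfl, rfl, rfl⟩
  · intro f hf
    rcases Finset.mem_insert.1 hf with rfl | hf
    · exact Finset.card_eq_three.2 ⟨r1, r2, r3, h12, h13, h23.symm, rfl⟩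
    · exact hI.fc f hf
  · intro f hf a ha b hb hab
    rcases Finset.mem_insert.1 hf with rfl | hf
    · rcases (mem_tri hab).1 ⟨ha, hb⟩ with h5 | h5 | h5
      · rcases h5 with ⟨rfl, rfl⟩ | ⟨rfl, rfl⟩
        · exact hI.base
        · exact hI.symm _ _ hI.base
      · exact hI.CA _ _ ((hcs _ _).2 (Or.inl h5))
      · exact hI.CA _ _ ((hcs _ _).2 (Or.inr h5))
    · exact hI.fa f hf a ha b hb hab
  · intro a b hab
    obtain ⟨f, f', hff, heq⟩ := Finset.card_eq_two.1 (hcard a b hab)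
    have hf : f ∈ (insert {r1, r2, r3} Φ).filter (fun f => a ∈ f ∧ b ∈ f) := by
      rw [heq]; simp
    have hf' : f' ∈ (insert {r1, r2, r3} Φ).filter (fun f => a ∈ f ∧ b ∈ f) := by
      rw [heq]; simp
    rw [Finset.mem_filter] at hf hf'
    refine ⟨f, hf.1, f', hf'.1, hff, hf.2.1, hf.2.2, hf'.2.1, hf'.2.2, ?_⟩
    intro g hg ha hb
    have : g ∈ (insert {r1, r2, r3} Φ).filter (fun f => a ∈ f ∧ b ∈ f) :=
      Finset.mem_filter.2 ⟨hg, ha, hb⟩
    rw [heq] at this
    simpa using this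
  · refine star_insert hI.star _ ?_
    rintro u hu ⟨f, hf, huf⟩
    obtain ⟨g, hg, hga, hgb⟩ := face_below hI hC1 ⟨f, hf⟩ (cn_symm _)
    obtain ⟨g', hg', hgb', hgc'⟩ := face_below hI hC2 ⟨f, hf⟩ (cn_symm _)
    simp only [Finset.mem_insert, Finset.mem_singleton] at hu
    rcases hu with rfl | rfl | rfl
    · exact ⟨r3, by simp, h13.symm, g, hg, hga, hgb⟩
    · exact ⟨r3, by simp, h23, g', hg', hgc', hgb'⟩
    · exact ⟨r1, by simp, h13, g, hg, hgb, hga⟩
  · intro c hs hA hr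
    obtain ⟨σ, hσ⟩ := hI.jord c hs hA hr
    refine ⟨Function.update σ {r1, r2, r3} 0, ?_⟩
    intro a b f hf f' hf' hff hab haf hbf haf' hbf'
    have hAab : A a b := by
      rcases Finset.mem_insert.1 hf with rfl | hf
      · rcases Finset.mem_insert.1 hf' with rfl | hf'
        · exact absurd rfl hff
        · exact hI.fa f' hf' a haf' b hbf' hab
      · exact hI.fa f hf a haf b hbf hab
    have hsum : ∑ g ∈ (insert {r1, r2, r3} Φ).filter (fun f => a ∈ f ∧ b ∈ f),
        Function.update σ {r1, r2, r3} 0 g = c a b := by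
      rw [← hσ a b hab]
      have h1 : ∑ f ∈ Φ with (a ∈ f ∧ b ∈ f), Function.update σ {r1, r2, r3} 0 f =
          ∑ f ∈ Φ with (a ∈ f ∧ b ∈ f), σ f := by
        refine Finset.sum_congr rfl (fun f hf => ?_)
        rw [Function.update_of_ne]
        rintro rfl
        exact ho (Finset.mem_filter.1 hf).1
      rw [Finset.filter_insert]
      split_ifs with h2
      · rw [Finset.sum_insert (fun hh => ho (Finset.mem_filter.1 hh).1), h1,
          Function.update_self, zero_add]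
      · rw [h1]
    rw [← hsum]
    have heq : (insert {r1, r2, r3} Φ).filter (fun f => a ∈ f ∧ b ∈ f) = {f, f'} := by
      symm
      apply Finset.eq_of_subset_of_card_le
      · intro g hg
        simp only [Finset.mem_insert, Finset.mem_singleton] at hg
        rcases hg with rfl | rfl
        · exact Finset.mem_filter.2 ⟨hf, haf, hbf⟩
        · exact Finset.mem_filter.2 ⟨hf', haf', hbf'⟩
      · rw [hcard a b hAab, Finset.card_pair hff]
    rw [heq, Finset.sum_pair hff]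
  · intro X hX hcl
    have := hI.conn X (by obtain ⟨x, hx⟩ := hX; exact ⟨x, hx, Finset.mem_univ _⟩) hcl
    exact Finset.eq_univ_of_forall (fun w => this (Finset.mem_univ w))

end Pool.Agent.Univ
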