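import Pool.Agent.Univ.Defs

/-!
# UG-7c: sweeping a maximal plane graph by triangles (project UG, MP_a45fd3_co)
-/

set_option autoImplicit false

namespace Pool.Agent.Univ

namespace Sweep

/-! ### determinants -/

theorem or_cyc (a b c : Pt) : orient b c a = orient a b c := by unfold orient; ring
theorem or_swap (a b c : Pt) : orient b a c = -orient a b c := by unfold orient; ring
theorem or_swap' (a b c : Pt) : orient a c b = -orient a b c := by unfold orient; ring
theorem or_left (a b : Pt) : orient a b a = 0 := by unfold orient; ring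
theorem or_right (a b : Pt) : orient a b b = 0 := by unfold orient; ring
theorem or_same (a b : Pt) : orient a a b = 0 := by unfold orient; ring

theorem pl (a b z w : Pt) : (w.1 - a.1) * orient a b z + (b.1 - a.1) * orient a z w -
    (z.1 - a.1) * orient a b w = 0 := by unfold orient; ring

theorem pl2 (u v a z : Pt) : (v.1 - u.1) * orient a z u =
    -(z.1 - u.1) * orient u v a + (a.1 - u.1) * orient u v z := by unfold orient; ring

theorem pl3 (u v a z : Pt) : (v.1 - u.1) * orient a z v =
    -(z.1 - v.1) * orient u v a + (a.1 - v.1) * orient u v z := by unfold orient; ring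

/-- `z` above `ab`, `w` below `ab`, then `w` is below `az` (on the right of `a`) -/
theorem below_left {a b z w : Pt} (hb : a.1 < b.1) (hz : a.1 < z.1) (hw : a.1 < w.1)
    (h1 : 0 < orient a b z) (h2 : orient a b w < 0) : orient a z w < 0 := by
  have h := pl a b z w
  by_contra hc
  push Not at hc
  nlinarith [mul_pos (sub_pos.2 hw) h1, mul_nonneg (sub_pos.2 hb).le hc,
    mul_pos (sub_pos.2 hz) (neg_pos.2 h2)]

/-- `z` above `ab`, `w` below `ab`, then `w` is below `zb` (on the left of `b`) -/
theorem below_right {a b z w : Pt} (hb : a.1 < b.1) (hz : z.1 < b.1) (hw : w.1 < b.1)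
    (h1 : 0 < orient a b z) (h2 : orient a b w < 0) : orient z b w < 0 := by
  have h : (b.1 - w.1) * orient a b z + (b.1 - a.1) * orient z b w
      - (b.1 - z.1) * orient a b w = 0 := by unfold orient; ring
  by_contra hc
  push Not at hc
  nlinarith [mul_pos (sub_pos.2 hw) h1, mul_nonneg (sub_pos.2 hb).le hc,
    mul_pos (sub_pos.2 hz) (neg_pos.2 h2)]

/-- edge `uv` below `z`, above `a`, or `u` above `az`: crossing with `az`. -/
theorem cross_left {u v a z : Pt} (huz : u.1 < z.1) (hzv : z.1 < v.1) (haz : a.1 < z.1)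
    (h1 : 0 < orient u v z) (h : (u.1 < a.1 ∧ orient u v a < 0) ∨ (a.1 < u.1 ∧ 0 < orient a z u)) :
    Cross u v a z := by
  have huv : 0 < v.1 - u.1 := by linarith
  have e2 := pl2 u v a z
  have e3 := pl3 u v a z
  have ha : orient u v a < 0 := by
    rcases h with h | h
    · exact h.2
    · by_contra hc
      push Not at hc
      nlinarith [mul_pos huv h.2, mul_nonneg (sub_pos.2 huz).le hc, mul_pos (sub_pos.2 h.1) h1]
  have hu : 0 < orient a z u := by
    rcases h with h | h
    · by_contra hc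
      push Not at hc
      nlinarith [mul_nonneg huv.le (neg_nonneg.2 hc), mul_pos (sub_pos.2 huz) (neg_pos.2 ha),
        mul_pos (sub_pos.2 h.1) h1]
    · exact h.2
  have hv : orient a z v < 0 := by
    by_contra hc
    push Not at hc
    nlinarith [mul_nonneg huv.le hc, mul_pos (sub_pos.2 hzv) (neg_pos.2 ha),
      mul_pos (sub_pos.2 (haz.trans hzv)) h1]
  exact ⟨mul_neg_of_neg_of_pos ha h1, mul_neg_of_pos_of_neg hu hv⟩

theorem cross_right {u v b z : Pt} (huz : u.1 < z.1) (hzv : z.1 < v.1) (hzb : z.1 < b.1)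
    (h1 : 0 < orient u v z) (h : (b.1 < v.1 ∧ orient u v b < 0) ∨ (v.1 < b.1 ∧ 0 < orient z b v)) :
    Cross u v z b := by
  have huv : 0 < v.1 - u.1 := by linarith
  have e2 := pl2 u v z b
  have e3 := pl3 u v z b
  have ha : orient u v b < 0 := by
    rcases h with h | h
    · exact h.2
    · by_contra hc
      push Not at hc
      nlinarith [mul_pos huv h.2, mul_nonneg (sub_pos.2 hzv).le hc, mul_pos (sub_pos.2 h.1) h1]
  have hu : 0 < orient z b v := by
    rcases h with h | h
    · by_contra hc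
      push Not at hc
      nlinarith [mul_nonneg huv.le (neg_nonneg.2 hc), mul_pos (sub_pos.2 hzv) (neg_pos.2 ha),
        mul_pos (sub_pos.2 h.1) h1]
    · exact h.2
  have hv : orient z b u < 0 := by
    by_contra hc
    push Not at hc
    nlinarith [mul_nonneg huv.le hc, mul_pos (sub_pos.2 huz) (neg_pos.2 ha),
      mul_pos (sub_pos.2 (huz.trans hzb)) h1]
  exact ⟨mul_neg_of_pos_of_neg h1 ha, mul_neg_of_neg_of_pos hv hu⟩

/-- `z` above `ab`; on the left of `z`, below `az` implies below the line `zb` -/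
theorem ext_left {a b z w : Pt} (h1 : a.1 < z.1) (h2 : z.1 < b.1) (hz : 0 < orient a b z)
    (hw : w.1 ≤ z.1) (h : orient a z w ≤ 0) : orient z b w ≤ 0 := by
  have e := pl z a b w
  rw [or_cyc a b z |>.symm.trans (or_cyc b z a).symm |>.symm, or_swap a z w] at e
  by_contra hc
  push Not at hc
  nlinarith [mul_nonneg (sub_nonneg.2 hw) hz.le, mul_pos (sub_pos.2 h1) hc,
    mul_nonneg (sub_pos.2 h2).le (neg_nonneg.2 h)]

theorem ext_right {a b z w : Pt} (h1 : a.1 < z.1) (h2 : z.1 < b.1) (hz : 0 < orient a b z)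
    (hw : z.1 ≤ w.1) (h : orient z b w ≤ 0) : orient a z w ≤ 0 := by
  have e := pl z a b w
  rw [or_cyc a b z |>.symm.trans (or_cyc b z a).symm |>.symm, or_swap a z w] at e
  by_contra hc
  push Not at hc
  nlinarith [mul_nonneg (sub_nonneg.2 hw) hz.le, mul_pos (sub_pos.2 h2) hc,
    mul_nonneg (sub_pos.2 h1).le (neg_nonneg.2 h)]

/-- interpolation: `z` above `ab`, and `ab` weakly above `uv` at both ends of the common range -/
theorem mid_pos {a b u v z : Pt} (haz : a.1 < z.1) (hzb : z.1 < b.1) (huz : u.1 < z.1)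
    (hzv : z.1 < v.1) (hz : 0 < orient a b z)
    (hl : 0 ≤ orient u v a ∨ orient a b u ≤ 0)
    (hr : 0 ≤ orient u v b ∨ orient a b v ≤ 0) : 0 < orient u v z := by
  have hab : 0 < b.1 - a.1 := by linarith
  have huv : 0 < v.1 - u.1 := by linarith
  by_contra hc
  push Not at hc
  rcases hl with hl | hl <;> rcases hr with hr | hr
  · have e : (b.1 - a.1) * orient u v z = (b.1 - z.1) * orient u v a + (z.1 - a.1) * orient u v b +
        (v.1 - u.1) * orient a b z := by unfold orient; ring
    nlinarith [mul_nonneg (sub_pos.2 hzb).le hl, mul_nonneg (sub_pos.2 haz).le hr, mul_pos huv hz,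
      mul_nonneg hab.le (neg_nonneg.2 hc)]
  · have e : (v.1 - a.1) * ((b.1 - a.1) * orient u v z) =
        (v.1 - a.1) * ((v.1 - u.1) * orient a b z) + (b.1 - a.1) * ((v.1 - z.1) * orient u v a) -
        (v.1 - u.1) * ((z.1 - a.1) * orient a b v) := by unfold orient; ring
    have hva : 0 < v.1 - a.1 := by linarith
    nlinarith [mul_nonneg hab.le (mul_nonneg (sub_pos.2 hzv).le hl),
      mul_nonneg huv.le (mul_nonneg (sub_pos.2 haz).le (neg_nonneg.2 hr)),
      mul_pos hva (mul_pos huv hz), mul_nonneg hva.le (mul_nonneg hab.le (neg_nonneg.2 hc))]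
  · have e : (b.1 - u.1) * ((b.1 - a.1) * orient u v z) =
        (b.1 - u.1) * ((v.1 - u.1) * orient a b z) + (b.1 - a.1) * ((z.1 - u.1) * orient u v b) -
        (v.1 - u.1) * ((b.1 - z.1) * orient a b u) := by unfold orient; ring
    have hbu : 0 < b.1 - u.1 := by linarith
    nlinarith [mul_nonneg hab.le (mul_nonneg (sub_pos.2 huz).le hr),
      mul_nonneg huv.le (mul_nonneg (sub_pos.2 hzb).le (neg_nonneg.2 hl)),
      mul_pos hbu (mul_pos huv hz), mul_nonneg hbu.le (mul_nonneg hab.le (neg_nonneg.2 hc))]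
  · have e : (b.1 - a.1) * orient u v z = (v.1 - u.1) * orient a b z -
        (v.1 - z.1) * orient a b u - (z.1 - u.1) * orient a b v := by unfold orient; ring
    nlinarith [mul_nonneg (sub_pos.2 hzv).le (neg_nonneg.2 hl),
      mul_nonneg (sub_pos.2 huz).le (neg_nonneg.2 hr), mul_pos huv hz,
      mul_nonneg hab.le (neg_nonneg.2 hc)]

/-- `b` below `ac`: a point left of `b` and above `ab` is above `bc` -/
theorem ext2_left {a b c w : Pt} (h1 : a.1 < b.1) (h2 : b.1 < c.1) (hc : 0 < orient a b c)
    (hw : w.1 < b.1) (h : 0 ≤ orient a b w) : 0 < orient b c w := by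
  have e : (a.1 - b.1) * orient b c w = (w.1 - b.1) * orient a b c - (c.1 - b.1) * orient a b w := by
    unfold orient; ring
  by_contra hn
  push Not at hn
  nlinarith [mul_pos (sub_pos.2 hw) hc, mul_nonneg (sub_pos.2 h1).le (neg_nonneg.2 hn),
    mul_nonneg (sub_pos.2 h2).le h]

theorem ext2_right {a b c w : Pt} (h1 : a.1 < b.1) (h2 : b.1 < c.1) (hc : 0 < orient a b c)
    (hw : b.1 < w.1) (h : 0 ≤ orient b c w) : 0 < orient a b w := by
  have e : (a.1 - b.1) * orient b c w = (w.1 - b.1) * orient a b c - (c.1 - b.1) * orient a b w := by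
    unfold orient; ring
  by_contra hn
  push Not at hn
  nlinarith [mul_pos (sub_pos.2 hw) hc, mul_nonneg (sub_pos.2 h2).le (neg_nonneg.2 hn),
    mul_nonneg (sub_pos.2 h1).le h]

/-! ### consecutive elements of a list -/

def Adjt {V : Type*} (γ : List V) (a b : V) : Prop := ∃ l r, γ = l ++ a :: b :: r

theorem adjt_iff {V : Type*} {γ : List V} {R : V → V → Prop} :
    (∀ a b, Adjt γ a b → R a b) ↔ List.IsChain R γ := by
  rw [List.isChain_iff_forall_rel_of_append_cons_cons]
  constructor
  · intro h a b l r e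
    exact h a b ⟨l, r, e⟩
  · rintro h a b ⟨l, r, e⟩
    exact h e

theorem adjt_mid {V : Type*} (l r : List V) (a b : V) : Adjt (l ++ a :: b :: r) a b :=
  ⟨l, r, rfl⟩

theorem adjt_ins {V : Type*} {l r : List V} {a b z p q : V} (h : Adjt (l ++ a :: z :: b :: r) p q) :
    Adjt (l ++ a :: b :: r) p q ∨ (p = a ∧ q = z) ∨ (p = z ∧ q = b) := by
  have h0 : List.IsChain (Adjt (l ++ a :: b :: r)) (l ++ a :: b :: r) :=
    adjt_iff.1 (fun _ _ h => h)
  rw [List.isChain_append_cons_cons] at h0
  obtain ⟨h1, _, h3⟩ := h0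
  have h4 : List.IsChain (fun p q => Adjt (l ++ a :: b :: r) p q ∨ (p = a ∧ q = z) ∨
      (p = z ∧ q = b)) (l ++ a :: z :: b :: r) := by
    rw [List.isChain_append_cons_cons]
    refine ⟨h1.imp (fun _ _ h => Or.inl h), Or.inr (Or.inl ⟨rfl, rfl⟩), ?_⟩
    rw [List.isChain_cons_cons]
    exact ⟨Or.inr (Or.inr ⟨rfl, rfl⟩), h3.imp (fun _ _ h => Or.inl h)⟩
  exact adjt_iff.2 h4 p q h

theorem adjt_del {V : Type*} {l r : List V} {a b c p q : V} (h : Adjt (l ++ a :: c :: r) p q) :
    Adjt (l ++ a :: b :: c :: r) p q ∨ (p = a ∧ q = c) := by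
  have h0 : List.IsChain (Adjt (l ++ a :: b :: c :: r)) (l ++ a :: b :: c :: r) :=
    adjt_iff.1 (fun _ _ h => h)
  rw [List.isChain_append_cons_cons, List.isChain_cons_cons] at h0
  obtain ⟨h1, _, _, h3⟩ := h0
  have h4 : List.IsChain (fun p q => Adjt (l ++ a :: b :: c :: r) p q ∨ (p = a ∧ q = c))
      (l ++ a :: c :: r) := by
    rw [List.isChain_append_cons_cons]
    exact ⟨h1.imp (fun _ _ h => Or.inl h), Or.inr ⟨rfl, rfl⟩, h3.imp (fun _ _ h => Or.inl h)⟩
  exact adjt_iff.2 h4 p q h

theorem adjt_mem {V : Type*} {γ : List V} {a b : V} (h : Adjt γ a b) : a ∈ γ ∧ b ∈ γ := by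
  obtain ⟨l, r, rfl⟩ := h
  simp

section sorted

variable {V : Type*} {pt : V → Pt} {γ : List V}

/-- strictly increasing first coordinates -/
def Inc (pt : V → Pt) (γ : List V) : Prop := γ.Pairwise (fun a b => (pt a).1 < (pt b).1)

theorem inc_parts {l r : List V} {a b : V} (h : Inc pt (l ++ a :: b :: r)) :
    (∀ w ∈ l, (pt w).1 < (pt a).1) ∧ (pt a).1 < (pt b).1 ∧ (∀ w ∈ r, (pt b).1 < (pt w).1) := by
  unfold Inc at h
  rw [List.pairwise_append] at h
  obtain ⟨_, h2, h3⟩ := h
  rw [List.pairwise_cons, List.pairwise_cons] at h2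
  exact ⟨fun w hw => h3 w hw a (by simp), h2.1 b (by simp), h2.2.1⟩

theorem adjt_lt (h : Inc pt γ) {a b : V} (hab : Adjt γ a b) : (pt a).1 < (pt b).1 := by
  obtain ⟨l, r, rfl⟩ := hab
  exact (inc_parts h).2.1

theorem adjt_sep (h : Inc pt γ) {a b : V} (hab : Adjt γ a b) {w : V} (hw : w ∈ γ) :
    (pt w).1 ≤ (pt a).1 ∨ (pt b).1 ≤ (pt w).1 := by
  obtain ⟨l, r, rfl⟩ := hab
  obtain ⟨h1, h2, h3⟩ := inc_parts h
  simp only [List.mem_append, List.mem_cons] at hw
  rcases hw with hw | rfl | rfl | hw
  · exact Or.inl (h1 w hw).le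
  · exact Or.inl le_rfl
  · exact Or.inr le_rfl
  · exact Or.inr (h3 w hw).le

theorem not_mem_of_between (h : Inc pt γ) {a b : V} (hab : Adjt γ a b) {w : V}
    (h1 : (pt a).1 < (pt w).1) (h2 : (pt w).1 < (pt b).1) : w ∉ γ := by
  intro hw
  rcases adjt_sep h hab hw with h | h <;> linarith

end sorted

/-- there are adjacent steps of the first and of the second kind -/
theorem find_RL {V : Type*} {R L : V → V → Prop} (r2 : V) (hR : ∀ x, ¬ R x r2) :
    ∀ (t : List V) (a : V), (∀ p q, Adjt (a :: (t ++ [r2])) p q → R p q ∨ L p q) →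
      (∀ x, ¬ L a x) → ∃ l r p q s, a :: (t ++ [r2]) = l ++ p :: q :: s :: r ∧ R p q ∧ L q s := by
  suffices H : ∀ (t : List V) (a : V), (∀ p q, Adjt (a :: (t ++ [r2])) p q → R p q ∨ L p q) →
      (∀ c t', t ++ [r2] = c :: t' → R a c) →
      ∃ l r p q s, a :: (t ++ [r2]) = l ++ p :: q :: s :: r ∧ R p q ∧ L q s by
    intro t a h1 h2
    refine H t a h1 (fun c t' hc => ?_)
    rcases h1 a c ⟨[], t', by simp [hc]⟩ with h | h
    · exact h
    · exact absurd h (h2 c)
  intro t
  induction t with
  | nil =>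
    intro a h1 h2
    exact absurd (h2 r2 [] rfl) (hR a)
  | cons b t ih =>
    intro a h1 h2
    have hsub : ∀ p q, Adjt (b :: (t ++ [r2])) p q → Adjt (a :: (b :: t ++ [r2])) p q := by
      rintro p q ⟨l, r, e⟩
      refine ⟨a :: l, r, ?_⟩
      rw [List.cons_append, List.cons_append, e]
    have hab : R a b := h2 b (t ++ [r2]) rfl
    obtain ⟨c, t', hc⟩ : ∃ c t', t ++ [r2] = c :: t' := by
      cases t with
      | nil => exact ⟨r2, [], rfl⟩
      | cons c t => exact ⟨c, t ++ [r2], rfl⟩
    have hbc : Adjt (a :: (b :: t ++ [r2])) b c := ⟨[a], t', by simp [hc]⟩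
    by_cases hL : L b c
    · exact ⟨[], t', a, b, c, by simp [hc], hab, hL⟩
    · have hR' : R b c := (h1 b c hbc).resolve_right hL
      obtain ⟨l, r, p, q, s, e, h3, h4⟩ := ih b (fun p q h => h1 p q (hsub p q h)) (by
        intro c' t'' hc'
        rw [hc] at hc'
        injection hc' with e1 _
        rw [← e1]
        exact hR')
      exact ⟨a :: l, r, p, q, s, by rw [List.cons_append, List.cons_append, e], h3, h4⟩

/-! ### the sweep -/

/-- `z` is the apex of the empty triangle above `ab`. -/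
def Apx {V : Type*} (pt : V → Pt) (A : V → V → Prop) (a b z : V) : Prop :=
  0 < orient (pt a) (pt b) (pt z) ∧ A a z ∧ A b z ∧
    ∀ w, w ≠ a → w ≠ b → w ≠ z → ¬ (0 ≤ orient (pt a) (pt b) (pt w) ∧
      0 ≤ orient (pt b) (pt z) (pt w) ∧ 0 ≤ orient (pt z) (pt a) (pt w))

/-- the invariants of the sweep -/
structure Inv {V : Type*} [DecidableEq V] (pt : V → Pt) (A : V → V → Prop)
    (r1 r2 r3 : V) (A' : V → V → Prop) (Φ : Finset (Finset V)) (U : Finset V) (γ : List V) :
    Prop where
  shell : Shell r1 r2 A' Φ U γ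
  inc : Inc pt γ
  mem1 : r1 ∈ γ
  mem2 : r2 ∈ γ
  sub : ∀ w ∈ γ, w ∈ U
  adj : ∀ a b, Adjt γ a b → A a b ∧ A' a b
  side : ∀ a b, Adjt γ a b → ∀ w, (pt a).1 < (pt w).1 → (pt w).1 < (pt b).1 →
    (w ∈ U ↔ orient (pt a) (pt b) (pt w) < 0)
  symm : ∀ a b, A' a b → A' b a
  ends : ∀ a b, A' a b → a ∈ U
  below : ∀ u v, A' u v → ∀ w ∈ γ, (pt u).1 < (pt w).1 → (pt w).1 < (pt v).1 →
    0 < orient (pt u) (pt v) (pt w)
  above : ∀ u v, A u v → ¬ A' u v → ∀ w ∈ γ, (pt u).1 < (pt w).1 → (pt w).1 < (pt v).1 →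
    orient (pt u) (pt v) (pt w) < 0
  cov : ∀ w ∈ U, w ∉ γ → ∀ v, A w v → A' w v
  outer : ({r1, r2, r3} : Finset V) ∉ Φ
  a12 : A' r1 r2

section main

set_option linter.unusedSectionVars false

variable {V : Type*} [Fintype V] [DecidableEq V] {pt : V → Pt} {A : V → V → Prop} {r1 r2 r3 : V}

theorem gp_ne (h : GenPos pt) {a b c : V} (hab : (pt a).1 < (pt b).1) (hc : c ≠ a) (hc' : c ≠ b) :
    orient (pt a) (pt b) (pt c) ≠ 0 :=
  h.not_col a b c (by rintro rfl; exact lt_irrefl _ hab) hc.symm hc'.symm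

theorem ne_of_x_lt {a b : V} (h : (pt a).1 < (pt b).1) : a ≠ b := by
  rintro rfl; exact lt_irrefl _ h

theorem base_adj (h : MaxPlane pt A) (hT : InTri pt r1 r2 r3) : A r1 r2 := by
  by_contra hc
  obtain ⟨c, d, _, h1, _⟩ := h.maximal r1 r2 hT.h12 hc
  have hn : ∀ w, 0 ≤ orient (pt r1) (pt r2) (pt w) := by
    intro w
    by_cases h1 : w = r1
    · rw [h1, or_left]
    · by_cases h2 : w = r2
      · rw [h2, or_right]
      · exact (hT.base w h1 h2).le
  nlinarith [mul_nonneg (hn c) (hn d)]

theorem inv_base (h : MaxPlane pt A) (hT : InTri pt r1 r2 r3) :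
    Inv pt A r1 r2 r3 (edgeRel r1 r2) ∅ {r1, r2} [r1, r2] := by
  have h12 : (pt r1).1 < (pt r2).1 := hT.left r2 hT.h12.symm
  have hadj : ∀ a b, Adjt [r1, r2] a b → a = r1 ∧ b = r2 := by
    rintro a b ⟨l, r, e⟩
    match l, e with
    | [], e =>
      simp only [List.nil_append, List.cons.injEq] at e
      exact ⟨e.1.symm, e.2.1.symm⟩
    | [x], e => simp at e
    | x :: y :: l, e => simp at e
  have hno : ∀ w ∈ [r1, r2], ∀ u v : V, (pt u).1 < (pt w).1 → (pt w).1 < (pt v).1 → False := by
    intro w hw u v h1 h2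
    simp only [List.mem_cons, List.not_mem_nil, or_false] at hw
    rcases hw with rfl | rfl
    · have := hT.left u (ne_of_x_lt h1)
      linarith
    · have := hT.right v (ne_of_x_lt h2).symm
      linarith
  refine ⟨Shell.base hT.h12, ?_, by simp, by simp, by simp, ?_, ?_, ?_, ?_, ?_, ?_, ?_, by simp,
    Or.inl ⟨rfl, rfl⟩⟩
  · simp [Inc, h12]
  · intro a b hab
    obtain ⟨rfl, rfl⟩ := hadj a b hab
    exact ⟨base_adj h hT, Or.inl ⟨rfl, rfl⟩⟩
  · intro a b hab w h1 h2
    obtain ⟨rfl, rfl⟩ := hadj a b hab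
    have hw1 : w ≠ a := (ne_of_x_lt h1).symm
    have hw2 : w ≠ b := ne_of_x_lt h2
    have := hT.base w hw1 hw2
    simp only [Finset.mem_insert, Finset.mem_singleton, hw1, hw2, or_self, false_iff, not_lt]
    exact this.le
  · rintro a b (⟨rfl, rfl⟩ | ⟨rfl, rfl⟩)
    · exact Or.inr ⟨rfl, rfl⟩
    · exact Or.inl ⟨rfl, rfl⟩
  · rintro a b (⟨rfl, rfl⟩ | ⟨rfl, rfl⟩) <;> simp
  · intro u v _ w hw h1 h2
    exact (hno w hw u v h1 h2).elim
  · intro u v _ _ w hw h1 h2
    exact (hno w hw u v h1 h2).elim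
  · intro w hw hw'
    exfalso
    apply hw'
    simpa using hw

/-- first operation: a new vertex -/
theorem inv_op1 (h : MaxPlane pt A) (hT : InTri pt r1 r2 r3) {A' : V → V → Prop}
    {Φ : Finset (Finset V)} {U : Finset V} {l r : List V} {a b z : V}
    (hI : Inv pt A r1 r2 r3 A' Φ U (l ++ a :: b :: r)) (hz : Apx pt A a b z)
    (h1 : (pt a).1 < (pt z).1) (h2 : (pt z).1 < (pt b).1)
    (h4 : ∃ w, w ≠ r1 ∧ w ≠ r2 ∧ w ≠ r3) :
    z ∉ U ∧ Inv pt A r1 r2 r3 (fun s t => A' s t ∨ edgeRel a z s t ∨ edgeRel z b s t)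
        (insert {a, b, z} Φ) (insert z U) (l ++ a :: z :: b :: r) := by
  have habx : (pt a).1 < (pt b).1 := h1.trans h2
  have hab := adjt_mid l r a b
  obtain ⟨hz1, hz2, hz3, hz4⟩ := hz
  have hzU : z ∉ U := by
    intro hc
    have := (hI.side a b hab z h1 h2).1 hc
    linarith
  have hzγ : z ∉ l ++ a :: b :: r := not_mem_of_between hI.inc hab h1 h2
  have hinc : Inc pt (l ++ a :: z :: b :: r) := by
    have h0 := hI.inc
    unfold Inc at h0 ⊢
    rw [List.pairwise_append] at h0 ⊢
    obtain ⟨p1, p2, p3⟩ := h0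
    rw [List.pairwise_cons, List.pairwise_cons] at p2
    refine ⟨p1, ?_, ?_⟩
    · rw [List.pairwise_cons, List.pairwise_cons, List.pairwise_cons]
      refine ⟨?_, ?_, p2.2.1, p2.2.2⟩
      · intro w hw
        rcases List.mem_cons.1 hw with rfl | hw
        · exact h1
        · exact p2.1 w hw
      · intro w hw
        rcases List.mem_cons.1 hw with rfl | hw
        · exact h2
        · exact h2.trans (p2.2.1 w hw)
    · intro w hw v hv
      rcases List.mem_cons.1 hv with rfl | hv
      · exact p3 w hw v (by simp)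
      · rcases List.mem_cons.1 hv with rfl | hv
        · exact (p3 w hw a (by simp)).trans h1
        · exact p3 w hw v (List.mem_cons_of_mem _ hv)
  have hmem : ∀ w, w ∈ l ++ a :: z :: b :: r ↔ w = z ∨ w ∈ l ++ a :: b :: r := by
    intro w
    simp only [List.mem_append, List.mem_cons]
    tauto
  have haγ : a ∈ l ++ a :: b :: r := (adjt_mem hab).1
  have hbγ : b ∈ l ++ a :: b :: r := (adjt_mem hab).2
  have haU := hI.sub a haγ
  have hbU := hI.sub b hbγ
  have hAab : A a b ∧ A' a b := hI.adj a b hab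
  -- unused vertices between a and b are above the new chain
  have hout : ∀ w, w ∉ U → w ≠ z → (pt a).1 < (pt w).1 → (pt w).1 < (pt b).1 →
      ((pt w).1 < (pt z).1 → 0 < orient (pt a) (pt z) (pt w)) ∧
      ((pt z).1 < (pt w).1 → 0 < orient (pt z) (pt b) (pt w)) := by
    intro w hw hwz hwa hwb
    have e1 : 0 ≤ orient (pt a) (pt b) (pt w) := by
      by_contra hc
      exact hw ((hI.side a b hab w hwa hwb).2 (not_le.1 hc))
    have e2 := hz4 w (ne_of_x_lt hwa).symm (ne_of_x_lt hwb) hwz
    constructor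
    · intro hx
      by_contra hc
      push Not at hc
      apply e2
      refine ⟨e1, ?_, ?_⟩
      · rw [or_swap (pt z) (pt b)]
        have := ext_left h1 h2 hz1 hx.le hc
        linarith
      · rw [or_swap (pt a) (pt z)]
        linarith
    · intro hx
      by_contra hc
      push Not at hc
      apply e2
      refine ⟨e1, ?_, ?_⟩
      · rw [or_swap (pt z) (pt b)]
        linarith
      · rw [or_swap (pt a) (pt z)]
        have := ext_right h1 h2 hz1 hx.le hc
        linarith
  have hzU' : ∀ w, w ≠ z → (w ∈ insert z U ↔ w ∈ U) := by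
    intro w hw
    simp [hw]
  have hza : Adjt (l ++ a :: z :: b :: r) a z := ⟨l, b :: r, rfl⟩
  have hzb : Adjt (l ++ a :: z :: b :: r) z b := ⟨l ++ [a], r, by simp⟩
  have hznew : z ∈ l ++ a :: z :: b :: r := (hmem z).2 (Or.inl rfl)
  refine ⟨hzU, Shell.op1 A' Φ U l r a b z hI.shell hzU, hinc, (hmem _).2 (Or.inr hI.mem1),
    (hmem _).2 (Or.inr hI.mem2), ?_, ?_, ?_, ?_, ?_, ?_, ?_, ?_, ?_, Or.inl hI.a12⟩
  · intro w hw
    rcases (hmem w).1 hw with rfl | hw
    · exact Finset.mem_insert_self _ _
    · exact Finset.mem_insert_of_mem (hI.sub w hw)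
  · intro p q hpq
    rcases adjt_ins hpq with hpq | ⟨rfl, rfl⟩ | ⟨rfl, rfl⟩
    · exact ⟨(hI.adj p q hpq).1, Or.inl (hI.adj p q hpq).2⟩
    · exact ⟨hz2, Or.inr (Or.inl (Or.inl ⟨rfl, rfl⟩))⟩
    · exact ⟨h.symm _ _ hz3, Or.inr (Or.inr (Or.inl ⟨rfl, rfl⟩))⟩
  · intro p q hpq w hpw hwq
    have hwz : w ≠ z := by
      rintro rfl
      rcases adjt_sep hinc hpq hznew with h | h <;> linarith
    rw [hzU' w hwz]
    rcases adjt_ins hpq with hpq | ⟨rfl, rfl⟩ | ⟨rfl, rfl⟩
    · exact hI.side p q hpq w hpw hwq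
    · have hs := hI.side p b hab w hpw (hwq.trans h2)
      constructor
      · intro hw
        exact below_left habx h1 hpw hz1 (hs.1 hw)
      · intro hw
        by_contra hc
        have := (hout w hc hwz hpw (hwq.trans h2)).1 hwq
        linarith
    · have hs := hI.side a q hab w (h1.trans hpw) hwq
      constructor
      · intro hw
        exact below_right habx h2 hwq hz1 (hs.1 hw)
      · intro hw
        by_contra hc
        have := (hout w hc hwz (h1.trans hpw) hwq).2 hpw
        linarith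
  · intro s t hst
    rcases hst with hst | hst | hst
    · exact Or.inl (hI.symm _ _ hst)
    · right; left
      rcases hst with ⟨h1, h2⟩ | ⟨h1, h2⟩
      · exact Or.inr ⟨h2, h1⟩
      · exact Or.inl ⟨h2, h1⟩
    · right; right
      rcases hst with ⟨h1, h2⟩ | ⟨h1, h2⟩
      · exact Or.inr ⟨h2, h1⟩
      · exact Or.inl ⟨h2, h1⟩
  · intro s t hst
    rcases hst with hst | hst | hst
    · exact Finset.mem_insert_of_mem (hI.ends _ _ hst)
    · rcases hst with ⟨rfl, _⟩ | ⟨rfl, _⟩
      · exact Finset.mem_insert_of_mem haU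
      · exact Finset.mem_insert_self _ _
    · rcases hst with ⟨rfl, _⟩ | ⟨rfl, _⟩
      · exact Finset.mem_insert_self _ _
      · exact Finset.mem_insert_of_mem hbU
  · intro u v huv w hw huw hwv
    rcases huv with huv | huv | huv
    · rcases (hmem w).1 hw with rfl | hw
      · refine mid_pos h1 h2 huw hwv hz1 ?_ ?_
        · rcases lt_trichotomy (pt u).1 (pt a).1 with hu | hu | hu
          · exact Or.inl (hI.below u v huv a haγ hu (h1.trans hwv)).le
          · have : u = a := by
              by_contra hne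
              exact h.gen.x_ne _ _ hne hu
            rw [this]
            exact Or.inr (or_left _ _).le
          · exact Or.inr ((hI.side a b hab u hu (huw.trans h2)).1 (hI.ends _ _ huv)).le
        · rcases lt_trichotomy (pt b).1 (pt v).1 with hv | hv | hv
          · exact Or.inl (hI.below u v huv b hbγ (huw.trans h2) hv).le
          · have : b = v := by
              by_contra hne
              exact h.gen.x_ne _ _ hne hv
            rw [this]
            exact Or.inl (or_right _ _).ge
          · exact Or.inr ((hI.side a b hab v (h1.trans hwv) hv).1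
              (hI.ends _ _ (hI.symm _ _ huv))).le
      · exact hI.below u v huv w hw huw hwv
    · exfalso
      rcases huv with ⟨rfl, rfl⟩ | ⟨rfl, rfl⟩
      · rcases adjt_sep hinc hza hw with h | h <;> linarith
      · linarith
    · exfalso
      rcases huv with ⟨rfl, rfl⟩ | ⟨rfl, rfl⟩
      · rcases adjt_sep hinc hzb hw with h | h <;> linarith
      · linarith
  · intro u v huv hnuv w hw huw hwv
    have hn : ¬ A' u v := fun hc => hnuv (Or.inl hc)
    rcases (hmem w).1 hw with rfl | hw
    · by_contra hc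
      push Not at hc
      have hpos : 0 < orient (pt u) (pt v) (pt w) :=
        lt_of_le_of_ne hc (Ne.symm (gp_ne h.gen (huw.trans hwv) (ne_of_x_lt huw).symm
          (ne_of_x_lt hwv)))
      have hua : u = a := by
        by_contra hne
        rcases lt_or_gt_of_ne (h.gen.x_ne _ _ hne) with hu | hu
        · exact h.nocross u v a w huv hz2 (cross_left huw hwv h1 hpos
            (Or.inl ⟨hu, hI.above u v huv hn a haγ hu (h1.trans hwv)⟩))
        · have huU : u ∉ U := by
            intro huU
            exact hn (hI.cov u huU (not_mem_of_between hI.inc hab hu (huw.trans h2)) v huv)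
          exact h.nocross u v a w huv hz2 (cross_left huw hwv h1 hpos
            (Or.inr ⟨hu, (hout u huU (ne_of_x_lt huw) hu (huw.trans h2)).1 huw⟩))
      have hvb : v = b := by
        by_contra hne
        rcases lt_or_gt_of_ne (h.gen.x_ne _ _ hne) with hv | hv
        · have hvU : v ∉ U := by
            intro hvU
            exact hn (hI.symm _ _ (hI.cov v hvU (not_mem_of_between hI.inc hab (h1.trans hwv) hv) u
              (h.symm _ _ huv)))
          exact h.nocross u v w b huv (h.symm _ _ hz3) (cross_right huw hwv h2 hpos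
            (Or.inr ⟨hv, (hout v hvU (ne_of_x_lt hwv).symm (h1.trans hwv) hv).2 hwv⟩))
        · exact h.nocross u v w b huv (h.symm _ _ hz3) (cross_right huw hwv h2 hpos
            (Or.inl ⟨hv, hI.above u v huv hn b hbγ (huw.trans h2) hv⟩))
      rw [hua, hvb] at hn
      exact hn hAab.2
    · exact hI.above u v huv hn w hw huw hwv
  · intro w hw hw' v hv
    have hwz : w ≠ z := by
      rintro rfl
      exact hw' hznew
    exact Or.inl (hI.cov w ((hzU' w hwz).1 hw) (fun hc => hw' ((hmem w).2 (Or.inr hc))) v hv)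
  · intro hc
    rcases Finset.mem_insert.1 hc with hc | hc
    · have m1 : r1 ∈ ({a, b, z} : Finset V) := by rw [← hc]; simp
      have m2 : r2 ∈ ({a, b, z} : Finset V) := by rw [← hc]; simp
      have m3 : r3 ∈ ({a, b, z} : Finset V) := by rw [← hc]; simp
      simp only [Finset.mem_insert, Finset.mem_singleton] at m1 m2 m3
      have e1 : r1 = a := by
        by_contra hne
        have := hT.left a (fun h => hne h.symm)
        rcases m1 with m | m | m
        · exact hne m
        · rw [m] at this; linarith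
        · rw [m] at this; linarith
      have e2 : r2 = b := by
        by_contra hne
        have := hT.right b (fun h => hne h.symm)
        rcases m2 with m | m | m
        · rw [m] at this; linarith
        · exact hne m
        · rw [m] at this; linarith
      have e3 : r3 = z := by
        rcases m3 with m | m | m
        · exact absurd (e1.trans m.symm) hT.h13
        · exact absurd (e2.trans m.symm) hT.h23
        · exact m
      obtain ⟨w, w1, w2, w3⟩ := h4
      refine hz4 w (e1 ▸ w1) (e2 ▸ w2) (e3 ▸ w3) ?_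
      rw [← e1, ← e2, ← e3]
      exact ⟨(hT.base w w1 w2).le, (hT.side2 w w2 w3).le, (hT.side3 w w3 w1).le⟩
    · exact hI.outer hc

/-- second operation: closing a triangle -/
theorem inv_op2 (h : MaxPlane pt A) (hT : InTri pt r1 r2 r3) {A' : V → V → Prop}
    {Φ : Finset (Finset V)} {U : Finset V} {l r : List V} {a b c : V}
    (hI : Inv pt A r1 r2 r3 A' Φ U (l ++ a :: b :: c :: r)) (hz : Apx pt A a b c) :
    ¬ A' a c ∧ Inv pt A r1 r2 r3 (fun s t => A' s t ∨ edgeRel a c s t)
        (insert {a, b, c} Φ) U (l ++ a :: c :: r) := by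
  have hab : Adjt (l ++ a :: b :: c :: r) a b := ⟨l, c :: r, rfl⟩
  have hbc : Adjt (l ++ a :: b :: c :: r) b c := ⟨l ++ [a], r, by simp⟩
  have h1 := adjt_lt hI.inc hab
  have h2 := adjt_lt hI.inc hbc
  obtain ⟨hz1, hz2, hz3, hz4⟩ := hz
  have haγ := (adjt_mem hab).1
  have hbγ := (adjt_mem hab).2
  have hcγ := (adjt_mem hbc).2
  have hac : ¬ A' a c := by
    intro hc
    have := hI.below a c hc b hbγ h1 h2
    rw [or_swap'] at this
    linarith
  have hsl : List.Sublist (l ++ a :: c :: r) (l ++ a :: b :: c :: r) := by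
    refine List.Sublist.append_left ?_ l
    exact List.Sublist.cons_cons a (List.sublist_cons_self b (c :: r))
  have hinc : Inc pt (l ++ a :: c :: r) := List.Pairwise.sublist hsl hI.inc
  have hmem : ∀ w, w ∈ l ++ a :: b :: c :: r ↔ w = b ∨ w ∈ l ++ a :: c :: r := by
    intro w
    simp only [List.mem_append, List.mem_cons]
    tauto
  have hnew : Adjt (l ++ a :: c :: r) a c := adjt_mid _ _ _ _
  have hsub : ∀ w, w ∈ l ++ a :: c :: r → w ∈ l ++ a :: b :: c :: r :=
    fun w hw => (hmem w).2 (Or.inr hw)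
  -- unused vertices above ab or bc are above ac
  have hempty : ∀ w, w ≠ a → w ≠ b → w ≠ c → 0 ≤ orient (pt a) (pt b) (pt w) →
      0 ≤ orient (pt b) (pt c) (pt w) → 0 < orient (pt a) (pt c) (pt w) := by
    intro w wa wb wc e1 e2
    by_contra hc
    push Not at hc
    refine hz4 w wa wb wc ⟨e1, e2, ?_⟩
    rw [or_swap (pt a) (pt c)]
    linarith
  have hcov : ∀ v, A b v → A' b v := by
    intro v hv
    by_contra hn
    have hvb : v ≠ b := by
      rintro rfl
      exact h.irrefl _ hv
    have hva : v ≠ a := by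
      rintro rfl
      exact hn (hI.symm _ _ (hI.adj _ _ hab).2)
    have hvc : v ≠ c := by
      rintro rfl
      exact hn (hI.adj _ _ hbc).2
    have hcr : 0 ≤ orient (pt a) (pt b) (pt v) → 0 ≤ orient (pt b) (pt c) (pt v) → False := by
      intro e1 e2
      have e3 := hempty v hva hvb hvc e1 e2
      have e1' : 0 < orient (pt a) (pt b) (pt v) :=
        lt_of_le_of_ne e1 (Ne.symm (gp_ne h.gen h1 hva hvb))
      have e2' : 0 < orient (pt b) (pt c) (pt v) :=
        lt_of_le_of_ne e2 (Ne.symm (gp_ne h.gen h2 hvb hvc))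
      refine h.nocross b v a c hv hz2 ⟨?_, ?_⟩
      · rw [or_cyc (pt a) (pt b) (pt v), or_swap' (pt b) (pt c) (pt v)]
        exact mul_neg_of_pos_of_neg e1' (by linarith)
      · rw [or_swap' (pt a) (pt b) (pt c)]
        exact mul_neg_of_neg_of_pos (by linarith) e3
    rcases lt_or_gt_of_ne (h.gen.x_ne _ _ hvb) with hx | hx
    · rcases le_or_gt 0 (orient (pt a) (pt b) (pt v)) with ho | ho
      · exact hcr ho (ext2_left h1 h2 hz1 hx ho).le
      · rcases lt_or_gt_of_ne (h.gen.x_ne _ _ hva) with hx' | hx'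
        · have := hI.above v b (h.symm _ _ hv) (fun hc => hn (hI.symm _ _ hc)) a haγ hx' h1
          rw [or_cyc (pt a) (pt v) (pt b), or_swap' (pt a) (pt b) (pt v)] at this
          linarith
        · have hvU := (hI.side a b hab v hx' hx).2 ho
          exact hn (hI.symm _ _ (hI.cov v hvU (not_mem_of_between hI.inc hab hx' hx) b
            (h.symm _ _ hv)))
    · rcases le_or_gt 0 (orient (pt b) (pt c) (pt v)) with ho | ho
      · exact hcr (ext2_right h1 h2 hz1 hx ho).le ho
      · rcases lt_or_gt_of_ne (h.gen.x_ne _ _ hvc) with hx' | hx'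
        · have hvU := (hI.side b c hbc v hx hx').2 ho
          exact hn (hI.symm _ _ (hI.cov v hvU (not_mem_of_between hI.inc hbc hx hx') b
            (h.symm _ _ hv)))
        · have := hI.above b v hv hn c hcγ h2 hx'
          rw [or_swap' (pt b) (pt c) (pt v)] at this
          linarith
  refine ⟨hac, Shell.op2 A' Φ U l r a b c hI.shell hac, hinc, ?_, ?_, ?_, ?_, ?_, ?_, ?_, ?_, ?_,
    ?_, ?_, Or.inl hI.a12⟩
  · refine ((hmem _).1 hI.mem1).resolve_left ?_
    rintro rfl
    have := hT.left a (ne_of_x_lt h1)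
    linarith
  · refine ((hmem _).1 hI.mem2).resolve_left ?_
    rintro rfl
    have := hT.right c (ne_of_x_lt h2).symm
    linarith
  · intro w hw
    exact hI.sub w (hsub w hw)
  · intro p q hpq
    rcases adjt_del (b := b) hpq with hpq | ⟨rfl, rfl⟩
    · exact ⟨(hI.adj p q hpq).1, Or.inl (hI.adj p q hpq).2⟩
    · exact ⟨hz2, Or.inr (Or.inl ⟨rfl, rfl⟩)⟩
  · intro p q hpq w hpw hwq
    rcases adjt_del (b := b) hpq with hpq | ⟨rfl, rfl⟩
    · exact hI.side p q hpq w hpw hwq
    · rcases lt_trichotomy (pt w).1 (pt b).1 with hx | hx | hx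
      · have hs := hI.side p b hab w hpw hx
        constructor
        · intro hw
          exact below_left h1 (h1.trans h2) hpw hz1 (hs.1 hw)
        · intro hw
          by_contra hc
          have e1 : 0 ≤ orient (pt p) (pt b) (pt w) := by
            by_contra hc'
            exact hc (hs.2 (not_le.1 hc'))
          have := hempty w (ne_of_x_lt hpw).symm (ne_of_x_lt hx) (ne_of_x_lt hwq) e1
            (ext2_left h1 h2 hz1 hx e1).le
          linarith
      · have : w = b := by
          by_contra hne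
          exact h.gen.x_ne _ _ hne hx
        rw [this]
        have e : orient (pt p) (pt q) (pt b) < 0 := by
          rw [or_swap']
          linarith
        exact ⟨fun _ => e, fun _ => hI.sub b hbγ⟩
      · have hs := hI.side b q hbc w hx hwq
        constructor
        · intro hw
          have e0 : 0 < orient (pt b) (pt q) (pt p) := by rw [or_cyc (pt p) (pt b) (pt q)]; exact hz1
          have e1 := hs.1 hw
          -- w below bq, then below pq
          have e : (pt q).1 - (pt b).1 > 0 := by linarith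
          by_contra hc
          push Not at hc
          have id : ((pt q).1 - (pt b).1) * orient (pt p) (pt q) (pt w) =
              ((pt q).1 - (pt p).1) * orient (pt b) (pt q) (pt w) -
              ((pt q).1 - (pt w).1) * orient (pt p) (pt b) (pt q) := by
            unfold orient; ring
          nlinarith [mul_nonneg e.le hc, mul_pos (sub_pos.2 (h1.trans h2)) (neg_pos.2 e1),
            mul_pos (sub_pos.2 hwq) hz1]
        · intro hw
          by_contra hc
          have e1 : 0 ≤ orient (pt b) (pt q) (pt w) := by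
            by_contra hc'
            exact hc (hs.2 (not_le.1 hc'))
          have := hempty w (ne_of_x_lt hpw).symm (ne_of_x_lt hx).symm (ne_of_x_lt hwq)
            (ext2_right h1 h2 hz1 hx e1).le e1
          linarith
  · intro s t hst
    rcases hst with hst | hst
    · exact Or.inl (hI.symm _ _ hst)
    · right
      rcases hst with ⟨h1, h2⟩ | ⟨h1, h2⟩
      · exact Or.inr ⟨h2, h1⟩
      · exact Or.inl ⟨h2, h1⟩
  · intro s t hst
    rcases hst with hst | hst
    · exact hI.ends _ _ hst
    · rcases hst with ⟨rfl, _⟩ | ⟨rfl, _⟩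
      · exact hI.sub _ haγ
      · exact hI.sub _ hcγ
  · intro u v huv w hw huw hwv
    rcases huv with huv | huv
    · exact hI.below u v huv w (hsub w hw) huw hwv
    · exfalso
      rcases huv with ⟨rfl, rfl⟩ | ⟨rfl, rfl⟩
      · rcases adjt_sep hinc hnew hw with h | h <;> linarith
      · linarith
  · intro u v huv hnuv w hw huw hwv
    exact hI.above u v huv (fun hc => hnuv (Or.inl hc)) w (hsub w hw) huw hwv
  · intro w hw hw' v hv
    by_cases hwb : w = b
    · rw [hwb] at hv ⊢
      exact Or.inl (hcov v hv)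
    · exact Or.inl (hI.cov w hw (fun hc => by
        rcases (hmem w).1 hc with h | h
        · exact hwb h
        · exact hw' h) v hv)
  · intro hc
    rcases Finset.mem_insert.1 hc with hc | hc
    · have m1 : r1 ∈ ({a, b, c} : Finset V) := by rw [← hc]; simp
      have m2 : r2 ∈ ({a, b, c} : Finset V) := by rw [← hc]; simp
      have m3 : r3 ∈ ({a, b, c} : Finset V) := by rw [← hc]; simp
      simp only [Finset.mem_insert, Finset.mem_singleton] at m1 m2 m3
      have e1 : r1 = a := by
        by_contra hne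
        have := hT.left a (fun h => hne h.symm)
        rcases m1 with m | m | m
        · exact hne m
        · rw [m] at this; linarith
        · rw [m] at this; linarith
      have e2 : r2 = c := by
        by_contra hne
        have := hT.right c (fun h => hne h.symm)
        rcases m2 with m | m | m
        · rw [m] at this; linarith
        · rw [m] at this; linarith
        · exact hne m
      have e3 : r3 = b := by
        rcases m3 with m | m | m
        · exact absurd (e1.trans m.symm) hT.h13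
        · exact m
        · exact absurd (e2.trans m.symm) hT.h23
      have := hT.base r3 hT.h13.symm hT.h23.symm
      rw [e1, e2, e3, or_swap'] at this
      linarith
    · exact hI.outer hc

/-- the two triangles at a chain vertex -/
theorem ready (h : MaxPlane pt A) {p q s z z' : V} (hpq : (pt p).1 < (pt q).1)
    (hqs : (pt q).1 < (pt s).1) (hA : A q s) (hz : Apx pt A p q z) (hz' : Apx pt A q s z')
    (hx : (pt q).1 < (pt z).1) (hx' : (pt z').1 < (pt q).1) : z = s := by
  obtain ⟨a1, a2, a3, a4⟩ := hz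
  obtain ⟨b1, b2, b3, b4⟩ := hz'
  by_contra hne
  have hzq : z ≠ q := (ne_of_x_lt hx).symm
  rcases lt_or_gt_of_ne (gp_ne h.gen hqs hzq hne) with ho | ho
  · have e1 : 0 < orient (pt q) (pt z) (pt s) := by rw [or_swap']; linarith
    have e2 : 0 < orient (pt q) (pt s) (pt p) := by
      have e := pl (pt q) (pt z) (pt s) (pt p)
      rw [or_cyc (pt p) (pt q) (pt z)] at e
      by_contra hc
      push Not at hc
      nlinarith [mul_pos (sub_pos.2 hpq) e1, mul_pos (sub_pos.2 hqs) a1,
        mul_nonneg (sub_pos.2 hx).le (neg_nonneg.2 hc)]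
    have e3 : orient (pt z) (pt p) (pt s) < 0 := by
      by_contra hc
      push Not at hc
      refine a4 s (ne_of_x_lt (hpq.trans hqs)).symm (ne_of_x_lt hqs).symm (Ne.symm hne)
        ⟨?_, e1.le, hc⟩
      rw [← or_cyc]
      exact e2.le
    refine h.nocross q s p z hA a2 ⟨mul_neg_of_pos_of_neg e2 ho, ?_⟩
    rw [or_swap' (pt p) (pt q) (pt z), or_swap (pt z) (pt p)]
    exact mul_neg_of_neg_of_pos (by linarith) (by linarith)
  · have e1 : 0 < orient (pt q) (pt z) (pt z') := by
      have e := pl (pt q) (pt s) (pt z) (pt z')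
      by_contra hc
      push Not at hc
      nlinarith [mul_pos (sub_pos.2 hx') ho, mul_pos (sub_pos.2 hx) b1,
        mul_nonneg (sub_pos.2 hqs).le (neg_nonneg.2 hc)]
    have e3 : orient (pt s) (pt z') (pt z) < 0 := by
      by_contra hc
      push Not at hc
      refine b4 z hzq hne (ne_of_x_lt (hx'.trans hx)).symm ⟨ho.le, hc, ?_⟩
      rw [← or_cyc]
      exact e1.le
    refine h.nocross q z s z' a3 b3 ⟨?_, ?_⟩
    · rw [or_swap']
      exact mul_neg_of_neg_of_pos (by linarith) e1
    · rw [or_cyc (pt q) (pt s) (pt z')]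
      exact mul_neg_of_pos_of_neg b1 e3

/-- `r3` is a corner of the hull -/
theorem hull (hT : InTri pt r1 r2 r3) {p s : V} (hp : (pt p).1 < (pt r3).1)
    (hs : (pt r3).1 < (pt s).1) : orient (pt r3) (pt s) (pt p) < 0 := by
  have h13 : (pt r1).1 < (pt r3).1 := hT.left r3 hT.h13.symm
  have h32 : (pt r3).1 < (pt r2).1 := hT.right r3 hT.h23.symm
  have hΔ : 0 < orient (pt r3) (pt r1) (pt r2) := by
    rw [← or_cyc]
    exact hT.base r3 hT.h13.symm hT.h23.symm
  have e1 : 0 ≤ orient (pt r3) (pt r1) (pt p) := by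
    by_cases hpr : p = r1
    · rw [hpr, or_right]
    · exact (hT.side3 p (ne_of_x_lt hp) hpr).le
  have e2 : 0 ≤ orient (pt r2) (pt r3) (pt s) := by
    by_cases hsr : s = r2
    · rw [hsr, or_left]
    · exact (hT.side2 s hsr (ne_of_x_lt hs).symm).le
  have e3 : 0 < orient (pt r3) (pt p) (pt r2) := by
    have e := pl (pt r3) (pt r1) (pt r2) (pt p)
    rw [or_swap' (pt r3) (pt p) (pt r2)] at e
    by_contra hc
    push Not at hc
    nlinarith [mul_pos (sub_pos.2 hp) hΔ, mul_nonneg (sub_pos.2 h32).le e1,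
      mul_nonneg (sub_pos.2 h13).le (neg_nonneg.2 hc)]
  have e := pl (pt r3) (pt r2) (pt s) (pt p)
  rw [or_swap' (pt r3) (pt p) (pt r2)] at e
  rw [or_swap (pt r3) (pt r2)] at e2
  by_contra hc
  push Not at hc
  nlinarith [mul_nonneg (sub_pos.2 hp).le e2, mul_pos (sub_pos.2 hs) e3,
    mul_nonneg (sub_pos.2 h32).le hc]

/-- a point above every chain edge which is not a hull edge -/
theorem exists_above (hg : GenPos pt) (hT : InTri pt r1 r2 r3) {a b : V}
    (hab : (pt a).1 < (pt b).1) (h1 : ¬ (a = r1 ∧ b = r3)) (h2 : ¬ (a = r3 ∧ b = r2)) :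
    ∃ w, 0 < orient (pt a) (pt b) (pt w) := by
  by_contra hc
  push Not at hc
  have ha2 : a ≠ r2 := by
    rintro rfl
    have := hT.right b (ne_of_x_lt hab).symm
    linarith
  have hb1 : b ≠ r1 := by
    rintro rfl
    have := hT.left a (ne_of_x_lt hab)
    linarith
  have hΔ := hT.base r3 hT.h13.symm hT.h23.symm
  by_cases ha1 : a = r1
  · subst ha1
    by_cases hb2 : b = r2
    · subst hb2
      have := hc r3
      linarith
    · have hb3 : b ≠ r3 := fun h => h1 ⟨rfl, h⟩
      have := hT.side3 b hb3 hb1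
      have h' := hc r3
      rw [← or_cyc, ← or_cyc] at h'
      linarith
  · by_cases hb2 : b = r2
    · subst hb2
      have ha3 : a ≠ r3 := fun h => h2 ⟨h, rfl⟩
      have := hT.side2 a ha2 ha3
      have h' := hc r3
      rw [← or_cyc] at h'
      linarith
    · have hr1 : orient (pt a) (pt b) (pt r1) ≠ 0 := gp_ne hg hab (Ne.symm ha1) (Ne.symm hb1)
      have hr1' := hc r1
      have hr2' := hc r2
      have hr3' := hc r3
      have hneg : orient (pt a) (pt b) (pt r1) < 0 := lt_of_le_of_ne hr1' hr1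
      have key : ∀ p, orient (pt a) (pt b) (pt p) = 0 → 0 < orient (pt r1) (pt r2) (pt p) →
          0 < orient (pt r2) (pt r3) (pt p) → 0 < orient (pt r3) (pt r1) (pt p) → False := by
        intro p h0 l3 l1 l2
        have e : orient (pt r1) (pt r2) (pt r3) * orient (pt a) (pt b) (pt p) =
            orient (pt r2) (pt r3) (pt p) * orient (pt a) (pt b) (pt r1) +
            orient (pt r3) (pt r1) (pt p) * orient (pt a) (pt b) (pt r2) +
            orient (pt r1) (pt r2) (pt p) * orient (pt a) (pt b) (pt r3) := by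
          unfold orient; ring
        rw [h0] at e
        nlinarith [mul_pos l1 (neg_pos.2 hneg), mul_nonneg l2.le (neg_nonneg.2 hr2'),
          mul_nonneg l3.le (neg_nonneg.2 hr3')]
      by_cases ha3 : a = r3
      · have hb3 : b ≠ r3 := by
          intro h
          rw [ha3, h] at hab
          exact lt_irrefl _ hab
        exact key b (or_right _ _) (hT.base b hb1 hb2) (hT.side2 b hb2 hb3) (hT.side3 b hb3 hb1)
      · exact key a (or_left _ _) (hT.base a ha1 ha2) (hT.side2 a ha2 ha3) (hT.side3 a ha3 ha1)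

/-- one step of the sweep -/
theorem step (h : MaxPlane pt A) (hT : InTri pt r1 r2 r3)
    (h4 : ∃ w, w ≠ r1 ∧ w ≠ r2 ∧ w ≠ r3)
    (hap : ∀ a b : V, A a b → (pt a).1 < (pt b).1 → (∃ w, 0 < orient (pt a) (pt b) (pt w)) →
      ∃ z, Apx pt A a b z)
    {A' : V → V → Prop} {Φ : Finset (Finset V)} {U : Finset V} {γ : List V}
    (hI : Inv pt A r1 r2 r3 A' Φ U γ) (hγ : γ ≠ [r1, r3, r2]) :
    ∃ (A'' : V → V → Prop) (Φ' : Finset (Finset V)) (U' : Finset V) (γ' : List V),
      Inv pt A r1 r2 r3 A'' Φ' U' γ' ∧ (∀ s t, A' s t → A'' s t) ∧ ∃ s t, ¬ A' s t ∧ A'' s t := by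
  by_cases hM : ∃ a b z, Adjt γ a b ∧ Apx pt A a b z ∧ (pt a).1 < (pt z).1 ∧ (pt z).1 < (pt b).1
  · obtain ⟨a, b, z, ⟨l, r, rfl⟩, hz, h1, h2⟩ := hM
    obtain ⟨hzU, hI'⟩ := inv_op1 h hT hI hz h1 h2 h4
    refine ⟨_, _, _, _, hI', fun s t hst => Or.inl hst, z, a, ?_, ?_⟩
    · intro hc
      exact hzU (hI.ends _ _ hc)
    · exact Or.inr (Or.inl (Or.inr ⟨rfl, rfl⟩))
  · -- no apex in the middle
    have h12 : (pt r1).1 < (pt r2).1 := hT.left r2 hT.h12.symm
    obtain ⟨t, ht⟩ : ∃ t, γ = r1 :: (t ++ [r2]) := by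
      obtain ⟨l, r, hlr⟩ := List.append_of_mem hI.mem1
      have hinc := hI.inc
      unfold Inc at hinc
      rw [hlr, List.pairwise_append] at hinc
      have hl : l = [] := by
        rw [List.eq_nil_iff_forall_not_mem]
        intro w hw
        have h1 := hinc.2.2 w hw r1 (by simp)
        have h2 := hT.left w (ne_of_x_lt h1)
        linarith
      subst hl
      have hm2 := hI.mem2
      rw [hlr] at hm2
      have hm2' : r2 ∈ r := by
        simp only [List.nil_append, List.mem_cons] at hm2
        exact hm2.resolve_left (Ne.symm hT.h12)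
      obtain ⟨t, t', ht⟩ := List.append_of_mem hm2'
      have ht' : t' = [] := by
        rw [List.eq_nil_iff_forall_not_mem]
        intro w hw
        have h3 := hinc.2.1
        rw [List.pairwise_cons] at h3
        have h4 := h3.2
        rw [ht, List.pairwise_append, List.pairwise_cons] at h4
        have h1 := h4.2.1.1 w hw
        have h2 := hT.right w (ne_of_x_lt h1).symm
        linarith
      subst ht'
      exact ⟨t, by rw [hlr, ht]; simp⟩
    obtain ⟨l, r, p, q, s, e, hR, hL⟩ := find_RL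
      (R := fun p q => (p = r1 ∧ q = r3) ∨ ∃ z, Apx pt A p q z ∧ (pt q).1 < (pt z).1)
      (L := fun p q => (p = r3 ∧ q = r2) ∨ ∃ z, Apx pt A p q z ∧ (pt z).1 < (pt p).1)
      r2 (by
        rintro x (⟨_, h⟩ | ⟨z, _, h⟩)
        · exact hT.h23 h
        · have := hT.right z (ne_of_x_lt h).symm
          linarith) t r1 (by
        rw [← ht]
        intro a b hab
        have hx := adjt_lt hI.inc hab
        by_cases h1 : a = r1 ∧ b = r3
        · exact Or.inl (Or.inl h1)
        · by_cases h2 : a = r3 ∧ b = r2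
          · exact Or.inr (Or.inl h2)
          · obtain ⟨z, hz⟩ := hap a b (hI.adj a b hab).1 hx (exists_above h.gen hT hx h1 h2)
            have hza : z ≠ a := by
              rintro rfl
              exact h.irrefl _ hz.2.1
            have hzb : z ≠ b := by
              rintro rfl
              exact h.irrefl _ hz.2.2.1
            rcases lt_or_gt_of_ne (h.gen.x_ne _ _ hza) with hx' | hx'
            · exact Or.inr (Or.inr ⟨z, hz, hx'⟩)
            · rcases lt_or_gt_of_ne (h.gen.x_ne _ _ hzb) with hx'' | hx''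
              · exact absurd ⟨a, b, z, hab, hz, hx', hx''⟩ hM
              · exact Or.inl (Or.inr ⟨z, hz, hx''⟩)) (by
        rintro x (⟨h, _⟩ | ⟨z, _, h⟩)
        · exact hT.h13 h
        · have := hT.left z (ne_of_x_lt h)
          linarith)
    rw [← ht] at e
    have hpq : Adjt γ p q := ⟨l, s :: r, e⟩
    have hqs : Adjt γ q s := ⟨l ++ [p], r, by rw [e]; simp⟩
    have hpqx := adjt_lt hI.inc hpq
    have hqsx := adjt_lt hI.inc hqs
    rcases hR with ⟨rfl, rfl⟩ | ⟨z, hz, hzx⟩
    · rcases hL with ⟨_, rfl⟩ | ⟨z', hz', hzx'⟩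
      · -- the end
        exfalso
        apply hγ
        have hinc := hI.inc
        rw [e] at hinc
        obtain ⟨i1, _, i2⟩ := inc_parts hinc
        have hl : l = [] := by
          rw [List.eq_nil_iff_forall_not_mem]
          intro w hw
          have h1 := i1 w hw
          have h2 := hT.left w (ne_of_x_lt h1)
          linarith
        have hr : r = [] := by
          rw [List.eq_nil_iff_forall_not_mem]
          intro w hw
          have hinc' : Inc pt ((l ++ [p]) ++ q :: s :: r) := by simpa using hinc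
          have h1 := (inc_parts hinc').2.2 w hw
          have h2 := hT.right w (ne_of_x_lt h1).symm
          linarith
        rw [e, hl, hr]
        rfl
      · have h1 := hull hT hzx' hqsx
        linarith [hz'.1]
    · rcases hL with ⟨rfl, rfl⟩ | ⟨z', hz', hzx'⟩
      · have h1 := hull hT hpqx hzx
        have h2 := hz.1
        rw [← or_cyc] at h2
        linarith
      · have hzs := ready h hpqx hqsx (hI.adj _ _ hqs).1 hz hz' hzx hzx'
        subst hzs
        subst e
        obtain ⟨hps, hI'⟩ := inv_op2 h hT hI hz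
        exact ⟨_, _, _, _, hI', fun s t hst => Or.inl hst, p, z, hps, Or.inr (Or.inl ⟨rfl, rfl⟩)⟩

theorem exists_end (h : MaxPlane pt A) (hT : InTri pt r1 r2 r3)
    (h4 : ∃ w, w ≠ r1 ∧ w ≠ r2 ∧ w ≠ r3)
    (hap : ∀ a b : V, A a b → (pt a).1 < (pt b).1 → (∃ w, 0 < orient (pt a) (pt b) (pt w)) →
      ∃ z, Apx pt A a b z) :
    ∃ (A' : V → V → Prop) (Φ : Finset (Finset V)) (U : Finset V),
      Inv pt A r1 r2 r3 A' Φ U [r1, r3, r2] := by
  classical
  suffices H : ∀ (n : ℕ) (A' : V → V → Prop) (Φ : Finset (Finset V)) (U : Finset V) (γ : List V),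
      Inv pt A r1 r2 r3 A' Φ U γ →
      (Finset.univ.filter (fun x : V × V => ¬ A' x.1 x.2)).card = n →
      ∃ (A' : V → V → Prop) (Φ : Finset (Finset V)) (U : Finset V),
      Inv pt A r1 r2 r3 A' Φ U [r1, r3, r2] from
    H _ _ _ _ _ (inv_base h hT) rfl
  intro n
  induction n using Nat.strong_induction_on with
  | _ n ih =>
    intro A' Φ U γ hI hn
    by_cases hγ : γ = [r1, r3, r2]
    · subst hγ
      exact ⟨A', Φ, U, hI⟩
    · obtain ⟨A'', Φ', U', γ', hI', hle, s, t, hst, hst'⟩ := step h hT h4 hap hI hγ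
      refine ih _ ?_ A'' Φ' U' γ' hI' rfl
      rw [← hn]
      apply Finset.card_lt_card
      rw [Finset.ssubset_iff_of_subset]
      · refine ⟨(s, t), by simpa using hst, by simpa using hst'⟩
      · intro x hx
        simp only [Finset.mem_filter, Finset.mem_univ, true_and] at hx ⊢
        exact fun hc => hx (hle _ _ hc)

end main

end Sweep

/-- UG-7c, with UG-7b (apex) as a hypothesis. -/
theorem shell_of_maxPlane_of_apex {V : Type*} [Fintype V] [DecidableEq V] (pt : V → Pt)
    (A : V → V → Prop) (h : MaxPlane pt A) (r1 r2 r3 : V) (hT : InTri pt r1 r2 r3)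
    (h4 : ∃ w, w ≠ r1 ∧ w ≠ r2 ∧ w ≠ r3)
    (hap : ∀ a b : V, A a b → (pt a).1 < (pt b).1 → (∃ w, 0 < orient (pt a) (pt b) (pt w)) →
      ∃ z, 0 < orient (pt a) (pt b) (pt z) ∧ A a z ∧ A b z ∧
      ∀ w, w ≠ a → w ≠ b → w ≠ z → ¬ (0 ≤ orient (pt a) (pt b) (pt w) ∧
        0 ≤ orient (pt b) (pt z) (pt w) ∧ 0 ≤ orient (pt z) (pt a) (pt w))) :
    ∃ (A' : V → V → Prop) (Φ : Finset (Finset V)),
      Shell r1 r2 A' Φ Finset.univ [r1, r3, r2] ∧ (∀ a b, A a b → A' a b) ∧
      ({r1, r2, r3} : Finset V) ∉ Φ := by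
  obtain ⟨A', Φ, U, hI⟩ := Sweep.exists_end h hT h4 hap
  have h13 : Sweep.Adjt [r1, r3, r2] r1 r3 := ⟨[], [r2], rfl⟩
  have h32 : Sweep.Adjt [r1, r3, r2] r3 r2 := ⟨[r1], [], rfl⟩
  have hU : U = Finset.univ := by
    rw [Finset.eq_univ_iff_forall]
    intro w
    by_cases h1 : w = r1
    · exact h1 ▸ hI.sub r1 (by simp)
    by_cases h2 : w = r2
    · exact h2 ▸ hI.sub r2 (by simp)
    by_cases h3 : w = r3
    · exact h3 ▸ hI.sub r3 (by simp)
    rcases lt_or_gt_of_ne (h.gen.x_ne _ _ h3) with hx | hx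
    · refine (hI.side r1 r3 h13 w (hT.left w h1) hx).2 ?_
      rw [Sweep.or_swap]
      linarith [hT.side3 w h3 h1]
    · refine (hI.side r3 r2 h32 w hx (hT.right w h2)).2 ?_
      rw [Sweep.or_swap]
      linarith [hT.side2 w h2 h3]
  subst hU
  refine ⟨A', Φ, hI.shell, ?_, hI.outer⟩
  intro a b hab
  by_cases ha : a ∈ [r1, r3, r2]
  · by_cases hb : b ∈ [r1, r3, r2]
    · have e13 := (hI.adj _ _ h13).2
      have e32 := (hI.adj _ _ h32).2
      have e12 := hI.a12
      simp only [List.mem_cons, List.not_mem_nil, or_false] at ha hb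
      rcases ha with rfl | rfl | rfl <;> rcases hb with rfl | rfl | rfl <;>
        first
        | exact absurd hab (h.irrefl _)
        | assumption
        | exact hI.symm _ _ (by assumption)
    · exact hI.symm _ _ (hI.cov b (Finset.mem_univ _) hb a (h.symm _ _ hab))
  · exact hI.cov a (Finset.mem_univ _) ha b hab

end Pool.Agent.Univ
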