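import Pool.Agent.Univ.Defs

/-!
# Project UG, module UG-2: weights and alignment

From a Schnyder set system we produce the two coordinate functions `P, Q` of the drawing.  Every
face `f` gets a weight `1 + L z` (if it is the private face of `z`); `P z` is the weight of the
region `0` of `z` rounded down to a multiple of `max 1 (L z)`, a power of two, and `Q z` is the
weight of region `2`.  The function `L` is chosen maximal so that `L z` is at most proportional to
the largest product `α β` over the edges with head `z`.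
-/

namespace Pool.Agent.Univ

namespace Wt

set_option linter.unusedSectionVars false

variable {V : Type*} [Fintype V] [DecidableEq V] {H : SimpleGraph V} {F : Type*} [Fintype F]
  [DecidableEq F]

/-- the weight of a face -/
def om (S : SSys H F) (L : V → ℕ) (f : F) : ℕ := 1 + ∑ z, if S.priv z = f then L z else 0

/-- the weight of a region -/
def wt (S : SSys H F) (L : V → ℕ) (i : Fin 3) (v : V) : ℕ :=
  ∑ f, if S.lab v f = i then om S L f else 0

/-- the weight of a difference of regions -/
def dif (S : SSys H F) (L : V → ℕ) (j : Fin 3) (v p : V) : ℕ :=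
  ∑ f, if S.lab v f = j ∧ S.lab p f ≠ j then om S L f else 0

/-- total weight -/
def tot (S : SSys H F) (L : V → ℕ) : ℕ := ∑ f, om S L f

lemma tot_eq (S : SSys H F) (L : V → ℕ) : tot S L = Fintype.card F + ∑ z, L z := by
  unfold tot om
  rw [Finset.sum_add_distrib, Finset.sum_comm]
  simp

lemma wt_sum (S : SSys H F) (L : V → ℕ) (v : V) :
    wt S L 0 v + wt S L 1 v + wt S L 2 v = tot S L := by
  unfold wt tot
  rw [← Finset.sum_add_distrib, ← Finset.sum_add_distrib]
  apply Finset.sum_congr rfl
  intro f _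
  generalize S.lab v f = a
  fin_cases a <;> simp

lemma wt_le (S : SSys H F) (L : V → ℕ) (i : Fin 3) (v : V) : wt S L i v ≤ tot S L := by
  unfold wt tot
  apply Finset.sum_le_sum
  intro f _
  split_ifs <;> omega

lemma wt_add_dif (S : SSys H F) (L : V → ℕ) {j : Fin 3} {v p : V}
    (h : ∀ f, S.lab p f = j → S.lab v f = j) : wt S L j v = wt S L j p + dif S L j v p := by
  unfold wt dif
  rw [← Finset.sum_add_distrib]
  apply Finset.sum_congr rfl
  intro f _
  by_cases h1 : S.lab p f = j
  · simp [h1, h f h1]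
  · by_cases h2 : S.lab v f = j
    · simp [h1, h2]
    · simp [h1, h2]

lemma om_mono (S : SSys H F) {L L' : V → ℕ} (h : ∀ z, L z ≤ L' z) (f : F) :
    om S L f ≤ om S L' f := by
  unfold om
  gcongr with z
  split_ifs
  · exact h z
  · exact le_rfl

lemma dif_mono (S : SSys H F) {L L' : V → ℕ} (h : ∀ z, L z ≤ L' z) (j : Fin 3) (v p : V) :
    dif S L j v p ≤ dif S L' j v p := by
  unfold dif
  apply Finset.sum_le_sum
  intro f _
  split_ifs
  · exact om_mono S h f
  · exact le_rfl

/-- the edge `v p` has type `i`, tail `v` and head `p` -/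
def IsTail (S : SSys H F) (i : Fin 3) (v p : V) : Prop :=
  H.Adj v p ∧ (∀ f, S.lab v f = i → S.lab p f = i) ∧
    ∀ j, j ≠ i → ∀ f, S.lab p f = j → S.lab v f = j

/-- the two other labels -/
def J : Fin 3 → Fin 3 := ![1, 0, 0]
/-- the two other labels -/
def K : Fin 3 → Fin 3 := ![2, 2, 1]

lemma JK (i : Fin 3) : J i ≠ i ∧ K i ≠ i ∧ J i ≠ K i ∧ ∀ a, a = J i ∨ a = K i ∨ a = i := by
  fin_cases i <;> decide

open Classical in
/-- the product attached to an edge -/
noncomputable def pr (S : SSys H F) (L : V → ℕ) (i : Fin 3) (v p : V) : ℕ :=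
  if IsTail S i v p then dif S L (J i) v p * dif S L (K i) v p else 0

/-- the largest product over the edges of type `i` with head `p` -/
noncomputable def mi (S : SSys H F) (L : V → ℕ) (i : Fin 3) (p : V) : ℕ :=
  Finset.univ.sup (fun v => pr S L i v p)

lemma pr_mono (S : SSys H F) {L L' : V → ℕ} (h : ∀ z, L z ≤ L' z) (i : Fin 3) (v p : V) :
    pr S L i v p ≤ pr S L' i v p := by
  unfold pr
  split_ifs
  · exact Nat.mul_le_mul (dif_mono S h _ _ _) (dif_mono S h _ _ _)
  · exact le_rfl

lemma mi_mono (S : SSys H F) {L L' : V → ℕ} (h : ∀ z, L z ≤ L' z) (i : Fin 3) (p : V) :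
    mi S L i p ≤ mi S L' i p := by
  unfold mi
  apply Finset.sup_mono_fun
  intro v _
  exact pr_mono S h i v p

lemma pr_le_mi (S : SSys H F) (L : V → ℕ) (i : Fin 3) (v p : V) : pr S L i v p ≤ mi S L i p := by
  unfold mi
  exact Finset.le_sup (f := fun v => pr S L i v p) (Finset.mem_univ v)

lemma lt_antisymm' (S : SSys H F) {i : Fin 3} {u z : V} (h : S.lt i u z) (h' : S.lt i z u) :
    False := by
  obtain ⟨f, h1, h2⟩ := S.lt_strict i u z h
  exact h2 (S.lt_sub i z u h' f h1)

/-- the rectangles of two edges of the same type with different heads are disjoint -/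
lemma rect_disj (S : SSys H F) {i : Fin 3} {v p v' p' : V} (h : IsTail S i v p)
    (h' : IsTail S i v' p') (hne : p ≠ p') (f g : F)
    (a1 : S.lab v f = J i) (a2 : S.lab p f ≠ J i) (a3 : S.lab v g = K i) (a4 : S.lab p g ≠ K i)
    (b1 : S.lab v' f = J i) (b2 : S.lab p' f ≠ J i) (b3 : S.lab v' g = K i)
    (b4 : S.lab p' g ≠ K i) : False := by
  obtain ⟨hJ, hK, hJK, hall⟩ := JK i
  -- labels of the heads
  have key : ∀ v p : V, IsTail S i v p → S.lab v f = J i → S.lab p f ≠ J i → S.lab v g = K i →
      S.lab p g ≠ K i → S.lab p f = i ∧ S.lab p g = i := by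
    intro v p h c1 c2 c3 c4
    constructor
    · rcases hall (S.lab p f) with e | e | e
      · exact absurd e c2
      · have := h.2.2 (K i) hK f e
        rw [c1] at this
        exact absurd this hJK
      · exact e
    · rcases hall (S.lab p g) with e | e | e
      · have := h.2.2 (J i) hJ g e
        rw [c3] at this
        exact absurd this.symm hJK
      · exact absurd e c4
      · exact e
  have idx : ∀ v p p' : V, IsTail S i v p → S.lab v f = J i → S.lab v g = K i →
      S.lab p' f = i → S.lab p' g = i → p' ≠ p → S.lt i p p' := by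
    intro v p p' h c1 c2 c3 c4 hne
    have hv : p' ≠ v := by
      rintro rfl
      rw [c1] at c3
      exact hJ c3
    obtain ⟨a, ha1, ha2⟩ := S.p3 v p h.1 p' hv hne
    rcases hall a with e | e | e
    · subst e
      have := S.lt_sub _ _ _ ha1 f c1
      rw [c3] at this
      exact absurd this.symm hJ
    · subst e
      have := S.lt_sub _ _ _ ha1 g c2
      rw [c4] at this
      exact absurd this.symm hK
    · subst e
      exact ha2
  have k1 := key v p h a1 a2 a3 a4
  have k2 := key v' p' h' b1 b2 b3 b4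
  exact lt_antisymm' S (idx v p p' h a1 a3 k2.1 k2.2 hne.symm) (idx v' p' p h' b1 b3 k1.1 k1.2 hne)

lemma sum_mi (S : SSys H F) (L : V → ℕ) (i : Fin 3) : ∑ p, mi S L i p ≤ tot S L ^ 2 := by
  classical
  have hex : ∀ p : V, ∃ v, mi S L i p = pr S L i v p := by
    intro p
    obtain ⟨v, -, hv⟩ := Finset.exists_mem_eq_sup (Finset.univ : Finset V) ⟨p, Finset.mem_univ p⟩
      (fun v => pr S L i v p)
    exact ⟨v, hv⟩
  choose t ht using hex
  have h1 : ∀ p, mi S L i p = ∑ f, ∑ g,
      if IsTail S i (t p) p ∧ (S.lab (t p) f = J i ∧ S.lab p f ≠ J i) ∧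
        (S.lab (t p) g = K i ∧ S.lab p g ≠ K i) then om S L f * om S L g else 0 := by
    intro p
    rw [ht p]
    unfold pr
    by_cases hT : IsTail S i (t p) p
    · rw [if_pos hT]
      unfold dif
      rw [Finset.sum_mul_sum]
      apply Finset.sum_congr rfl
      intro f _
      apply Finset.sum_congr rfl
      intro g _
      by_cases c1 : S.lab (t p) f = J i ∧ S.lab p f ≠ J i
      · by_cases c2 : S.lab (t p) g = K i ∧ S.lab p g ≠ K i
        · rw [if_pos c1, if_pos c2, if_pos ⟨hT, c1, c2⟩]
        · rw [if_pos c1, if_neg c2, mul_zero, if_neg (fun h => c2 h.2.2)]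
      · rw [if_neg c1, zero_mul, if_neg (fun h => c1 h.2.1)]
    · rw [if_neg hT]
      symm
      apply Finset.sum_eq_zero
      intro f _
      apply Finset.sum_eq_zero
      intro g _
      rw [if_neg (fun h => hT h.1)]
  calc ∑ p, mi S L i p = ∑ p, ∑ f, ∑ g,
      (if IsTail S i (t p) p ∧ (S.lab (t p) f = J i ∧ S.lab p f ≠ J i) ∧
        (S.lab (t p) g = K i ∧ S.lab p g ≠ K i) then om S L f * om S L g else 0) :=
        Finset.sum_congr rfl (fun p _ => h1 p)
    _ = ∑ f, ∑ g, ∑ p,
      (if IsTail S i (t p) p ∧ (S.lab (t p) f = J i ∧ S.lab p f ≠ J i) ∧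
        (S.lab (t p) g = K i ∧ S.lab p g ≠ K i) then om S L f * om S L g else 0) := by
        rw [Finset.sum_comm]
        apply Finset.sum_congr rfl
        intro f _
        rw [Finset.sum_comm]
    _ ≤ ∑ f, ∑ g, om S L f * om S L g := by
        apply Finset.sum_le_sum
        intro f _
        apply Finset.sum_le_sum
        intro g _
        rw [← Finset.sum_filter, Finset.sum_const, smul_eq_mul]
        have hc : (Finset.univ.filter (fun p => IsTail S i (t p) p ∧
            (S.lab (t p) f = J i ∧ S.lab p f ≠ J i) ∧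
            (S.lab (t p) g = K i ∧ S.lab p g ≠ K i))).card ≤ 1 := by
          rw [Finset.card_le_one]
          intro p hp p' hp'
          rw [Finset.mem_filter] at hp hp'
          by_contra hne
          exact rect_disj S hp.2.1 hp'.2.1 hne f g hp.2.2.1.1 hp.2.2.1.2 hp.2.2.2.1 hp.2.2.2.2
            hp'.2.2.1.1 hp'.2.2.1.2 hp'.2.2.2.1 hp'.2.2.2.2
        calc _ ≤ 1 * (om S L f * om S L g) := Nat.mul_le_mul_right _ hc
          _ = _ := one_mul _
    _ = tot S L ^ 2 := by
        unfold tot
        rw [sq, Finset.sum_mul_sum]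

/-- sum of the three largest products -/
noncomputable def mm (S : SSys H F) (L : V → ℕ) (p : V) : ℕ := ∑ i, mi S L i p

lemma mm_mono (S : SSys H F) {L L' : V → ℕ} (h : ∀ z, L z ≤ L' z) (p : V) :
    mm S L p ≤ mm S L' p :=
  Finset.sum_le_sum (fun i _ => mi_mono S h i p)

lemma sum_mm (S : SSys H F) (L : V → ℕ) : ∑ p, mm S L p ≤ 3 * tot S L ^ 2 := by
  unfold mm
  rw [Finset.sum_comm]
  calc _ ≤ ∑ _i : Fin 3, tot S L ^ 2 := Finset.sum_le_sum (fun i _ => sum_mi S L i)
    _ = _ := by simp

/-- admissible `L` -/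
def Good (S : SSys H F) (L : V → ℕ) : Prop :=
  (∀ z, L z = 0 ∨ ∃ j, L z = 2 ^ j) ∧ (∀ z, 64 * Fintype.card F * L z ≤ 2 * mm S L z) ∧
    ∑ z, L z ≤ Fintype.card F

lemma good_zero (S : SSys H F) : Good S (fun _ => 0) := by
  refine ⟨fun z => Or.inl rfl, fun z => ?_, by simp⟩
  simp

lemma exists_max (S : SSys H F) : ∃ L, Good S L ∧ ∀ L', Good S L' → ∑ z, L' z ≤ ∑ z, L z := by
  classical
  have hne : {s | ∃ L, Good S L ∧ ∑ z, L z = s}.Nonempty := ⟨_, _, good_zero S, rfl⟩
  have hb : BddAbove {s | ∃ L, Good S L ∧ ∑ z, L z = s} := by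
    refine ⟨Fintype.card F, ?_⟩
    rintro s ⟨L, hL, rfl⟩
    exact hL.2.2
  obtain ⟨L, hL, hs⟩ := Nat.sSup_mem hne hb
  refine ⟨L, hL, fun L' hL' => ?_⟩
  rw [hs]
  exact le_csSup hb ⟨L', hL', rfl⟩

/-- the doubling step -/
lemma max_bound (S : SSys H F) (L : V → ℕ) (hL : Good S L)
    (hmax : ∀ L', Good S L' → ∑ z, L' z ≤ ∑ z, L z) (z : V) :
    mm S L z ≤ 64 * Fintype.card F * max 1 (L z) := by
  classical
  by_contra hcon
  push Not at hcon
  set N := Fintype.card F with hN
  -- the sum of `L`
  have htot : tot S L ≤ 2 * N := by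
    have := hL.2.2
    rw [tot_eq]
    omega
  have hsum : 64 * N * ∑ z, L z ≤ 24 * N * N := by
    have h1 : ∑ z, 64 * N * L z ≤ ∑ z, 2 * mm S L z := Finset.sum_le_sum (fun z _ => hL.2.1 z)
    rw [← Finset.mul_sum, ← Finset.mul_sum] at h1
    have h2 := sum_mm S L
    have h3 : tot S L ^ 2 ≤ (2 * N) ^ 2 := Nat.pow_le_pow_left htot 2
    nlinarith
  have hz : mm S L z ≤ 12 * N * N := by
    have h1 : mm S L z ≤ ∑ z, mm S L z :=
      Finset.single_le_sum (fun _ _ => Nat.zero_le _) (Finset.mem_univ z)
    have h2 := sum_mm S L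
    have h3 : tot S L ^ 2 ≤ (2 * N) ^ 2 := Nat.pow_le_pow_left htot 2
    nlinarith
  have hNpos : 0 < N := by
    rcases Nat.eq_zero_or_pos N with h | h
    · rw [h] at hz hcon
      simp at hz hcon
      omega
    · exact h
  have hN5 : 5 < N := by
    have h1 : 64 * N * 1 ≤ 64 * N * max 1 (L z) := Nat.mul_le_mul_left _ (le_max_left _ _)
    have h2 : 64 * N < 12 * N * N := by omega
    have h3 : 64 < 12 * N := by
      by_contra h
      push Not at h
      have : 12 * N * N ≤ 64 * N := Nat.mul_le_mul_right _ h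
      omega
    omega
  have hsum' : 8 * ∑ z, L z ≤ 3 * N := by
    have h1 : (8 * N) * (8 * ∑ z, L z) ≤ (8 * N) * (3 * N) := by
      calc _ = 64 * N * ∑ z, L z := by ring
        _ ≤ 24 * N * N := hsum
        _ = _ := by ring
    exact Nat.le_of_mul_le_mul_left h1 (by omega)
  -- the new function
  let L' : V → ℕ := Function.update L z (if L z = 0 then 1 else 2 * L z)
  have hLL' : ∀ w, L w ≤ L' w := by
    intro w
    by_cases hw : w = z
    · subst hw
      simp only [L', Function.update_self]
      split_ifs with h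
      · omega
      · omega
    · simp only [L', Function.update_of_ne hw]
      exact le_rfl
  have hs : ∑ w, L' w = ∑ w, L w + max 1 (L z) := by
    have h1 : ∑ w, L' w = L' z + ∑ w ∈ Finset.univ.erase z, L' w :=
      (Finset.add_sum_erase _ _ (Finset.mem_univ z)).symm
    have h2 : ∑ w, L w = L z + ∑ w ∈ Finset.univ.erase z, L w :=
      (Finset.add_sum_erase _ _ (Finset.mem_univ z)).symm
    have h3 : ∑ w ∈ Finset.univ.erase z, L' w = ∑ w ∈ Finset.univ.erase z, L w := by
      apply Finset.sum_congr rfl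
      intro w hw
      simp only [L', Function.update_of_ne (Finset.ne_of_mem_erase hw)]
    have h4 : L' z = L z + max 1 (L z) := by
      simp only [L', Function.update_self]
      split_ifs with h
      · simp [h]
      · have : max 1 (L z) = L z := max_eq_right (by omega)
        omega
    omega
  have hzs : L z ≤ ∑ w, L w := Finset.single_le_sum (fun _ _ => Nat.zero_le _) (Finset.mem_univ z)
  have hgood : Good S L' := by
    refine ⟨?_, ?_, ?_⟩
    · intro w
      by_cases hw : w = z
      · subst hw
        right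
        simp only [L', Function.update_self]
        rcases hL.1 w with h | ⟨j, h⟩
        · exact ⟨0, by simp [h]⟩
        · refine ⟨j + 1, ?_⟩
          have : L w ≠ 0 := by rw [h]; positivity
          rw [if_neg this, h, pow_succ]
          ring
      · simp only [L', Function.update_of_ne hw]
        exact hL.1 w
    · intro w
      have hm := mm_mono S hLL' w
      by_cases hw : w = z
      · subst hw
        have h1 : L' w ≤ 2 * max 1 (L w) := by
          simp only [L', Function.update_self]
          split_ifs with h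
          · simp [h]
          · have : max 1 (L w) = L w := max_eq_right (by omega)
            omega
        calc 64 * N * L' w ≤ 64 * N * (2 * max 1 (L w)) := Nat.mul_le_mul_left _ h1
          _ = 2 * (64 * N * max 1 (L w)) := by ring
          _ ≤ 2 * mm S L' w := by omega
      · have h1 : L' w = L w := by simp only [L', Function.update_of_ne hw]
        rw [h1]
        have := hL.2.1 w
        omega
    · rw [hs]
      have : max 1 (L z) ≤ 1 + L z := max_le (by omega) (by omega)
      omega
  have := hmax L' hgood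
  rw [hs] at this
  have h1 : 1 ≤ max 1 (L z) := le_max_left _ _
  omega

end Wt

open Wt in
theorem weights {V : Type*} [Fintype V] [DecidableEq V] (H : SimpleGraph V) (F : Type*)
    [Fintype F] [DecidableEq F] (S : SSys H F) :
    ∃ P Q : V → ℕ, (∀ v, P v ≤ 2 * Fintype.card F) ∧ (∀ v, Q v ≤ 2 * Fintype.card F) ∧
      P3Fun H P Q (S.lt 1) ∧
      ∀ u v, H.Adj u v →
        HostPair 64 (Fintype.card F) (2 * Fintype.card F) (P u, Q u) (P v, Q v) ∨
        HostPair 64 (Fintype.card F) (2 * Fintype.card F) (P v, Q v) (P u, Q u) := by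
  classical
  obtain ⟨L, hL, hmax⟩ := exists_max S
  have hbound := max_bound S L hL hmax
  have htot : tot S L ≤ 2 * Fintype.card F := by
    have := hL.2.2
    rw [tot_eq]
    omega
  -- the exponents
  have hj : ∀ z, ∃ j, max 1 (L z) = 2 ^ j := by
    intro z
    rcases hL.1 z with h | ⟨j, h⟩
    · exact ⟨0, by simp [h]⟩
    · refine ⟨j, ?_⟩
      rw [← h]
      apply max_eq_right
      rw [h]
      exact Nat.one_le_two_pow
  choose j hj using hj
  have hLle : ∀ z, L z ≤ Fintype.card F := fun z =>
    (Finset.single_le_sum (fun _ _ => Nat.zero_le _) (Finset.mem_univ z)).trans hL.2.2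
  have hjle : ∀ z, 2 ^ j z ≤ 2 * (2 * Fintype.card F) + 2 := by
    intro z
    rw [← hj z]
    have := hLle z
    exact max_le (by omega) (by omega)
  set P : V → ℕ := fun z => wt S L 0 z - wt S L 0 z % 2 ^ j z with hP
  set Q : V → ℕ := fun z => wt S L 2 z with hQ
  have hmod : ∀ z, wt S L 0 z % 2 ^ j z < 2 ^ j z := fun z => Nat.mod_lt _ (by positivity)
  have hmod' : ∀ z, wt S L 0 z % 2 ^ j z ≤ wt S L 0 z := fun z => Nat.mod_le _ _
  have hPr : ∀ z, P z + wt S L 0 z % 2 ^ j z = wt S L 0 z := by
    intro z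
    have := hmod' z
    simp only [hP]
    omega
  have hPle : ∀ v, P v ≤ 2 * Fintype.card F := by
    intro v
    have h1 := hPr v
    have h2 := wt_le S L 0 v
    omega
  have hQle : ∀ v, Q v ≤ 2 * Fintype.card F := by
    intro v
    have h2 := wt_le S L 2 v
    simp only [hQ]
    omega
  have hdvd : ∀ z, 2 ^ j z ∣ P z := by
    intro z
    simp only [hP]
    exact Nat.dvd_sub_mod _
  -- index 0
  have hlt0 : ∀ u z, S.lt 0 u z → P u < P z := by
    intro u z h
    have h1 : wt S L 0 z = wt S L 0 u + dif S L 0 z u := wt_add_dif S L (S.lt_sub 0 u z h)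
    have h2 : om S L (S.priv z) ≤ dif S L 0 z u := by
      unfold dif
      have h3 := Finset.single_le_sum (f := fun f => if S.lab z f = 0 ∧ S.lab u f ≠ 0 then om S L f
        else 0) (fun _ _ => Nat.zero_le _) (Finset.mem_univ (S.priv z))
      rwa [if_pos ⟨S.priv_lab z, S.lt_priv u z h⟩] at h3
    have h3 : 1 + L z ≤ om S L (S.priv z) := by
      unfold om
      have h4 := Finset.single_le_sum (f := fun w => if S.priv w = S.priv z then L w
        else 0) (fun _ _ => Nat.zero_le _) (Finset.mem_univ z)
      simp only [if_true] at h4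
      omega
    have h4 := hPr z
    have h5 := hPr u
    have h6 := hmod z
    have h7 : 2 ^ j z ≤ 1 + L z := by
      rw [← hj z]
      exact max_le (by omega) (by omega)
    omega
  have hlt2 : ∀ u z, S.lt 2 u z → Q u < Q z := by
    intro u z h
    have h1 : wt S L 2 z = wt S L 2 u + dif S L 2 z u := wt_add_dif S L (S.lt_sub 2 u z h)
    obtain ⟨f, hf1, hf2⟩ := S.lt_strict 2 u z h
    have h2 : om S L f ≤ dif S L 2 z u := by
      unfold dif
      have h3 := Finset.single_le_sum (f := fun f => if S.lab z f = 2 ∧ S.lab u f ≠ 2 then om S L f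
        else 0) (fun _ _ => Nat.zero_le _) (Finset.mem_univ f)
      rwa [if_pos ⟨hf1, hf2⟩] at h3
    have h3 : 1 ≤ om S L f := by
      unfold om
      omega
    simp only [hQ]
    omega
  have hfin : ∀ a : Fin 3, a = 0 ∨ a = 1 ∨ a = 2 := by decide
  -- host pairs
  have hhost : ∀ i v p, IsTail S i v p →
      HostPair 64 (Fintype.card F) (2 * Fintype.card F) (P p, Q p) (P v, Q v) := by
    intro i v p h
    have hJ := (JK i).1
    have hK := (JK i).2.1
    have e1 : wt S L (J i) v = wt S L (J i) p + dif S L (J i) v p :=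
      wt_add_dif S L (h.2.2 _ hJ)
    have e2 : wt S L (K i) v = wt S L (K i) p + dif S L (K i) v p :=
      wt_add_dif S L (h.2.2 _ hK)
    have s1 := wt_sum S L v
    have s2 := wt_sum S L p
    have hpr : dif S L (J i) v p * dif S L (K i) v p ≤ 64 * Fintype.card F * 2 ^ j p := by
      rw [← hj p]
      refine le_trans ?_ (hbound p)
      have h1 : pr S L i v p = dif S L (J i) v p * dif S L (K i) v p := by
        unfold pr
        rw [if_pos h]
      rw [← h1]
      refine (pr_le_mi S L i v p).trans ?_
      unfold mm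
      exact Finset.single_le_sum (f := fun i => mi S L i p) (fun _ _ => Nat.zero_le _)
        (Finset.mem_univ i)
    refine ⟨hPle p, hQle p, hPle v, hQle v, j p, j v, wt S L 0 p % 2 ^ j p,
      wt S L 0 v % 2 ^ j v, dif S L (J i) v p, dif S L (K i) v p, hdvd p, hdvd v, hmod p, hmod v,
      hjle p, hjle v, hpr, ?_⟩
    simp only
    rw [hPr p, hPr v]
    simp only [hQ]
    rcases hfin i with rfl | rfl | rfl
    · have j1 : J 0 = 1 := rfl
      have k1 : K 0 = 2 := rfl
      rw [j1] at e1 ⊢
      rw [k1] at e2 ⊢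
      left
      constructor <;> omega
    · have j1 : J 1 = 0 := rfl
      have k1 : K 1 = 2 := rfl
      rw [j1] at e1 ⊢
      rw [k1] at e2 ⊢
      right; left
      constructor <;> omega
    · have j1 : J 2 = 0 := rfl
      have k1 : K 2 = 1 := rfl
      rw [j1] at e1 ⊢
      rw [k1] at e2 ⊢
      right; right
      constructor <;> omega
  refine ⟨P, Q, hPle, hQle, ⟨?_, ?_, ?_⟩, ?_⟩
  · intro u z hne heq
    rw [Prod.ext_iff] at heq
    simp only at heq
    obtain ⟨i, hi⟩ := S.comp u z hne
    obtain ⟨i', hi'⟩ := S.comp z u hne.symm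
    rcases hfin i with rfl | rfl | rfl
    · have := hlt0 _ _ hi
      omega
    · rcases hfin i' with rfl | rfl | rfl
      · have := hlt0 _ _ hi'
        omega
      · exact lt_antisymm' S hi hi'
      · have := hlt2 _ _ hi'
        omega
    · have := hlt2 _ _ hi
      omega
  · intro u z h h'
    exact lt_antisymm' S h h'
  · intro u v huv z hu hv
    obtain ⟨i, h1, h2⟩ := S.p3 u v huv z hu hv
    rcases hfin i with rfl | rfl | rfl
    · exact Or.inl ⟨hlt0 _ _ h1, hlt0 _ _ h2⟩
    · exact Or.inr (Or.inl ⟨h1, h2⟩)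
    · exact Or.inr (Or.inr ⟨hlt2 _ _ h1, hlt2 _ _ h2⟩)
  · intro u v huv
    obtain ⟨i, h | h⟩ := S.typ u v huv
    · right
      exact hhost i u v ⟨huv, h.1, h.2⟩
    · left
      exact hhost i v u ⟨huv.symm, h.1, h.2⟩

end Pool.Agent.Univ
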