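import Pool.Agent.Univ.Grid
import Pool.Agent.Univ.Weights
import Pool.Agent.Univ.Count
import Pool.Agent.Univ.CanonSSys
import Pool.Agent.Univ.Greedy
import Pool.Agent.Univ.ShellTri
import Pool.Agent.Univ.GenPos
import Pool.Agent.Univ.Apex
import Pool.Agent.Univ.Sweep

/-!
# Universal geometric graphs with `O(n^3 log^2 n)` edges: assembly
-/

namespace Pool.Agent.Univ

/-! ### assembly -/

theorem shell_of_maxPlane {V : Type*} [Fintype V] [DecidableEq V] (pt : V → Pt)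
    (A : V → V → Prop) (h : MaxPlane pt A) (r1 r2 r3 : V) (hT : InTri pt r1 r2 r3)
    (h4 : ∃ w, w ≠ r1 ∧ w ≠ r2 ∧ w ≠ r3) :
    ∃ (A' : V → V → Prop) (Φ : Finset (Finset V)),
      Shell r1 r2 A' Φ Finset.univ [r1, r3, r2] ∧ (∀ a b, A a b → A' a b) ∧
      ({r1, r2, r3} : Finset V) ∉ Φ :=
  shell_of_maxPlane_of_apex pt A h r1 r2 r3 hT h4 (apex pt A h)

theorem ssys_of_planar (n : ℕ) (hn : 1 ≤ n) (H : SimpleGraph (Fin n)) (hH : Planar H) :
    ∃ (F : Type) (_ : Fintype F) (_ : DecidableEq F), Fintype.card F ≤ 2 * n + 1 ∧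
      Nonempty (SSys H F) := by
  obtain ⟨pt, hg, hT, hc⟩ := gen_position H hH
  let A0 : Fin n ⊕ Fin 3 → Fin n ⊕ Fin 3 → Prop := fun a b =>
    ∃ u v, H.Adj u v ∧ a = Sum.inl u ∧ b = Sum.inl v
  obtain ⟨A, hM, hA⟩ := exists_maxPlane pt hg A0
    (by rintro a b ⟨u, v, h, rfl, rfl⟩; exact ⟨v, u, h.symm, rfl, rfl⟩)
    (by
      rintro a ⟨u, v, h, h1, h2⟩
      rw [h1] at h2
      exact h.ne (Sum.inl.inj h2))
    (by
      rintro a b c d ⟨u, v, h, rfl, rfl⟩ ⟨u', v', h', rfl, rfl⟩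
      exact hc u v u' v' h h')
  obtain ⟨A', Φ, hS, hA', ho⟩ := shell_of_maxPlane pt A hM _ _ _ hT
    ⟨Sum.inl ⟨0, hn⟩, by simp, by simp, by simp⟩
  obtain ⟨T, hTA, hTΦ, h1, h2, h3⟩ := tri_of_shell _ _ _ A' Φ hS ho
  obtain ⟨A'', hCan, hA''⟩ := canon_of_tri T
  rw [h1, h2, h3] at hCan
  obtain ⟨F, i1, i2, hF, hS⟩ := ssys_of_canon H A'' hCan (by
    intro u v huv
    apply hA''
    rw [hTA]
    exact hA' _ _ (hA _ _ ⟨u, v, huv, rfl, rfl⟩))
  exact ⟨F, i1, i2, by simpa using hF, hS⟩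

theorem hostPair_mono {K N N' W W' : ℕ} (hN : N ≤ N') (hW : W ≤ W') {q q' : ℕ × ℕ}
    (h : HostPair K N W q q') : HostPair K N' W' q q' := by
  obtain ⟨h1, h2, h3, h4, j, j', r, r', α, β, a1, a2, a3, a4, a5, a6, a7, a8⟩ := h
  refine ⟨by omega, by omega, by omega, by omega, j, j', r, r', α, β, a1, a2, a3, a4, by omega,
    by omega, le_trans a7 (by gcongr), a8⟩

theorem main (C0 : ℝ) (hC0 : ∀ N : ℕ, 1 ≤ N → ∃ S : Finset ((ℕ × ℕ) × (ℕ × ℕ)),
    (∀ q q', HostPair 64 N (2 * N) q q' → (q, q') ∈ S) ∧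
    (S.card : ℝ) ≤ C0 * (N : ℝ) ^ 3 * (Real.log N + 1) ^ 2) (n : ℕ) (hn : 1 ≤ n) :
    ∃ G : GeomGraph, Universal G n ∧
      (G.edges.card : ℝ) ≤ C0 * ((2 * n + 1 : ℕ) : ℝ) ^ 3 * (Real.log (2 * n + 1 : ℕ) + 1) ^ 2 := by
  classical
  set N := 2 * n + 1 with hN
  set W := 2 * N with hW
  obtain ⟨S, hS, hcard⟩ := hC0 N (by omega)
  let pos : ℕ × ℕ → Pt := fun q => gpt W (W - q.1, q.2)
  let S' : Finset ((ℕ × ℕ) × (ℕ × ℕ)) := S.filter (fun x =>
    x.1 ≠ x.2 ∧ x.1.1 ≤ W ∧ x.1.2 ≤ W ∧ x.2.1 ≤ W ∧ x.2.2 ≤ W)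
  have hpos : ∀ q q' : ℕ × ℕ, q.1 ≤ W → q.2 ≤ W → q'.1 ≤ W → q'.2 ≤ W → pos q = pos q' →
      q = q' := by
    intro q q' a b c d h
    have := gpt_inj W _ _ (by simp) (by simpa using b) (by simp) (by simpa using d) h
    rw [Prod.ext_iff] at this ⊢
    simp only at this
    omega
  let G : GeomGraph :=
    { verts := ((Finset.range (W + 1)) ×ˢ (Finset.range (W + 1))).image pos
      edges := S'.image (fun x => s(pos x.1, pos x.2))
      ends := by
        intro p q h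
        simp only [Finset.mem_image] at h
        obtain ⟨x, hx, hpq⟩ := h
        simp only [S', Finset.mem_filter] at hx
        have hm : ∀ y : ℕ × ℕ, y.1 ≤ W → y.2 ≤ W →
            pos y ∈ ((Finset.range (W + 1)) ×ˢ (Finset.range (W + 1))).image pos := by
          intro y h1 h2
          exact Finset.mem_image_of_mem _ (by simp; omega)
        have hne : pos x.1 ≠ pos x.2 := fun h => hx.2.1
          (hpos _ _ hx.2.2.1 hx.2.2.2.1 hx.2.2.2.2.1 hx.2.2.2.2.2 h)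
        rw [Sym2.eq_iff] at hpq
        rcases hpq with ⟨rfl, rfl⟩ | ⟨rfl, rfl⟩
        · exact ⟨hm _ hx.2.2.1 hx.2.2.2.1, hm _ hx.2.2.2.2.1 hx.2.2.2.2.2, hne⟩
        · exact ⟨hm _ hx.2.2.2.2.1 hx.2.2.2.2.2, hm _ hx.2.2.1 hx.2.2.2.1, hne.symm⟩
      clean := by
        intro p q h r hr hseg
        simp only [Finset.mem_image] at h hr
        obtain ⟨x, hx, hpq⟩ := h
        obtain ⟨y, hy, rfl⟩ := hr
        simp only [S', Finset.mem_filter] at hx
        simp only [Finset.mem_product, Finset.mem_range] at hy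
        have key : pos y ∈ segment ℝ (pos x.1) (pos x.2) → pos y = pos x.1 ∨ pos y = pos x.2 := by
          intro hs
          by_contra hcon
          push Not at hcon
          refine gpt_col W (W - x.1.1, x.1.2) (W - x.2.1, x.2.2) (W - y.1, y.2) (by simp)
            (by simpa using hx.2.2.2.1) (by simp) (by simpa using hx.2.2.2.2.2) (by simp)
            (by simp; omega) ?_ ?_ ?_ hs
          · intro h
            apply hx.2.1
            rw [Prod.ext_iff] at h ⊢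
            simp only at h
            omega
          · intro h
            apply hcon.1
            simp only [pos, h]
          · intro h
            apply hcon.2
            simp only [pos, h]
        rw [Sym2.eq_iff] at hpq
        rcases hpq with ⟨rfl, rfl⟩ | ⟨rfl, rfl⟩
        · exact key hseg
        · rw [segment_symm] at hseg
          exact (key hseg).symm }
  refine ⟨G, ?_, ?_⟩
  · intro H hH
    obtain ⟨F, i1, i2, hF, ⟨SS⟩⟩ := ssys_of_planar n hn H hH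
    obtain ⟨P, Q, hP, hQ, h3, hE⟩ := weights H F SS
    have hPW : ∀ v, P v ≤ W := fun v => (hP v).trans (by omega)
    have hQW : ∀ v, Q v ≤ W := fun v => (hQ v).trans (by omega)
    refine ⟨fun v => pos (P v, Q v), ?_, ?_, ?_, ?_⟩
    · intro u z h
      by_contra hne
      exact h3.inj u z hne (hpos _ _ (hPW _) (hQW _) (hPW _) (hQW _) h)
    · intro u
      exact Finset.mem_image_of_mem _ (by
        simp only [Finset.mem_product, Finset.mem_range]
        exact ⟨by have := hPW u; omega, by have := hQW u; omega⟩)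
    · intro u v huv
      have hne : (P u, Q u) ≠ (P v, Q v) := h3.inj u v huv.ne
      simp only [G, Finset.mem_image, S', Finset.mem_filter]
      rcases hE u v huv with h | h
      · refine ⟨((P u, Q u), (P v, Q v)), ⟨hS _ _ (hostPair_mono hF (by omega) h), hne,
          hPW _, hQW _, hPW _, hQW _⟩, rfl⟩
      · refine ⟨((P v, Q v), (P u, Q u)), ⟨hS _ _ (hostPair_mono hF (by omega) h), hne.symm,
          hPW _, hQW _, hPW _, hQW _⟩, Sym2.eq_swap⟩
    · exact gpt_cross H P Q (SS.lt 1) W hPW hQW h3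
  · refine le_trans ?_ hcard
    exact_mod_cast (Finset.card_image_le).trans (Finset.card_filter_le _ _)

theorem result_bound : ∃ C : ℝ, ∀ n : ℕ, 2 ≤ n →
    (∃ G : GeomGraph, Universal G n ∧
      (G.edges.card : ℝ) ≤ C * (n : ℝ) ^ 3 * (Real.log n) ^ 2) ∧
    (g n : ℝ) ≤ C * (n : ℝ) ^ 3 * (Real.log n) ^ 2 := by
  obtain ⟨C0, hC0⟩ := host_count
  have hl2 : 0 < Real.log 2 := Real.log_pos (by norm_num)
  set K : ℝ := 1 + (Real.log 3 + 1) / Real.log 2 with hK
  refine ⟨|C0| * 27 * K ^ 2, ?_⟩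
  intro n hn
  obtain ⟨G, hG, hc⟩ := main C0 hC0 n (by omega)
  have hn' : (2 : ℝ) ≤ n := by exact_mod_cast hn
  have hlogn : Real.log 2 ≤ Real.log n := Real.log_le_log (by norm_num) hn'
  have h1 : (((2 * n + 1 : ℕ) : ℝ)) ≤ 3 * n := by push_cast; linarith
  have h1' : (0 : ℝ) < ((2 * n + 1 : ℕ) : ℝ) := by positivity
  have h2 : Real.log ((2 * n + 1 : ℕ) : ℝ) + 1 ≤ K * Real.log n := by
    have h3 : Real.log ((2 * n + 1 : ℕ) : ℝ) ≤ Real.log (3 * n) := Real.log_le_log h1' h1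
    rw [Real.log_mul (by norm_num) (by positivity)] at h3
    have h4 : Real.log 3 + 1 ≤ (Real.log 3 + 1) / Real.log 2 * Real.log n := by
      have h5 : 0 ≤ Real.log 3 := Real.log_nonneg (by norm_num)
      rw [div_mul_eq_mul_div, le_div_iff₀ hl2]
      exact mul_le_mul_of_nonneg_left hlogn (by linarith)
    rw [hK]
    linarith
  have h2' : 0 ≤ Real.log ((2 * n + 1 : ℕ) : ℝ) + 1 := by
    have := Real.log_nonneg (show (1 : ℝ) ≤ ((2 * n + 1 : ℕ) : ℝ) by push_cast; linarith)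
    linarith
  have hb : (G.edges.card : ℝ) ≤ |C0| * 27 * K ^ 2 * (n : ℝ) ^ 3 * (Real.log n) ^ 2 := by
    calc (G.edges.card : ℝ) ≤ C0 * ((2 * n + 1 : ℕ) : ℝ) ^ 3 *
          (Real.log ((2 * n + 1 : ℕ) : ℝ) + 1) ^ 2 := hc
      _ ≤ |C0| * ((2 * n + 1 : ℕ) : ℝ) ^ 3 * (Real.log ((2 * n + 1 : ℕ) : ℝ) + 1) ^ 2 := by
          gcongr
          exact le_abs_self C0
      _ ≤ |C0| * (3 * n) ^ 3 * (K * Real.log n) ^ 2 := by
          gcongr
      _ = |C0| * 27 * K ^ 2 * (n : ℝ) ^ 3 * (Real.log n) ^ 2 := by ring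
  refine ⟨⟨G, hG, hb⟩, ?_⟩
  refine le_trans ?_ hb
  have h9 : g n ≤ G.edges.card := Nat.sInf_le ⟨G, hG, rfl⟩
  exact_mod_cast h9


end Pool.Agent.Univ
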