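import Mathlib

/-!
# Universal geometric graphs for planar graphs (MP_a45fd3_co): definitions

Project UG.  The aim is a geometric graph with `O(n^3 log^2 n)` edges containing a crossing-free
copy of every `n`-vertex planar graph.
-/

namespace Pool.Agent.Univ

/-- Points of the plane. -/
abbrev Pt := ℝ × ℝ

/-- A geometric graph: a finite set of points of the plane (the vertices) and a finite set of
unordered pairs of vertices (the edges, drawn as straight segments), such that no edge contains a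
vertex other than its two endpoints. -/
structure GeomGraph where
  verts : Finset Pt
  edges : Finset (Sym2 Pt)
  ends : ∀ p q : Pt, s(p, q) ∈ edges → p ∈ verts ∧ q ∈ verts ∧ p ≠ q
  clean : ∀ p q : Pt, s(p, q) ∈ edges → ∀ r ∈ verts, r ∈ segment ℝ p q → r = p ∨ r = q

/-- `φ` is an embedding of the abstract graph `H` into the geometric graph `G`: it is injective,
maps vertices to vertices and edges to edges, and the segments of two different edges of `H` meet
only at a common endpoint. -/
structure IsEmbedding {U : Type*} (H : SimpleGraph U) (G : GeomGraph) (φ : U → Pt) : Prop where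
  inj : Function.Injective φ
  mem : ∀ u, φ u ∈ G.verts
  edge : ∀ u v, H.Adj u v → s(φ u, φ v) ∈ G.edges
  cross : ∀ u v u' v', H.Adj u v → H.Adj u' v' → s(u, v) ≠ s(u', v') →
    ∀ x, x ∈ segment ℝ (φ u) (φ v) → x ∈ segment ℝ (φ u') (φ v') →
      ∃ w, w ∈ s(u, v) ∧ w ∈ s(u', v') ∧ x = φ w

/-- Planar graphs: graphs which have a crossing-free straight-line drawing in the plane, i.e. an
embedding into some geometric graph (by Fary's theorem these are exactly the planar graphs). -/
def Planar {U : Type*} (H : SimpleGraph U) : Prop :=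
  ∃ (G : GeomGraph) (φ : U → Pt), IsEmbedding H G φ

/-- `G` is universal for the class of all `n`-vertex planar graphs. -/
def Universal (G : GeomGraph) (n : ℕ) : Prop :=
  ∀ H : SimpleGraph (Fin n), Planar H → ∃ φ : Fin n → Pt, IsEmbedding H G φ

/-- `g n`: the minimum number of edges of a geometric graph universal for the class of all
`n`-vertex planar graphs. -/
noncomputable def g (n : ℕ) : ℕ :=
  sInf {m | ∃ G : GeomGraph, Universal G n ∧ G.edges.card = m}

/-! ## Shelling sequences (output of the geometric part) -/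

/-- the single edge relation -/
def edgeRel {V : Type*} (a b : V) : V → V → Prop := fun s t => (s = a ∧ t = b) ∨ (s = b ∧ t = a)

/-- `Shell r1 r2 A Φ U γ`: starting from the single edge `r1 r2`, triangles have been glued one by
one on top of the current chain `γ` (a path from `r1` to `r2`).  `A` is the adjacency relation
built so far, `Φ` the set of (vertex sets of) triangles, `U` the set of used vertices. -/
inductive Shell {V : Type*} [DecidableEq V] (r1 r2 : V) :
    (V → V → Prop) → Finset (Finset V) → Finset V → List V → Prop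
  | base : r1 ≠ r2 → Shell r1 r2 (edgeRel r1 r2) ∅ {r1, r2} [r1, r2]
  | op1 (A : V → V → Prop) (Φ : Finset (Finset V)) (U : Finset V) (l r : List V) (a b z : V) :
      Shell r1 r2 A Φ U (l ++ a :: b :: r) → z ∉ U →
      Shell r1 r2 (fun s t => A s t ∨ edgeRel a z s t ∨ edgeRel z b s t)
        (insert {a, b, z} Φ) (insert z U) (l ++ a :: z :: b :: r)
  | op2 (A : V → V → Prop) (Φ : Finset (Finset V)) (U : Finset V) (l r : List V) (a b c : V) :
      Shell r1 r2 A Φ U (l ++ a :: b :: c :: r) → ¬ A a c →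
      Shell r1 r2 (fun s t => A s t ∨ edgeRel a c s t)
        (insert {a, b, c} Φ) U (l ++ a :: c :: r)

/-! ## Abstract plane triangulations -/

/-- An abstract triangulation of the sphere on the vertex set `V` (faces are 3-element sets of
vertices), with a distinguished outer face `{r1, r2, r3}`. -/
structure Tri (V : Type*) [Fintype V] [DecidableEq V] where
  A : V → V → Prop
  Φ : Finset (Finset V)
  r1 : V
  r2 : V
  r3 : V
  symm : ∀ a b, A a b → A b a
  irrefl : ∀ a, ¬ A a a
  h12 : r1 ≠ r2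
  h13 : r1 ≠ r3
  h23 : r2 ≠ r3
  outer : ({r1, r2, r3} : Finset V) ∈ Φ
  face_card : ∀ f ∈ Φ, f.card = 3
  face_adj : ∀ f ∈ Φ, ∀ a ∈ f, ∀ b ∈ f, a ≠ b → A a b
  /-- every edge lies in exactly two faces -/
  two : ∀ a b, A a b → ∃ f ∈ Φ, ∃ f' ∈ Φ, f ≠ f' ∧ a ∈ f ∧ b ∈ f ∧ a ∈ f' ∧ b ∈ f' ∧
    ∀ h ∈ Φ, a ∈ h → b ∈ h → h = f ∨ h = f'
  /-- the faces around a vertex are connected through the edges at that vertex -/
  star : ∀ (u : V) (P : Finset V → Prop),
    (∀ w, ∀ f ∈ Φ, ∀ f' ∈ Φ, w ≠ u → u ∈ f → w ∈ f → u ∈ f' → w ∈ f' → (P f ↔ P f')) →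
    ∀ f ∈ Φ, ∀ f' ∈ Φ, u ∈ f → u ∈ f' → (P f ↔ P f')
  /-- every cycle (mod 2) is the boundary of a set of faces -/
  jordan : ∀ c : V → V → ZMod 2, (∀ a b, c a b = c b a) → (∀ a b, c a b ≠ 0 → A a b) →
    (∀ a, ∑ b, c a b = 0) →
    ∃ σ : Finset V → ZMod 2, ∀ a b, ∀ f ∈ Φ, ∀ f' ∈ Φ, f ≠ f' → a ≠ b → a ∈ f → b ∈ f →
      a ∈ f' → b ∈ f' → σ f + σ f' = c a b
  conn : ∀ X : Finset V, X.Nonempty → (∀ a ∈ X, ∀ b, A a b → b ∈ X) → X = Finset.univ

/-! ## Canonical sequences -/

/-- `Canon r1 r2 A K γ`: canonical ordering (de Fraysseix, Pach, Pollack).  Starting from the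
single edge `r1 r2`, new vertices are added one by one; the new vertex `v` is joined to all the
vertices of a contiguous part (with at least two vertices) of the current contour `γ`, and then the
interior vertices of that part are covered. `A` = adjacency, `K` = set of present vertices. -/
inductive Canon {V : Type*} [DecidableEq V] (r1 r2 : V) :
    (V → V → Prop) → Finset V → List V → Prop
  | base : r1 ≠ r2 → Canon r1 r2 (edgeRel r1 r2) {r1, r2} [r1, r2]
  | step (A : V → V → Prop) (K : Finset V) (l m r : List V) (x y v : V) :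
      Canon r1 r2 A K (l ++ x :: (m ++ y :: r)) → v ∉ K →
      Canon r1 r2 (fun s t => A s t ∨ (s = v ∧ t ∈ x :: (m ++ [y])) ∨ (t = v ∧ s ∈ x :: (m ++ [y])))
        (insert v K) (l ++ x :: v :: y :: r)

/-! ## Schnyder set systems -/

/-- A Schnyder set system for the graph `H`: a finite set `F` (faces) and for every vertex a
labelling of `F` by three labels `0, 1, 2` (the three regions `R 0 v, R 1 v, R 2 v` of `v`
partition `F`), such that for every edge `uv` and every other vertex `z` some region of `z`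
contains the corresponding regions of `u` and `v` strictly. -/
structure SSys {V : Type*} (H : SimpleGraph V) (F : Type*) where
  lab : V → F → Fin 3
  priv : V → F
  priv_inj : Function.Injective priv
  priv_lab : ∀ v, lab v (priv v) = 0
  /-- `lt i u z` : the `i`-th region of `u` is strictly contained in the `i`-th region of `z`;
  for `i = 0` the private face of `z` is not in the region of `u`. -/
  lt : Fin 3 → V → V → Prop
  lt_sub : ∀ i u z, lt i u z → ∀ f, lab u f = i → lab z f = i
  lt_priv : ∀ u z, lt 0 u z → lab u (priv z) ≠ 0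
  lt_strict : ∀ i u z, lt i u z → ∃ f, lab z f = i ∧ lab u f ≠ i
  comp : ∀ u z, u ≠ z → ∃ i, lt i u z
  p3 : ∀ u v, H.Adj u v → ∀ z, z ≠ u → z ≠ v → ∃ i, lt i u z ∧ lt i v z
  /-- every edge has a type `i` and an orientation `v → p`: the `i`-th region of the tail `v` is
  contained in that of the head `p`, and the two other regions of `p` in those of `v`. -/
  typ : ∀ u v, H.Adj u v → ∃ i,
    ((∀ f, lab u f = i → lab v f = i) ∧ ∀ j, j ≠ i → ∀ f, lab v f = j → lab u f = j) ∨
    ((∀ f, lab v f = i → lab u f = i) ∧ ∀ j, j ≠ i → ∀ f, lab u f = j → lab v f = j)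

/-- The three-functions condition: `P` for order 0, an abstract relation for order 1, `Q` for
order 2. -/
structure P3Fun {V : Type*} (H : SimpleGraph V) (P Q : V → ℕ) (lt1 : V → V → Prop) : Prop where
  inj : ∀ u z, u ≠ z → (P u, Q u) ≠ (P z, Q z)
  anti : ∀ u z, lt1 u z → ¬ lt1 z u
  p3 : ∀ u v, H.Adj u v → ∀ z, z ≠ u → z ≠ v →
    (P u < P z ∧ P v < P z) ∨ (lt1 u z ∧ lt1 v z) ∨ (Q u < Q z ∧ Q v < Q z)

/-! ## Plane geometry -/

/-- orientation determinant: positive iff `a, b, c` is counterclockwise -/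
def orient (a b c : Pt) : ℝ := (b.1 - a.1) * (c.2 - a.2) - (b.2 - a.2) * (c.1 - a.1)

/-- the open segments `ab` and `cd` cross properly -/
def Cross (a b c d : Pt) : Prop :=
  orient a b c * orient a b d < 0 ∧ orient c d a * orient c d b < 0

/-- general position: distinct first coordinates, no three points on a line -/
structure GenPos {V : Type*} (pt : V → Pt) : Prop where
  x_ne : ∀ a b, a ≠ b → (pt a).1 ≠ (pt b).1
  not_col : ∀ a b c, a ≠ b → a ≠ c → b ≠ c → orient (pt a) (pt b) (pt c) ≠ 0

/-- `A` is a crossing-free straight-line graph on the points `pt`, maximal under inclusion. -/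
structure MaxPlane {V : Type*} (pt : V → Pt) (A : V → V → Prop) : Prop where
  gen : GenPos pt
  symm : ∀ a b, A a b → A b a
  irrefl : ∀ a, ¬ A a a
  nocross : ∀ a b c d, A a b → A c d → ¬ Cross (pt a) (pt b) (pt c) (pt d)
  maximal : ∀ a b, a ≠ b → ¬ A a b → ∃ c d, A c d ∧ Cross (pt a) (pt b) (pt c) (pt d)

/-- all points other than `r1 r2 r3` are strictly inside the triangle `r1 r2 r3`, which has
horizontal order `r1 < ... < r2` and base `r1 r2` at the bottom. -/
structure InTri {V : Type*} (pt : V → Pt) (r1 r2 r3 : V) : Prop where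
  h12 : r1 ≠ r2
  h13 : r1 ≠ r3
  h23 : r2 ≠ r3
  left : ∀ w, w ≠ r1 → (pt r1).1 < (pt w).1
  right : ∀ w, w ≠ r2 → (pt w).1 < (pt r2).1
  base : ∀ w, w ≠ r1 → w ≠ r2 → 0 < orient (pt r1) (pt r2) (pt w)
  side2 : ∀ w, w ≠ r2 → w ≠ r3 → 0 < orient (pt r2) (pt r3) (pt w)
  side3 : ∀ w, w ≠ r3 → w ≠ r1 → 0 < orient (pt r3) (pt r1) (pt w)

/-! ## The stretched grid -/

/-- integer codes of a grid position `q` -/
def codeX (W : ℕ) (q : ℕ × ℕ) : ℕ := q.1 * (W + 1) + q.2
def codeY (W : ℕ) (q : ℕ × ℕ) : ℕ := q.2 * (W + 1) + q.1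

/-- the point of the stretched grid with coordinates `q = (X, Y)`, `X, Y ≤ W` -/
noncomputable def gpt (W : ℕ) (q : ℕ × ℕ) : Pt :=
  ((codeX W q : ℝ), ((4 * (W + 2) ^ 2 : ℕ) : ℝ) ^ codeY W q)

/-! ## The host edge set (pairs of grid points) -/

/-- `HostPair K N W (P, Q) (P', Q')`: the possible positions of head and tail of an edge, in the
coordinates `P` = rounded weight of region 0, `Q` = weight of region 2.
`(P, Q)` is the head and `(P', Q')` the tail. `L` and `L'` are powers of two. -/
def HostPair (K N W : ℕ) (p p' : ℕ × ℕ) : Prop :=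
  p.1 ≤ W ∧ p.2 ≤ W ∧ p'.1 ≤ W ∧ p'.2 ≤ W ∧
  ∃ j j' r r' α β : ℕ, 2 ^ j ∣ p.1 ∧ 2 ^ j' ∣ p'.1 ∧ r < 2 ^ j ∧ r' < 2 ^ j' ∧
    2 ^ j ≤ 2 * W + 2 ∧ 2 ^ j' ≤ 2 * W + 2 ∧
    α * β ≤ K * N * 2 ^ j ∧
    ((p.1 + r = p'.1 + r' + α + β ∧ p'.2 = p.2 + β) ∨
     (p'.1 + r' = p.1 + r + α ∧ p'.2 = p.2 + β) ∨
     (p'.1 + r' = p.1 + r + α ∧ p.2 = p'.2 + α + β))

end Pool.Agent.Univ
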