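import Pool.Agent.Univ.Defs

/-!
Module UG-1 of project UG (written by helper98): the stretched grid.
-/

set_option autoImplicit false

namespace Pool.Agent.Univ

/-! ### codes -/

theorem codeX_lt {W : ℕ} {q : ℕ × ℕ} (h1 : q.1 ≤ W) (h2 : q.2 ≤ W) :
    codeX W q < (W + 1) ^ 2 := by
  unfold codeX
  nlinarith

theorem codeX_inj {W : ℕ} {q q' : ℕ × ℕ} (h2 : q.2 ≤ W)
    (h2' : q'.2 ≤ W) (h : codeX W q = codeX W q') : q = q' := by
  unfold codeX at h
  have e1 : q.1 = q'.1 := by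
    rcases lt_trichotomy q.1 q'.1 with hl | hl | hl
    · exfalso
      nlinarith
    · exact hl
    · exfalso
      nlinarith
  rw [e1] at h
  exact Prod.ext e1 (by omega)

theorem codeY_inj {W : ℕ} {q q' : ℕ × ℕ} (h1 : q.1 ≤ W)
    (h1' : q'.1 ≤ W) (h : codeY W q = codeY W q') : q = q' := by
  unfold codeY at h
  have e1 : q.2 = q'.2 := by
    rcases lt_trichotomy q.2 q'.2 with hl | hl | hl
    · exfalso
      nlinarith
    · exact hl
    · exfalso
      nlinarith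
  rw [e1] at h
  exact Prod.ext (by omega) e1

theorem codeX_lt_of {W : ℕ} {q q' : ℕ × ℕ} (h2 : q.2 ≤ W) (h : q.1 < q'.1) :
    codeX W q < codeX W q' := by
  unfold codeX
  nlinarith

theorem codeY_lt_of {W : ℕ} {q q' : ℕ × ℕ} (h1 : q.1 ≤ W) (h : q.2 < q'.2) :
    codeY W q < codeY W q' := by
  unfold codeY
  nlinarith

/-! ### the orientation of grid points -/

theorem orient_pos_aux {N B xa xb xc ya yb yc : ℝ} (hxa : 0 ≤ xa) (hxa' : xa ≤ N)
    (hxc : 0 ≤ xc) (hxc' : xc ≤ N) (hab : xa + 1 ≤ xb) (hya : 0 < ya) (hyb : 0 < yb)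
    (hB : N + 2 ≤ B) (h1 : B * ya ≤ yc) (h2 : B * yb ≤ yc) :
    0 < (xb - xa) * (yc - ya) - (yb - ya) * (xc - xa) := by
  set m : ℝ := max ya yb with hm
  have hma : ya ≤ m := le_max_left _ _
  have hmb : yb ≤ m := le_max_right _ _
  have hm0 : 0 < m := lt_of_lt_of_le hya hma
  have hN : 0 ≤ N := hxa.trans hxa'
  have hBm : B * m ≤ yc := by
    rcases max_cases ya yb with ⟨h, _⟩ | ⟨h, _⟩
    · rw [hm, h]
      exact h1
    · rw [hm, h]
      exact h2
  have h3 : (N + 2) * m ≤ yc := (mul_le_mul_of_nonneg_right hB hm0.le).trans hBm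
  have h4 : 0 ≤ yc - ya := by nlinarith
  have h5 : yc - ya ≤ (xb - xa) * (yc - ya) := by nlinarith
  have h6 : (yb - ya) * (xc - xa) ≤ m * N := by
    have h7 : |yb - ya| ≤ m := abs_le.2 ⟨by linarith, by linarith⟩
    have h8 : |xc - xa| ≤ N := abs_le.2 ⟨by linarith, by linarith⟩
    calc (yb - ya) * (xc - xa) ≤ |(yb - ya) * (xc - xa)| := le_abs_self _
      _ = |yb - ya| * |xc - xa| := abs_mul _ _
      _ ≤ m * N := mul_le_mul h7 h8 (abs_nonneg _) hm0.le
  nlinarith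

theorem base_pos (W : ℕ) : (1 : ℝ) ≤ ((4 * (W + 2) ^ 2 : ℕ) : ℝ) := by
  have h : 1 ≤ (W + 2) ^ 2 := Nat.one_le_pow _ _ (by omega)
  exact_mod_cast (by omega : 1 ≤ 4 * (W + 2) ^ 2)

theorem gpt_snd_pos (W : ℕ) (q : ℕ × ℕ) : 0 < (gpt W q).2 := by
  unfold gpt
  have := base_pos W
  positivity

theorem gpt_snd_mul {W : ℕ} {q q' : ℕ × ℕ} (h : codeY W q < codeY W q') :
    ((4 * (W + 2) ^ 2 : ℕ) : ℝ) * (gpt W q).2 ≤ (gpt W q').2 := by
  unfold gpt
  simp only
  rw [← pow_succ']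
  exact pow_le_pow_right₀ (base_pos W) h

theorem gpt_snd_lt {W : ℕ} {q q' : ℕ × ℕ} (h : codeY W q < codeY W q') :
    (gpt W q).2 < (gpt W q').2 := by
  unfold gpt
  simp only
  refine pow_lt_pow_right₀ ?_ h
  have h : 1 ≤ (W + 2) ^ 2 := Nat.one_le_pow _ _ (by omega)
  exact_mod_cast (by omega : 1 < 4 * (W + 2) ^ 2)

theorem gpt_fst_lt {W : ℕ} {q q' : ℕ × ℕ} (h : codeX W q < codeX W q') :
    (gpt W q).1 < (gpt W q').1 := by
  unfold gpt
  simp only
  exact_mod_cast h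

/-- the highest of three grid points sees the two others in their horizontal order -/
theorem orient_top {W : ℕ} {a b c : ℕ × ℕ} (ha1 : a.1 ≤ W) (ha2 : a.2 ≤ W)
    (hc1 : c.1 ≤ W) (hc2 : c.2 ≤ W) (hab : codeX W a < codeX W b) (hac : codeY W a < codeY W c)
    (hbc : codeY W b < codeY W c) : 0 < orient (gpt W a) (gpt W b) (gpt W c) := by
  unfold orient
  have hXa := codeX_lt ha1 ha2
  have hXc := codeX_lt hc1 hc2
  refine orient_pos_aux (N := ((W + 1) ^ 2 : ℕ)) (B := ((4 * (W + 2) ^ 2 : ℕ) : ℝ)) ?_ ?_ ?_ ?_ ?_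
    (gpt_snd_pos W a) (gpt_snd_pos W b) ?_ (gpt_snd_mul hac) (gpt_snd_mul hbc)
  · exact Nat.cast_nonneg _
  · unfold gpt
    simp only
    exact_mod_cast hXa.le
  · exact Nat.cast_nonneg _
  · unfold gpt
    simp only
    exact_mod_cast hXc.le
  · unfold gpt
    simp only
    exact_mod_cast hab
  · exact_mod_cast (by nlinarith : (W + 1) ^ 2 + 2 ≤ 4 * (W + 2) ^ 2)

theorem orient_swap (a b c : Pt) : orient b a c = - orient a b c := by
  unfold orient
  ring

theorem orient_cycle (a b c : Pt) : orient b c a = orient a b c := by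
  unfold orient
  ring

/-- orientation does not vanish if `c` is the highest point -/
theorem orient_ne_top {W : ℕ} {a b c : ℕ × ℕ} (ha1 : a.1 ≤ W) (ha2 : a.2 ≤ W)
    (hb1 : b.1 ≤ W) (hb2 : b.2 ≤ W) (hc1 : c.1 ≤ W) (hc2 : c.2 ≤ W)
    (hab : a ≠ b) (hac : codeY W a < codeY W c)
    (hbc : codeY W b < codeY W c) : orient (gpt W a) (gpt W b) (gpt W c) ≠ 0 := by
  rcases lt_trichotomy (codeX W a) (codeX W b) with h | h | h
  · exact (orient_top ha1 ha2 hc1 hc2 h hac hbc).ne'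
  · exact absurd (codeX_inj ha2 hb2 h) hab
  · have h1 := orient_top hb1 hb2 hc1 hc2 h hbc hac
    rw [orient_swap] at h1
    intro h2
    rw [h2] at h1
    simp at h1

theorem orient_ne {W : ℕ} {a b c : ℕ × ℕ} (ha1 : a.1 ≤ W) (ha2 : a.2 ≤ W)
    (hb1 : b.1 ≤ W) (hb2 : b.2 ≤ W) (hc1 : c.1 ≤ W) (hc2 : c.2 ≤ W)
    (hab : a ≠ b) (hac : a ≠ c) (hbc : b ≠ c) : orient (gpt W a) (gpt W b) (gpt W c) ≠ 0 := by
  have e1 : codeY W a ≠ codeY W b := fun h => hab (codeY_inj ha1 hb1 h)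
  have e2 : codeY W a ≠ codeY W c := fun h => hac (codeY_inj ha1 hc1 h)
  have e3 : codeY W b ≠ codeY W c := fun h => hbc (codeY_inj hb1 hc1 h)
  by_cases hc : codeY W a < codeY W c ∧ codeY W b < codeY W c
  · exact orient_ne_top ha1 ha2 hb1 hb2 hc1 hc2 hab hc.1 hc.2
  · by_cases ha : codeY W b < codeY W a ∧ codeY W c < codeY W a
    · rw [← orient_cycle]
      exact orient_ne_top hb1 hb2 hc1 hc2 ha1 ha2 hbc ha.1 ha.2
    · have hb : codeY W c < codeY W b ∧ codeY W a < codeY W b := by omega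
      rw [← orient_cycle, ← orient_cycle]
      exact orient_ne_top hc1 hc2 ha1 ha2 hb1 hb2 hac.symm hb.1 hb.2

theorem gpt_inj (W : ℕ) (q q' : ℕ × ℕ) (h1 : q.1 ≤ W) (h2 : q.2 ≤ W) (h1' : q'.1 ≤ W)
    (h2' : q'.2 ≤ W) (h : gpt W q = gpt W q') : q = q' := by
  have h3 : (gpt W q).1 = (gpt W q').1 := by rw [h]
  unfold gpt at h3
  simp only at h3
  exact codeX_inj h2 h2' (by exact_mod_cast h3)

/-! ### segments -/

theorem orient_of_mem {a b x : Pt} (h : x ∈ segment ℝ a b) : orient a b x = 0 := by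
  obtain ⟨s, t, hs, ht, hst, rfl⟩ := h
  have hs' : s = 1 - t := by linarith
  subst hs'
  unfold orient
  simp only [Prod.fst_add, Prod.snd_add, Prod.smul_fst, Prod.smul_snd, smul_eq_mul]
  ring

theorem orient_of_mem' {a b c d x : Pt} (h : x ∈ segment ℝ c d) (hc : orient a b c < 0)
    (hd : orient a b d < 0) : orient a b x < 0 := by
  obtain ⟨s, t, hs, ht, hst, rfl⟩ := h
  have hs' : s = 1 - t := by linarith
  subst hs'
  have e : orient a b ((1 - t) • c + t • d) = (1 - t) * orient a b c + t * orient a b d := by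
    unfold orient
    simp only [Prod.fst_add, Prod.snd_add, Prod.smul_fst, Prod.smul_snd, smul_eq_mul]
    ring
  rw [e]
  rcases ht.eq_or_lt with h0 | h0
  · rw [← h0]
    simpa using hc
  · nlinarith

theorem not_both {a b c d x : Pt} (h1 : x ∈ segment ℝ a b) (h2 : x ∈ segment ℝ c d)
    (hc : orient a b c < 0) (hd : orient a b d < 0) : False := by
  have := orient_of_mem' h2 hc hd
  rw [orient_of_mem h1] at this
  exact lt_irrefl _ this

theorem not_both_fst {a b c d x : Pt} (h1 : x ∈ segment ℝ a b) (h2 : x ∈ segment ℝ c d)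
    (h11 : c.1 < a.1) (h12 : d.1 < a.1) (h21 : c.1 < b.1) (h22 : d.1 < b.1) : False := by
  obtain ⟨s, t, hs, ht, hst, rfl⟩ := h1
  obtain ⟨s', t', hs', ht', hst', he⟩ := h2
  have h3 := congrArg Prod.fst he
  simp only [Prod.fst_add, Prod.smul_fst, smul_eq_mul] at h3
  have e1 : s = 1 - t := by linarith
  have e2 : s' = 1 - t' := by linarith
  subst e1
  subst e2
  have h4 : (1 - t') * c.1 + t' * d.1 < a.1 := by
    rcases ht'.eq_or_lt with h0 | h0
    · rw [← h0]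
      simpa using h11
    · nlinarith
  have h5 : (1 - t') * c.1 + t' * d.1 < b.1 := by
    rcases ht'.eq_or_lt with h0 | h0
    · rw [← h0]
      simpa using h21
    · nlinarith
  rw [h3] at h4 h5
  rcases ht.eq_or_lt with h0 | h0
  · rw [← h0] at h4
    simp at h4
  · nlinarith

theorem not_both_snd {a b c d x : Pt} (h1 : x ∈ segment ℝ a b) (h2 : x ∈ segment ℝ c d)
    (h11 : c.2 < a.2) (h12 : d.2 < a.2) (h21 : c.2 < b.2) (h22 : d.2 < b.2) : False := by
  obtain ⟨s, t, hs, ht, hst, rfl⟩ := h1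
  obtain ⟨s', t', hs', ht', hst', he⟩ := h2
  have h3 := congrArg Prod.snd he
  simp only [Prod.snd_add, Prod.smul_snd, smul_eq_mul] at h3
  have e1 : s = 1 - t := by linarith
  have e2 : s' = 1 - t' := by linarith
  subst e1
  subst e2
  have h4 : (1 - t') * c.2 + t' * d.2 < a.2 := by
    rcases ht'.eq_or_lt with h0 | h0
    · rw [← h0]
      simpa using h11
    · nlinarith
  have h5 : (1 - t') * c.2 + t' * d.2 < b.2 := by
    rcases ht'.eq_or_lt with h0 | h0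
    · rw [← h0]
      simpa using h21
    · nlinarith
  rw [h3] at h4 h5
  rcases ht.eq_or_lt with h0 | h0
  · rw [← h0] at h4
    simp at h4
  · nlinarith

/-- no three grid points are collinear -/
theorem gpt_col (W : ℕ) (q q' q'' : ℕ × ℕ) (h1 : q.1 ≤ W) (h2 : q.2 ≤ W) (h1' : q'.1 ≤ W)
    (h2' : q'.2 ≤ W) (h1'' : q''.1 ≤ W) (h2'' : q''.2 ≤ W) (ha : q ≠ q') (hb : q ≠ q'')
    (hc : q' ≠ q'') : gpt W q'' ∉ segment ℝ (gpt W q) (gpt W q') :=
  fun h => orient_ne h1 h2 h1' h2' h1'' h2'' ha hb hc (orient_of_mem h)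

/-- two segments with a common end point which are not on a line meet only there -/
theorem common_end {a b c x : Pt} (h1 : x ∈ segment ℝ a b) (h2 : x ∈ segment ℝ a c)
    (h : orient a b c ≠ 0) : x = a := by
  obtain ⟨s, t, hs, ht, hst, rfl⟩ := h1
  obtain ⟨s', t', hs', ht', hst', he⟩ := h2
  have e1 : s = 1 - t := by linarith
  have e2 : s' = 1 - t' := by linarith
  subst e1
  subst e2
  have h3 := congrArg Prod.fst he
  have h4 := congrArg Prod.snd he
  simp only [Prod.fst_add, Prod.smul_fst, Prod.snd_add, Prod.smul_snd, smul_eq_mul] at h3 h4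
  have h5 : t * orient a b c = 0 := by
    unfold orient
    linear_combination (a.2 - c.2) * h3 + (c.1 - a.1) * h4
  rcases mul_eq_zero.1 h5 with h6 | h6
  · rw [h6]
    simp
  · exact absurd h6 h

/-! ### crossing-free drawings -/

section cross

variable {V : Type*} (P Q : V → ℕ) (W : ℕ)

/-- the grid position of a vertex -/
def gq (v : V) : ℕ × ℕ := (W - P v, Q v)

variable {P Q W}

theorem gq_fst (v : V) : (gq P Q W v).1 ≤ W := Nat.sub_le _ _

theorem left_of (hP : ∀ v, P v ≤ W) (hQ : ∀ v, Q v ≤ W) {u z : V} (h : P u < P z) :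
    codeX W (gq P Q W z) < codeX W (gq P Q W u) := by
  apply codeX_lt_of (hQ z)
  have := hP z
  simp only [gq]
  omega

theorem above_of {u z : V} (h : Q u < Q z) :
    codeY W (gq P Q W u) < codeY W (gq P Q W z) := by
  apply codeY_lt_of (gq_fst u)
  exact h

/-- the mixed case: `u` is left of the other edge, `v` above it -/
theorem mixed (hP : ∀ v, P v ≤ W) (hQ : ∀ v, Q v ≤ W) {u v u' v' : V}
    (h1 : P u' < P u) (h2 : P v' < P u) (h3 : Q u' < Q v) (h4 : Q v' < Q v) {x : Pt}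
    (hx : x ∈ segment ℝ (gpt W (gq P Q W u)) (gpt W (gq P Q W v)))
    (hx' : x ∈ segment ℝ (gpt W (gq P Q W u')) (gpt W (gq P Q W v'))) : False := by
  have a1 := left_of (Q := Q) hP hQ h1
  have a2 := left_of (Q := Q) hP hQ h2
  have a3 := above_of (P := P) (W := W) h3
  have a4 := above_of (P := P) (W := W) h4
  by_cases hlt : codeY W (gq P Q W u) < codeY W (gq P Q W v)
  · have o1 := orient_top (gq_fst u) (hQ u) (gq_fst v) (hQ v) a1 hlt a3
    have o2 := orient_top (gq_fst u) (hQ u) (gq_fst v) (hQ v) a2 hlt a4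
    refine not_both hx hx' ?_ ?_
    · rw [← orient_cycle, ← orient_cycle, orient_swap]
      linarith
    · rw [← orient_cycle, ← orient_cycle, orient_swap]
      linarith
  · rw [not_lt] at hlt
    exact not_both_snd hx hx' (gpt_snd_lt (lt_of_lt_of_le a3 hlt))
      (gpt_snd_lt (lt_of_lt_of_le a4 hlt)) (gpt_snd_lt a3) (gpt_snd_lt a4)

/-- disjoint edges do not meet: the case when the pair of indices of `u'`, `v'` over `uv` are
equal. `L i u z` is the `i`-th relation. -/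
theorem disjoint_aux (hP : ∀ v, P v ≤ W) (hQ : ∀ v, Q v ≤ W) (lt1 : V → V → Prop)
    (anti : ∀ u z, lt1 u z → ¬ lt1 z u) {u v u' v' : V}
    (hi : (P u < P u' ∧ P v < P u') ∧ (P u < P v' ∧ P v < P v') ∨
      (lt1 u u' ∧ lt1 v u') ∧ (lt1 u v' ∧ lt1 v v') ∨
      (Q u < Q u' ∧ Q v < Q u') ∧ (Q u < Q v' ∧ Q v < Q v'))
    (hj1 : (P u' < P u ∧ P v' < P u) ∨ (lt1 u' u ∧ lt1 v' u) ∨ (Q u' < Q u ∧ Q v' < Q u))
    (hj2 : (P u' < P v ∧ P v' < P v) ∨ (lt1 u' v ∧ lt1 v' v) ∨ (Q u' < Q v ∧ Q v' < Q v))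
    {x : Pt}
    (hx : x ∈ segment ℝ (gpt W (gq P Q W u)) (gpt W (gq P Q W v)))
    (hx' : x ∈ segment ℝ (gpt W (gq P Q W u')) (gpt W (gq P Q W v'))) : False := by
  have L : ∀ {a b : V}, P a < P b → (gpt W (gq P Q W b)).1 < (gpt W (gq P Q W a)).1 :=
    fun h => gpt_fst_lt (left_of hP hQ h)
  have U : ∀ {a b : V}, Q a < Q b → (gpt W (gq P Q W a)).2 < (gpt W (gq P Q W b)).2 :=
    fun h => gpt_snd_lt (above_of h)
  rcases hi with ⟨⟨a1, a2⟩, a3, a4⟩ | ⟨⟨a1, a2⟩, a3, a4⟩ | ⟨⟨a1, a2⟩, a3, a4⟩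
  · exact not_both_fst hx hx' (L a1) (L a3) (L a2) (L a4)
  · -- then `j1, j2` are not 1
    have hj1' : (P u' < P u ∧ P v' < P u) ∨ (Q u' < Q u ∧ Q v' < Q u) := by
      rcases hj1 with h | h | h
      · exact Or.inl h
      · exact absurd h.1 (anti _ _ a1)
      · exact Or.inr h
    have hj2' : (P u' < P v ∧ P v' < P v) ∨ (Q u' < Q v ∧ Q v' < Q v) := by
      rcases hj2 with h | h | h
      · exact Or.inl h
      · exact absurd h.1 (anti _ _ a2)
      · exact Or.inr h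
    rcases hj1' with ⟨b1, b2⟩ | ⟨b1, b2⟩ <;> rcases hj2' with ⟨c1, c2⟩ | ⟨c1, c2⟩
    · exact not_both_fst hx' hx (L b1) (L c1) (L b2) (L c2)
    · exact mixed hP hQ b1 b2 c1 c2 hx hx'
    · rw [segment_symm] at hx
      exact mixed hP hQ c1 c2 b1 b2 hx hx'
    · exact not_both_snd hx hx' (U b1) (U b2) (U c1) (U c2)
  · exact not_both_snd hx' hx (U a1) (U a2) (U a3) (U a4)

end cross

/-- the three-functions condition gives a crossing-free drawing on the stretched grid -/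
theorem gpt_cross {V : Type*} (H : SimpleGraph V) (P Q : V → ℕ) (lt1 : V → V → Prop) (W : ℕ)
    (hP : ∀ v, P v ≤ W) (hQ : ∀ v, Q v ≤ W) (h : P3Fun H P Q lt1) :
    ∀ u v u' v', H.Adj u v → H.Adj u' v' → s(u, v) ≠ s(u', v') →
    ∀ x, x ∈ segment ℝ (gpt W (W - P u, Q u)) (gpt W (W - P v, Q v)) →
      x ∈ segment ℝ (gpt W (W - P u', Q u')) (gpt W (W - P v', Q v')) →
      ∃ w, w ∈ s(u, v) ∧ w ∈ s(u', v') ∧ x = gpt W (W - P w, Q w) := by
  have hinj : ∀ u z : V, u ≠ z → gq P Q W u ≠ gq P Q W z := by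
    intro u z huz he
    apply h.inj u z huz
    have h1 := congrArg Prod.fst he
    have h2 := congrArg Prod.snd he
    simp only [gq] at h1 h2
    have := hP u
    have := hP z
    exact Prod.ext (by simp only; omega) h2
  -- common end point
  have hcommon : ∀ a b c : V, a ≠ b → a ≠ c → b ≠ c → ∀ x,
      x ∈ segment ℝ (gpt W (gq P Q W a)) (gpt W (gq P Q W b)) →
      x ∈ segment ℝ (gpt W (gq P Q W a)) (gpt W (gq P Q W c)) → x = gpt W (gq P Q W a) := by
    intro a b c hab hac hbc x hx hx'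
    exact common_end hx hx' (orient_ne (gq_fst a) (hQ a) (gq_fst b) (hQ b) (gq_fst c) (hQ c)
      (hinj _ _ hab) (hinj _ _ hac) (hinj _ _ hbc))
  intro u v u' v' huv huv' hne x hx hx'
  change x ∈ segment ℝ (gpt W (gq P Q W u)) (gpt W (gq P Q W v)) at hx
  change x ∈ segment ℝ (gpt W (gq P Q W u')) (gpt W (gq P Q W v')) at hx'
  rw [Ne, Sym2.eq_iff, not_or, not_and, not_and] at hne
  by_cases h1 : u = u'
  · subst h1
    exact ⟨u, by simp, by simp, hcommon u v v' huv.ne huv'.ne (hne.1 rfl) x hx hx'⟩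
  by_cases h2 : u = v'
  · subst h2
    rw [segment_symm] at hx'
    exact ⟨u, by simp, by simp, hcommon u v u' huv.ne h1 (hne.2 rfl) x hx hx'⟩
  by_cases h3 : v = u'
  · subst h3
    rw [segment_symm] at hx
    exact ⟨v, by simp, by simp, hcommon v u v' huv.ne' huv'.ne h2 x hx hx'⟩
  by_cases h4 : v = v'
  · subst h4
    rw [segment_symm] at hx hx'
    exact ⟨v, by simp, by simp, hcommon v u u' huv.ne' h3 h1 x hx hx'⟩
  exfalso
  have i1 := h.p3 u v huv u' (Ne.symm h1) (Ne.symm h3)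
  have i2 := h.p3 u v huv v' (Ne.symm h2) (Ne.symm h4)
  have j1 := h.p3 u' v' huv' u h1 h2
  have j2 := h.p3 u' v' huv' v h3 h4
  -- either the indices `i1, i2` agree or `j1, j2` agree
  by_cases hi : (P u < P u' ∧ P v < P u') ∧ (P u < P v' ∧ P v < P v') ∨
      (lt1 u u' ∧ lt1 v u') ∧ (lt1 u v' ∧ lt1 v v') ∨
      (Q u < Q u' ∧ Q v < Q u') ∧ (Q u < Q v' ∧ Q v < Q v')
  · exact disjoint_aux hP hQ lt1 h.anti hi j1 j2 hx hx'
  by_cases hj : (P u' < P u ∧ P v' < P u) ∧ (P u' < P v ∧ P v' < P v) ∨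
      (lt1 u' u ∧ lt1 v' u) ∧ (lt1 u' v ∧ lt1 v' v) ∨
      (Q u' < Q u ∧ Q v' < Q u) ∧ (Q u' < Q v ∧ Q v' < Q v)
  · exact disjoint_aux hP hQ lt1 h.anti hj i1 i2 hx' hx
  have an : ∀ a b : V, lt1 a b → lt1 b a → False := fun a b h1 h2 => h.anti a b h1 h2
  rcases i1 with ⟨a1, a2⟩ | ⟨a1, a2⟩ | ⟨a1, a2⟩ <;> rcases i2 with ⟨b1, b2⟩ | ⟨b1, b2⟩ | ⟨b1, b2⟩ <;>
    rcases j1 with ⟨c1, c2⟩ | ⟨c1, c2⟩ | ⟨c1, c2⟩ <;>
    rcases j2 with ⟨d1, d2⟩ | ⟨d1, d2⟩ | ⟨d1, d2⟩ <;>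
    first
    | omega
    | exact an _ _ a1 c1
    | exact an _ _ b1 c2
    | exact an _ _ a2 d1
    | exact an _ _ b2 d2
    | exact hi (Or.inl ⟨⟨a1, a2⟩, b1, b2⟩)
    | exact hi (Or.inr (Or.inl ⟨⟨a1, a2⟩, b1, b2⟩))
    | exact hi (Or.inr (Or.inr ⟨⟨a1, a2⟩, b1, b2⟩))
    | exact hj (Or.inl ⟨⟨c1, c2⟩, d1, d2⟩)
    | exact hj (Or.inr (Or.inl ⟨⟨c1, c2⟩, d1, d2⟩))

end Pool.Agent.Univ
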